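import Pool.Agent.WInv.Defs

/-!
# Module Q5: Cassels-Pfister for `c + b X ^ 2` over `F(X)` (MP_2fcb4d_al)
-/

set_option autoImplicit false

namespace WInv

open Polynomial

variable {F : Type*} [Field F] {ι : Type*} [Fintype ι]

namespace CP

/-- The form over `F[X]`. -/
noncomputable def W (w : ι → F) (f : ι → F[X]) : F[X] := ∑ i, C (w i) * f i ^ 2

/-- A uniform degree bound. -/
noncomputable def N (f : ι → F[X]) : ℕ := Finset.univ.sup (fun i => (f i).natDegree)

theorem natDegree_le_N (f : ι → F[X]) (i : ι) : (f i).natDegree ≤ N f :=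
  Finset.le_sup (f := fun i => (f i).natDegree) (Finset.mem_univ i)

theorem W_coeff (w : ι → F) (f : ι → F[X]) (n : ℕ) (hn : ∀ i, (f i).natDegree ≤ n) :
    (W w f).coeff (2 * n) = dq w (fun i => (f i).coeff n) := by
  unfold W dq
  rw [finsetSum_coeff]
  apply Finset.sum_congr rfl
  intro i _
  rw [coeff_C_mul, coeff_pow_of_natDegree_le (hn i)]

theorem aniso_poly {w : ι → F} (ha : Aniso w) (f : ι → F[X])
    (h : ∀ n, N f ≤ n → 0 < n → (W w f).coeff (2 * n) = 0) : N f = 0 := by
  by_contra hN
  have hpos : 0 < N f := Nat.pos_of_ne_zero hN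
  have h1 := h (N f) le_rfl hpos
  rw [W_coeff w f _ (natDegree_le_N f)] at h1
  have h2 := ha _ h1
  have hne : (Finset.univ : Finset ι).Nonempty := by
    by_contra hemp
    rw [Finset.not_nonempty_iff_eq_empty] at hemp
    apply hN
    simp [N, hemp]
  obtain ⟨i, _, hi⟩ := Finset.exists_mem_eq_sup Finset.univ hne (fun i => (f i).natDegree)
  have h3 : (f i).natDegree = N f := hi.symm
  have h4 := congrFun h2 i
  simp only [Pi.zero_apply] at h4
  rw [← h3] at h4
  have h5 : f i = 0 := leadingCoeff_eq_zero.1 h4
  rw [h5, natDegree_zero] at h3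
  exact hN h3.symm

theorem W_eq_zero {w : ι → F} (ha : Aniso w) (f : ι → F[X]) (h : W w f = 0) : f = 0 := by
  have h0 : N f = 0 := aniso_poly ha f (fun n _ _ => by rw [h, coeff_zero])
  have h1 := W_coeff w f 0 (fun i => by rw [← h0]; exact natDegree_le_N f i)
  rw [h, coeff_zero] at h1
  have h2 := ha _ h1.symm
  funext i
  have h3 : (f i).natDegree = 0 := Nat.le_zero.1 (by rw [← h0]; exact natDegree_le_N f i)
  rw [eq_C_of_natDegree_eq_zero h3]
  have h4 := congrFun h2 i
  simp only [Pi.zero_apply] at h4
  simp [h4]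

theorem clear_denoms (x : ι → RatFunc F) : ∃ (g : F[X]) (f : ι → F[X]), g ≠ 0 ∧
    ∀ i, algebraMap F[X] (RatFunc F) (f i) = algebraMap F[X] (RatFunc F) g * x i := by
  obtain ⟨b, hb⟩ := IsLocalization.exist_integer_multiples_of_finite (nonZeroDivisors F[X]) x
  choose f hf using hb
  refine ⟨b, f, nonZeroDivisors.coe_ne_zero b, fun i => ?_⟩
  rw [hf i, Algebra.smul_def]

theorem dq_map (w : ι → F) (f : ι → F[X]) :
    dq (fun i => algebraMap F (RatFunc F) (w i)) (fun i => algebraMap F[X] (RatFunc F) (f i)) =
      algebraMap F[X] (RatFunc F) (W w f) := by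
  unfold dq W
  rw [map_sum]
  apply Finset.sum_congr rfl
  intro i _
  dsimp only
  rw [map_mul, map_pow, IsScalarTower.algebraMap_apply F F[X] (RatFunc F)]
  rfl

/-- Cassels' descent. -/
theorem descent {w : ι → F} (ha : Aniso w) (p : F[X]) (n : ℕ) :
    ∀ (f : ι → F[X]) (g : F[X]), g ≠ 0 → g.natDegree ≤ n → W w f = p * g ^ 2 →
      ∃ f' : ι → F[X], W w f' = p := by
  induction n with
  | zero =>
    intro f g hg hn h
    obtain ⟨u, hu⟩ : ∃ u : F, g = C u := ⟨g.coeff 0, eq_C_of_natDegree_le_zero hn⟩
    have hu0 : u ≠ 0 := by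
      rintro rfl
      exact hg (by rw [hu, C_0])
    refine ⟨fun i => C u⁻¹ * f i, ?_⟩
    have h1 : W w (fun i => C u⁻¹ * f i) = C (u⁻¹) ^ 2 * W w f := by
      unfold W
      rw [Finset.mul_sum]
      apply Finset.sum_congr rfl
      intro i _
      ring
    rw [h1, h, hu]
    have h2 : C u⁻¹ * C u = (1 : F[X]) := by rw [← C_mul, inv_mul_cancel₀ hu0, C_1]
    calc C u⁻¹ ^ 2 * (p * C u ^ 2) = p * (C u⁻¹ * C u) ^ 2 := by ring
      _ = p := by rw [h2]; ring
  | succ n ih =>
    intro f g hg hn h
    rcases Nat.lt_or_ge n g.natDegree with hlt | hle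
    swap
    · exact ih f g hg hle h
    set q : ι → F[X] := fun i => f i / g with hq
    set r : ι → F[X] := fun i => f i % g with hr
    have hfr : ∀ i, f i = g * q i + r i := fun i => (EuclideanDomain.div_add_mod (f i) g).symm
    by_cases hr0 : r = 0
    · refine ⟨q, ?_⟩
      have h1 : W w f = g ^ 2 * W w q := by
        unfold W
        rw [Finset.mul_sum]
        apply Finset.sum_congr rfl
        intro i _
        rw [hfr i, hr0, Pi.zero_apply]
        ring
      rw [h1, mul_comm p] at h
      exact mul_left_cancel₀ (pow_ne_zero 2 hg) h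
    · have hWr : W w r ≠ 0 := fun h0 => hr0 (W_eq_zero ha r h0)
      set B : F[X] := ∑ i, C (w i) * f i * q i with hB
      set a : F[X] := W w q - p with ha'
      set bb : F[X] := 2 * (p * g - B) with hbb
      have hmul : g * (a * g + bb) = W w r := by
        have h1 : W w r = W w f - 2 * g * B + g ^ 2 * W w q := by
          unfold W
          rw [hB, Finset.mul_sum, Finset.mul_sum, ← Finset.sum_sub_distrib,
            ← Finset.sum_add_distrib]
          apply Finset.sum_congr rfl
          intro i _
          have h2 : r i = f i - g * q i := by rw [hfr i]; ring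
          rw [h2]
          ring
        rw [h1, h, ha', hbb]
        ring
      have hg' : a * g + bb ≠ 0 := by
        intro h0
        rw [h0, mul_zero] at hmul
        exact hWr hmul.symm
      have hdeg : (a * g + bb).natDegree ≤ n := by
        have h1 : g.natDegree + (a * g + bb).natDegree = (W w r).natDegree := by
          rw [← hmul, natDegree_mul hg hg']
        have h2 : (W w r).natDegree ≤ 2 * (g.natDegree - 1) := by
          unfold W
          apply natDegree_sum_le_of_forall_le
          intro i _
          have hgd : 0 < g.natDegree := by omega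
          have h3 : (r i).natDegree ≤ g.natDegree - 1 := by
            have h4 : (r i).natDegree < g.natDegree := by
              apply natDegree_mod_lt
              omega
            omega
          calc (C (w i) * r i ^ 2).natDegree ≤ (r i ^ 2).natDegree := natDegree_C_mul_le _ _
            _ ≤ 2 * (r i).natDegree := natDegree_pow_le
            _ ≤ 2 * (g.natDegree - 1) := by omega
        omega
      refine ih (fun i => a * f i + bb * q i) (a * g + bb) hg' hdeg ?_
      have h1 : W w (fun i => a * f i + bb * q i) =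
          a ^ 2 * W w f + 2 * a * bb * B + bb ^ 2 * W w q := by
        unfold W
        rw [hB, Finset.mul_sum, Finset.mul_sum, Finset.mul_sum, ← Finset.sum_add_distrib,
          ← Finset.sum_add_distrib]
        apply Finset.sum_congr rfl
        intro i _
        ring
      rw [h1, h]
      have h2 : W w q = a + p := by rw [ha']; ring
      have h3 : 2 * B = 2 * p * g - bb := by rw [hbb]; ring
      rw [h2]
      linear_combination (a * bb) * h3

end CP

theorem aniso_ratFunc {w : ι → F} (ha : Aniso w) :
    Aniso (fun i => algebraMap F (RatFunc F) (w i)) := by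
  intro x hx
  obtain ⟨g, f, hg, hf⟩ := CP.clear_denoms x
  have h1 : dq (fun i => algebraMap F (RatFunc F) (w i))
      (fun i => algebraMap F[X] (RatFunc F) (f i)) = 0 := by
    have h2 : dq (fun i => algebraMap F (RatFunc F) (w i))
      (fun i => algebraMap F[X] (RatFunc F) (f i)) = (algebraMap F[X] (RatFunc F) g) ^ 2 *
        dq (fun i => algebraMap F (RatFunc F) (w i)) x := by
      unfold dq
      rw [Finset.mul_sum]
      apply Finset.sum_congr rfl
      intro i _
      dsimp only
      rw [hf i]
      ring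
    rw [h2, hx, mul_zero]
  rw [CP.dq_map] at h1
  have h3 : CP.W w f = 0 := (map_eq_zero_iff _ (IsFractionRing.injective F[X] (RatFunc F))).1 h1
  have h4 := CP.W_eq_zero ha f h3
  funext i
  have h5 := hf i
  rw [h4, Pi.zero_apply, map_zero] at h5
  have h6 : algebraMap F[X] (RatFunc F) g ≠ 0 := by
    rw [Ne, map_eq_zero_iff _ (IsFractionRing.injective F[X] (RatFunc F))]
    exact hg
  exact (mul_eq_zero.1 h5.symm).resolve_left h6

/-- If the anisotropic form `w` over `F` represents `c + b X ^ 2` over `F(X)` then there are vectors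
`f₀, f₁` over `F` with `w(f₀ + f₁ X) = c + b X ^ 2`. (`b = 0` is allowed: substitution.) -/
theorem cassels_pfister (h2 : (2 : F) ≠ 0) {w : ι → F} (ha : Aniso w) (c b : F)
    (x : ι → RatFunc F)
    (hx : dq (fun i => algebraMap F (RatFunc F) (w i)) x =
      algebraMap F (RatFunc F) c + algebraMap F (RatFunc F) b * RatFunc.X ^ 2) :
    ∃ f₀ f₁ : ι → F, dq w f₀ = c ∧ db w f₀ f₁ = 0 ∧ dq w f₁ = b := by
  obtain ⟨g, f, hg, hf⟩ := CP.clear_denoms x
  have h1 : dq (fun i => algebraMap F (RatFunc F) (w i))
      (fun i => algebraMap F[X] (RatFunc F) (f i)) =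
      algebraMap F[X] (RatFunc F) ((C c + C b * X ^ 2) * g ^ 2) := by
    have h2 : dq (fun i => algebraMap F (RatFunc F) (w i))
      (fun i => algebraMap F[X] (RatFunc F) (f i)) = (algebraMap F[X] (RatFunc F) g) ^ 2 *
        dq (fun i => algebraMap F (RatFunc F) (w i)) x := by
      unfold dq
      rw [Finset.mul_sum]
      apply Finset.sum_congr rfl
      intro i _
      dsimp only
      rw [hf i]
      ring
    rw [h2, hx]
    have e1 : ∀ u : F, algebraMap F (RatFunc F) u = algebraMap F[X] (RatFunc F) (C u) := by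
      intro u
      rw [IsScalarTower.algebraMap_apply F F[X] (RatFunc F)]
      rfl
    rw [e1, e1, ← RatFunc.algebraMap_X, ← map_pow, ← map_pow, ← map_mul, ← map_add, ← map_mul,
      mul_comm]
  rw [CP.dq_map] at h1
  have h3 : CP.W w f = (C c + C b * X ^ 2) * g ^ 2 := IsFractionRing.injective F[X] (RatFunc F) h1
  obtain ⟨f', hf'⟩ := CP.descent ha _ _ f g hg le_rfl h3
  have hN : ∀ i, (f' i).natDegree ≤ 1 := by
    by_contra hcon
    push Not at hcon
    obtain ⟨i, hi⟩ := hcon
    have hN2 : 1 < CP.N f' := lt_of_lt_of_le hi (CP.natDegree_le_N f' i)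
    have h4 := CP.W_coeff w f' _ (CP.natDegree_le_N f')
    have h5 : (CP.W w f').coeff (2 * CP.N f') = 0 := by
      rw [hf']
      apply coeff_eq_zero_of_natDegree_lt
      have : (C c + C b * X ^ 2 : F[X]).natDegree ≤ 2 := by compute_degree
      omega
    have h6 : CP.N f' = 0 := CP.aniso_poly ha f' (fun n hn hn0 => by
      rw [hf']
      apply coeff_eq_zero_of_natDegree_lt
      have : (C c + C b * X ^ 2 : F[X]).natDegree ≤ 2 := by compute_degree
      omega)
    omega
  have hlin : ∀ i, f' i = C ((f' i).coeff 1) * X + C ((f' i).coeff 0) := fun i =>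
    eq_X_add_C_of_natDegree_le_one (hN i)
  refine ⟨fun i => (f' i).coeff 0, fun i => (f' i).coeff 1, ?_, ?_, ?_⟩
  · have := congrArg (fun P => Polynomial.eval 0 P) hf'
    simp only [CP.W, eval_finsetSum, eval_pow, eval_add, eval_mul, eval_C, eval_X] at this
    simp only [dq, coeff_zero_eq_eval_zero]
    simpa using this
  · have := congrArg (fun P => Polynomial.coeff P 1) hf'
    have h4 : (C c + C b * X ^ 2 : F[X]).coeff 1 = 0 := by
      simp
    simp only [h4] at this
    have h5 : (CP.W w f').coeff 1 = 2 * db w (fun i => (f' i).coeff 0)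
        (fun i => (f' i).coeff 1) := by
      unfold CP.W db
      rw [finsetSum_coeff, Finset.mul_sum]
      apply Finset.sum_congr rfl
      intro i _
      rw [coeff_C_mul]
      have h6 : (f' i) ^ 2 = C ((f' i).coeff 1 ^ 2) * X ^ 2 +
          C (2 * (f' i).coeff 1 * (f' i).coeff 0) * X + C ((f' i).coeff 0 ^ 2) := by
        conv_lhs => rw [hlin i]
        simp only [C_mul, C_pow, map_ofNat]
        ring
      rw [h6, coeff_add, coeff_add, coeff_C_mul, coeff_C_mul, coeff_X_pow, coeff_X_one,
        coeff_C_of_ne_zero one_ne_zero]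
      simp
      ring
    rw [h5] at this
    exact (mul_eq_zero.1 this).resolve_left h2
  · have h4 := CP.W_coeff w f' 1 hN
    rw [hf'] at h4
    rw [← h4]
    simp

end WInv
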