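import Pool.Agent.WInv.RealBasics

/-!
# Module B2: odd degree extensions (MP_2fcb4d_al)
-/

set_option autoImplicit false

namespace WInv

open Polynomial

universe u v

/-- A polynomial of odd degree has an irreducible factor of odd degree. -/
theorem OddExt.exists_odd_factor {L : Type u} [Field L] (q : L[X]) (hodd : Odd q.natDegree) :
    ∃ p : L[X], Irreducible p ∧ p ∣ q ∧ Odd p.natDegree := by
  induction q using WfDvdMonoid.induction_on_irreducible with
  | zero => simp at hodd
  | unit u hu =>
    rw [natDegree_eq_zero_of_isUnit hu] at hodd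
    simp at hodd
  | mul a i ha hi ih =>
    by_cases h : Odd i.natDegree
    · exact ⟨i, hi, dvd_mul_right _ _, h⟩
    · have h1 : Odd a.natDegree := by
        rw [natDegree_mul hi.ne_zero ha] at hodd
        rw [Nat.not_odd_iff_even] at h
        rcases Nat.even_or_odd a.natDegree with h2 | h2
        · exact absurd (h.add h2) (Nat.not_even_iff_odd.2 hodd)
        · exact h2
      obtain ⟨p, hp, hpd, hpo⟩ := ih h1
      exact ⟨p, hp, hpd.trans (dvd_mul_left _ _), hpo⟩

/-- No irreducible polynomial of odd degree divides `1 + ∑ s_i ^ 2`. -/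
theorem OddExt.not_dvd {L : Type u} [Field L] (h : FR L) (n : ℕ) :
    ∀ f : L[X], Irreducible f → f.natDegree = n → Odd n → ∀ (m : ℕ) (s : Fin m → L[X]),
      ¬ f ∣ 1 + ∑ i, s i ^ 2 := by
  induction n using Nat.strong_induction_on with
  | _ n ih =>
    intro f hf hfn hn m s hdvd
    have hfu : ¬ IsUnit f := hf.not_isUnit
    have hf0 : f ≠ 0 := hf.ne_zero
    have hdvd' : f ∣ 1 + ∑ i, (s i % f) ^ 2 := by
      have h1 : ∀ i, f ∣ (s i) ^ 2 - (s i % f) ^ 2 := by
        intro i
        have h2 : f ∣ s i - s i % f := by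
          have := EuclideanDomain.div_add_mod (s i) f
          refine ⟨s i / f, ?_⟩
          linear_combination (-1 : L[X]) * this
        have h3 : (s i) ^ 2 - (s i % f) ^ 2 = (s i - s i % f) * (s i + s i % f) := by ring
        rw [h3]
        exact h2.mul_right _
      have h2 : f ∣ ∑ i, ((s i) ^ 2 - (s i % f) ^ 2) := Finset.dvd_sum (fun i _ => h1 i)
      rw [Finset.sum_sub_distrib] at h2
      have h3 := dvd_sub hdvd h2
      convert h3 using 1
      ring
    set g : L[X] := 1 + ∑ i, (s i % f) ^ 2 with hg
    have hFR : FR L[X] := h.polynomial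
    have hsos : SoS g := by
      rw [hg]
      have h1 : (1 : L[X]) = 1 ^ 2 := by ring
      rw [h1]
      exact (SoS.sq 1).add ⟨m, fun i => s i % f, rfl⟩
    have hg0 : g ≠ 0 := by
      intro h0
      have h1 : SoS (1 : L[X]) := by
        have := SoS.sq (1 : L[X])
        rwa [one_pow] at this
      have := hFR.eq_zero_of_add h1 ⟨m, fun i => s i % f, rfl⟩ h0
      exact one_ne_zero this.1
    have hgeven := (hsos.leadingCoeff h).2
    have hnpos : 0 < n := hn.pos
    have hgdeg : g.natDegree ≤ 2 * (n - 1) := by
      rw [hg]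
      refine (natDegree_add_le _ _).trans (max_le (by simp) ?_)
      refine natDegree_sum_le_of_forall_le _ _ ?_
      intro i _
      have h1 : (s i % f).natDegree < n := by
        rw [← hfn]
        apply natDegree_mod_lt
        omega
      refine natDegree_pow_le.trans ?_
      omega
    obtain ⟨q, hq⟩ := hdvd'
    have hq0 : q ≠ 0 := by
      rintro rfl
      exact hg0 (by rw [hq, mul_zero])
    have hdeg : g.natDegree = n + q.natDegree := by
      rw [hq, natDegree_mul hf0 hq0, hfn]
    have hqodd : Odd q.natDegree := by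
      rcases Nat.even_or_odd q.natDegree with h2 | h2
      · rw [hdeg] at hgeven
        exact absurd (hn.add_even h2) (Nat.not_odd_iff_even.2 hgeven)
      · exact h2
    obtain ⟨p, hp, hpd, hpo⟩ := OddExt.exists_odd_factor q hqodd
    have hpdeg : p.natDegree ≤ q.natDegree := natDegree_le_of_dvd hpd hq0
    refine ih p.natDegree (by omega) p hp rfl hpo m (fun i => s i % f) ?_
    refine hpd.trans ?_
    rw [← hg, hq]
    exact dvd_mul_left _ _

/-- An odd degree extension of a formally real field is formally real. -/
theorem FR.odd_extension {L : Type u} {k : Type v} [Field L] [Field k] [Algebra L k]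
    [FiniteDimensional L k] (h : FR L) (hodd : Odd (Module.finrank L k)) : FR k := by
  classical
  have : CharZero L := h.charZero
  obtain ⟨ξ, hξ⟩ := Field.exists_primitive_element L k
  have hint : IsIntegral L ξ := Algebra.IsIntegral.isIntegral ξ
  have hdegodd : Odd (minpoly L ξ).natDegree :=
    hodd.of_dvd_nat (minpoly.degree_dvd hint)
  intro n f hf j
  by_contra hj
  have hrep : ∀ y : k, ∃ p : L[X], aeval ξ p = y := by
    intro y
    have hy : y ∈ (IntermediateField.adjoin L {ξ}) := by
      rw [hξ]
      exact IntermediateField.mem_top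
    rw [← IntermediateField.mem_toSubalgebra,
      IntermediateField.adjoin_simple_toSubalgebra_of_isAlgebraic hint.isAlgebraic,
      Algebra.adjoin_singleton_eq_range_aeval] at hy
    exact hy
  choose p hp using hrep
  have hsum : ∑ i, (if i = j then 0 else f i / f j) ^ 2 + 1 = 0 := by
    have h1 : ∑ i, (if i = j then 0 else f i / f j) ^ 2 + 1 = ∑ i, (f i / f j) ^ 2 := by
      rw [← Finset.add_sum_erase Finset.univ _ (Finset.mem_univ j),
        ← Finset.add_sum_erase Finset.univ (fun i => (f i / f j) ^ 2) (Finset.mem_univ j)]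
      rw [if_pos rfl, div_self hj]
      rw [Finset.sum_congr rfl (g := fun i => (f i / f j) ^ 2)]
      · ring
      · intro i hi
        rw [if_neg (Finset.ne_of_mem_erase hi)]
    rw [h1]
    have h2 : ∑ i, (f i / f j) ^ 2 = (∑ i, f i ^ 2) / (f j) ^ 2 := by
      rw [Finset.sum_div]
      exact Finset.sum_congr rfl (fun i _ => div_pow _ _ _)
    rw [h2, hf, zero_div]
  refine OddExt.not_dvd h (minpoly L ξ).natDegree (minpoly L ξ) (minpoly.irreducible hint) rfl
    hdegodd n (fun i => if i = j then 0 else p (f i / f j)) ?_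
  rw [minpoly.dvd_iff]
  rw [map_add, map_one, map_sum]
  rw [add_comm, ← hsum]
  congr 1
  refine Finset.sum_congr rfl ?_
  intro i _
  rw [map_pow]
  congr 1
  split_ifs with hi
  · rw [map_zero]
  · exact hp _

/-- A nonsquare stays a nonsquare in an odd degree extension. -/
theorem not_isSquare_odd {L : Type u} {k : Type v} [Field L] [Field k] [Algebra L k]
    [FiniteDimensional L k] (hodd : Odd (Module.finrank L k)) {c : L} (hc : ¬ IsSquare c) :
    ¬ IsSquare (algebraMap L k c) := by
  rintro ⟨s, hs⟩
  have hint : IsIntegral L s := Algebra.IsIntegral.isIntegral s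
  have hdvd := minpoly.degree_dvd (K := L) hint
  have hle : (minpoly L s).natDegree ≤ 2 := by
    have h1 : minpoly L s ∣ X ^ 2 - C c := by
      rw [minpoly.dvd_iff]
      simp only [map_sub, map_pow, aeval_X, aeval_C]
      rw [hs]
      ring
    have h2 : (X ^ 2 - C c : L[X]).natDegree = 2 := natDegree_X_pow_sub_C
    have h3 : (X ^ 2 - C c : L[X]) ≠ 0 := by
      intro h0
      rw [h0] at h2
      simp at h2
    have := natDegree_le_of_dvd h1 h3
    omega
  have hpos := minpoly.natDegree_pos hint
  have hoddm := hodd.of_dvd_nat hdvd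
  have h1 : (minpoly L s).natDegree = 1 := by
    rcases hoddm with ⟨a, ha⟩
    omega
  rw [minpoly.natDegree_eq_one_iff] at h1
  obtain ⟨r, hr⟩ := h1
  apply hc
  refine ⟨r, ?_⟩
  have hinj := (algebraMap L k).injective
  apply hinj
  rw [map_mul, hr, hs]

theorem odd_natDegree_minpoly {L : Type u} {k : Type v} [Field L] [Field k] [Algebra L k]
    [FiniteDimensional L k] (hodd : Odd (Module.finrank L k)) (ξ : k) :
    Odd (minpoly L ξ).natDegree :=
  hodd.of_dvd_nat (minpoly.degree_dvd (Algebra.IsIntegral.isIntegral ξ))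

/-- If `f(ξ)` is a square in an odd degree extension then it is a square in `L(ξ)`. -/
theorem exists_minpoly_dvd {L : Type u} {k : Type v} [Field L] [Field k] [Algebra L k]
    [FiniteDimensional L k] (hodd : Odd (Module.finrank L k)) (ξ : k) (f : L[X])
    (hf : IsSquare (aeval ξ f)) :
    ∃ r : L[X], r.natDegree < (minpoly L ξ).natDegree ∧ minpoly L ξ ∣ r ^ 2 - f := by
  have hint : IsIntegral L ξ := Algebra.IsIntegral.isIntegral ξ
  let M : IntermediateField L k := IntermediateField.adjoin L {ξ}
  have hξM : ξ ∈ M := IntermediateField.mem_adjoin_simple_self L ξ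
  let ξM : M := ⟨ξ, hξM⟩
  have hodd' : Odd (Module.finrank M k) := by
    have := Module.finrank_mul_finrank L M k
    exact hodd.of_dvd_nat ⟨Module.finrank L M, by rw [← this]; ring⟩
  have hsq : IsSquare (aeval ξM f) := by
    by_contra hns
    apply not_isSquare_odd (L := M) (k := k) hodd' hns
    have : algebraMap M k (aeval ξM f) = aeval ξ f := by
      rw [← aeval_algebraMap_apply]
      rfl
    rw [this]
    exact hf
  obtain ⟨η, hη⟩ := hsq
  have hηM : (η : k) ∈ M := η.2
  rw [← IntermediateField.mem_toSubalgebra,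
    IntermediateField.adjoin_simple_toSubalgebra_of_isAlgebraic hint.isAlgebraic,
    Algebra.adjoin_singleton_eq_range_aeval] at hηM
  obtain ⟨p, hp⟩ := hηM
  have hp' : aeval ξ p = (η : k) := hp
  have hmonic := minpoly.monic hint
  have hne1 : minpoly L ξ ≠ 1 := minpoly.ne_one L ξ
  refine ⟨p %ₘ minpoly L ξ, natDegree_modByMonic_lt p hmonic hne1, ?_⟩
  rw [minpoly.dvd_iff]
  rw [map_sub, map_pow, aeval_modByMonic_eq_self_of_root (minpoly.aeval L ξ), hp']
  have h2 : aeval ξ f = (η : k) * η := by
    have : algebraMap M k (aeval ξM f) = aeval ξ f := by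
      rw [← aeval_algebraMap_apply]
      rfl
    rw [← this, hη, map_mul]
    rfl
  rw [h2]
  ring

end WInv
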