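import Pool.Agent.WInv.Data
import Pool.Agent.WInv.OddExt

/-!
# Module B4: `a` has no odd degree point on the generic line (MP_2fcb4d_al)
-/

set_option autoImplicit false

namespace WInv

open Polynomial

universe u

namespace Conic

theorem coeffs_eq {A : Type*} [CommRing A] {u v w : A}
    (h : (1 + X ^ 2 : A[X]) = C u + C v * X + C w * X ^ 2) : u = 1 ∧ v = 0 ∧ w = 1 := by
  have c0 := congrArg (fun p => coeff p 0) h
  have c1 := congrArg (fun p => coeff p 1) h
  have c2 := congrArg (fun p => coeff p 2) h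
  simp [coeff_one, coeff_X, coeff_C] at c0 c1 c2
  exact ⟨c0.symm, by simpa [coeff_X_pow] using c1.symm, c2.symm⟩

theorem one_add_X_sq_ne {A : Type*} [CommRing A] [IsDomain A] (h2 : (2 : A) ≠ 0) (t : A[X]) :
    1 + X ^ 2 ≠ t ^ 2 := by
  intro h
  have hdeg : (1 + X ^ 2 : A[X]).natDegree = 2 := by compute_degree!
  have h1 : t.natDegree = 1 := by
    rw [h, natDegree_pow] at hdeg
    omega
  have ht := eq_X_add_C_of_natDegree_le_one h1.le
  set b := t.coeff 1
  set a := t.coeff 0
  rw [ht] at h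
  have e : (C b * X + C a) ^ 2 = C (a ^ 2) + C (2 * a * b) * X + C (b ^ 2) * X ^ 2 := by
    simp only [map_mul, map_pow, map_ofNat]
    ring
  rw [e] at h
  obtain ⟨c0, c1, c2⟩ := coeffs_eq h
  have ha : a ≠ 0 := by
    intro ha
    rw [ha] at c0
    simp at c0
  have hb : b ≠ 0 := by
    intro hb
    rw [hb] at c2
    simp at c2
  exact mul_ne_zero (mul_ne_zero h2 ha) hb c1

theorem eq_zero_of_mul_sq {A : Type*} [CommRing A] [IsDomain A] [IsIntegrallyClosed A[X]]
    (h2 : (2 : A) ≠ 0) {a b : A[X]} (h : (1 + X ^ 2) * a ^ 2 = b ^ 2) : a = 0 := by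
  by_contra ha
  have hdvd : a ∣ b := by
    rw [← IsIntegrallyClosed.pow_dvd_pow_iff (n := 2) two_ne_zero, ← h]
    exact dvd_mul_left _ _
  obtain ⟨t, rfl⟩ := hdvd
  apply one_add_X_sq_ne h2 t
  have : a ^ 2 * (1 + X ^ 2) = a ^ 2 * t ^ 2 := by
    rw [mul_comm, h]; ring
  exact mul_left_cancel₀ (pow_ne_zero 2 ha) this

section key

variable {A : Type*} [CommRing A] [IsDomain A]

omit [IsDomain A] in
theorem monic_B (s : A) : (X ^ 2 + C s : A[X]).Monic := monic_X_pow_add_C s two_ne_zero

theorem natDegree_B (s : A) : (X ^ 2 + C s : A[X]).natDegree = 2 := natDegree_X_pow_add_C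

theorem B_ne_one (s : A) : (X ^ 2 + C s : A[X]) ≠ 1 := by
  intro h
  have := natDegree_B s
  rw [h] at this
  simp at this

theorem exists_rem (s : A) (f : A[X]) :
    ∃ (q : A[X]) (a b : A), f = (X ^ 2 + C s) * q + (C b * X + C a) := by
  have h := modByMonic_add_div f (X ^ 2 + C s)
  have hd := natDegree_modByMonic_lt f (monic_B s) (B_ne_one s)
  rw [natDegree_B] at hd
  have hr := eq_X_add_C_of_natDegree_le_one (by omega : (f %ₘ (X ^ 2 + C s)).natDegree ≤ 1)
  refine ⟨f /ₘ (X ^ 2 + C s), (f %ₘ (X ^ 2 + C s)).coeff 0, (f %ₘ (X ^ 2 + C s)).coeff 1, ?_⟩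
  rw [← hr, add_comm]
  exact h.symm

theorem eq_zero_of_B_dvd (s a b : A) (h : (X ^ 2 + C s) ∣ C b * X + C a) : b = 0 ∧ a = 0 := by
  have h0 : C b * X + C a = 0 := by
    apply eq_zero_of_dvd_of_natDegree_lt h
    rw [natDegree_B]
    exact lt_of_le_of_lt natDegree_linear_le (by norm_num)
  constructor
  · have := congrArg (fun p => coeff p 1) h0
    simpa using this
  · have := congrArg (fun p => coeff p 0) h0
    simpa using this

theorem key (hA : FR A) (h2 : (2 : A) ≠ 0) {s : A} (hs : ∀ a b : A, s * a ^ 2 = b ^ 2 → a = 0)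
    {f g : A[X]} (h : (X ^ 2 + C s) ∣ f ^ 2 + g ^ 2) : (X ^ 2 + C s) ∣ f ∧ (X ^ 2 + C s) ∣ g := by
  obtain ⟨q, f0, f1, rfl⟩ := exists_rem s f
  obtain ⟨q', g0, g1, rfl⟩ := exists_rem s g
  have h' : (X ^ 2 + C s) ∣ C (2 * (f0 * f1 + g0 * g1)) * X +
      C (f0 ^ 2 + g0 ^ 2 - s * (f1 ^ 2 + g1 ^ 2)) := by
    obtain ⟨k, hk⟩ := h
    refine ⟨k - (X ^ 2 + C s) * q ^ 2 - 2 * q * (C f1 * X + C f0) - (X ^ 2 + C s) * q' ^ 2 -
      2 * q' * (C g1 * X + C g0) - C (f1 ^ 2 + g1 ^ 2), ?_⟩
    simp only [map_mul, map_pow, map_ofNat, map_add, map_sub]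
    linear_combination hk
  obtain ⟨e1, e2⟩ := eq_zero_of_B_dvd s _ _ h'
  have e1' : f0 * f1 + g0 * g1 = 0 := by
    rcases mul_eq_zero.1 e1 with h | h
    · exact absurd h h2
    · exact h
  have two : ∀ a b : A, a ^ 2 + b ^ 2 = 0 → a = 0 ∧ b = 0 := by
    intro a b hab
    have := hA 2 ![a, b] (by simpa [Fin.sum_univ_two] using hab)
    exact ⟨by simpa using this 0, by simpa using this 1⟩
  have e3 : f1 ^ 2 + g1 ^ 2 = 0 := by
    apply hs _ (f0 * g1 - f1 * g0)
    linear_combination (-(f1 ^ 2 + g1 ^ 2)) * e2 + (f0 * f1 + g0 * g1) * e1'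
  obtain ⟨rfl, rfl⟩ := two _ _ e3
  obtain ⟨rfl, rfl⟩ := two f0 g0 (by linear_combination e2)
  simp

theorem dvd_of_dvd_C_mul {s a : A} (ha : a ≠ 0) {f : A[X]} (h : (X ^ 2 + C s) ∣ C a * f) :
    (X ^ 2 + C s) ∣ f := by
  rw [← modByMonic_eq_zero_iff_dvd (monic_B s)] at h ⊢
  rw [← smul_eq_C_mul, smul_modByMonic, smul_eq_zero] at h
  exact h.resolve_left ha

end key

section descent

variable {R : Type u} [Field R]

/-- `B = 1 + c₀² + c₁²` -/
noncomputable def B (R : Type u) [Field R] : R[X][X] := X ^ 2 + C (1 + X ^ 2)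

theorem step (hR : FR R) {z y w : R[X][X]}
    (h : z ^ 2 + B R * w ^ 2 = (1 + X ^ 2) * y ^ 2) :
    ∃ z' y' w' : R[X][X], z = B R * z' ∧ y = B R * y' ∧ w = B R * w' ∧
      z' ^ 2 + B R * w' ^ 2 = (1 + X ^ 2) * y' ^ 2 := by
  have hR2 : (2 : R) ≠ 0 := by
    have := hR.charZero
    exact two_ne_zero
  have hA : FR R[X] := hR.polynomial
  have hA2 : (2 : R[X]) ≠ 0 := by
    have := hA.charZero
    exact two_ne_zero
  have hs : ∀ a b : R[X], (1 + X ^ 2) * a ^ 2 = b ^ 2 → a = 0 :=
    fun a b => eq_zero_of_mul_sq hR2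
  have hB0 : B R ≠ 0 := (monic_B _).ne_zero
  have h1 : B R ∣ z ^ 2 + (C X * y) ^ 2 := by
    refine ⟨y ^ 2 - w ^ 2, ?_⟩
    simp only [B, map_add, map_one, map_pow] at h ⊢
    linear_combination h
  obtain ⟨hz, hy⟩ := key hA hA2 hs h1
  have hy := dvd_of_dvd_C_mul (X_ne_zero) hy
  obtain ⟨z', rfl⟩ := hz
  obtain ⟨y', rfl⟩ := hy
  change (B R * z') ^ 2 + B R * w ^ 2 = (1 + X ^ 2) * (B R * y') ^ 2 at h
  have h2 : w ^ 2 = B R * ((1 + X ^ 2) * y' ^ 2 - z' ^ 2) := by
    apply mul_left_cancel₀ hB0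
    linear_combination h
  have h3 : B R ∣ w ^ 2 + 0 ^ 2 := by
    rw [h2]
    simp
  obtain ⟨⟨w', rfl⟩, -⟩ := key hA hA2 hs h3
  refine ⟨z', y', w', rfl, rfl, rfl, ?_⟩
  change (B R * w') ^ 2 = _ at h2
  apply mul_left_cancel₀ hB0
  linear_combination h2

theorem dvd_pow (hR : FR R) (n : ℕ) : ∀ {z y w : R[X][X]},
    z ^ 2 + B R * w ^ 2 = (1 + X ^ 2) * y ^ 2 → B R ^ n ∣ w := by
  induction n with
  | zero => intro z y w _; simp
  | succ n ih =>
    intro z y w h
    obtain ⟨z', y', w', -, -, rfl, h'⟩ := step hR h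
    rw [pow_succ']
    exact mul_dvd_mul_left _ (ih h')

theorem eq_zero_of_conic (hR : FR R) {z y w : R[X][X]}
    (h : z ^ 2 + B R * w ^ 2 = (1 + X ^ 2) * y ^ 2) : w = 0 := by
  by_contra hw
  have h1 := natDegree_le_of_dvd (dvd_pow hR (w.natDegree + 1) h) hw
  have h2 : (B R).natDegree = 2 := natDegree_B _
  rw [natDegree_pow, h2] at h1
  omega

end descent

/-- an odd degree polynomial has an irreducible factor of odd degree -/
theorem exists_odd_factor {K : Type*} [Field K] : ∀ (n : ℕ) (q : K[X]), q.natDegree = n → Odd n →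
    ∃ m : K[X], Irreducible m ∧ Odd m.natDegree ∧ m ∣ q := by
  intro n
  induction n using Nat.strong_induction_on with
  | _ n ih =>
    intro q hq hodd
    by_cases hirr : Irreducible q
    · exact ⟨q, hirr, hq ▸ hodd, dvd_rfl⟩
    have hq0 : q ≠ 0 := by
      rintro rfl
      simp at hq
      subst hq
      exact (by decide : ¬ Odd 0) hodd
    have hnu : ¬ IsUnit q := by
      intro hu
      have := natDegree_eq_zero_of_isUnit hu
      rw [hq] at this
      subst this
      exact (by decide : ¬ Odd 0) hodd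
    rw [irreducible_iff] at hirr
    push Not at hirr
    obtain ⟨a, b, hab, ha, hb⟩ := hirr hnu
    have ha0 : a ≠ 0 := by
      rintro rfl
      simp at hab
      exact hq0 hab
    have hb0 : b ≠ 0 := by
      rintro rfl
      simp at hab
      exact hq0 hab
    have hda : 0 < a.natDegree := by
      rw [natDegree_pos_iff_degree_pos]
      exact degree_pos_of_ne_zero_of_nonunit ha0 ha
    have hdb : 0 < b.natDegree := by
      rw [natDegree_pos_iff_degree_pos]
      exact degree_pos_of_ne_zero_of_nonunit hb0 hb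
    have hsum : n = a.natDegree + b.natDegree := by
      rw [← hq, hab, natDegree_mul ha0 hb0]
    rcases Nat.even_or_odd a.natDegree with hae | hao
    · have hbo : Odd b.natDegree := by
        rw [hsum, Nat.odd_add'] at hodd
        exact hodd.2 hae
      obtain ⟨m, h1, h2, h3⟩ := ih b.natDegree (by omega) b rfl hbo
      exact ⟨m, h1, h2, h3.trans (hab ▸ dvd_mul_left _ _)⟩
    · obtain ⟨m, h1, h2, h3⟩ := ih a.natDegree (by omega) a rfl hao
      exact ⟨m, h1, h2, h3.trans (hab ▸ dvd_mul_right _ _)⟩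

end Conic

open Conic

variable {R : Type u} [Field R]

theorem not_isSquare_one_add_c1_sq (hR : FR R) : ¬ IsSquare (1 + c1 R ^ 2) := by
  rintro ⟨r, hr⟩
  have hA : FR R[X] := hR.polynomial
  have hA2 : (2 : R[X]) ≠ 0 := by
    have := hA.charZero
    exact two_ne_zero
  obtain ⟨y, d, hd, rfl⟩ := IsFractionRing.div_surjective (A := R[X][X]) r
  have hd0 : d ≠ 0 := nonZeroDivisors.ne_zero hd
  have hinj : Function.Injective (algebraMap R[X][X] (LL R)) := IsFractionRing.injective _ _
  have hd1 : algebraMap R[X][X] (LL R) d ≠ 0 := fun h => hd0 (hinj (by simpa using h))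
  apply hd0
  apply eq_zero_of_mul_sq (b := y) hA2
  apply hinj
  rw [c1] at hr
  simp only [map_mul, map_add, map_one, map_pow]
  field_simp at hr
  linear_combination hr

/-- The conic `(1 + c₁²) ξ² + 2 c₀ c₁ ξ + (1 + c₀²) = r²` has no point over `R(c₀, c₁)`. -/
theorem conic_no_point (hR : FR R) (ξ r : LL R) :
    (1 + c1 R ^ 2) * ξ ^ 2 + 2 * c0 R * c1 R * ξ + (1 + c0 R ^ 2) ≠ r ^ 2 := by
  intro h
  obtain ⟨x, d, hd, rfl⟩ := IsFractionRing.div_surjective (A := R[X][X]) ξ
  obtain ⟨y, d', hd', rfl⟩ := IsFractionRing.div_surjective (A := R[X][X]) r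
  have hd0 : d ≠ 0 := nonZeroDivisors.ne_zero hd
  have hd0' : d' ≠ 0 := nonZeroDivisors.ne_zero hd'
  have hinj : Function.Injective (algebraMap R[X][X] (LL R)) := IsFractionRing.injective _ _
  have hd1 : algebraMap R[X][X] (LL R) d ≠ 0 := fun h => hd0 (hinj (by simpa using h))
  have hd1' : algebraMap R[X][X] (LL R) d' ≠ 0 := fun h => hd0' (hinj (by simpa using h))
  apply mul_ne_zero hd0 hd0'
  apply eq_zero_of_conic hR (z := (1 + X ^ 2) * (x * d') + C X * X * (d * d')) (y := y * d)
  apply hinj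
  rw [c1, c0] at h
  simp only [map_mul, map_add, map_one, map_pow, B]
  field_simp at h
  linear_combination (1 + (algebraMap R[X][X] (LL R)) X ^ 2) * h

namespace Conic

theorem psi_apol : psi R (apol R) = C (1 + c1 R ^ 2) * X ^ 2 + C (2 * c0 R * c1 R) * X +
    C (1 + c0 R ^ 2) := by
  simp only [psi, apol, map_add, map_pow, coe_eval₂RingHom, eval₂_X, eval₂_C, coe_mapRingHom,
    Polynomial.map_X, map_one, map_mul, map_ofNat]
  ring

theorem no_factor (hR : FR R) : ∀ (n : ℕ) (m r : (LL R)[X]), Irreducible m → m.natDegree = n →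
    Odd n → ¬ m ∣ r ^ 2 - psi R (apol R) := by
  intro n
  induction n using Nat.strong_induction_on with
  | _ n ih =>
    intro m r hm hn hodd hdvd
    have hm0 : m ≠ 0 := hm.ne_zero
    -- reduce r
    have hdvd' : m ∣ (r % m) ^ 2 - psi R (apol R) := by
      have h1 : r = r % m + m * (r / m) := (EuclideanDomain.mod_add_div r m).symm
      have h2 : (r % m) ^ 2 - psi R (apol R) = (r ^ 2 - psi R (apol R)) -
          m * ((r / m) * (2 * (r % m) + m * (r / m))) := by
        conv_rhs => rw [h1]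
        have h3 : (r % m + m * (r / m)) % m = r % m := by rw [← h1]
        have h4 : (r % m + m * (r / m)) / m = r / m := by rw [← h1]
        rw [h3, h4]
        ring
      rw [h2]
      exact dvd_sub hdvd (dvd_mul_right _ _)
    have hn1 : 1 ≤ n := hodd.pos
    have hlt : (r % m).natDegree < n := by
      rw [← hn]
      apply natDegree_mod_lt
      omega
    set r' := r % m
    obtain ⟨q, hq⟩ := hdvd'
    rcases Nat.lt_or_ge n 2 with hn2 | hn2
    · -- a rational point
      have hn1' : n = 1 := by omega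
      have hr0 : r' = C (r'.coeff 0) := eq_C_of_natDegree_eq_zero (by omega)
      obtain ⟨ξ, hξ⟩ := exists_root_of_degree_eq_one (p := m) (by
        rw [degree_eq_natDegree hm0, hn, hn1']; rfl)
      have hev := congrArg (eval ξ) hq
      rw [hr0, psi_apol] at hev
      rw [IsRoot.def] at hξ
      simp only [eval_sub, eval_pow, eval_C, eval_add, eval_mul, eval_X, hξ, zero_mul] at hev
      exact conic_no_point hR ξ (r'.coeff 0) (by linear_combination -hev)
    · -- descent
      have hP : ∃ e, (r' ^ 2 - psi R (apol R)).natDegree = 2 * e ∧ 1 ≤ e ∧ (e ≤ 1 ∨ e < n) := by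
        have hlead : 1 + c1 R ^ 2 ≠ 0 := fun h0 =>
          not_isSquare_one_add_c1_sq hR (h0 ▸ ⟨0, by simp⟩)
        have hda : (psi R (apol R)).natDegree = 2 := by
          rw [psi_apol]
          exact natDegree_quadratic hlead
        rcases Nat.lt_or_ge 1 r'.natDegree with h1 | h1
        · refine ⟨r'.natDegree, ?_, by omega, Or.inr hlt⟩
          rw [natDegree_sub_eq_left_of_natDegree_lt, natDegree_pow]
          rw [hda, natDegree_pow]
          omega
        · refine ⟨1, ?_, le_rfl, Or.inl le_rfl⟩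
          have hr1 := eq_X_add_C_of_natDegree_le_one h1
          set b := r'.coeff 1
          set a := r'.coeff 0
          have e : r' ^ 2 - psi R (apol R) = C (b ^ 2 - (1 + c1 R ^ 2)) * X ^ 2 +
              C (2 * a * b - 2 * c0 R * c1 R) * X + C (a ^ 2 - (1 + c0 R ^ 2)) := by
            rw [hr1, psi_apol]
            simp only [map_mul, map_pow, map_ofNat, map_add, map_sub, map_one]
            ring
          rw [e]
          apply natDegree_quadratic
          intro h0
          apply not_isSquare_one_add_c1_sq hR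
          exact ⟨b, by linear_combination -h0⟩
      obtain ⟨e, he, he1, he2⟩ := hP
      have hne : r' ^ 2 - psi R (apol R) ≠ 0 := by
        intro h0
        rw [h0] at he
        simp at he
        omega
      have hq0 : q ≠ 0 := by
        rintro rfl
        rw [mul_zero] at hq
        exact hne hq
      have hdeg : 2 * e = n + q.natDegree := by
        rw [← he, hq, natDegree_mul hm0 hq0, hn]
      have hqodd : Odd q.natDegree := by
        have h1 : Even (n + q.natDegree) := hdeg ▸ even_two_mul e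
        rcases Nat.even_or_odd q.natDegree with h2 | h2
        · exact absurd h1 (by
            rw [Nat.not_even_iff_odd]
            exact hodd.add_even h2)
        · exact h2
      obtain ⟨m', h1, h2, h3⟩ := exists_odd_factor _ q rfl hqodd
      have h4 : m'.natDegree ≤ q.natDegree := natDegree_le_of_dvd h3 hq0
      refine ih m'.natDegree (by omega) m' r' h1 rfl h2 ?_
      rw [hq]
      exact h3.trans (dvd_mul_left _ _)

end Conic

/-- The same over odd degree extensions (Springer type descent). -/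
theorem not_isSquare_apol_odd (hR : FR R) {k : Type u} [Field k] [Algebra (LL R) k]
    [FiniteDimensional (LL R) k] (hodd : Odd (Module.finrank (LL R) k)) (ξ : k) :
    ¬ IsSquare (aeval ξ (psi R (apol R))) := by
  intro h
  obtain ⟨r, hr, hdvd⟩ := exists_minpoly_dvd hodd ξ _ h
  exact no_factor hR _ _ r (minpoly.irreducible (Algebra.IsIntegral.isIntegral ξ)) rfl
    (odd_natDegree_minpoly hodd ξ) hdvd

end WInv
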