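import Pool.Agent.WInv.Defs

/-!
# Module D3: `y² = x³ - 4 x` over `ℝ(p)` and `ℝ(p)(√(p² + 1))` (MP_2fcb4d_al)
-/

set_option autoImplicit false

namespace WInv

open Polynomial

namespace ConstPt

/-- coprime factors of a square are squares up to sign -/
theorem sq_factor (a b g : ℝ[X]) (hab : IsCoprime a b) (h : a * b = g ^ 2) :
    ∃ (d : ℝ[X]) (ε : ℝ), (ε = 1 ∨ ε = -1) ∧ a = C ε * d ^ 2 := by
  obtain ⟨d, u, hu⟩ := exists_associated_pow_of_mul_eq_pow' hab h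
  obtain ⟨r, hr, hr'⟩ := Polynomial.isUnit_iff.1 u.isUnit
  rcases lt_or_gt_of_ne hr.ne_zero with h0 | h0
  · refine ⟨C (Real.sqrt (-r)) * d, -1, Or.inr rfl, ?_⟩
    have h1 : (C (Real.sqrt (-r)) : ℝ[X]) ^ 2 = C (-r) := by
      rw [← C_pow, Real.sq_sqrt (by linarith)]
    rw [mul_pow, h1, ← hu, ← hr', C_neg, C_neg, C_1]
    ring
  · refine ⟨C (Real.sqrt r) * d, 1, Or.inl rfl, ?_⟩
    have h1 : (C (Real.sqrt r) : ℝ[X]) ^ 2 = C r := by
      rw [← C_pow, Real.sq_sqrt (by linarith)]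
    rw [mul_pow, h1, ← hu, ← hr', C_1]
    ring

theorem gcd_split (A B : ℝ[X]) (hA : A ≠ 0) :
    ∃ D A0 B0 : ℝ[X], D ≠ 0 ∧ A = D * A0 ∧ B = D * B0 ∧ IsCoprime A0 B0 := by
  obtain ⟨A0, h1⟩ := EuclideanDomain.gcd_dvd_left A B
  obtain ⟨B0, h2⟩ := EuclideanDomain.gcd_dvd_right A B
  have h3 := EuclideanDomain.gcd_eq_gcd_ab A B
  set D := EuclideanDomain.gcd A B
  have hD : D ≠ 0 := by
    intro h0
    rw [h0, zero_mul] at h1
    exact hA h1
  refine ⟨D, A0, B0, hD, h1, h2, ?_⟩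
  refine ⟨EuclideanDomain.gcdA A B, EuclideanDomain.gcdB A B, ?_⟩
  apply mul_left_cancel₀ hD
  calc D * (EuclideanDomain.gcdA A B * A0 + EuclideanDomain.gcdB A B * B0)
      = (D * A0) * EuclideanDomain.gcdA A B + (D * B0) * EuclideanDomain.gcdB A B := by ring
    _ = A * EuclideanDomain.gcdA A B + B * EuclideanDomain.gcdB A B := by rw [← h1, ← h2]
    _ = D * 1 := by rw [← h3, mul_one]

theorem unit_two : IsUnit (2 : ℝ[X]) := by
  have : (2 : ℝ[X]) = C 2 := (map_ofNat C 2).symm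
  rw [this]
  exact isUnit_C.2 (isUnit_iff_ne_zero.2 (by norm_num))

theorem unit_four : IsUnit (4 : ℝ[X]) := by
  have : (4 : ℝ[X]) = C 4 := (map_ofNat C 4).symm
  rw [this]
  exact isUnit_C.2 (isUnit_iff_ne_zero.2 (by norm_num))

/-- the coprime case -/
theorem const_coprime (A B G : ℝ[X]) (hA : A ≠ 0) (hB : B ≠ 0) (hAB : IsCoprime A B)
    (hG : G ^ 2 = A * B * (A ^ 2 - 4 * B ^ 2)) : ∃ c : ℝ, A = C c * B := by
  by_cases h0 : A ^ 2 - 4 * B ^ 2 = 0
  · have h1 : (A - 2 * B) * (A + 2 * B) = 0 := by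
      rw [← h0]
      ring
    rcases mul_eq_zero.1 h1 with h | h
    · refine ⟨2, ?_⟩
      rw [sub_eq_zero.1 h, show (C 2 : ℝ[X]) = 2 from map_ofNat C 2]
    · refine ⟨-2, ?_⟩
      rw [eq_neg_of_add_eq_zero_left h, C_neg, show (C 2 : ℝ[X]) = 2 from map_ofNat C 2, neg_mul]
  -- pairwise coprimality
  have c1 : IsCoprime A (B * (A ^ 2 - 4 * B ^ 2)) := by
    refine IsCoprime.mul_right hAB ?_
    have h1 : IsCoprime A (4 * B ^ 2) :=
      (isCoprime_mul_unit_left_right unit_four A (B ^ 2)).2 (IsCoprime.pow_right hAB)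
    have h2 : IsCoprime A (-(4 * B ^ 2) + A * A) := (IsCoprime.neg_right h1).add_mul_left_right A
    have h3 : -(4 * B ^ 2) + A * A = A ^ 2 - 4 * B ^ 2 := by ring
    rwa [h3] at h2
  have c2 : IsCoprime B (A * (A ^ 2 - 4 * B ^ 2)) := by
    refine IsCoprime.mul_right hAB.symm ?_
    have h1 : IsCoprime B (A ^ 2) := IsCoprime.pow_right hAB.symm
    have h2 : IsCoprime B (A ^ 2 + B * (-(4 * B))) := h1.add_mul_left_right (-(4 * B))
    have h3 : A ^ 2 + B * (-(4 * B)) = A ^ 2 - 4 * B ^ 2 := by ring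
    rwa [h3] at h2
  have c3 : IsCoprime (A ^ 2 - 4 * B ^ 2) (A * B) := by
    refine IsCoprime.mul_right ?_ ?_
    · exact (IsCoprime.of_mul_right_right c1).symm
    · exact (IsCoprime.of_mul_right_right c2).symm
  obtain ⟨a, ε1, he1, ha⟩ := sq_factor A (B * (A ^ 2 - 4 * B ^ 2)) G c1 (by rw [hG]; ring)
  obtain ⟨b, ε2, he2, hb⟩ := sq_factor B (A * (A ^ 2 - 4 * B ^ 2)) G c2 (by rw [hG]; ring)
  obtain ⟨k, ε3, he3, hk⟩ := sq_factor (A ^ 2 - 4 * B ^ 2) (A * B) G c3 (by rw [hG]; ring)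
  have ha0 : a ≠ 0 := by
    rintro rfl
    exact hA (by rw [ha]; simp)
  have hb0 : b ≠ 0 := by
    rintro rfl
    exact hB (by rw [hb]; simp)
  have hk0 : k ≠ 0 := by
    rintro rfl
    exact h0 (by rw [hk]; simp)
  have e1 : A ^ 2 = a ^ 4 := by
    rw [ha]
    rcases he1 with rfl | rfl
    · simp; ring
    · simp; ring
  have e2 : B ^ 2 = b ^ 4 := by
    rw [hb]
    rcases he2 with rfl | rfl
    · simp; ring
    · simp; ring
  have hcop : IsCoprime a b := by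
    have h1 : IsCoprime (a ^ 4) (b ^ 4) := by
      rw [← e1, ← e2]
      exact IsCoprime.pow hAB
    exact (IsCoprime.pow_iff (by norm_num) (by norm_num)).1 h1
  have hε3 : -ε3 ≠ 0 := by
    rcases he3 with rfl | rfl <;> norm_num
  have key := Polynomial.flt_catalan (p := 4) (q := 4) (r := 2) (by norm_num) (by norm_num)
    (by norm_num) (by norm_num) (by norm_num : ((4 : ℕ) : ℝ) ≠ 0) (by norm_num : ((4 : ℕ) : ℝ) ≠ 0)
    (by norm_num : ((2 : ℕ) : ℝ) ≠ 0) ha0 hb0 hk0 hcop (u := 1) (v := -4) (w := -ε3)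
    (by norm_num) (by norm_num) hε3 (by
      rw [e1, e2] at hk
      rw [C_neg, C_neg, C_1]
      have h4 : (C 4 : ℝ[X]) = 4 := map_ofNat C 4
      rw [h4]
      linear_combination hk)
  obtain ⟨k1, k2, -⟩ := key
  rw [eq_C_of_natDegree_eq_zero k1] at ha
  rw [eq_C_of_natDegree_eq_zero k2] at hb
  have hb' : ε2 * b.coeff 0 ^ 2 ≠ 0 := by
    intro h
    apply hB
    rw [hb, ← C_pow, ← C_mul, h, C_0]
  refine ⟨ε1 * a.coeff 0 ^ 2 / (ε2 * b.coeff 0 ^ 2), ?_⟩
  rw [ha, hb, ← C_pow, ← C_pow, ← C_mul, ← C_mul, ← C_mul]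
  congr 1
  exact (div_mul_cancel₀ _ hb').symm

end ConstPt

theorem const_one (A B G : ℝ[X]) (hA : A ≠ 0) (hB : B ≠ 0)
    (hG : G ^ 2 = A * B * (A ^ 2 - 4 * B ^ 2)) : ∃ c : ℝ, A = C c * B := by
  obtain ⟨D, A0, B0, hD, rfl, rfl, hcop⟩ := ConstPt.gcd_split A B hA
  have h1 : (D ^ 2) ^ 2 ∣ G ^ 2 := by
    rw [hG]
    refine ⟨A0 * B0 * (A0 ^ 2 - 4 * B0 ^ 2), ?_⟩
    ring
  obtain ⟨G0, rfl⟩ := (IsIntegrallyClosed.pow_dvd_pow_iff (by norm_num)).1 h1
  have h2 : G0 ^ 2 = A0 * B0 * (A0 ^ 2 - 4 * B0 ^ 2) := by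
    apply mul_left_cancel₀ (pow_ne_zero 4 hD)
    linear_combination hG
  obtain ⟨c, hc⟩ := ConstPt.const_coprime A0 B0 G0 (right_ne_zero_of_mul hA)
    (right_ne_zero_of_mul hB) hcop h2
  refine ⟨c, ?_⟩
  rw [hc]
  ring

namespace ConstPt

/-- the field version of `const_one` -/
theorem const_field (x y : FractionRing ℝ[X]) (hx : x ≠ 0) (h : y ^ 2 = x * (x ^ 2 - 4)) :
    ∃ c : ℝ, x = algebraMap ℝ[X] (FractionRing ℝ[X]) (C c) := by
  obtain ⟨a, b, hb, rfl⟩ := IsFractionRing.div_surjective (A := ℝ[X]) x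
  obtain ⟨c, d, hd, rfl⟩ := IsFractionRing.div_surjective (A := ℝ[X]) y
  have hb0 : b ≠ 0 := nonZeroDivisors.ne_zero hb
  have hd0 : d ≠ 0 := nonZeroDivisors.ne_zero hd
  have hinj : Function.Injective (algebraMap ℝ[X] (FractionRing ℝ[X])) :=
    IsFractionRing.injective _ _
  have hb1 : algebraMap ℝ[X] (FractionRing ℝ[X]) b ≠ 0 := by
    intro h0
    exact hb0 (hinj (by rw [h0, map_zero]))
  have hd1 : algebraMap ℝ[X] (FractionRing ℝ[X]) d ≠ 0 := by
    intro h0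
    exact hd0 (hinj (by rw [h0, map_zero]))
  have ha0 : a ≠ 0 := by
    rintro rfl
    apply hx
    rw [map_zero, zero_div]
  have h1 : c ^ 2 * b ^ 3 = d ^ 2 * a * (a ^ 2 - 4 * b ^ 2) := by
    apply hinj
    simp only [map_mul, map_pow, map_sub, map_ofNat]
    field_simp at h
    linear_combination h
  obtain ⟨k, hk⟩ := const_one (a * d) (b * d) (c * b ^ 2 * d) (mul_ne_zero ha0 hd0)
    (mul_ne_zero hb0 hd0) (by linear_combination b * d ^ 2 * h1)
  have h2 : a = C k * b := by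
    apply mul_right_cancel₀ hd0
    rw [hk]
    ring
  refine ⟨k, ?_⟩
  rw [h2, map_mul]
  field_simp

/-- the parameter of the conic -/
noncomputable def tau : FractionRing ℝ[X] :=
  (algebraMap ℝ[X] (FractionRing ℝ[X]) X ^ 2 - 1) / (2 * algebraMap ℝ[X] (FractionRing ℝ[X]) X)

theorem hXne : algebraMap ℝ[X] (FractionRing ℝ[X]) X ≠ 0 := by
  intro h0
  exact X_ne_zero ((IsFractionRing.injective ℝ[X] (FractionRing ℝ[X])) (by rw [h0, map_zero]))

theorem tau_transcendental : Transcendental ℝ tau := by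
  intro h
  have hX : algebraMap ℝ[X] (FractionRing ℝ[X]) X ≠ 0 := hXne
  have h1 : IsAlgebraic ℝ (1 + tau ^ 2) := (isAlgebraic_one).add (h.pow 2)
  have h2 : (algebraMap ℝ[X] (FractionRing ℝ[X]) X - tau) ^ 2 = 1 + tau ^ 2 := by
    rw [tau]
    field_simp
    ring
  rw [← h2] at h1
  have h3 := (IsAlgebraic.of_pow (by norm_num) h1).add h
  rw [sub_add_cancel] at h3
  exact (transcendental_algebraMap_iff
    (IsFractionRing.injective ℝ[X] (FractionRing ℝ[X]))).2 (transcendental_X ℝ) h3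

theorem nosq (c : ℝ) (hc : c ≠ 0) (g : ℝ[X]) (h : g ^ 2 = C c * (X ^ 2 + 1)) : False := by
  have h1 := congrArg derivative h
  rw [derivative_pow, derivative_C_mul, derivative_add, derivative_X_pow, derivative_one] at h1
  simp only [Nat.cast_ofNat, C_ofNat, Nat.add_one_sub_one, pow_one, add_zero] at h1
  have h2 : g * (g - X * derivative g) = C c := by
    have h3 : (2 : ℝ[X]) * (g * (g - X * derivative g)) = 2 * C c := by
      linear_combination 2 * h - X * h1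
    exact mul_left_cancel₀ (by norm_num) h3
  have h3 : IsUnit g := isUnit_of_mul_isUnit_left (y := g - X * derivative g) (by
    rw [h2]
    exact isUnit_C.2 (isUnit_iff_ne_zero.2 hc))
  have h4 := natDegree_eq_zero_of_isUnit h3
  have h5 := congrArg natDegree h
  rw [natDegree_pow, h4, natDegree_C_mul hc] at h5
  have h6 : (X ^ 2 + 1 : ℝ[X]).natDegree = 2 := by
    have := natDegree_X_pow_add_C (R := ℝ) (n := 2) (r := 1)
    rwa [C_1] at this
  omega

theorem nosq' (c : ℝ) (hc : c ≠ 0) (g M : ℝ[X]) (hM : M ≠ 0)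
    (h : g ^ 2 = C c * (X ^ 2 + 1) * M ^ 2) : False := by
  have h1 : M ^ 2 ∣ g ^ 2 := by
    rw [h]
    exact dvd_mul_left _ _
  obtain ⟨g0, rfl⟩ := (IsIntegrallyClosed.pow_dvd_pow_iff (by norm_num)).1 h1
  apply nosq c hc g0
  apply mul_left_cancel₀ (pow_ne_zero 2 hM)
  linear_combination h

end ConstPt

theorem const_two (A B G m : ℝ[X]) (i : ℕ) (κ : ℝ) (hκ : 0 < κ) (hA : A ≠ 0) (hB : B ≠ 0)
    (hG : G ^ 2 = (X ^ 2 + 1) * (A * B * (A ^ 2 - 4 * B ^ 2)))
    (hAB : A * B = C κ * (X ^ 2 + 1) ^ i * m ^ 2) : A = C 2 * B ∧ Even i := by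
  have hinj := transcendental_iff_injective.1 ConstPt.tau_transcendental
  have hX := ConstPt.hXne
  set φ : ℝ[X] →ₐ[ℝ] FractionRing ℝ[X] := aeval ConstPt.tau with hφ
  have hB1 : φ B ≠ 0 := fun h0 => hB (hinj (by rw [h0, map_zero]))
  have hA1 : φ A ≠ 0 := fun h0 => hA (hinj (by rw [h0, map_zero]))
  set w : FractionRing ℝ[X] := (algebraMap ℝ[X] (FractionRing ℝ[X]) X ^ 2 + 1) /
    (2 * algebraMap ℝ[X] (FractionRing ℝ[X]) X) with hw
  have hw2 : ConstPt.tau ^ 2 + 1 = w ^ 2 := by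
    rw [hw, ConstPt.tau]
    field_simp
    ring
  have hw0 : w ≠ 0 := by
    intro h0
    rw [h0] at hw2
    have h1 : φ (X ^ 2 + 1) = 0 := by
      rw [map_add, map_pow, map_one, hφ, aeval_X, hw2]
      ring
    have h2 : (X ^ 2 + 1 : ℝ[X]) = 0 := hinj (by rw [h1, map_zero])
    have h3 := congrArg (fun p : ℝ[X] => p.eval 0) h2
    simp at h3
  have hG1 : φ G ^ 2 = w ^ 2 * (φ A * φ B * (φ A ^ 2 - 4 * φ B ^ 2)) := by
    have h1 := congrArg φ hG
    simp only [map_mul, map_pow, map_add, map_sub, map_one, map_ofNat] at h1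
    rw [h1, hφ, aeval_X, hw2]
  obtain ⟨c, hc⟩ := ConstPt.const_field (φ A / φ B) (φ G / (w * φ B ^ 2))
    (div_ne_zero hA1 hB1) (by
      field_simp
      linear_combination hG1)
  have hAc : A = C c * B := by
    apply hinj
    rw [map_mul]
    have h1 : φ (C c) = algebraMap ℝ[X] (FractionRing ℝ[X]) (C c) := by
      rw [hφ, aeval_C]
      rw [IsScalarTower.algebraMap_apply ℝ ℝ[X] (FractionRing ℝ[X])]
      rfl
    have h2 : φ A = algebraMap ℝ[X] (FractionRing ℝ[X]) (C c) * φ B := by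
      rw [← hc]
      field_simp
    rw [← h1] at h2
    exact h2
  have hc0 : c ≠ 0 := by
    rintro rfl
    apply hA
    rw [hAc]
    simp
  -- c > 0
  have hcpos : 0 < c := by
    obtain ⟨t, ht⟩ := Set.infinite_univ (α := ℝ) |>.exists_notMem_finset B.roots.toFinset
    have hBt : B.eval t ≠ 0 := by
      intro h0
      apply ht.2
      rw [Multiset.mem_toFinset, mem_roots hB]
      exact h0
    have h1 := congrArg (fun p : ℝ[X] => p.eval t) hAB
    rw [hAc] at h1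
    simp only [eval_mul, eval_C, eval_pow, eval_add, eval_X, eval_one] at h1
    have h2 : 0 ≤ κ * (t ^ 2 + 1) ^ i * m.eval t ^ 2 := by positivity
    have h3 : 0 < B.eval t ^ 2 := by positivity
    rw [← h1] at h2
    have h4 : 0 ≤ c * B.eval t ^ 2 := by linarith
    have h5 : 0 ≤ c := by
      by_contra h6
      push Not at h6
      have := mul_neg_of_neg_of_pos h6 h3
      linarith
    exact lt_of_le_of_ne h5 (Ne.symm hc0)
  have hc4 : c ^ 2 - 4 = 0 := by
    by_contra h4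
    apply ConstPt.nosq' (c * (c ^ 2 - 4)) (mul_ne_zero hc0 h4) G (B ^ 2) (pow_ne_zero _ hB)
    rw [hG, hAc]
    simp only [C_mul, C_sub, C_pow]
    have h4 : (C 4 : ℝ[X]) = 4 := map_ofNat C 4
    rw [h4]
    ring
  have hc2 : c = 2 := by nlinarith
  subst hc2
  refine ⟨hAc, ?_⟩
  by_contra hi
  rw [Nat.not_even_iff_odd] at hi
  obtain ⟨k, rfl⟩ := hi
  rw [hAc] at hAB
  apply ConstPt.nosq' (κ / 2) (by positivity) B ((X ^ 2 + 1) ^ k * m) _ _
  · intro h0
    apply hB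
    have h1 : (C 2 * B * B : ℝ[X]) = 0 := by
      rw [hAB]
      linear_combination (C κ * (X ^ 2 + 1) ^ (k + 1) * m) * h0
    have h2 : (C (2 : ℝ) : ℝ[X]) ≠ 0 := C_ne_zero.2 (by norm_num)
    rcases mul_eq_zero.1 h1 with h | h
    · rcases mul_eq_zero.1 h with h | h
      · exact absurd h h2
      · exact h
    · exact h
  · have h2 : (C (2 : ℝ) : ℝ[X]) ≠ 0 := C_ne_zero.2 (by norm_num)
    have h3 : (C κ : ℝ[X]) = C 2 * C (κ / 2) := by
      rw [← C_mul]
      congr 1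
      ring
    rw [h3] at hAB
    apply mul_left_cancel₀ h2
    linear_combination hAB

end WInv
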