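import Pool.Agent.WInv.RigidDefs

/-!
# Module D5: the rigidity lemma on Newton polygons (MP_2fcb4d_al)
-/

set_option autoImplicit false

namespace WInv

open Polynomial ArchimedeanClass

universe u

namespace Rigid

section Basic

variable {R : Type u} [Field R] [LinearOrder R] [IsStrictOrderedRing R]

theorem mk_mul_le_mul_iff {a b c : R} (hc : c ≠ 0) :
    mk (a * c) ≤ mk (b * c) ↔ mk a ≤ mk b := by
  constructor
  · intro h
    have h2 : mk (a * c) + mk c⁻¹ ≤ mk (b * c) + mk c⁻¹ := add_le_add_left h _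
    rw [← mk_mul, ← mk_mul, mul_inv_cancel_right₀ hc, mul_inv_cancel_right₀ hc] at h2
    exact h2
  · intro h
    rw [mk_mul, mk_mul]
    exact add_le_add_left h _

theorem mk_mul_eq_mul_iff {a b c : R} (hc : c ≠ 0) :
    mk (a * c) = mk (b * c) ↔ mk a = mk b := by
  constructor
  · intro h
    exact le_antisymm ((mk_mul_le_mul_iff hc).1 h.le) ((mk_mul_le_mul_iff hc).1 h.ge)
  · intro h
    rw [mk_mul, mk_mul, h]

/-- smaller radius: lower indices gain -/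
theorem pers_down {a b r s : R} (hr : r ≠ 0) (hs : s ≠ 0) {m k : ℕ} (hmk : m ≤ k)
    (hrs : mk r ≤ mk s) (h : mk (a * r ^ m) ≤ mk (b * r ^ k)) :
    mk (a * s ^ m) ≤ mk (b * s ^ k) := by
  obtain ⟨d, rfl⟩ := Nat.exists_eq_add_of_le hmk
  have e1 : b * r ^ (m + d) = (b * r ^ d) * r ^ m := by ring
  have e2 : b * s ^ (m + d) = (b * s ^ d) * s ^ m := by ring
  rw [e1, mk_mul_le_mul_iff (pow_ne_zero _ hr)] at h
  rw [e2, mk_mul_le_mul_iff (pow_ne_zero _ hs)]
  refine h.trans ?_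
  rw [mk_mul, mk_mul, mk_pow, mk_pow]
  exact add_le_add_right (nsmul_le_nsmul_right hrs d) _

/-- larger radius: higher indices gain -/
theorem pers_up {a b r s : R} (hr : r ≠ 0) (hs : s ≠ 0) {m k : ℕ} (hmk : k ≤ m)
    (hrs : mk s ≤ mk r) (h : mk (a * r ^ m) ≤ mk (b * r ^ k)) :
    mk (a * s ^ m) ≤ mk (b * s ^ k) := by
  obtain ⟨d, rfl⟩ := Nat.exists_eq_add_of_le hmk
  have e1 : a * r ^ (k + d) = (a * r ^ d) * r ^ k := by ring
  have e2 : a * s ^ (k + d) = (a * s ^ d) * s ^ k := by ring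
  rw [e1, mk_mul_le_mul_iff (pow_ne_zero _ hr)] at h
  rw [e2, mk_mul_le_mul_iff (pow_ne_zero _ hs)]
  refine le_trans ?_ h
  rw [mk_mul, mk_mul, mk_pow, mk_pow]
  exact add_le_add_right (nsmul_le_nsmul_right hrs d) _

theorem VV_le {A : R[X]} {r : R} {k : ℕ} (hk : A.coeff k ≠ 0) :
    VV A r ≤ mk (A.coeff k * r ^ k) :=
  Finset.inf_le (f := fun k => mk (A.coeff k * r ^ k)) (mem_support_iff.2 hk)

theorem act_of {A : R[X]} {r : R} {m : ℕ} (hm : A.coeff m ≠ 0)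
    (h : ∀ k, A.coeff k ≠ 0 → mk (A.coeff m * r ^ m) ≤ mk (A.coeff k * r ^ k)) :
    Act A r m :=
  ⟨hm, le_antisymm (Finset.le_inf fun k hk => h k (mem_support_iff.1 hk)) (VV_le hm)⟩

theorem Act.le {A : R[X]} {r : R} {m k : ℕ} (h : Act A r m) (hk : A.coeff k ≠ 0) :
    mk (A.coeff m * r ^ m) ≤ mk (A.coeff k * r ^ k) := by
  rw [h.2]; exact VV_le hk

theorem lt_of_not_act {A : R[X]} {r : R} {m k : ℕ} (h : Act A r m) (hk : A.coeff k ≠ 0)
    (hk' : ¬ Act A r k) : mk (A.coeff m * r ^ m) < mk (A.coeff k * r ^ k) := by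
  refine lt_of_le_of_ne (Act.le h hk) ?_
  intro h2
  exact hk' ⟨hk, by rw [← h2]; exact h.2⟩

theorem exists_act {A : R[X]} (hA : A ≠ 0) (r : R) : ∃ k, Act A r k := by
  have hne : A.support.Nonempty := by
    rwa [Finset.nonempty_iff_ne_empty, Ne, support_eq_empty]
  obtain ⟨k, hk, hk'⟩ := Finset.exists_mem_eq_inf A.support hne
    (fun k => mk (A.coeff k * r ^ k))
  exact ⟨k, mem_support_iff.1 hk, hk'.symm⟩

theorem VV_eq_of_act {A B : R[X]} {r s : R} (hr : r ≠ 0) (hs : s ≠ 0) {m : ℕ}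
    (hA : Act A r m) (hB : Act B r m) (h : VV A r = VV B r)
    (hA' : Act A s m) (hB' : Act B s m) : VV A s = VV B s := by
  rw [← hA.2, ← hB.2, mk_mul_eq_mul_iff (pow_ne_zero _ hr)] at h
  rw [← hA'.2, ← hB'.2, mk_mul_eq_mul_iff (pow_ne_zero _ hs)]
  exact h

end Basic

section Real

variable {R : Type u} [Field R] [LinearOrder R] [IsStrictOrderedRing R] [IsRealClosed R]

/-- crossing radius -/
theorem exists_cross {a b : R} (ha : a ≠ 0) (hb : b ≠ 0) {m k : ℕ} (hkm : k < m) :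
    ∃ s : R, 0 < s ∧ mk (a * s ^ k) = mk (b * s ^ m) := by
  have h0 : 0 ≤ |a| / |b| := by positivity
  obtain ⟨s, hs⟩ := IsRealClosed.exists_eq_pow_of_nonneg h0 (n := m - k) (by omega)
  have hpos : 0 < |a| / |b| := by positivity
  have hs0 : s ≠ 0 := by
    rintro rfl
    rw [zero_pow (by omega)] at hs
    exact hpos.ne' hs
  refine ⟨|s|, abs_pos.2 hs0, ?_⟩
  have h1 : |s| ^ (m - k) = |a| / |b| := by
    rw [← abs_pow, ← hs]; exact abs_of_pos hpos
  have h2 : |b| * |s| ^ m = |a| * |s| ^ k := by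
    have : m = (m - k) + k := by omega
    rw [this, pow_add, h1]
    have hb' : |b| ≠ 0 := abs_ne_zero.2 hb
    field_simp
  rw [mk_mul, ← mk_abs a, ← mk_mul, ← h2, mk_mul, mk_abs b, ← mk_mul]

/-- an inactive lower index crosses at a much smaller radius -/
theorem cross_lt {P : R[X]} {r s : R} (hr : 0 < r) (hs : 0 < s) {m k : ℕ} (hkm : k < m)
    (hact : Act P r m) (hk : P.coeff k ≠ 0) (hk' : ¬ Act P r k)
    (hc : mk (P.coeff k * s ^ k) = mk (P.coeff m * s ^ m)) : mk r < mk s := by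
  by_contra hle
  rw [not_lt] at hle
  exact absurd (lt_of_not_act hact hk hk')
    (not_lt.2 (pers_down hs.ne' hr.ne' hkm.le hle hc.le))

/-- an inactive higher index crosses at a much larger radius -/
theorem cross_gt {P : R[X]} {r s : R} (hr : 0 < r) (hs : 0 < s) {m k : ℕ} (hkm : m < k)
    (hact : Act P r m) (hk : P.coeff k ≠ 0) (hk' : ¬ Act P r k)
    (hc : mk (P.coeff m * s ^ m) = mk (P.coeff k * s ^ k)) : mk s < mk r := by
  by_contra hle
  rw [not_lt] at hle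
  exact absurd (lt_of_not_act hact hk hk')
    (not_lt.2 (pers_up hs.ne' hr.ne' hkm.le hle hc.ge))

theorem down_step {A B : R[X]} {δ : R} (hδ : 0 < δ)
    (hH : ∀ r : R, 0 < r → 0 < mk r → 0 < mk (δ / r) → VV A r = VV B r →
      ∀ k, Act A r k ↔ Act B r k) :
    ∀ (m : ℕ) (r₀ : R), 0 < r₀ → 0 ≤ mk r₀ → mk r₀ < mk δ → VV A r₀ = VV B r₀ →
      LowAct A r₀ m → LowAct B r₀ m → VV A δ = VV B δ := by
  intro m
  induction m using Nat.strong_induction_on with
  | _ m ih =>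
  intro r₀ hr₀ hr₀' hδr heq hmA hmB
  have hAm : A.coeff m ≠ 0 := hmA.1.1
  have hBm : B.coeff m ≠ 0 := hmB.1.1
  -- crossing radii
  have hf : ∀ k, ∃ s : R, 0 < s ∧ (k < m → A.coeff k ≠ 0 →
      mk (A.coeff k * s ^ k) = mk (A.coeff m * s ^ m)) := by
    intro k
    by_cases h : k < m ∧ A.coeff k ≠ 0
    · obtain ⟨s, hs, h2⟩ := exists_cross h.2 hAm h.1
      exact ⟨s, hs, fun _ _ => h2⟩
    · exact ⟨1, one_pos, fun h1 h2 => absurd ⟨h1, h2⟩ h⟩
  have hg : ∀ k, ∃ s : R, 0 < s ∧ (k < m → B.coeff k ≠ 0 →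
      mk (B.coeff k * s ^ k) = mk (B.coeff m * s ^ m)) := by
    intro k
    by_cases h : k < m ∧ B.coeff k ≠ 0
    · obtain ⟨s, hs, h2⟩ := exists_cross h.2 hBm h.1
      exact ⟨s, hs, fun _ _ => h2⟩
    · exact ⟨1, one_pos, fun h1 h2 => absurd ⟨h1, h2⟩ h⟩
  choose f hf0 hf using hf
  choose g hg0 hg using hg
  have hfr : ∀ k, k < m → A.coeff k ≠ 0 → mk r₀ < mk (f k) := fun k hk h =>
    cross_lt hr₀ (hf0 k) hk hmA.1 h (hmA.2 k hk) (hf k hk h)
  have hgr : ∀ k, k < m → B.coeff k ≠ 0 → mk r₀ < mk (g k) := fun k hk h =>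
    cross_lt hr₀ (hg0 k) hk hmB.1 h (hmB.2 k hk) (hg k hk h)
  -- m stays active at each radius between the crossings and r₀
  have key : ∀ r : R, 0 < r → mk r₀ ≤ mk r →
      (∀ k, k < m → A.coeff k ≠ 0 → mk r ≤ mk (f k)) →
      (∀ k, k < m → B.coeff k ≠ 0 → mk r ≤ mk (g k)) →
      Act A r m ∧ Act B r m ∧ VV A r = VV B r := by
    intro r hr hr2 h1 h2
    have hA2 : Act A r m := by
      refine act_of hAm fun k hk => ?_
      rcases lt_or_ge k m with hkm | hkm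
      · exact pers_up (hf0 k).ne' hr.ne' hkm.le (h1 k hkm hk) (hf k hkm hk).ge
      · exact pers_down hr₀.ne' hr.ne' hkm hr2 (Act.le hmA.1 hk)
    have hB2 : Act B r m := by
      refine act_of hBm fun k hk => ?_
      rcases lt_or_ge k m with hkm | hkm
      · exact pers_up (hg0 k).ne' hr.ne' hkm.le (h2 k hkm hk) (hg k hkm hk).ge
      · exact pers_down hr₀.ne' hr.ne' hkm hr2 (Act.le hmB.1 hk)
    exact ⟨hA2, hB2, VV_eq_of_act hr₀.ne' hr.ne' hmA.1 hmB.1 heq hA2 hB2⟩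
  by_cases hall : (∀ k, k < m → A.coeff k ≠ 0 → mk δ ≤ mk (f k)) ∧
      (∀ k, k < m → B.coeff k ≠ 0 → mk δ ≤ mk (g k))
  · exact (key δ hδ hδr.le hall.1 hall.2).2.2
  · -- the largest crossing radius
    classical
    set S : Finset (ArchimedeanClass R) :=
      ((Finset.range m).filter (fun k => A.coeff k ≠ 0)).image (fun k => mk (f k)) ∪
      ((Finset.range m).filter (fun k => B.coeff k ≠ 0)).image (fun k => mk (g k)) with hS
    have memf : ∀ k, k < m → A.coeff k ≠ 0 → mk (f k) ∈ S := fun k hk h =>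
      Finset.mem_union_left _ (Finset.mem_image.2
        ⟨k, Finset.mem_filter.2 ⟨Finset.mem_range.2 hk, h⟩, rfl⟩)
    have memg : ∀ k, k < m → B.coeff k ≠ 0 → mk (g k) ∈ S := fun k hk h =>
      Finset.mem_union_right _ (Finset.mem_image.2
        ⟨k, Finset.mem_filter.2 ⟨Finset.mem_range.2 hk, h⟩, rfl⟩)
    have hex : ∃ x ∈ S, x < mk δ := by
      by_contra hno
      push Not at hno
      exact hall ⟨fun k hk h => hno _ (memf k hk h), fun k hk h => hno _ (memg k hk h)⟩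
    obtain ⟨x, hxS, hx⟩ := hex
    have hne : S.Nonempty := ⟨x, hxS⟩
    have hmin : S.min' hne ∈ S := S.min'_mem hne
    have hmin_lt : S.min' hne < mk δ := lt_of_le_of_lt (S.min'_le x hxS) hx
    -- radius realising the minimum, and an active index below m there
    have hr' : ∃ r : R, 0 < r ∧ mk r = S.min' hne ∧ mk r₀ < mk r ∧
        ((∃ k, k < m ∧ A.coeff k ≠ 0 ∧
          mk (A.coeff k * r ^ k) = mk (A.coeff m * r ^ m)) ∨
        (∃ k, k < m ∧ B.coeff k ≠ 0 ∧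
          mk (B.coeff k * r ^ k) = mk (B.coeff m * r ^ m))) := by
      rcases Finset.mem_union.1 hmin with h | h
      · obtain ⟨k, hk, hk2⟩ := Finset.mem_image.1 h
        rw [Finset.mem_filter, Finset.mem_range] at hk
        exact ⟨f k, hf0 k, hk2, hfr k hk.1 hk.2, Or.inl ⟨k, hk.1, hk.2, hf k hk.1 hk.2⟩⟩
      · obtain ⟨k, hk, hk2⟩ := Finset.mem_image.1 h
        rw [Finset.mem_filter, Finset.mem_range] at hk
        exact ⟨g k, hg0 k, hk2, hgr k hk.1 hk.2, Or.inr ⟨k, hk.1, hk.2, hg k hk.1 hk.2⟩⟩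
    obtain ⟨r, hr, hrmin, hr0r, hor⟩ := hr'
    obtain ⟨hA2, hB2, heq2⟩ := key r hr hr0r.le
      (fun k hk h => by rw [hrmin]; exact S.min'_le _ (memf k hk h))
      (fun k hk h => by rw [hrmin]; exact S.min'_le _ (memg k hk h))
    have hrδ : mk r < mk δ := by rw [hrmin]; exact hmin_lt
    have hδr' : 0 < mk (δ / r) := by
      by_contra hle
      rw [not_lt] at hle
      have h3 : mk ((δ / r) * r) ≤ mk (1 * r) := by
        rw [mk_mul_le_mul_iff hr.ne', mk_one]; exact hle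
      rw [div_mul_cancel₀ _ hr.ne', one_mul] at h3
      exact absurd hrδ (not_lt.2 h3)
    have hH' := hH r hr (lt_of_le_of_lt hr₀' hr0r) hδr' heq2
    have hlow : ∃ k, Act A r k := ⟨m, hA2⟩
    have hlt : ∃ k, k < m ∧ Act A r k := by
      rcases hor with ⟨k, hk, hk0, hk2⟩ | ⟨k, hk, hk0, hk2⟩
      · exact ⟨k, hk, hk0, by rw [hk2]; exact hA2.2⟩
      · exact ⟨k, hk, (hH' k).2 ⟨hk0, by rw [hk2]; exact hB2.2⟩⟩
    obtain ⟨k, hkm, hkA⟩ := hlt
    have hfind := Nat.find_spec hlow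
    have hfm : Nat.find hlow < m := lt_of_le_of_lt (Nat.find_min' hlow hkA) hkm
    refine ih (Nat.find hlow) hfm r hr (hr₀'.trans hr0r.le) hrδ heq2
      ⟨hfind, fun j hj => Nat.find_min hlow hj⟩ ⟨(hH' _).1 hfind, fun j hj hjB => ?_⟩
    exact Nat.find_min hlow hj ((hH' j).2 hjB)

theorem up_step {A B : R[X]} {δ : R} (hδ : 0 < δ)
    (hH : ∀ r : R, 0 < r → 0 < mk r → 0 < mk (δ / r) → VV A r = VV B r →
      ∀ k, Act A r k ↔ Act B r k) :
    ∀ (n m : ℕ) (r₀ : R), A.natDegree ≤ m + n → 0 < r₀ → 0 < mk r₀ → mk r₀ ≤ mk δ →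
      VV A r₀ = VV B r₀ → HighAct A r₀ m → HighAct B r₀ m →
      VV A 1 = VV B 1 ∧ ∃ m', LowAct A 1 m' ∧ LowAct B 1 m' := by
  intro n
  induction n using Nat.strong_induction_on with
  | _ n ih =>
  intro m r₀ hdeg hr₀ hr₀' hδr heq hmA hmB
  have hAm : A.coeff m ≠ 0 := hmA.1.1
  have hBm : B.coeff m ≠ 0 := hmB.1.1
  -- crossing radii
  have hf : ∀ k, ∃ s : R, 0 < s ∧ (m < k → A.coeff k ≠ 0 →
      mk (A.coeff m * s ^ m) = mk (A.coeff k * s ^ k)) := by
    intro k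
    by_cases h : m < k ∧ A.coeff k ≠ 0
    · obtain ⟨s, hs, h2⟩ := exists_cross hAm h.2 h.1
      exact ⟨s, hs, fun _ _ => h2⟩
    · exact ⟨1, one_pos, fun h1 h2 => absurd ⟨h1, h2⟩ h⟩
  have hg : ∀ k, ∃ s : R, 0 < s ∧ (m < k → B.coeff k ≠ 0 →
      mk (B.coeff m * s ^ m) = mk (B.coeff k * s ^ k)) := by
    intro k
    by_cases h : m < k ∧ B.coeff k ≠ 0
    · obtain ⟨s, hs, h2⟩ := exists_cross hBm h.2 h.1
      exact ⟨s, hs, fun _ _ => h2⟩
    · exact ⟨1, one_pos, fun h1 h2 => absurd ⟨h1, h2⟩ h⟩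
  choose f hf0 hf using hf
  choose g hg0 hg using hg
  have hfr : ∀ k, m < k → A.coeff k ≠ 0 → mk (f k) < mk r₀ := fun k hk h =>
    cross_gt hr₀ (hf0 k) hk hmA.1 h (hmA.2 k hk) (hf k hk h)
  have hgr : ∀ k, m < k → B.coeff k ≠ 0 → mk (g k) < mk r₀ := fun k hk h =>
    cross_gt hr₀ (hg0 k) hk hmB.1 h (hmB.2 k hk) (hg k hk h)
  -- m stays active at each radius between r₀ and the crossings
  have key : ∀ r : R, 0 < r → mk r ≤ mk r₀ →
      (∀ k, m < k → A.coeff k ≠ 0 → mk (f k) ≤ mk r) →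
      (∀ k, m < k → B.coeff k ≠ 0 → mk (g k) ≤ mk r) →
      Act A r m ∧ Act B r m ∧ VV A r = VV B r := by
    intro r hr hr2 h1 h2
    have hA2 : Act A r m := by
      refine act_of hAm fun k hk => ?_
      rcases lt_or_ge m k with hkm | hkm
      · exact pers_down (hf0 k).ne' hr.ne' hkm.le (h1 k hkm hk) (hf k hkm hk).le
      · exact pers_up hr₀.ne' hr.ne' hkm hr2 (Act.le hmA.1 hk)
    have hB2 : Act B r m := by
      refine act_of hBm fun k hk => ?_
      rcases lt_or_ge m k with hkm | hkm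
      · exact pers_down (hg0 k).ne' hr.ne' hkm.le (h2 k hkm hk) (hg k hkm hk).le
      · exact pers_up hr₀.ne' hr.ne' hkm hr2 (Act.le hmB.1 hk)
    exact ⟨hA2, hB2, VV_eq_of_act hr₀.ne' hr.ne' hmA.1 hmB.1 heq hA2 hB2⟩
  by_cases hall : (∀ k, m < k → A.coeff k ≠ 0 → mk (f k) ≤ 0) ∧
      (∀ k, m < k → B.coeff k ≠ 0 → mk (g k) ≤ 0)
  · obtain ⟨hA1, hB1, heq1⟩ := key 1 one_pos (by rw [mk_one]; exact hr₀'.le)
      (fun k hk h => by rw [mk_one]; exact hall.1 k hk h)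
      (fun k hk h => by rw [mk_one]; exact hall.2 k hk h)
    have low : ∀ P : R[X], Act P r₀ m → Act P 1 m → ∀ k < m, ¬ Act P 1 k := by
      intro P hP0 hP1 k hk hPk
      have h1 : mk (P.coeff m * r₀ ^ m) ≤ mk (P.coeff k * r₀ ^ k) := Act.le hP0 hPk.1
      have h2 : mk (P.coeff m * 1 ^ m) = mk (P.coeff k * 1 ^ k) := by rw [hP1.2, hPk.2]
      rw [one_pow, one_pow, mul_one, mul_one] at h2
      obtain ⟨d, rfl⟩ := Nat.exists_eq_add_of_lt hk
      have e1 : P.coeff (k + d + 1) * r₀ ^ (k + d + 1) =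
          (P.coeff (k + d + 1) * r₀ ^ (d + 1)) * r₀ ^ k := by ring
      rw [e1, mk_mul_le_mul_iff (pow_ne_zero _ hr₀.ne'), mk_mul, h2] at h1
      have h3 : mk (r₀ ^ (d + 1) * P.coeff k) ≤ mk (1 * P.coeff k) := by
        rw [mul_comm, mk_mul, one_mul]; exact h1
      rw [mk_mul_le_mul_iff hPk.1, mk_pow, mk_one] at h3
      exact absurd (nsmul_pos hr₀' (by omega)) (not_lt.2 h3)
    exact ⟨heq1, m, ⟨hA1, low A hmA.1 hA1⟩, ⟨hB1, low B hmB.1 hB1⟩⟩
  · -- the smallest crossing radius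
    classical
    set S : Finset (ArchimedeanClass R) :=
      (A.support.filter (fun k => m < k)).image (fun k => mk (f k)) ∪
      (B.support.filter (fun k => m < k)).image (fun k => mk (g k)) with hS
    have memf : ∀ k, m < k → A.coeff k ≠ 0 → mk (f k) ∈ S := fun k hk h =>
      Finset.mem_union_left _ (Finset.mem_image.2
        ⟨k, Finset.mem_filter.2 ⟨mem_support_iff.2 h, hk⟩, rfl⟩)
    have memg : ∀ k, m < k → B.coeff k ≠ 0 → mk (g k) ∈ S := fun k hk h =>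
      Finset.mem_union_right _ (Finset.mem_image.2
        ⟨k, Finset.mem_filter.2 ⟨mem_support_iff.2 h, hk⟩, rfl⟩)
    have hex : ∃ x ∈ S, 0 < x := by
      by_contra hno
      push Not at hno
      exact hall ⟨fun k hk h => hno _ (memf k hk h), fun k hk h => hno _ (memg k hk h)⟩
    obtain ⟨x, hxS, hx⟩ := hex
    have hne : S.Nonempty := ⟨x, hxS⟩
    have hmax : S.max' hne ∈ S := S.max'_mem hne
    have hmax_lt : 0 < S.max' hne := lt_of_lt_of_le hx (S.le_max' x hxS)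
    have hr' : ∃ r : R, 0 < r ∧ mk r = S.max' hne ∧ mk r < mk r₀ ∧
        ((∃ k, m < k ∧ A.coeff k ≠ 0 ∧
          mk (A.coeff k * r ^ k) = mk (A.coeff m * r ^ m)) ∨
        (∃ k, m < k ∧ B.coeff k ≠ 0 ∧
          mk (B.coeff k * r ^ k) = mk (B.coeff m * r ^ m))) := by
      rcases Finset.mem_union.1 hmax with h | h
      · obtain ⟨k, hk, hk2⟩ := Finset.mem_image.1 h
        rw [Finset.mem_filter, mem_support_iff] at hk
        exact ⟨f k, hf0 k, hk2, hfr k hk.2 hk.1,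
          Or.inl ⟨k, hk.2, hk.1, (hf k hk.2 hk.1).symm⟩⟩
      · obtain ⟨k, hk, hk2⟩ := Finset.mem_image.1 h
        rw [Finset.mem_filter, mem_support_iff] at hk
        exact ⟨g k, hg0 k, hk2, hgr k hk.2 hk.1,
          Or.inr ⟨k, hk.2, hk.1, (hg k hk.2 hk.1).symm⟩⟩
    obtain ⟨r, hr, hrmax, hr0r, hor⟩ := hr'
    obtain ⟨hA2, hB2, heq2⟩ := key r hr hr0r.le
      (fun k hk h => by rw [hrmax]; exact S.le_max' _ (memf k hk h))
      (fun k hk h => by rw [hrmax]; exact S.le_max' _ (memg k hk h))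
    have hrpos : 0 < mk r := by rw [hrmax]; exact hmax_lt
    have hrδ : mk r < mk δ := lt_of_lt_of_le hr0r hδr
    have hδr' : 0 < mk (δ / r) := by
      by_contra hle
      rw [not_lt] at hle
      have h3 : mk ((δ / r) * r) ≤ mk (1 * r) := by
        rw [mk_mul_le_mul_iff hr.ne', mk_one]; exact hle
      rw [div_mul_cancel₀ _ hr.ne', one_mul] at h3
      exact absurd hrδ (not_lt.2 h3)
    have hH' := hH r hr hrpos hδr' heq2
    have hlt : ∃ k, m < k ∧ Act A r k := by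
      rcases hor with ⟨k, hk, hk0, hk2⟩ | ⟨k, hk, hk0, hk2⟩
      · exact ⟨k, hk, hk0, by rw [hk2]; exact hA2.2⟩
      · exact ⟨k, hk, (hH' k).2 ⟨hk0, by rw [hk2]; exact hB2.2⟩⟩
    obtain ⟨k, hkm, hkA⟩ := hlt
    -- the highest active index
    set T : Finset ℕ := A.support.filter (fun k => Act A r k) with hT
    have memT : ∀ k, k ∈ T ↔ Act A r k := by
      intro k
      rw [hT, Finset.mem_filter, mem_support_iff]
      exact ⟨fun h => h.2, fun h => ⟨h.1, h⟩⟩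
    have hTne : T.Nonempty := ⟨k, (memT k).2 hkA⟩
    have hm' : Act A r (T.max' hTne) := (memT _).1 (T.max'_mem hTne)
    have hmm' : m < T.max' hTne := lt_of_lt_of_le hkm (T.le_max' k ((memT k).2 hkA))
    have hdeg' : T.max' hTne ≤ A.natDegree := le_natDegree_of_ne_zero hm'.1
    have htop : ∀ j > T.max' hTne, ¬ Act A r j := fun j hj hjA =>
      absurd (T.le_max' j ((memT j).2 hjA)) (not_le.2 hj)
    refine ih (A.natDegree - T.max' hTne) (by omega) (T.max' hTne) r (by omega) hr hrpos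
      hrδ.le heq2 ⟨hm', htop⟩ ⟨(hH' _).1 hm', fun j hj hjB => ?_⟩
    exact htop j hj ((hH' j).2 hjB)

end Real

end Rigid

variable {R : Type u} [Field R] [LinearOrder R] [IsStrictOrderedRing R] [IsRealClosed R]

theorem rigid_down {A B : R[X]} (hA : A ≠ 0) (hB : B ≠ 0) {δ : R} (hδ : 0 < δ) (hδ' : 0 < mk δ)
    (hN : ∀ r : R, 0 < r → VV A r ≤ VV B r)
    (hH : ∀ r : R, 0 < r → 0 < mk r → 0 < mk (δ / r) → VV B r ≤ VV A r →
      ∀ k, Act A r k ↔ Act B r k)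
    (h1 : VV B 1 ≤ VV A 1) {m : ℕ} (hmA : LowAct A 1 m) (hmB : LowAct B 1 m) :
    VV B δ ≤ VV A δ := by
  refine (Rigid.down_step hδ (fun r h1 h2 h3 h4 => hH r h1 h2 h3 h4.ge) m 1 one_pos
    (by rw [mk_one]) (by rw [mk_one]; exact hδ') (le_antisymm (hN 1 one_pos) h1) hmA hmB).ge

theorem rigid_up {A B : R[X]} (hA : A ≠ 0) (hB : B ≠ 0) {δ : R} (hδ : 0 < δ) (hδ' : 0 < mk δ)
    (hN : ∀ r : R, 0 < r → VV A r ≤ VV B r)
    (hH : ∀ r : R, 0 < r → 0 < mk r → 0 < mk (δ / r) → VV B r ≤ VV A r →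
      ∀ k, Act A r k ↔ Act B r k)
    (h1 : VV B δ ≤ VV A δ) {m : ℕ} (hmA : HighAct A δ m) (hmB : HighAct B δ m) :
    VV B 1 ≤ VV A 1 ∧ ∃ m', LowAct A 1 m' ∧ LowAct B 1 m' := by
  obtain ⟨h, h2⟩ := Rigid.up_step hδ (fun r h1 h2 h3 h4 => hH r h1 h2 h3 h4.ge) A.natDegree m δ
    (by omega) hδ hδ' le_rfl (le_antisymm (hN δ hδ) h1) hmA hmB
  exact ⟨h.ge, h2⟩

end WInv
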