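import Pool.Agent.WInv.Local
import Pool.Agent.WInv.Rigid

/-!
# Module D7: parity of `i + j` (MP_2fcb4d_al)
-/

set_option autoImplicit false

namespace WInv

open Polynomial ArchimedeanClass

universe u

variable {R : Type u} [Field R] [LinearOrder R] [IsStrictOrderedRing R] [IsRealClosed R]

theorem ddag {δ α β : R} (hδ : 0 < δ) (hδ' : 0 < mk δ) (hα : 0 < α) (hα' : 0 < mk α)
    (hβ : 0 < β) (hβ' : 0 < mk β) {A B : R[X]} {i j : ℕ} (h : DD δ α β A B i j) :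
    Odd (i + j) := by
  have hN := local_pos hδ hα hβ h
  have hM := local_mid hδ hδ' hα hα' hβ hβ' h
  rcases local_one hδ hδ' hα hα' hβ hβ' h with ⟨hj, h1, m, hmA, hmB⟩ | ⟨hj, h1⟩
  · rcases local_delta hδ hδ' hα hα' hβ hβ' h with ⟨hi, -⟩ | ⟨-, hd⟩
    · exact Even.add_odd hi hj
    · exact absurd (rigid_down h.1 h.2.1 hδ hδ' hN hM h1 hmA hmB) hd
  · rcases local_delta hδ hδ' hα hα' hβ hβ' h with ⟨-, hd, m, hmA, hmB⟩ | ⟨hi, -⟩
    · exact absurd (rigid_up h.1 h.2.1 hδ hδ' hN hM hd hmA hmB) h1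
    · exact Odd.add_even hi hj

end WInv
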