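import Pool.Agent.WInv.Defs

/-!
# Data of the example (MP_2fcb4d_al)
-/

set_option autoImplicit false

namespace WInv

open Polynomial

universe u

variable {R : Type u} [Field R]

/-- `e₁ = p² + δ²` -/
noncomputable def e1 (δ : R) : R[X] := X ^ 2 + C (δ ^ 2)
/-- `g₁ = p² + σ²` -/
noncomputable def g1 (σ : R) : R[X] := X ^ 2 + C (σ ^ 2)
/-- `g₂ = σ² p² + 1` -/
noncomputable def g2 (σ : R) : R[X] := C (σ ^ 2) * X ^ 2 + 1
/-- `e₂ = δ² p² + 1` -/
noncomputable def e2 (δ : R) : R[X] := C (δ ^ 2) * X ^ 2 + 1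

/-- `a = x² + p² + 1` in `R[p][x]` -/
noncomputable def apol (R : Type u) [Field R] : R[X][X] := X ^ 2 + C (X ^ 2 + 1)
/-- `b = e₁² x⁴ + e₂² g₁ g₂` in `R[p][x]` -/
noncomputable def bpol (δ σ : R) : R[X][X] := C (e1 δ ^ 2) * X ^ 4 + C (e2 δ ^ 2 * g1 σ * g2 σ)

/-- The field `L = R(c₀, c₁)`; inner variable `c₀`, outer variable `c₁`. -/
abbrev LL (R : Type u) [Field R] : Type u := FractionRing R[X][X]

/-- `c₀` -/
noncomputable def c0 (R : Type u) [Field R] : LL R := algebraMap R[X][X] (LL R) (C X)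
/-- `c₁` -/
noncomputable def c1 (R : Type u) [Field R] : LL R := algebraMap R[X][X] (LL R) X

/-- Restriction to the generic line: `p ↦ p`, `x ↦ c₀ + c₁ p`. -/
noncomputable def psi (R : Type u) [Field R] : R[X][X] →+* (LL R)[X] :=
  eval₂RingHom (mapRingHom (algebraMap R (LL R))) (C (c0 R) + C (c1 R) * X)

/-- The total degree, computed on the generic line. -/
noncomputable def D (h : R[X][X]) : ℕ := (psi R h).natDegree

/-- There is no rational point of odd degree (in suitable coordinates) on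
`e₁² y₁⁴ + e₂² g₁ g₂ y₂⁴ = ρ²`. -/
def NoLin (δ σ : R) : Prop :=
  ∀ y₁ y₂ ρ : R[X], IsCoprime y₁ y₂ → y₂ ≠ 0 → Odd (max y₁.natDegree (y₂.natDegree + 1)) →
    e1 δ ^ 2 * y₁ ^ 4 + e2 δ ^ 2 * g1 σ * g2 σ * y₂ ^ 4 ≠ ρ ^ 2

/-- No irreducible curve of odd total degree over which `b` becomes a square. -/
def NoOddCurve (δ σ : R) : Prop :=
  ∀ h f g : R[X][X], Prime h → Odd (D h) → ¬ h ∣ g → ¬ h ∣ f ^ 2 - bpol δ σ * g ^ 2

/-- The key statement, in polynomial form (`R[p][x][z]`, outer variable `z`). -/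
def KeyStatement (δ σ : R) : Prop :=
  ∀ (n : ℕ) (u v w : R[X][X][X]) (s : Fin n → R[X][X][X]),
    C (apol R) * X * u ^ 2 + C (bpol δ σ) * (1 - X) * v ^ 2 -
      C (apol R) * C (bpol δ σ) * (X * (1 - X)) * w ^ 2 = ∑ i, s i ^ 2 →
    ∑ i, s i ^ 2 = 0

end WInv
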