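import Mathlib

/-!
# Shared definitions for MP_2fcb4d_al (the w-invariant)

Only internal working definitions live here: formally real rings, sums of squares,
diagonal forms, Lagrangians, Pfister forms.
-/

set_option autoImplicit false

namespace WInv

open Polynomial

universe u v

/-- Formally real (elementary version). -/
def FR (F : Type*) [CommRing F] : Prop :=
  ∀ (n : ℕ) (f : Fin n → F), ∑ i, f i ^ 2 = 0 → ∀ i, f i = 0

/-- Sum of squares. -/
def SoS {F : Type*} [CommRing F] (s : F) : Prop :=
  ∃ (n : ℕ) (f : Fin n → F), s = ∑ i, f i ^ 2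

/-- A polynomial that is a nonzero sum of squares at each point of each formally real
extension field. -/
def PD {L : Type u} [Field L] (a : L[X]) : Prop :=
  ∀ (E : Type u) [Field E] [Algebra L E], FR E → ∀ ξ : E, aeval ξ a ≠ 0 ∧ SoS (aeval ξ a)

section Forms

variable {F : Type*} [CommRing F] {ι : Type*} [Fintype ι]

/-- The value of the diagonal form `w` at `x`. -/
def dq (w x : ι → F) : F := ∑ i, w i * x i ^ 2

/-- The bilinear form of the diagonal form `w` (normalised by `db w x x = dq w x`). -/
def db (w x y : ι → F) : F := ∑ i, w i * x i * y i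

/-- Anisotropic diagonal form. -/
def Aniso (w : ι → F) : Prop := ∀ x : ι → F, dq w x = 0 → x = 0

/-- All diagonal entries are nonzero. -/
def NZ (w : ι → F) : Prop := ∀ i, w i ≠ 0

end Forms

section Lagrangian

variable {F : Type*} [Field F] {ι κ : Type*} [Fintype ι] [Fintype κ]

/-- The diagonal form `w` has a totally isotropic subspace of half the dimension. -/
def Lag (w : ι → F) : Prop :=
  ∃ U : Submodule F (ι → F), 2 * Module.finrank F U = Fintype.card ι ∧ ∀ x ∈ U, dq w x = 0

/-- Witt equivalence of (nondegenerate) diagonal forms: `w ⊥ -w'` has a Lagrangian. -/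
def WEq (w : ι → F) (w' : κ → F) : Prop := Lag (Sum.elim w (fun j => - w' j))

end Lagrangian

/-- The Pfister form `⊗ ⟨1, a i⟩`, indexed by subsets. -/
def pf {F : Type*} [CommRing F] {n : ℕ} (a : Fin n → F) : Finset (Fin n) → F :=
  fun S => ∏ i ∈ S, a i

/-- `TL n A`: every system of `r` quadratic forms in more than `r * 2 ^ n` variables over `A`
has a nontrivial common zero. -/
def TL (n : ℕ) (A : Type*) [CommRing A] : Prop :=
  ∀ (r m : ℕ), r * 2 ^ n < m → ∀ c : Fin r → Fin m → Fin m → A,
    ∃ v : Fin m → A, v ≠ 0 ∧ ∀ j, ∑ a, ∑ b, c j a b * v a * v b = 0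

/-- `U9 K`: every quadratic form in nine variables over `K(√-1)` is isotropic, written in
coordinates over `K`. -/
def U9 (K : Type*) [CommRing K] : Prop :=
  ∀ a b : Fin 9 → K, ∃ x y : Fin 9 → K, (x ≠ 0 ∨ y ≠ 0) ∧
    ∑ j, (a j * (x j ^ 2 - y j ^ 2) - b j * (2 * x j * y j)) = 0 ∧
    ∑ j, (b j * (x j ^ 2 - y j ^ 2) + a j * (2 * x j * y j)) = 0

end WInv
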