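import Pool.Agent.WInv.Defs

/-!
# Module D1: `y² = x³ - 4 s x` over `ℝ(s)` (MP_2fcb4d_al)
-/

set_option autoImplicit false

namespace WInv

open Polynomial

namespace EZero

theorem exists_const_pow {a b g : ℝ[X]} (hab : IsCoprime a b) {k : ℕ} (h : a * b = g ^ k) :
    ∃ (c : ℝ) (d : ℝ[X]), c ≠ 0 ∧ a = C c * d ^ k := by
  obtain ⟨d, u, hu⟩ := exists_associated_pow_of_mul_eq_pow' hab h
  obtain ⟨c, hc, hc'⟩ := Polynomial.isUnit_iff.1 u.isUnit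
  exact ⟨c, d, hc.ne_zero, by rw [← hu, ← hc', mul_comm]⟩

theorem exists_pos_eval_ne {p : ℝ[X]} (hp : p ≠ 0) : ∃ t : ℝ, 0 < t ∧ p.eval t ≠ 0 := by
  by_contra hcon
  push Not at hcon
  apply hp
  apply Polynomial.eq_zero_of_infinite_isRoot
  exact (Set.Ioi_infinite (0 : ℝ)).mono fun t ht => hcon t ht

theorem exists_neg_eval_ne {p : ℝ[X]} (hp : p ≠ 0) : ∃ t : ℝ, t < 0 ∧ p.eval t ≠ 0 := by
  by_contra hcon
  push Not at hcon
  apply hp
  apply Polynomial.eq_zero_of_infinite_isRoot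
  exact (Set.Iio_infinite (0 : ℝ)).mono fun t ht => hcon t ht

theorem exists_pow_four {c : ℝ} (hc : 0 < c) : ∃ e : ℝ, 0 < e ∧ e ^ 4 = c := by
  refine ⟨Real.sqrt (Real.sqrt c), Real.sqrt_pos.2 (Real.sqrt_pos.2 hc), ?_⟩
  have h1 : Real.sqrt (Real.sqrt c) ^ 2 = Real.sqrt c := Real.sq_sqrt (Real.sqrt_nonneg c)
  have h2 : Real.sqrt c ^ 2 = c := Real.sq_sqrt hc.le
  calc Real.sqrt (Real.sqrt c) ^ 4 = (Real.sqrt (Real.sqrt c) ^ 2) ^ 2 := by ring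
    _ = c := by rw [h1, h2]

theorem exists_pow_two {c : ℝ} (hc : 0 < c) : ∃ e : ℝ, 0 < e ∧ e ^ 2 = c :=
  ⟨Real.sqrt c, Real.sqrt_pos.2 hc, Real.sq_sqrt hc.le⟩

/-- A prime does not divide a nonzero constant. -/
theorem prime_dvd_C_mul {π p : ℝ[X]} (hπ : Prime π) {c : ℝ} (hc : c ≠ 0) (h : π ∣ C c * p) :
    π ∣ p := by
  rcases hπ.dvd_or_dvd h with h | h
  · exact absurd (isUnit_of_dvd_unit h (Polynomial.isUnit_C.2 (isUnit_iff_ne_zero.2 hc))) hπ.not_isUnit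
  · exact h

theorem coprime_factors {p q g m : ℝ[X]} (hmg : IsCoprime m g) (hne : p * q ≠ 0)
    (hpq : p * q = X * g ^ 4)
    (hm : ∀ π : ℝ[X], Prime π → π ∣ p → π ∣ q → π ∣ m) : IsCoprime p q := by
  apply isCoprime_of_prime_dvd
  · rintro ⟨h1, -⟩
    exact hne (by rw [h1, zero_mul])
  · intro π hπ h1 h2
    have h3 := hm π hπ h1 h2
    have h4 : ¬ π ∣ g := fun h => hπ.not_isUnit (hmg.isUnit_of_dvd' h3 h)
    have h5 : ¬ π ∣ g ^ 4 := fun h => h4 (hπ.dvd_of_dvd_pow h)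
    have h6 : π * π ∣ X * g ^ 4 := by rw [← hpq]; exact mul_dvd_mul h1 h2
    have h7 : π ∣ X := (hπ.dvd_or_dvd ((dvd_mul_right π π).trans h6)).resolve_right h5
    obtain ⟨v, hv⟩ := h7
    have hX : Irreducible (X : ℝ[X]) := Polynomial.irreducible_X
    have hvu : IsUnit v := by
      rcases hX.isUnit_or_isUnit hv with h | h
      · exact absurd h hπ.not_isUnit
      · exact h
    have h8 : π ∣ v * g ^ 4 := by
      rw [hv, mul_assoc] at h6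
      exact (mul_dvd_mul_iff_left hπ.ne_zero).1 h6
    rcases hπ.dvd_or_dvd h8 with h | h
    · exact hπ.not_isUnit (isUnit_of_dvd_unit h hvu)
    · exact h5 h

/-- Factorisation of coprime `p`, `q` with `p q = X g⁴`. -/
theorem split_factors {p q g : ℝ[X]} (hc : IsCoprime p q) (hg : g ≠ 0)
    (hpq : p * q = X * g ^ 4) :
    ∃ (c₁ c₂ : ℝ) (m₁ m₂ : ℝ[X]), 0 < c₁ * c₂ ∧ m₁ ≠ 0 ∧ m₂ ≠ 0 ∧ IsCoprime m₁ m₂ ∧
      g.natDegree = m₁.natDegree + m₂.natDegree ∧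
      ((p = C c₁ * (X * m₁ ^ 4) ∧ q = C c₂ * m₂ ^ 4) ∨
        (q = C c₁ * (X * m₁ ^ 4) ∧ p = C c₂ * m₂ ^ 4)) := by
  -- the case where `X` divides the first factor
  have key : ∀ p q : ℝ[X], IsCoprime p q → p * q = X * g ^ 4 → X ∣ p →
      ∃ (c₁ c₂ : ℝ) (m₁ m₂ : ℝ[X]), 0 < c₁ * c₂ ∧ m₁ ≠ 0 ∧ m₂ ≠ 0 ∧ IsCoprime m₁ m₂ ∧
      g.natDegree = m₁.natDegree + m₂.natDegree ∧
      (p = C c₁ * (X * m₁ ^ 4) ∧ q = C c₂ * m₂ ^ 4) := by
    intro p q hc hpq hXp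
    obtain ⟨u, rfl⟩ := hXp
    have h1 : u * q = g ^ 4 := by
      have : X * (u * q) = X * g ^ 4 := by rw [← hpq]; ring
      exact mul_left_cancel₀ Polynomial.X_ne_zero this
    have hcu : IsCoprime u q := hc.of_mul_left_right
    obtain ⟨c₁, m₁, hc₁, hu⟩ := exists_const_pow hcu h1
    obtain ⟨c₂, m₂, hc₂, hq⟩ := exists_const_pow hcu.symm (by rw [mul_comm]; exact h1)
    have hg4 : g ^ 4 ≠ 0 := pow_ne_zero _ hg
    have hu0 : u ≠ 0 := by rintro rfl; rw [zero_mul] at h1; exact hg4 h1.symm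
    have hq0 : q ≠ 0 := by rintro rfl; rw [mul_zero] at h1; exact hg4 h1.symm
    have hm₁ : m₁ ≠ 0 := by
      rintro rfl; apply hu0; rw [hu]; simp
    have hm₂ : m₂ ≠ 0 := by
      rintro rfl; apply hq0; rw [hq]; simp
    have hprod : C (c₁ * c₂) * (m₁ * m₂) ^ 4 = g ^ 4 := by
      rw [← h1, hu, hq, C_mul]; ring
    have hpos : 0 < c₁ * c₂ := by
      obtain ⟨t, -, ht⟩ := exists_pos_eval_ne hg
      have h2 := congrArg (Polynomial.eval t) hprod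
      simp only [eval_mul, eval_pow, eval_C] at h2
      have h3 : 0 < (g.eval t) ^ 4 := by positivity
      rw [← h2] at h3
      by_contra hcon
      have h4 : 0 ≤ (m₁.eval t * m₂.eval t) ^ 4 := by positivity
      have : c₁ * c₂ * (m₁.eval t * m₂.eval t) ^ 4 ≤ 0 :=
        mul_nonpos_of_nonpos_of_nonneg (not_lt.1 hcon) h4
      linarith
    refine ⟨c₁, c₂, m₁, m₂, hpos, hm₁, hm₂, ?_, ?_, ?_, hq⟩
    · have h2 : IsCoprime (m₁ ^ 4) (m₂ ^ 4) := by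
        rw [hu, hq] at hcu
        exact (hcu.of_mul_left_right).of_mul_right_right
      exact (IsCoprime.pow_iff (by norm_num) (by norm_num)).1 h2
    · have h2 := congrArg Polynomial.natDegree hprod
      rw [natDegree_C_mul hpos.ne', natDegree_pow, natDegree_pow, natDegree_mul hm₁ hm₂] at h2
      omega
    · rw [hu]; ring
  have hX : Prime (X : ℝ[X]) := Polynomial.prime_X
  have hXpq : X ∣ p * q := by rw [hpq]; exact dvd_mul_right _ _
  rcases hX.dvd_or_dvd hXpq with h | h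
  · obtain ⟨c₁, c₂, m₁, m₂, h1, h2, h3, h4, h5, h6⟩ := key p q hc hpq h
    exact ⟨c₁, c₂, m₁, m₂, h1, h2, h3, h4, h5, Or.inl h6⟩
  · obtain ⟨c₁, c₂, m₁, m₂, h1, h2, h3, h4, h5, h6⟩ := key q p hc.symm (by rw [mul_comm]; exact hpq) h
    exact ⟨c₁, c₂, m₁, m₂, h1, h2, h3, h4, h5, Or.inr h6⟩

theorem natDegree_C_mul' {c : ℝ} (hc : c ≠ 0) (p : ℝ[X]) : (C c * p).natDegree = p.natDegree :=
  natDegree_C_mul hc

theorem coprime_C_mul {c d : ℝ} (hc : c ≠ 0) (hd : d ≠ 0) {p q : ℝ[X]} (h : IsCoprime p q) :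
    IsCoprime (C c * p) (C d * q) := by
  have h1 : IsUnit (C c : ℝ[X]) := Polynomial.isUnit_C.2 (isUnit_iff_ne_zero.2 hc)
  have h2 : IsUnit (C d : ℝ[X]) := Polynomial.isUnit_C.2 (isUnit_iff_ne_zero.2 hd)
  exact (isCoprime_mul_unit_left_left h1 _ _).2 ((isCoprime_mul_unit_left_right h2 _ _).2 h)

/-- First half of the descent. -/
theorem first {z₁ z₂ r : ℝ[X]} (hc : IsCoprime z₁ z₂) (h0 : z₂ ≠ 0)
    (h : z₁ ^ 4 - 4 * X * z₂ ^ 4 = r ^ 2) :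
    ∃ m₁ m₂ : ℝ[X], m₁ ≠ 0 ∧ IsCoprime m₁ m₂ ∧
      z₂.natDegree = m₁.natDegree + m₂.natDegree ∧ 2 * z₁ ^ 2 = X * m₁ ^ 4 + m₂ ^ 4 := by
  obtain ⟨s, hs, hs2⟩ := exists_pow_two (c := 2) (by norm_num)
  have hs4 : s ^ 4 = 4 := by
    calc s ^ 4 = (s ^ 2) ^ 2 := by ring
      _ = 4 := by rw [hs2]; norm_num
  have hpq : (z₁ ^ 2 - r) * (z₁ ^ 2 + r) = X * (C s * z₂) ^ 4 := by
    have h1 : (C s : ℝ[X]) ^ 4 = 4 := by rw [← C_pow, hs4]; rfl
    rw [mul_pow, h1]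
    linear_combination h
  have hg0 : C s * z₂ ≠ 0 := mul_ne_zero (by simpa using hs.ne') h0
  have hne : (z₁ ^ 2 - r) * (z₁ ^ 2 + r) ≠ 0 := by
    rw [hpq]; exact mul_ne_zero X_ne_zero (pow_ne_zero _ hg0)
  have hcop : IsCoprime (z₁ ^ 2 - r) (z₁ ^ 2 + r) := by
    refine coprime_factors (m := z₁) (g := C s * z₂) ?_ hne hpq ?_
    · have := coprime_C_mul (c := 1) (d := s) one_ne_zero hs.ne' hc
      simpa using this
    · intro π hπ h1 h2
      have h3 : π ∣ C 2 * z₁ ^ 2 := by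
        have : (C 2 : ℝ[X]) * z₁ ^ 2 = (z₁ ^ 2 - r) + (z₁ ^ 2 + r) := by
          have : (C 2 : ℝ[X]) = 2 := rfl
          rw [this]; ring
        rw [this]; exact dvd_add h1 h2
      exact hπ.dvd_of_dvd_pow (prime_dvd_C_mul hπ two_ne_zero h3)
  obtain ⟨c₁, c₂, m₁, m₂, hcc, hm₁, hm₂, hmc, hdeg, hcases⟩ := split_factors hcop hg0 hpq
  have hsum : 2 * z₁ ^ 2 = C c₁ * (X * m₁ ^ 4) + C c₂ * m₂ ^ 4 := by
    rcases hcases with ⟨h1, h2⟩ | ⟨h1, h2⟩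
    · rw [← h1, ← h2]; ring
    · rw [← h1, ← h2]; ring
  have hc₁ : 0 < c₁ := by
    by_contra hcon
    have hc1' : c₁ < 0 := by
      rcases lt_or_eq_of_le (not_lt.1 hcon) with h1 | h1
      · exact h1
      · rw [h1, zero_mul] at hcc; exact absurd hcc (lt_irrefl _)
    have hc2' : c₂ < 0 := by
      by_contra h2
      have : c₁ * c₂ ≤ 0 := mul_nonpos_of_nonpos_of_nonneg hc1'.le (not_lt.1 h2)
      linarith
    obtain ⟨t, ht, ht'⟩ := exists_pos_eval_ne hm₁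
    have h1 := congrArg (Polynomial.eval t) hsum
    simp only [eval_mul, eval_pow, eval_C, eval_add, eval_X, eval_ofNat] at h1
    have h2 : 0 < t * (m₁.eval t) ^ 4 := by positivity
    have h3 : 0 ≤ (m₂.eval t) ^ 4 := by positivity
    have h4 : 0 ≤ (z₁.eval t) ^ 2 := by positivity
    nlinarith [mul_neg_of_neg_of_pos hc1' h2, mul_nonpos_of_nonpos_of_nonneg hc2'.le h3]
  have hc₂ : 0 < c₂ := (pos_iff_pos_of_mul_pos hcc).1 hc₁
  obtain ⟨e₁, he₁, he₁'⟩ := exists_pow_four hc₁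
  obtain ⟨e₂, he₂, he₂'⟩ := exists_pow_four hc₂
  refine ⟨C e₁ * m₁, C e₂ * m₂, mul_ne_zero (by simpa using he₁.ne') hm₁,
    coprime_C_mul he₁.ne' he₂.ne' hmc, ?_, ?_⟩
  · rw [natDegree_C_mul he₁.ne', natDegree_C_mul he₂.ne', ← hdeg, natDegree_C_mul hs.ne']
  · rw [hsum, mul_pow, mul_pow, ← C_pow, ← C_pow, he₁', he₂']; ring

/-- Second half of the descent. -/
theorem second {z m₁ m₂ : ℝ[X]} (hc : IsCoprime m₁ m₂) (h0 : m₁ ≠ 0)
    (h : 2 * z ^ 2 = X * m₁ ^ 4 + m₂ ^ 4) :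
    ∃ n₁ n₂ : ℝ[X], n₁ ≠ 0 ∧ IsCoprime n₁ n₂ ∧
      m₁.natDegree = n₁.natDegree + n₂.natDegree ∧ 2 * m₂ ^ 2 = n₂ ^ 4 - X * n₁ ^ 4 := by
  obtain ⟨s, hs, hs2⟩ := exists_pow_two (c := 2) (by norm_num)
  have hCs : (C s : ℝ[X]) ^ 2 = 2 := by rw [← C_pow, hs2]; rfl
  have hpq : (C s * z - m₂ ^ 2) * (C s * z + m₂ ^ 2) = X * m₁ ^ 4 := by
    linear_combination z ^ 2 * hCs + h
  have hne : (C s * z - m₂ ^ 2) * (C s * z + m₂ ^ 2) ≠ 0 := by
    rw [hpq]; exact mul_ne_zero X_ne_zero (pow_ne_zero _ h0)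
  have hcop : IsCoprime (C s * z - m₂ ^ 2) (C s * z + m₂ ^ 2) := by
    refine coprime_factors (m := m₂) (g := m₁) hc.symm hne hpq ?_
    intro π hπ h1 h2
    have h3 : π ∣ C 2 * m₂ ^ 2 := by
      have : (C 2 : ℝ[X]) * m₂ ^ 2 = (C s * z + m₂ ^ 2) - (C s * z - m₂ ^ 2) := by
        have : (C 2 : ℝ[X]) = 2 := rfl
        rw [this]; ring
      rw [this]; exact dvd_sub h2 h1
    exact hπ.dvd_of_dvd_pow (prime_dvd_C_mul hπ two_ne_zero h3)
  obtain ⟨c₁, c₂, n₁, n₂, hcc, hn₁, hn₂, hnc, hdeg, hcases⟩ := split_factors hcop h0 hpq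
  -- `2 m₂² = ε (c₂ n₂⁴ - c₁ X n₁⁴)`
  have hsum : ∃ d₁ d₂ : ℝ, 0 < d₁ * d₂ ∧ 2 * m₂ ^ 2 = C d₂ * n₂ ^ 4 - C d₁ * (X * n₁ ^ 4) := by
    rcases hcases with ⟨h1, h2⟩ | ⟨h1, h2⟩
    · refine ⟨c₁, c₂, hcc, ?_⟩
      rw [← h1, ← h2]; ring
    · refine ⟨-c₁, -c₂, by simpa using hcc, ?_⟩
      rw [C_neg, C_neg]
      linear_combination h1 - h2
  obtain ⟨d₁, d₂, hdd, hsum⟩ := hsum
  have hd₁ : 0 < d₁ := by
    by_contra hcon
    have hc1' : d₁ < 0 := by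
      rcases lt_or_eq_of_le (not_lt.1 hcon) with h1 | h1
      · exact h1
      · rw [h1, zero_mul] at hdd; exact absurd hdd (lt_irrefl _)
    have hc2' : d₂ < 0 := by
      by_contra h2
      have : d₁ * d₂ ≤ 0 := mul_nonpos_of_nonpos_of_nonneg hc1'.le (not_lt.1 h2)
      linarith
    obtain ⟨t, ht, ht'⟩ := exists_neg_eval_ne hn₁
    have h1 := congrArg (Polynomial.eval t) hsum
    simp only [eval_mul, eval_pow, eval_C, eval_sub, eval_X, eval_ofNat] at h1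
    have h2 : t * (n₁.eval t) ^ 4 < 0 := mul_neg_of_neg_of_pos ht (by positivity)
    have h3 : 0 ≤ (n₂.eval t) ^ 4 := by positivity
    have h4 : 0 ≤ (m₂.eval t) ^ 2 := by positivity
    nlinarith [mul_pos_of_neg_of_neg hc1' h2, mul_nonpos_of_nonpos_of_nonneg hc2'.le h3]
  have hd₂ : 0 < d₂ := (pos_iff_pos_of_mul_pos hdd).1 hd₁
  obtain ⟨e₁, he₁, he₁'⟩ := exists_pow_four hd₁
  obtain ⟨e₂, he₂, he₂'⟩ := exists_pow_four hd₂
  refine ⟨C e₁ * n₁, C e₂ * n₂, mul_ne_zero (by simpa using he₁.ne') hn₁,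
    coprime_C_mul he₁.ne' he₂.ne' hnc, ?_, ?_⟩
  · rw [natDegree_C_mul he₁.ne', natDegree_C_mul he₂.ne', ← hdeg]
  · rw [hsum, mul_pow, mul_pow, ← C_pow, ← C_pow, he₁', he₂']; ring

theorem descent {z₁ z₂ r : ℝ[X]} (hc : IsCoprime z₁ z₂) (h0 : z₂ ≠ 0)
    (h : z₁ ^ 4 - 4 * X * z₂ ^ 4 = r ^ 2) :
    ∃ y₁ y₂ s : ℝ[X], y₂ ≠ 0 ∧ IsCoprime y₁ y₂ ∧ y₁ ^ 4 - 4 * X * y₂ ^ 4 = s ^ 2 ∧
      y₂.natDegree < z₂.natDegree := by
  obtain ⟨m₁, m₂, hm₁, hmc, hdeg, hm⟩ := first hc h0 h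
  obtain ⟨n₁, n₂, hn₁, hnc, hdeg', hn⟩ := second hmc hm₁ hm
  obtain ⟨s, hs, hs2⟩ := exists_pow_two (c := 2) (by norm_num)
  have hCs : (C s : ℝ[X]) ^ 2 = 2 := by rw [← C_pow, hs2]; rfl
  have hs' : s⁻¹ ≠ 0 := inv_ne_zero hs.ne'
  have hCi : 4 * (C s⁻¹ : ℝ[X]) ^ 4 = 1 := by
    have h1 : (4 : ℝ) * s⁻¹ ^ 4 = 1 := by
      have h2 : s ^ 4 = 4 := by
        calc s ^ 4 = (s ^ 2) ^ 2 := by ring
          _ = 4 := by rw [hs2]; norm_num
      rw [inv_pow, h2]; norm_num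
    have h3 : (4 : ℝ[X]) = C 4 := rfl
    rw [h3, ← C_pow, ← C_mul, h1, C_1]
  refine ⟨n₂, C s⁻¹ * n₁, C s * m₂, mul_ne_zero (by simpa using hs.ne') hn₁, ?_, ?_, ?_⟩
  · have := coprime_C_mul (c := 1) (d := s⁻¹) one_ne_zero hs' hnc.symm
    simpa using this
  · linear_combination (-X * n₁ ^ 4) * hCi - hn - m₂ ^ 2 * hCs
  · rw [natDegree_C_mul hs']
    by_contra hcon
    have h1 : n₂.natDegree = 0 := by omega
    have h2 : m₂.natDegree = 0 := by omega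
    have h3 : X * n₁ ^ 4 = n₂ ^ 4 - 2 * m₂ ^ 2 := by rw [hn]; ring
    have h4 : (X * n₁ ^ 4).natDegree = 4 * n₁.natDegree + 1 := by
      rw [natDegree_mul X_ne_zero (pow_ne_zero _ hn₁), natDegree_X, natDegree_pow]; ring
    have h5 : (n₂ ^ 4 - 2 * m₂ ^ 2).natDegree = 0 := by
      obtain ⟨a, ha⟩ := natDegree_eq_zero.1 h1
      obtain ⟨b, hb⟩ := natDegree_eq_zero.1 h2
      have : n₂ ^ 4 - 2 * m₂ ^ 2 = C (a ^ 4 - 2 * b ^ 2) := by
        have h22 : (2 : ℝ[X]) = C 2 := rfl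
        rw [← ha, ← hb, h22, C_sub, C_mul, C_pow, C_pow]
      rw [this, natDegree_C]
    rw [h3, h5] at h4
    omega

end EZero

/-- First descent: `z₁⁴ - 4 s z₂⁴ = r²` has only the solutions with `z₂ = 0`. -/
theorem e_zero_quartic (z₁ z₂ r : ℝ[X]) (hc : IsCoprime z₁ z₂)
    (h : z₁ ^ 4 - 4 * X * z₂ ^ 4 = r ^ 2) : z₂ = 0 := by
  induction hn : z₂.natDegree using Nat.strong_induction_on generalizing z₁ z₂ r with
  | _ n ih =>
    by_contra h0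
    obtain ⟨y₁, y₂, s, hy, hyc, hys, hlt⟩ := EZero.descent hc h0 h
    exact hy (ih _ (hn ▸ hlt) y₁ y₂ s hyc hys rfl)

namespace EZero

theorem four_eq : (4 : ℝ[X]) = C 4 := rfl

/-- The coprime case of `e_zero`, `X` does not divide `A`. -/
theorem coprime_not_dvd {A B G : ℝ[X]} (hc : IsCoprime A B) (hA : A ≠ 0) (hB : B ≠ 0)
    (hX : ¬ X ∣ A) (h : G ^ 2 = A * B * (A ^ 2 - 4 * X * B ^ 2)) : False := by
  have hBC : IsCoprime B (A ^ 2 - 4 * X * B ^ 2) := by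
    have h1 : A ^ 2 - 4 * X * B ^ 2 = A ^ 2 + B * (-4 * X * B) := by ring
    rw [h1]
    exact (hc.symm.pow_right).add_mul_left_right _
  have hAC : IsCoprime A (A ^ 2 - 4 * X * B ^ 2) := by
    apply isCoprime_of_prime_dvd
    · rintro ⟨h1, -⟩; exact hA h1
    · intro π hπ h1 h2
      have h3 : π ∣ C 4 * (X * B ^ 2) := by
        have : C 4 * (X * B ^ 2) = A * A - (A ^ 2 - 4 * X * B ^ 2) := by rw [four_eq]; ring
        rw [this]
        exact dvd_sub (h1.mul_right _) h2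
      rcases hπ.dvd_or_dvd (prime_dvd_C_mul hπ four_ne_zero h3) with h4 | h4
      · exact hX ((hπ.irreducible.dvd_symm irreducible_X h4).trans h1)
      · exact hπ.not_isUnit (hc.isUnit_of_dvd' h1 (hπ.dvd_of_dvd_pow h4))
  obtain ⟨a, a₁, ha, hAa⟩ := exists_const_pow (hc.mul_right hAC) (k := 2) (g := G)
    (by rw [h]; ring)
  obtain ⟨b, b₁, hb, hBb⟩ := exists_const_pow (hc.symm.mul_right hBC) (k := 2) (g := G)
    (by rw [h]; ring)
  obtain ⟨c, c₁, hcc, hCc⟩ := exists_const_pow (hAC.symm.mul_right hBC.symm) (k := 2) (g := G)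
    (by rw [h]; ring)
  have hcpos : 0 < c := by
    obtain ⟨t, ht, ht'⟩ := exists_neg_eval_ne hA
    have h1 := congrArg (Polynomial.eval t) hCc
    simp only [eval_mul, eval_pow, eval_C, eval_sub, eval_X, eval_ofNat] at h1
    have h2 : 0 < A.eval t ^ 2 := by positivity
    have h3 : 0 ≤ B.eval t ^ 2 := by positivity
    have h4 : 0 < c * eval t c₁ ^ 2 := by
      rw [← h1]
      nlinarith [mul_nonpos_of_nonpos_of_nonneg ht.le h3]
    by_contra hcon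
    have : c * eval t c₁ ^ 2 ≤ 0 :=
      mul_nonpos_of_nonpos_of_nonneg (not_lt.1 hcon) (by positivity)
    linarith
  obtain ⟨e, he, he4⟩ := exists_pow_four (c := a ^ 2) (by positivity)
  obtain ⟨f, hf, hf4⟩ := exists_pow_four (c := b ^ 2) (by positivity)
  obtain ⟨g, hg, hg2⟩ := exists_pow_two hcpos
  have hcop : IsCoprime (C e * a₁) (C f * b₁) := by
    apply coprime_C_mul he.ne' hf.ne'
    have h2 : IsCoprime (a₁ ^ 2) (b₁ ^ 2) := by
      rw [hAa, hBb] at hc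
      exact (hc.of_mul_left_right).of_mul_right_right
    exact (IsCoprime.pow_iff (by norm_num) (by norm_num)).1 h2
  have h0 := e_zero_quartic (C e * a₁) (C f * b₁) (C g * c₁) hcop (by
    rw [mul_pow, mul_pow, mul_pow, ← C_pow, ← C_pow, ← C_pow, he4, hf4, hg2, ← hCc]
    have h1 : A ^ 2 = C (a ^ 2) * a₁ ^ 4 := by rw [hAa, C_pow]; ring
    have h2 : B ^ 2 = C (b ^ 2) * b₁ ^ 4 := by rw [hBb, C_pow]; ring
    rw [h1, h2])
  have hb₁ : b₁ = 0 := by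
    rcases mul_eq_zero.1 h0 with h1 | h1
    · exact absurd (C_eq_zero.1 h1) hf.ne'
    · exact h1
  apply hB
  rw [hBb, hb₁]; simp

/-- The coprime case of `e_zero`, `X` divides `A`. -/
theorem coprime_dvd {A B G : ℝ[X]} (hc : IsCoprime (X * A) B) (hA : A ≠ 0)
    (h : G ^ 2 = -A * B * (4 * B ^ 2 - X * A ^ 2)) : False := by
  have hXB : IsCoprime X B := hc.of_mul_left_left
  have hAB : IsCoprime A B := hc.of_mul_left_right
  have hBC : IsCoprime B (4 * B ^ 2 - X * A ^ 2) := by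
    have h1 : 4 * B ^ 2 - X * A ^ 2 = -(X * A ^ 2) + B * (4 * B) := by ring
    rw [h1]
    exact ((hXB.symm.mul_right hAB.symm.pow_right).neg_right).add_mul_left_right _
  have hAC : IsCoprime A (4 * B ^ 2 - X * A ^ 2) := by
    have h1 : 4 * B ^ 2 - X * A ^ 2 = C 4 * B ^ 2 + A * (-(X * A)) := by rw [← four_eq]; ring
    rw [h1]
    have h2 : IsUnit (C 4 : ℝ[X]) := Polynomial.isUnit_C.2 (isUnit_iff_ne_zero.2 four_ne_zero)
    exact ((isCoprime_mul_unit_left_right h2 _ _).2 hAB.pow_right).add_mul_left_right _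
  obtain ⟨a, a₁, ha, hAa⟩ := exists_const_pow ((hAB.mul_right hAC).neg_left) (k := 2) (g := G)
    (by rw [h]; ring)
  obtain ⟨b, b₁, hb, hBb⟩ := exists_const_pow ((hAB.symm.neg_right).mul_right hBC)
    (k := 2) (g := G) (by rw [h]; ring)
  obtain ⟨c, c₁, hcc, hCc⟩ := exists_const_pow ((hAC.symm.neg_right).mul_right hBC.symm)
    (k := 2) (g := G) (by rw [h]; ring)
  have hcpos : 0 < c := by
    obtain ⟨t, ht, ht'⟩ := exists_neg_eval_ne hA
    have h1 := congrArg (Polynomial.eval t) hCc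
    simp only [eval_mul, eval_pow, eval_C, eval_sub, eval_X, eval_ofNat] at h1
    have h2 : 0 < A.eval t ^ 2 := by positivity
    have h3 : 0 ≤ B.eval t ^ 2 := by positivity
    have h4 : 0 < c * eval t c₁ ^ 2 := by
      rw [← h1]
      nlinarith [mul_neg_of_neg_of_pos ht h2]
    by_contra hcon
    have : c * eval t c₁ ^ 2 ≤ 0 :=
      mul_nonpos_of_nonpos_of_nonneg (not_lt.1 hcon) (by positivity)
    linarith
  obtain ⟨e, he, he4⟩ := exists_pow_four (c := a ^ 2 / 4) (by positivity)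
  obtain ⟨f, hf, hf4⟩ := exists_pow_four (c := 4 * b ^ 2) (by positivity)
  obtain ⟨g, hg, hg2⟩ := exists_pow_two hcpos
  have hcop : IsCoprime (C f * b₁) (C e * a₁) := by
    apply coprime_C_mul hf.ne' he.ne'
    have h2 : IsCoprime (a₁ ^ 2) (b₁ ^ 2) := by
      have h3 := hAB.neg_left
      rw [hAa, hBb] at h3
      exact (h3.of_mul_left_right).of_mul_right_right
    exact ((IsCoprime.pow_iff (by norm_num) (by norm_num)).1 h2).symm
  have h0 := e_zero_quartic (C f * b₁) (C e * a₁) (C g * c₁) hcop (by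
    rw [mul_pow, mul_pow, mul_pow, ← C_pow, ← C_pow, ← C_pow, he4, hf4, hg2, ← hCc]
    have h1 : A ^ 2 = C (a ^ 2) * a₁ ^ 4 := by
      have : A ^ 2 = (-A) ^ 2 := by ring
      rw [this, hAa, C_pow]; ring
    have h2 : B ^ 2 = C (b ^ 2) * b₁ ^ 4 := by rw [hBb, C_pow]; ring
    have h3 : 4 * (C (a ^ 2 / 4) : ℝ[X]) = C (a ^ 2) := by
      rw [four_eq, ← C_mul]; congr 1; ring
    rw [h1, h2, C_mul, ← four_eq, ← h3]
    ring)
  have ha₁ : a₁ = 0 := by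
    rcases mul_eq_zero.1 h0 with h1 | h1
    · exact absurd (C_eq_zero.1 h1) he.ne'
    · exact h1
  apply hA
  have : -A = 0 := by rw [hAa, ha₁]; simp
  simpa using this

theorem e_zero_coprime {A B G : ℝ[X]} (hc : IsCoprime A B) (hA : A ≠ 0) (hB : B ≠ 0)
    (h : G ^ 2 = A * B * (A ^ 2 - 4 * X * B ^ 2)) : False := by
  by_cases hX : X ∣ A
  · obtain ⟨A₁, rfl⟩ := hX
    have hXG : X ∣ G := by
      apply (Polynomial.prime_X (R := ℝ)).dvd_of_dvd_pow (n := 2)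
      rw [h]
      exact ((dvd_mul_right _ _).mul_right _).mul_right _
    obtain ⟨G₁, rfl⟩ := hXG
    have hA₁ : A₁ ≠ 0 := by rintro rfl; exact hA (mul_zero _)
    refine coprime_dvd (G := G₁) hc hA₁ ?_
    have h1 : (X : ℝ[X]) ^ 2 ≠ 0 := pow_ne_zero _ X_ne_zero
    apply mul_left_cancel₀ h1
    linear_combination h
  · exact coprime_not_dvd hc hA hB hX h

end EZero

/-- `y² = x³ - 4 s x` over `ℝ(s)` has only the point with `x = 0` (here `x = A / B`,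
`y = G / B ^ 2`). -/
theorem e_zero (A B G : ℝ[X]) (hB : B ≠ 0)
    (h : G ^ 2 = A * B * (A ^ 2 - 4 * X * B ^ 2)) : A = 0 := by
  by_contra hA
  set d := EuclideanDomain.gcd A B with hd
  have hd0 : d ≠ 0 := by
    rw [hd, Ne, EuclideanDomain.gcd_eq_zero_iff]
    exact fun h => hA h.1
  obtain ⟨A', hA'⟩ := EuclideanDomain.gcd_dvd_left A B
  obtain ⟨B', hB'⟩ := EuclideanDomain.gcd_dvd_right A B
  rw [← hd] at hA' hB'
  have hcop : IsCoprime A' B' := by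
    obtain ⟨u, v, huv⟩ : ∃ u v, A * u + B * v = d :=
      ⟨_, _, (EuclideanDomain.gcd_eq_gcd_ab A B).symm⟩
    refine ⟨u, v, ?_⟩
    apply mul_left_cancel₀ hd0
    rw [mul_one]
    calc d * (u * A' + v * B') = (d * A') * u + (d * B') * v := by ring
      _ = A * u + B * v := by rw [← hA', ← hB']
      _ = d := huv
  have hdG : d ^ 2 ∣ G := by
    have h1 : (d ^ 2) ^ 2 ∣ G ^ 2 := by
      rw [h, hA', hB']
      exact ⟨A' * B' * (A' ^ 2 - 4 * X * B' ^ 2), by ring⟩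
    exact (IsIntegrallyClosed.pow_dvd_pow_iff two_ne_zero).1 h1
  obtain ⟨G', hG'⟩ := hdG
  have hA0 : A' ≠ 0 := by rintro rfl; exact hA (by rw [hA', mul_zero])
  have hB0 : B' ≠ 0 := by rintro rfl; exact hB (by rw [hB', mul_zero])
  refine EZero.e_zero_coprime (G := G') hcop hA0 hB0 ?_
  have h1 : d ^ 4 ≠ 0 := pow_ne_zero _ hd0
  apply mul_left_cancel₀ h1
  rw [hG', hA', hB'] at h
  linear_combination h

end WInv
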