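import Pool.Agent.WInv.Defs

/-!
# Module D8a: square parts of positive polynomials (MP_2fcb4d_al)
-/

set_option autoImplicit false

namespace WInv

open Polynomial

universe u

variable {R : Type u} [Field R] [LinearOrder R] [IsStrictOrderedRing R] [IsRealClosed R]

/-- A polynomial without roots in a real closed field has even degree. -/
theorem even_natDegree_of_no_root {m : R[X]} (hm : ∀ t, m.eval t ≠ 0) : Even m.natDegree := by
  by_contra hodd
  rw [Nat.not_even_iff_odd] at hodd
  obtain ⟨x, hx⟩ := IsRealClosed.exists_isRoot_of_odd_natDegree hodd
  exact hm x hx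

/-- Auxiliary: coprimality of powers of nonassociated primes. -/
theorem Factor.isCoprime_of_not_associated {q s : R[X]} (hq : Prime q) (hs : Prime s)
    (h : ¬ Associated q s) (a b : ℕ) : IsCoprime (q ^ a) (s ^ b) := by
  apply IsCoprime.pow
  rw [hq.irreducible.coprime_iff_not_dvd]
  intro hd
  exact h (hq.irreducible.associated_of_dvd hs.irreducible hd)

/-- If the primes not associated to one of the `S k` divide the positive polynomial `N` to
even powers then `N` is a product of powers of the `S k` and a square. -/
theorem exists_factor {n : ℕ} (N : R[X]) (hN : ∀ t, 0 < N.eval t) (S : Fin n → R[X])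
    (hS : ∀ k, Prime (S k)) (hpos : ∀ k t, 0 < (S k).eval t)
    (hev : ∀ q : R[X], Prime q → (∀ k, ¬ Associated q (S k)) → ∀ a : ℕ,
      q ^ (2 * a + 1) ∣ N → q ^ (2 * a + 2) ∣ N) :
    ∃ (c : R) (i : Fin n → ℕ) (m : R[X]), 0 < c ∧ (∀ t, m.eval t ≠ 0) ∧ Even m.natDegree ∧
      N = C c * (∏ k, S k ^ i k) * m ^ 2 := by
  classical
  induction hd : N.natDegree using Nat.strong_induction_on generalizing N with
  | _ d ih =>
    have hN0 : N ≠ 0 := by
      intro h0
      have := hN 0
      rw [h0, eval_zero] at this
      exact lt_irrefl _ this
    by_cases hu : IsUnit N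
    · obtain ⟨c, hc⟩ := Polynomial.isUnit_iff.1 hu
      refine ⟨c, fun _ => 0, 1, ?_, ?_, ?_, ?_⟩
      · have := hN 0
        rw [← hc.2, eval_C] at this
        exact this
      · intro t
        simp
      · simp
      · simp [hc.2]
    · obtain ⟨q, hqi, hqd⟩ := WfDvdMonoid.exists_irreducible_factor hu hN0
      have hq : Prime q := hqi.prime
      by_cases hk : ∃ k, Associated q (S k)
      · obtain ⟨k, hk⟩ := hk
        obtain ⟨N', hN'⟩ : S k ∣ N := hk.symm.dvd.trans hqd
        have hN'pos : ∀ t, 0 < N'.eval t := by
          intro t
          have h1 := hN t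
          rw [hN', eval_mul] at h1
          exact (mul_pos_iff_of_pos_left (hpos k t)).1 h1
        have hN'0 : N' ≠ 0 := by
          rintro rfl
          exact hN0 (by rw [hN', mul_zero])
        have hSk0 : (S k).natDegree ≠ 0 := by
          have := (hS k).irreducible.natDegree_pos
          omega
        have hlt : N'.natDegree < d := by
          rw [← hd, hN', natDegree_mul (hS k).ne_zero hN'0]
          omega
        obtain ⟨c, i, m, hc, hm, hme, hN'eq⟩ := ih _ hlt N' hN'pos (by
          intro p hp hpS a ha
          have h1 : p ^ (2 * a + 1) ∣ N := ha.trans ⟨S k, by rw [hN']; ring⟩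
          have h2 := hev p hp hpS a h1
          rw [hN'] at h2
          have h3 := Factor.isCoprime_of_not_associated hp (hS k) (hpS k) (2 * a + 2) 1
          rw [pow_one] at h3
          exact h3.dvd_of_dvd_mul_left h2) rfl
        refine ⟨c, fun l => if l = k then i l + 1 else i l, m, hc, hm, hme, ?_⟩
        have hprod : ∏ l, S l ^ (if l = k then i l + 1 else i l) =
            S k * ∏ l, S l ^ i l := by
          rw [← Finset.mul_prod_erase Finset.univ _ (Finset.mem_univ k),
            ← Finset.mul_prod_erase Finset.univ (fun l => S l ^ i l) (Finset.mem_univ k)]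
          rw [if_pos rfl, ← mul_assoc]
          congr 1
          · ring
          · refine Finset.prod_congr rfl ?_
            intro l hl
            rw [if_neg (Finset.ne_of_mem_erase hl)]
        rw [hprod, hN', hN'eq]
        ring
      · push Not at hk
        have hq2 : q ^ 2 ∣ N := by
          have := hev q hq hk 0 (by simpa using hqd)
          simpa using this
        obtain ⟨N', hN'⟩ := hq2
        have hqe : ∀ t, q.eval t ≠ 0 := by
          intro t ht
          have h1 := hN t
          rw [hN', eval_mul, eval_pow, ht] at h1
          simp at h1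
        have hN'pos : ∀ t, 0 < N'.eval t := by
          intro t
          have h1 := hN t
          rw [hN', eval_mul, eval_pow] at h1
          exact (mul_pos_iff_of_pos_left (by have := hqe t; positivity)).1 h1
        have hN'0 : N' ≠ 0 := by
          rintro rfl
          exact hN0 (by rw [hN', mul_zero])
        have hqdeg := hqi.natDegree_pos
        have hlt : N'.natDegree < d := by
          rw [← hd, hN', natDegree_mul (pow_ne_zero _ hqi.ne_zero) hN'0, natDegree_pow]
          omega
        obtain ⟨c, i, m, hc, hm, hme, hN'eq⟩ := ih _ hlt N' hN'pos (by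
          intro p hp hpS a ha
          by_cases hpq : Associated p q
          · have h1 : p ^ (2 * (a + 1) + 1) ∣ N := by
              have h2 : p ^ 2 ∣ q ^ 2 := pow_dvd_pow_of_dvd hpq.dvd 2
              have h3 := mul_dvd_mul h2 ha
              rw [← hN'] at h3
              convert h3 using 1
              ring
            have h4 := hev p hp hpS (a + 1) h1
            have h5 : q ^ 2 * p ^ (2 * a + 2) ∣ q ^ 2 * N' := by
              rw [← hN']
              have h6 : q ^ 2 ∣ p ^ 2 := pow_dvd_pow_of_dvd hpq.symm.dvd 2
              refine (mul_dvd_mul_right h6 _).trans ?_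
              convert h4 using 1
              ring
            exact (mul_dvd_mul_iff_left (pow_ne_zero 2 hqi.ne_zero)).1 h5
          · have h1 : p ^ (2 * a + 1) ∣ N := ha.trans ⟨q ^ 2, by rw [hN']; ring⟩
            have h2 := hev p hp hpS a h1
            rw [hN'] at h2
            exact (Factor.isCoprime_of_not_associated hp hq hpq (2 * a + 2) 2).dvd_of_dvd_mul_left
              h2) rfl
        have hm' : ∀ t, (q * m).eval t ≠ 0 := by
          intro t
          rw [eval_mul]
          exact mul_ne_zero (hqe t) (hm t)
        refine ⟨c, i, q * m, hc, hm', even_natDegree_of_no_root hm', ?_⟩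
        rw [hN', hN'eq]
        ring

end WInv
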