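import Pool.Agent.WInv.Split
import Pool.Agent.WInv.CasselsPfister

/-!
# Module Q6: generic values (MP_2fcb4d_al)
-/

set_option autoImplicit false

namespace WInv

open Polynomial

universe u

namespace Gen

section
variable {F : Type*} [Field F] {ι κ : Type*} [Fintype ι] [Fintype κ]

theorem db_eq [DecidableEq ι] (w x y : ι → F) :
    db w x y = dotProduct x ((Matrix.diagonal w).mulVec y) := by
  unfold db dotProduct
  apply Finset.sum_congr rfl
  intro i _
  rw [Matrix.mulVec_diagonal]
  ring

theorem db_self (w x : ι → F) : db w x x = dq w x := by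
  unfold db dq
  apply Finset.sum_congr rfl
  intro i _
  ring

theorem db_comm (w x y : ι → F) : db w x y = db w y x := by
  unfold db
  apply Finset.sum_congr rfl
  intro i _
  ring

theorem dq_add (w x y : ι → F) : dq w (x + y) = dq w x + 2 * db w x y + dq w y := by
  unfold dq db
  rw [Finset.mul_sum, ← Finset.sum_add_distrib, ← Finset.sum_add_distrib]
  apply Finset.sum_congr rfl
  intro i _
  simp only [Pi.add_apply]
  ring

theorem dq_smul (w x : ι → F) (a : F) : dq w (a • x) = a ^ 2 * dq w x := by
  unfold dq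
  rw [Finset.mul_sum]
  apply Finset.sum_congr rfl
  intro i _
  simp only [Pi.smul_apply, smul_eq_mul]
  ring

theorem db_smul_right (w x y : ι → F) (a : F) : db w x (a • y) = a * db w x y := by
  unfold db
  rw [Finset.mul_sum]
  apply Finset.sum_congr rfl
  intro i _
  simp only [Pi.smul_apply, smul_eq_mul]
  ring

theorem db_smul_left (w x y : ι → F) (a : F) : db w (a • x) y = a * db w x y := by
  rw [db_comm, db_smul_right, db_comm]

theorem db_add_left (w x y z : ι → F) : db w (x + y) z = db w x z + db w y z := by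
  unfold db
  rw [← Finset.sum_add_distrib]
  apply Finset.sum_congr rfl
  intro i _
  simp only [Pi.add_apply]
  ring

theorem db_add_right (w x y z : ι → F) : db w z (x + y) = db w z x + db w z y := by
  rw [db_comm, db_add_left, db_comm w x, db_comm w y]

theorem db_mulVec [DecidableEq ι] [DecidableEq κ] (w : ι → F) (d : κ → F) (P : Matrix ι κ F)
    (h : P.transpose * Matrix.diagonal w * P = Matrix.diagonal d) (y z : κ → F) :
    db w (P.mulVec y) (P.mulVec z) = db d y z := by
  rw [db_eq, db_eq, ← h, Matrix.mulVec_mulVec, Matrix.dotProduct_mulVec, Matrix.dotProduct_mulVec,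
    ← Matrix.vecMul_vecMul, ← Matrix.vecMul_vecMul, ← Matrix.vecMul_vecMul, Matrix.vecMul_transpose]

theorem dq_mulVec [DecidableEq ι] [DecidableEq κ] (w : ι → F) (d : κ → F) (P : Matrix ι κ F)
    (h : P.transpose * Matrix.diagonal w * P = Matrix.diagonal d) (y : κ → F) :
    dq w (P.mulVec y) = dq d y := by
  rw [← db_self, db_mulVec w d P h, db_self]

/-- Move `f` to `e` or `-e` by a reflection. -/
theorem reflect (h2 : (2 : F) ≠ 0) (w f e v : ι → F) (hfe : dq w f = dq w e) (he : dq w e ≠ 0)
    (hv : db w v f = 0) : ∃ v', dq w v' = dq w v ∧ db w v' e = 0 := by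
  have key : ∀ ε : F, ε ^ 2 = 1 → dq w (f + (-ε) • e) ≠ 0 →
      ∃ v', dq w v' = dq w v ∧ db w v' e = 0 := by
    intro ε hε hu
    set u : ι → F := f + (-ε) • e with hu'
    have hε0 : ε ≠ 0 := by rintro rfl; norm_num at hε
    have h1 : dq w u = 2 * (dq w f - ε * db w f e) := by
      rw [hu', dq_add, dq_smul, db_smul_right, ← hfe]
      linear_combination (dq w f) * hε
    refine ⟨v + (-(2 * db w v u / dq w u)) • u, ?_, ?_⟩
    · rw [dq_add, dq_smul, db_smul_right]
      field_simp
      ring
    · have h3 : db w v u = -ε * db w v e := by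
        rw [hu', db_add_right, hv, db_smul_right]; ring
      have h4 : db w u e = db w f e - ε * dq w f := by
        rw [hu', db_add_left, db_smul_left, db_self, hfe]; ring
      rw [db_add_left, db_smul_left, h3, h4]
      have h5 : dq w u ≠ 0 := hu
      rw [h1] at h5
      have h6 : (2 : F) * (dq w f - ε * db w f e) ≠ 0 := h5
      have h7 : dq w f - ε * db w f e ≠ 0 := fun h => h6 (by rw [h, mul_zero])
      rw [h1]
      field_simp
      linear_combination (-(db w v e * dq w f)) * hε
  by_cases h : dq w (f + (-1 : F) • e) = 0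
  · apply key (-1) (by ring)
    intro h'
    rw [dq_add, dq_smul, db_smul_right] at h h'
    apply he
    have h4 : (4 : F) * dq w e = 0 := by
      linear_combination h + h' - 2 * hfe
    have h5 : (4 : F) ≠ 0 := by
      have : (4 : F) = 2 * 2 := by norm_num
      rw [this]
      exact mul_ne_zero h2 h2
    exact (mul_eq_zero.1 h4).resolve_left h5
  · exact key 1 (by ring) h

end

end Gen

/-- The field `F(X₁, …, X_N)` as an iterated rational function field, with the three properties
used in the Hauptsatz. -/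
theorem exists_gen (N : ℕ) (F : Type u) [Field F] (h2 : (2 : F) ≠ 0) :
    ∃ (F₀ : Type u) (_ : Field F₀) (φ : F →+* F₀) (X : Fin N → F₀),
      (∀ (m : ℕ) (w : Fin m → F), Aniso w → Aniso (fun i => φ (w i))) ∧
      (∀ (m : ℕ) (w : Fin m → F), NZ w → Aniso w → ∀ (b₀ : F) (b : Fin N → F), b₀ ≠ 0 →
        (∀ i, b i ≠ 0) →
        (∃ x : Fin m → F₀, dq (fun i => φ (w i)) x = φ b₀ + ∑ i, φ (b i) * X i ^ 2) →
        N + 1 ≤ m) ∧
      (∀ (m : ℕ) (w : Fin m → F), Aniso w → ∀ c : F,
        (∃ x : Fin m → F₀, dq (fun i => φ (w i)) x = φ c) → ∃ y : Fin m → F, dq w y = c) := by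
  induction N with
  | zero =>
    refine ⟨F, inferInstance, RingHom.id F, Fin.elim0, fun m w hw => hw, ?_, ?_⟩
    · rintro m w _ _ b₀ b hb₀ _ ⟨x, hx⟩
      rcases Nat.eq_zero_or_pos m with rfl | hm
      · exfalso
        apply hb₀
        simpa [dq] using hx.symm
      · omega
    · rintro m w _ c ⟨x, hx⟩
      exact ⟨x, hx⟩
  | succ N ih =>
    obtain ⟨F₀, hF, φ, X, G1, G2, G3⟩ := ih
    have h2' : (2 : F₀) ≠ 0 := by
      have := (map_ne_zero φ).2 h2
      rwa [map_ofNat] at this
    refine ⟨RatFunc F₀, inferInstance, (algebraMap F₀ (RatFunc F₀)).comp φ,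
      Fin.snoc (α := fun _ => RatFunc F₀) (fun i => algebraMap F₀ (RatFunc F₀) (X i)) RatFunc.X,
      ?_, ?_, ?_⟩
    · intro m w hw
      exact aniso_ratFunc (G1 m w hw)
    · rintro m w hw hwa b₀ b hb₀ hb ⟨x, hx⟩
      have hx' : dq (fun i => algebraMap F₀ (RatFunc F₀) (φ (w i))) x =
          algebraMap F₀ (RatFunc F₀) (φ b₀ + ∑ i : Fin N, φ (b i.castSucc) * X i ^ 2) +
          algebraMap F₀ (RatFunc F₀) (φ (b (Fin.last N))) * RatFunc.X ^ 2 := by
        refine hx.trans ?_
        rw [Fin.sum_univ_castSucc]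
        simp only [Fin.snoc_castSucc, Fin.snoc_last, RingHom.comp_apply, map_add, map_sum,
          map_mul, map_pow, add_assoc]
      obtain ⟨f₀, f₁, h0, h01, h1⟩ := cassels_pfister h2' (G1 m w hwa) _ _ x hx'
      obtain ⟨e, he⟩ := G3 m w hwa (b (Fin.last N)) ⟨f₁, h1⟩
      have he0 : dq w e ≠ 0 := by rw [he]; exact hb _
      have hφ : dq (fun i => φ (w i)) (fun i => φ (e i)) = φ (dq w e) := by
        unfold dq
        rw [map_sum]
        apply Finset.sum_congr rfl
        intro i _
        rw [map_mul, map_pow]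
      obtain ⟨g, hg, hge⟩ := Gen.reflect h2' (fun i => φ (w i)) f₁ (fun i => φ (e i)) f₀
        (by rw [hφ, he, h1]) (by rw [hφ]; exact (map_ne_zero φ).2 he0) h01
      obtain ⟨m', w', P, Q, hcard, hw', hPQ, hQP, hP, hPe⟩ := exists_compl h2 hw e he0
      -- transport to `F₀`
      have hP' : (P.map φ).transpose * Matrix.diagonal (fun i => φ (w i)) * (P.map φ) =
          Matrix.diagonal (Sum.elim (fun _ : Unit => φ (dq w e)) (fun j => φ (w' j))) := by
        have h3 := congrArg (fun M => Matrix.map M φ) hP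
        rw [Matrix.map_mul, Matrix.map_mul, Matrix.diagonal_map (map_zero φ),
          Matrix.diagonal_map (map_zero φ), Matrix.transpose_map] at h3
        rw [h3]
        congr 1
        funext j
        rcases j with j | j <;> rfl
      have hPQ' : P.map φ * Q.map φ = 1 := by
        rw [← Matrix.map_mul, hPQ, Matrix.map_one _ (map_zero φ) (map_one φ)]
      set y : Unit ⊕ Fin m' → F₀ := (Q.map φ).mulVec g with hy
      have hPy : (P.map φ).mulVec y = g := by
        rw [hy, Matrix.mulVec_mulVec, hPQ', Matrix.one_mulVec]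
      have hPe' : (P.map φ).mulVec (Pi.single (Sum.inl ()) 1) = fun i => φ (e i) := by
        funext i
        rw [Matrix.mulVec_single_one]
        simp [hPe]
      have hy0 : y (Sum.inl ()) = 0 := by
        have h3 := Gen.db_mulVec _ _ (P.map φ) hP' y (Pi.single (Sum.inl ()) 1)
        rw [hPy, hPe', hge] at h3
        have h4 : φ (dq w e) * y (Sum.inl ()) = 0 := by
          rw [h3]
          simp [db, Fintype.sum_sum_type]
        exact (mul_eq_zero.1 h4).resolve_left ((map_ne_zero φ).2 he0)
      have hyq : dq (fun j => φ (w' j)) (fun j => y (Sum.inr j)) =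
          φ b₀ + ∑ i : Fin N, φ (b i.castSucc) * X i ^ 2 := by
        have h3 := Gen.dq_mulVec _ _ (P.map φ) hP' y
        rw [hPy, hg, h0] at h3
        rw [h3]
        simp [dq, Fintype.sum_sum_type, hy0]
      have hwa' : Aniso w' := by
        intro z hz
        have h3 := Gen.dq_mulVec _ _ P hP (Sum.elim (fun _ => 0) z)
        have h4 : dq (Sum.elim (fun _ : Unit => dq w e) w') (Sum.elim (fun _ => 0) z) = 0 := by
          unfold dq at hz ⊢
          simp [Fintype.sum_sum_type, hz]
        rw [h4] at h3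
        have h5 := hwa _ h3
        have h6 : Q.mulVec (P.mulVec (Sum.elim (fun _ => 0) z)) = Sum.elim (fun _ => 0) z := by
          rw [Matrix.mulVec_mulVec, hQP, Matrix.one_mulVec]
        rw [h5, Matrix.mulVec_zero] at h6
        funext j
        have := congrFun h6 (Sum.inr j)
        simpa using this.symm
      have h7 := G2 m' w' hw' hwa' b₀ (fun i => b i.castSucc) hb₀ (fun i => hb _) ⟨_, hyq⟩
      rw [Fintype.card_fin] at hcard
      omega
    · rintro m w hwa c ⟨x, hx⟩
      have hx' : dq (fun i => algebraMap F₀ (RatFunc F₀) (φ (w i))) x =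
          algebraMap F₀ (RatFunc F₀) (φ c) +
          algebraMap F₀ (RatFunc F₀) 0 * RatFunc.X ^ 2 := by
        rw [map_zero, zero_mul, add_zero]
        exact hx
      obtain ⟨f₀, f₁, h0, _, _⟩ := cassels_pfister h2' (G1 m w hwa) _ _ x hx'
      exact G3 m w hwa c ⟨f₀, h0⟩

end WInv
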