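import Pool.Agent.WInv.Defs

/-!
# Module H2: the hypercomplex numbers (MP_2fcb4d_al)
-/

set_option autoImplicit false

namespace WInv

open Polynomial

namespace GermComplex

open Filter

/-- The ultrapower of the complex numbers. -/
abbrev HC : Type := Germ (hyperfilter ℕ : Filter ℕ) ℂ

/-- The class map as a ring homomorphism. -/
noncomputable abbrev cls : (ℕ → ℂ) →+* HC := Germ.coeRingHom (hyperfilter ℕ : Filter ℕ)

lemma cls_surj : Function.Surjective cls := by
  intro z
  refine Germ.inductionOn z fun f => ⟨f, rfl⟩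

lemma exists_root (p : HC[X]) (hm : p.Monic) (hn : p.natDegree ≠ 0) : ∃ z, p.eval z = 0 := by
  classical
  choose f hf using fun i => cls_surj (p.coeff i)
  set n := p.natDegree with hn0
  -- the polynomials at each index
  let P : ℕ → ℂ[X] := fun k => X ^ n + ∑ i ∈ Finset.range n, C (f i k) * X ^ i
  have hdeg : ∀ k, (∑ i ∈ Finset.range n, C (f i k) * X ^ i : ℂ[X]).degree < n := by
    intro k
    rw [Polynomial.degree_lt_iff_coeff_zero]
    intro m hm
    rw [Polynomial.finset_sum_coeff]
    refine Finset.sum_eq_zero fun i hi => ?_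
    rw [Polynomial.coeff_C_mul_X_pow, if_neg]
    have := Finset.mem_range.1 hi
    omega
  have hroot : ∀ k, ∃ z, (P k).eval z = 0 := by
    intro k
    apply IsAlgClosed.exists_root
    have : (P k).degree = n := by
      change (X ^ n + ∑ i ∈ Finset.range n, C (f i k) * X ^ i : ℂ[X]).degree = n
      rw [Polynomial.degree_add_eq_left_of_degree_lt]
      · exact Polynomial.degree_X_pow n
      · rw [Polynomial.degree_X_pow]; exact hdeg k
    rw [this]
    exact_mod_cast hn
  choose z hz using hroot
  refine ⟨cls z, ?_⟩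
  rw [Polynomial.eval_eq_sum_range, ← hn0, Finset.sum_range_succ]
  have hlead : p.coeff n = 1 := hm
  rw [hlead, one_mul]
  have h1 : (fun k => (P k).eval (z k)) = 0 := funext hz
  have h2 : cls (fun k => (P k).eval (z k)) = 0 := by rw [h1, map_zero]
  have h3 : (fun k => (P k).eval (z k)) = z ^ n + ∑ i ∈ Finset.range n, f i * z ^ i := by
    funext k
    simp [P, Polynomial.eval_finset_sum]
  rw [h3, map_add, map_sum, map_pow] at h2
  rw [add_comm]
  rw [← h2]
  congr 1
  refine Finset.sum_congr rfl fun i _ => ?_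
  rw [map_mul, map_pow, hf]

instance : IsAlgClosed HC := by
  refine IsAlgClosed.of_exists_root HC fun p hm hirr => ?_
  exact exists_root p hm (Polynomial.natDegree_pos_iff_degree_pos.2
    (Polynomial.degree_pos_of_irreducible hirr)).ne'

/-- The embedding of the hyperreal numbers. -/
noncomputable def phi : Hyperreal →+* HC where
  toFun x := Germ.map Complex.ofReal (x : Germ (hyperfilter ℕ : Filter ℕ) ℝ)
  map_one' := by
    change Germ.map Complex.ofReal ((1 : ℕ → ℝ) : Germ (hyperfilter ℕ : Filter ℕ) ℝ) = _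
    rw [Germ.map_coe]
    change cls (Complex.ofReal ∘ 1) = 1
    have : (Complex.ofReal ∘ 1 : ℕ → ℂ) = 1 := by funext k; simp
    rw [this, map_one]
  map_zero' := by
    change Germ.map Complex.ofReal ((0 : ℕ → ℝ) : Germ (hyperfilter ℕ : Filter ℕ) ℝ) = _
    rw [Germ.map_coe]
    change cls (Complex.ofReal ∘ 0) = 0
    have : (Complex.ofReal ∘ 0 : ℕ → ℂ) = 0 := by funext k; simp
    rw [this, map_zero]
  map_mul' x y := by
    refine Germ.inductionOn₂ x y fun f g => ?_
    change Germ.map Complex.ofReal ((f * g : ℕ → ℝ) : Germ (hyperfilter ℕ : Filter ℕ) ℝ) = _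
    rw [Germ.map_coe, Germ.map_coe, Germ.map_coe]
    change cls (Complex.ofReal ∘ (f * g)) = cls (Complex.ofReal ∘ f) * cls (Complex.ofReal ∘ g)
    rw [← map_mul]
    congr 1
    funext k
    simp
  map_add' x y := by
    refine Germ.inductionOn₂ x y fun f g => ?_
    change Germ.map Complex.ofReal ((f + g : ℕ → ℝ) : Germ (hyperfilter ℕ : Filter ℕ) ℝ) = _
    rw [Germ.map_coe, Germ.map_coe, Germ.map_coe]
    change cls (Complex.ofReal ∘ (f + g)) = cls (Complex.ofReal ∘ f) + cls (Complex.ofReal ∘ g)
    rw [← map_add]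
    congr 1
    funext k
    simp

lemma phi_coe (f : ℕ → ℝ) :
    phi ((f : Germ (hyperfilter ℕ : Filter ℕ) ℝ) : Hyperreal) = cls (Complex.ofReal ∘ f) := rfl

end GermComplex

open GermComplex Filter in
/-- The ultrapower of `ℂ` is an algebraically closed field containing the hyperreals and `i`. -/
theorem exists_hypercomplex :
    ∃ (C : Type) (_ : Field C) (_ : IsAlgClosed C) (φ : Hyperreal →+* C) (I : C),
      I ^ 2 = -1 ∧ ∀ z : C, ∃ a b : Hyperreal, z = φ a + φ b * I := by
  refine ⟨HC, inferInstance, inferInstance, phi, cls (fun _ => Complex.I), ?_, ?_⟩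
  · rw [← map_pow]
    have : (fun _ : ℕ => Complex.I) ^ 2 = -1 := by
      funext k
      simp
    rw [this, map_neg, map_one]
  · intro z
    obtain ⟨f, rfl⟩ := cls_surj z
    refine ⟨(((fun k => (f k).re : ℕ → ℝ) : Germ (hyperfilter ℕ : Filter ℕ) ℝ) : Hyperreal),
      (((fun k => (f k).im : ℕ → ℝ) : Germ (hyperfilter ℕ : Filter ℕ) ℝ) : Hyperreal), ?_⟩
    rw [phi_coe, phi_coe, ← map_mul, ← map_add]
    congr 1
    funext k
    simp

end WInv
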