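import Pool.Agent.WInv.OddPlace
import Pool.Agent.WInv.OddExt

/-!
# Module B3: one half of the key lemma (MP_2fcb4d_al)
-/

set_option autoImplicit false

namespace WInv

open Polynomial

universe u

/-- `M` is the maximum of the half degrees of the three terms `a u², b v², a b w²` where
`deg a = 2 α`, `deg b = 2 β`. -/
def IsM {N : Type*} [Field N] (α β : ℕ) (u v w : N[X]) (M : ℕ) : Prop :=
  (u ≠ 0 → α + u.natDegree ≤ M) ∧ (v ≠ 0 → β + v.natDegree ≤ M) ∧
  (w ≠ 0 → α + β + w.natDegree ≤ M) ∧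
  ((u ≠ 0 ∧ α + u.natDegree = M) ∨ (v ≠ 0 ∧ β + v.natDegree = M) ∨
    (w ≠ 0 ∧ α + β + w.natDegree = M))

/-- The form `a z u² + b (1 - z) v² - a b z (1 - z) w²` over `L(z)[p]`. -/
noncomputable def sg {L : Type u} [Field L] (a b : L[X]) (u v w : (FractionRing L[X])[X]) :
    (FractionRing L[X])[X] :=
  a.map (algebraMap L (FractionRing L[X])) * C (algebraMap L[X] (FractionRing L[X]) X) * u ^ 2 +
  b.map (algebraMap L (FractionRing L[X])) *
    C (algebraMap L[X] (FractionRing L[X]) (1 - X)) * v ^ 2 -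
  a.map (algebraMap L (FractionRing L[X])) * b.map (algebraMap L (FractionRing L[X])) *
    C (algebraMap L[X] (FractionRing L[X]) (X * (1 - X))) * w ^ 2

namespace HalfAux

attribute [local instance] OddPlace.fk OddPlace.ak OddPlace.fd

section Place

variable {L : Type u} [Field L] {N : Type u} [Field N] [Algebra L[X] N] (P : OddPlace L N)

/-- `x` has order `n` at the place `P`. -/
def HasOrd (x : N) (n : ℤ) : Prop := ∃ u : P.O, P.res u ≠ 0 ∧ x = (P.ϖ : N) ^ n * (u : N)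

variable {P}

theorem HasOrd.ne_zero {x : N} {n : ℤ} (h : HasOrd P x n) : x ≠ 0 := by
  obtain ⟨u, hu, rfl⟩ := h
  apply mul_ne_zero (zpow_ne_zero _ P.ϖ_ne)
  intro h0
  apply hu
  have : u = 0 := Subtype.ext (by simpa using h0)
  rw [this, map_zero]

theorem HasOrd.le {x : N} {n m : ℤ} (h1 : HasOrd P x n) (h2 : HasOrd P x m) : n ≤ m := by
  obtain ⟨u, hu, rfl⟩ := h1
  obtain ⟨v, hv, h⟩ := h2
  by_contra hlt
  push Not at hlt
  obtain ⟨d, hd⟩ : ∃ d : ℕ, n = m + (d + 1 : ℕ) := ⟨(n - m - 1).toNat, by push_cast; omega⟩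
  have hv' : v = P.ϖ ^ (d + 1) * u := by
    apply Subtype.ext
    rw [hd, zpow_add₀ P.ϖ_ne, mul_assoc] at h
    have := mul_left_cancel₀ (zpow_ne_zero m P.ϖ_ne) h
    rw [← this, zpow_natCast]
    push_cast
    rfl
  rw [hv', map_mul, map_pow, P.res_ϖ] at hv
  simp at hv

theorem HasOrd.unique {x : N} {n m : ℤ} (h1 : HasOrd P x n) (h2 : HasOrd P x m) : n = m :=
  le_antisymm (h1.le h2) (h2.le h1)

theorem HasOrd.mul {x y : N} {n m : ℤ} (h1 : HasOrd P x n) (h2 : HasOrd P y m) :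
    HasOrd P (x * y) (n + m) := by
  obtain ⟨u, hu, rfl⟩ := h1
  obtain ⟨v, hv, rfl⟩ := h2
  refine ⟨u * v, ?_, ?_⟩
  · rw [map_mul]; exact mul_ne_zero hu hv
  · rw [zpow_add₀ P.ϖ_ne]; push_cast; ring

theorem hasOrd_of_res {u : P.O} (hu : P.res u ≠ 0) : HasOrd P (u : N) 0 :=
  ⟨u, hu, by simp⟩

theorem exists_scale {ι : Type*} [Fintype ι] (f : ι → N) (hf : ∃ i, f i ≠ 0) :
    ∃ (m : ℤ) (g : ι → P.O), (∀ i, f i = (P.ϖ : N) ^ m * (g i : N)) ∧ ∃ i, P.res (g i) ≠ 0 := by
  classical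
  have hr : ∀ i, ∃ (n : ℤ) (u : P.O), f i ≠ 0 → (P.res u ≠ 0 ∧ f i = (P.ϖ : N) ^ n * (u : N)) := by
    intro i
    by_cases h : f i = 0
    · exact ⟨0, 0, fun h' => absurd h h'⟩
    · obtain ⟨n, u, h1, h2⟩ := P.rep (f i) h
      exact ⟨n, u, fun _ => ⟨h1, h2⟩⟩
  choose n u hnu using hr
  obtain ⟨i0, hi0⟩ := hf
  obtain ⟨j, hj, hmin⟩ := Finset.exists_min_image (Finset.univ.filter fun i => f i ≠ 0) n
    ⟨i0, by simpa using hi0⟩
  simp only [Finset.mem_filter, Finset.mem_univ, true_and] at hj hmin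
  refine ⟨n j, fun i => if f i = 0 then 0 else P.ϖ ^ (n i - n j).toNat * u i, ?_, j, ?_⟩
  · intro i
    by_cases h : f i = 0
    · simp [h]
    · simp only [h, if_false]
      push_cast
      conv_lhs => rw [(hnu i h).2]
      rw [← mul_assoc]
      congr 1
      have h1 : n i = n j + ((n i - n j).toNat : ℤ) := by have := hmin i h; omega
      conv_lhs => rw [h1]
      rw [zpow_add₀ P.ϖ_ne, zpow_natCast]
  · simp only [hj, if_false]
    simpa using (hnu j hj).1

/-- A nonzero sum of squares has even order. -/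
theorem even_of_sos (hk : FR P.k) {x : N} (hx : x ≠ 0) (h : SoS x) : ∃ m : ℤ, HasOrd P x (2 * m) := by
  obtain ⟨n, f, rfl⟩ := h
  have hf : ∃ i, f i ≠ 0 := by
    by_contra h0
    push Not at h0
    apply hx
    simp [h0]
  obtain ⟨m, g, hg, i, hi⟩ := exists_scale (P := P) f hf
  refine ⟨m, ∑ i, g i ^ 2, ?_, ?_⟩
  · intro h0
    apply hi
    rw [map_sum] at h0
    simp only [map_pow] at h0
    exact hk n (fun i => P.res (g i)) h0 i
  · rw [AddSubmonoidClass.coe_finsetSum, Finset.mul_sum]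
    apply Finset.sum_congr rfl
    intro i _
    rw [hg i]
    push_cast
    rw [mul_pow]
    congr 1
    rw [mul_comm 2 m, zpow_mul]
    norm_cast

theorem even_sq_sub {c : P.O} (hc : ¬ IsSquare (P.res c)) {u w : N} (h : u ≠ 0 ∨ w ≠ 0) :
    ∃ m : ℤ, HasOrd P (u ^ 2 - (c : N) * w ^ 2) (2 * m) := by
  have hf : ∃ i, (![u, w] : Fin 2 → N) i ≠ 0 := by
    rcases h with h | h
    · exact ⟨0, h⟩
    · exact ⟨1, h⟩
  obtain ⟨m, g, hg, i, hi⟩ := exists_scale (P := P) ![u, w] hf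
  have hu : u = (P.ϖ : N) ^ m * (g 0 : N) := hg 0
  have hw : w = (P.ϖ : N) ^ m * (g 1 : N) := hg 1
  refine ⟨m, g 0 ^ 2 - c * g 1 ^ 2, ?_, ?_⟩
  · intro h0
    simp only [map_sub, map_mul, map_pow] at h0
    by_cases h1 : P.res (g 1) = 0
    · rw [h1] at h0
      have h2 : P.res (g 0) = 0 := by
        have : P.res (g 0) ^ 2 = 0 := by linear_combination h0
        exact pow_eq_zero_iff (two_ne_zero) |>.1 this
      fin_cases i
      · exact hi h2
      · exact hi h1
    · apply hc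
      refine ⟨P.res (g 0) / P.res (g 1), ?_⟩
      field_simp
      linear_combination -h0
  · rw [hu, hw]
    have h2 : (P.ϖ : N) ^ (2 * m) = ((P.ϖ : N) ^ m) ^ 2 := by
      rw [mul_comm 2 m, zpow_mul]
      norm_cast
    rw [h2]
    push_cast
    ring

/-- The parity contradiction. -/
theorem not_sos (hk : FR P.k) {y : N} {m : ℤ} (hy : HasOrd P y (2 * m + P.e)) : ¬ SoS y := by
  intro h
  obtain ⟨n, hn⟩ := even_of_sos hk hy.ne_zero h
  have := hy.unique hn
  have he := P.odd_e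
  obtain ⟨r, hr⟩ := he
  omega

/-- `t z (u² - c w²)` with `t` of even order is not a sum of squares. -/
theorem not_sos_of {t : N} {r : ℤ} (hk : FR P.k) (ht : HasOrd P t (2 * r)) {c : P.O}
    (hc : ¬ IsSquare (P.res c)) {u w : N} (h : u ≠ 0 ∨ w ≠ 0) :
    ¬ SoS (t * algebraMap L[X] N X * (u ^ 2 - (c : N) * w ^ 2)) := by
  obtain ⟨m, hm⟩ := even_sq_sub hc h
  have hz : HasOrd P (algebraMap L[X] N X) P.e := by
    obtain ⟨u, hu, h⟩ := P.z_rep
    exact ⟨u, hu, by rw [h, zpow_natCast]⟩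
  have := (ht.mul hz).mul hm
  refine not_sos (m := r + m) hk ?_
  convert this using 1
  ring

theorem hasOrd_sq {x : N} (hx : x ≠ 0) : ∃ m : ℤ, HasOrd P (x ^ 2) (2 * m) := by
  obtain ⟨n, u, hu, h⟩ := P.rep x hx
  refine ⟨n, ?_⟩
  have : HasOrd P x n := ⟨u, hu, h⟩
  have := this.mul this
  rw [pow_two, two_mul]
  exact this

end Place


/-- Evaluation of a polynomial over `L[z]` at an integral element, and its residue. -/
theorem exists_eval {L : Type u} [Field L] {N : Type u} [Field N] [Algebra L[X] N]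
    (P : OddPlace L N) (x : P.O) (G : L[X][X]) :
    ∃ y : P.O, (y : N) = eval₂ (algebraMap L[X] N) (x : N) G ∧
      P.res y = aeval (P.res x) (G.map (evalRingHom 0)) := by
  let ι : L[X] →+* P.O := (algebraMap L[X] N).codRestrict P.O P.poly_mem
  refine ⟨eval₂ ι x G, ?_, ?_⟩
  · have h1 : P.O.subtype.comp ι = algebraMap L[X] N := RingHom.ext fun f => rfl
    have h2 := hom_eval₂ G ι P.O.subtype x
    rw [h1] at h2
    exact h2
  · have h1 : P.res.comp ι = (algebraMap L P.k).comp (evalRingHom 0) := by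
      refine RingHom.ext fun f => ?_
      exact P.res_poly f
    rw [hom_eval₂, h1, ← eval₂_map]
    rfl

theorem exists_eval' {L : Type u} [Field L] {N : Type u} [Field N] [Algebra L[X] N]
    [Algebra L N] [IsScalarTower L L[X] N]
    (P : OddPlace L N) (x : P.O) (b : L[X]) :
    ∃ y : P.O, (y : N) = aeval (x : N) b ∧ P.res y = aeval (P.res x) b := by
  obtain ⟨y, h1, h2⟩ := exists_eval P x (b.map C)
  refine ⟨y, ?_, ?_⟩
  · rw [h1, eval₂_map, aeval_def]
    congr 1
    refine RingHom.ext fun c => ?_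
    rw [IsScalarTower.algebraMap_apply L L[X] N]
    rfl
  · rw [h2, map_map]
    congr 1
    have : (evalRingHom (0 : L)).comp C = RingHom.id L := by
      refine RingHom.ext fun c => ?_
      simp
    rw [this, map_id]

theorem exists_coef {L : Type u} [Field L] {N : Type u} [Field N] [Algebra L[X] N]
    (P : OddPlace L N) (y : P.O) :
    ∃ c : P.O, (c : N) = (y : N) * (1 - algebraMap L[X] N X) ∧ P.res c = P.res y := by
  refine ⟨y * ⟨_, P.poly_mem (1 - X)⟩, ?_, ?_⟩
  · rw [← map_one (algebraMap L[X] N), ← map_sub]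
    rfl
  · rw [map_mul, P.res_poly]
    simp

theorem hasOrd_C {L : Type u} [Field L] {N : Type u} [Field N] [Algebra L[X] N]
    (P : OddPlace L N) {x : L} (hx : x ≠ 0) : HasOrd P (algebraMap L[X] N (C x)) 0 := by
  refine ⟨⟨_, P.poly_mem (C x)⟩, ?_, by simp⟩
  rw [P.res_poly, eval_C]
  exact (_root_.map_ne_zero _).2 hx

section Poly

theorem coeff_term {K : Type*} [Field K] {A u : K[X]} {α M : ℕ} (hA : A.natDegree ≤ 2 * α)
    (hu : u ≠ 0 → α + u.natDegree ≤ M) :
    ∃ c : K, (A * u ^ 2).coeff (2 * M) = A.coeff (2 * α) * c ^ 2 ∧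
      (c = 0 → ¬ (u ≠ 0 ∧ α + u.natDegree = M)) ∧ (c ≠ 0 → u ≠ 0 ∧ α + u.natDegree = M) ∧
      (A * u ^ 2).natDegree ≤ 2 * M := by
  by_cases h : u = 0
  · exact ⟨0, by simp [h], by simp [h], by simp, by simp [h]⟩
  · have hM := hu h
    obtain ⟨d, rfl⟩ : ∃ d, M = α + d := ⟨M - α, by omega⟩
    have hd : u.natDegree ≤ d := by omega
    have hd2 : (u ^ 2).natDegree ≤ 2 * d := by
      rw [natDegree_pow]; omega
    refine ⟨u.coeff d, ?_, ?_, ?_, ?_⟩
    · rw [mul_add, coeff_mul_add_eq_of_natDegree_le hA hd2, coeff_pow_of_natDegree_le hd]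
    · rintro h0 ⟨-, h1⟩
      have : d = u.natDegree := by omega
      rw [this, coeff_natDegree, leadingCoeff_eq_zero] at h0
      exact h h0
    · intro h0
      refine ⟨h, ?_⟩
      have := le_natDegree_of_ne_zero h0
      omega
    · have := natDegree_mul_le (p := A) (q := u ^ 2)
      omega

theorem exists_odd_factor {K : Type*} [Field K] (n : ℕ) : ∀ v : K[X], v.natDegree = n → Odd n →
    ∃ g, Irreducible g ∧ g ∣ v ∧ Odd g.natDegree := by
  induction n using Nat.strong_induction_on with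
  | _ n ih =>
    intro v hv hodd
    have hv0 : v ≠ 0 := by
      rintro rfl
      simp at hv
      rw [← hv] at hodd
      simp at hodd
    have hnu : ¬ IsUnit v := by
      intro h
      have := natDegree_eq_zero_of_isUnit h
      rw [← hv, this] at hodd
      simp at hodd
    obtain ⟨g, hg, q, hq⟩ := WfDvdMonoid.exists_irreducible_factor hnu hv0
    have hq0 : q ≠ 0 := by rintro rfl; exact hv0 (by simpa using hq)
    have hdeg : v.natDegree = g.natDegree + q.natDegree := by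
      rw [hq, natDegree_mul hg.ne_zero hq0]
    by_cases h : Odd g.natDegree
    · exact ⟨g, hg, ⟨q, hq⟩, h⟩
    · have hpos : 0 < g.natDegree := hg.natDegree_pos
      obtain ⟨g', h1, h2, h3⟩ := ih q.natDegree (by omega) q rfl (by
        rw [Nat.not_odd_iff_even] at h
        have : Odd (g.natDegree + q.natDegree) := by rw [← hdeg, hv]; exact hodd
        exact (Nat.odd_add'.1 this).2 h)
      exact ⟨g', h1, h2.trans ⟨g, by rw [hq, mul_comm]⟩, h3⟩

theorem remove_factor {K N : Type*} [Field K] [Field N] [Algebra K N] (hN : FR N) (ξ : N)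
    (g S : K[X]) (hg0 : g ≠ 0) (hgd : 0 < g.natDegree)
    (hg : ∀ f : K[X], aeval ξ f = 0 ↔ g ∣ f) (n : ℕ) (d : ℕ) :
    ∀ (h : K[X]) (s : Fin n → K[X]), h.natDegree = d → h ≠ 0 → h ^ 2 * S = ∑ i, s i ^ 2 →
    ∃ (h' : K[X]) (s' : Fin n → K[X]), aeval ξ h' ≠ 0 ∧ h' ^ 2 * S = ∑ i, s' i ^ 2 := by
  induction d using Nat.strong_induction_on with
  | _ d ih =>
    intro h s hd hh heq
    by_cases hdvd : g ∣ h
    · have h1 : ∑ i, (aeval ξ (s i)) ^ 2 = 0 := by
        have := congrArg (aeval ξ) heq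
        rw [map_mul, map_pow, (hg h).2 hdvd, map_sum] at this
        simp only [map_pow] at this
        rw [← this]; ring
      have h2 : ∀ i, g ∣ s i := fun i => (hg _).1 (hN n (fun i => aeval ξ (s i)) h1 i)
      choose s' hs' using h2
      obtain ⟨h', hh'⟩ := hdvd
      have hh0 : h' ≠ 0 := by rintro rfl; exact hh (by simpa using hh')
      have hdeg : h.natDegree = g.natDegree + h'.natDegree := by
        rw [hh', natDegree_mul hg0 hh0]
      refine ih h'.natDegree (by omega) h' s' rfl hh0 ?_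
      have : g ^ 2 * (h' ^ 2 * S) = g ^ 2 * ∑ i, s' i ^ 2 := by
        rw [Finset.mul_sum]
        calc g ^ 2 * (h' ^ 2 * S) = h ^ 2 * S := by rw [hh']; ring
          _ = ∑ i, s i ^ 2 := heq
          _ = _ := by
            apply Finset.sum_congr rfl
            intro i _
            rw [hs' i]; ring
      exact mul_left_cancel₀ (pow_ne_zero 2 hg0) this
    · exact ⟨h, s, fun h0 => hdvd ((hg h).1 h0), heq⟩

end Poly

theorem step_one {L : Type u} [Field L] (hL : FR L) (a b : L[X]) (α β : ℕ)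
    (ha : a.natDegree = 2 * α) (hb : b.natDegree = 2 * β) (ha0 : a ≠ 0)
    (hns : ¬ IsSquare b.leadingCoeff) (n : ℕ) (u v w h : (FractionRing L[X])[X])
    (s : Fin n → (FractionRing L[X])[X]) (hh : h ≠ 0)
    (heq : h ^ 2 * sg a b u v w = ∑ i, s i ^ 2) (M : ℕ) (hM : IsM α β u v w M) :
    v ≠ 0 ∧ β + v.natDegree = M := by
  have := FR.charZero hL
  have hK : FR (FractionRing L[X]) := FR.fractionRing (FR.polynomial hL)
  obtain ⟨P⟩ := exists_oddPlace L (FractionRing L[X]) (by rw [Module.finrank_self]; exact odd_one)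
  have hPk : FR P.k := FR.odd_extension hL P.odd_k
  obtain ⟨hMu, hMv, hMw, hMe⟩ := hM
  set φ := algebraMap L (FractionRing L[X]) with hφ
  set ψ := algebraMap L[X] (FractionRing L[X]) with hψ
  have hφψ : ∀ x, φ x = ψ (C x) := fun x => by
    rw [hφ, IsScalarTower.algebraMap_apply L L[X] (FractionRing L[X])]; rfl
  have hda : (a.map φ).natDegree ≤ 2 * α := natDegree_map_le.trans ha.le
  have hdb : (b.map φ).natDegree ≤ 2 * β := natDegree_map_le.trans hb.le
  have hA1 : (a.map φ * C (ψ X)).natDegree ≤ 2 * α := (natDegree_mul_C_le _ _).trans hda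
  have hA2 : (b.map φ * C (ψ (1 - X))).natDegree ≤ 2 * β := (natDegree_mul_C_le _ _).trans hdb
  have hA3 : (a.map φ * b.map φ * C (ψ (X * (1 - X)))).natDegree ≤ 2 * (α + β) := by
    refine (natDegree_mul_C_le _ _).trans ?_
    have := natDegree_mul_le (p := a.map φ) (q := b.map φ)
    omega
  obtain ⟨cu, hu1, hu2, hu3, hu4⟩ := coeff_term hA1 hMu
  obtain ⟨cv, hv1, hv2, hv3, hv4⟩ := coeff_term hA2 hMv
  obtain ⟨cw, hw1, hw2, hw3, hw4⟩ := coeff_term hA3 hMw
  by_cases hcv : cv = 0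
  swap
  · exact hv3 hcv
  exfalso
  have hcuw : cu ≠ 0 ∨ cw ≠ 0 := by
    rcases hMe with h1 | h1 | h1
    · exact Or.inl fun h0 => hu2 h0 h1
    · exact absurd h1 (hv2 hcv)
    · exact Or.inr fun h0 => hw2 h0 h1
  have hsgd : (sg a b u v w).natDegree ≤ 2 * M := by
    unfold sg
    exact (natDegree_sub_le _ _).trans (max_le ((natDegree_add_le _ _).trans (max_le hu4 hv4)) hw4)
  have hsgc : (sg a b u v w).coeff (2 * M) =
      φ a.leadingCoeff * ψ X * (cu ^ 2 - ψ (C b.leadingCoeff * (1 - X)) * cw ^ 2) := by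
    unfold sg
    rw [coeff_sub, coeff_add, hu1, hv1, hw1, hcv, mul_add, coeff_mul_C, coeff_mul_C, coeff_mul_C,
      coeff_mul_add_eq_of_natDegree_le hda hdb, coeff_map, coeff_map, ← ha, ← hb, coeff_natDegree,
      coeff_natDegree, map_mul, map_mul, ← hφψ]
    ring
  obtain ⟨c, hc, hcv'⟩ : ∃ c : P.O, ¬ IsSquare (P.res c) ∧
      (c : FractionRing L[X]) = ψ (C b.leadingCoeff * (1 - X)) := by
    refine ⟨⟨_, P.poly_mem (C b.leadingCoeff * (1 - X))⟩, ?_, rfl⟩
    rw [P.res_poly]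
    simp only [eval_mul, eval_C, eval_sub, eval_one, eval_X, sub_zero, mul_one]
    exact not_isSquare_odd P.odd_k hns
  have hlh : h.leadingCoeff ≠ 0 := leadingCoeff_ne_zero.2 hh
  obtain ⟨r, hr⟩ := hasOrd_sq (P := P) hlh
  have hla : HasOrd P (φ a.leadingCoeff) 0 := by
    rw [hφψ]; exact hasOrd_C P (leadingCoeff_ne_zero.2 ha0)
  have ht : HasOrd P (h.leadingCoeff ^ 2 * φ a.leadingCoeff) (2 * r) := by
    have := hr.mul hla
    rwa [add_zero] at this
  apply not_sos_of hPk ht hc hcuw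
  rw [hcv']
  have hne : (sg a b u v w).coeff (2 * M) ≠ 0 := by
    intro h0
    rw [hsgc] at h0
    have hX : ψ X ≠ 0 := by
      rw [hψ]
      exact (map_ne_zero_iff _ (IsFractionRing.injective L[X] (FractionRing L[X]))).2 X_ne_zero
    have h1 : cu ^ 2 - ψ (C b.leadingCoeff * (1 - X)) * cw ^ 2 = 0 := by
      rcases mul_eq_zero.1 h0 with h2 | h2
      · rcases mul_eq_zero.1 h2 with h3 | h3
        · exact absurd h3 hla.ne_zero
        · exact absurd h3 hX
      · exact h2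
    obtain ⟨m, hm⟩ := even_sq_sub hc hcuw
    rw [hcv'] at hm
    exact hm.ne_zero h1
  have hlc : (sg a b u v w).leadingCoeff = (sg a b u v w).coeff (2 * M) := by
    have : (sg a b u v w).natDegree = 2 * M := le_antisymm hsgd (le_natDegree_of_ne_zero hne)
    rw [leadingCoeff, this]
  have hS : SoS (h ^ 2 * sg a b u v w) := ⟨n, s, heq⟩
  have := (hS.leadingCoeff hK).1
  rw [leadingCoeff_mul, leadingCoeff_pow, hlc, hsgc] at this
  have h9 : h.leadingCoeff ^ 2 * φ a.leadingCoeff * (algebraMap L[X] (FractionRing L[X])) X *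
      (cu ^ 2 - ψ (C b.leadingCoeff * (1 - X)) * cw ^ 2) = h.leadingCoeff ^ 2 *
      (φ a.leadingCoeff * ψ X * (cu ^ 2 - ψ (C b.leadingCoeff * (1 - X)) * cw ^ 2)) := by
    rw [← hψ]; ring
  rw [h9]
  exact this

end HalfAux

attribute [local instance] OddPlace.fk OddPlace.ak OddPlace.fd in
open HalfAux in
theorem half {L : Type u} [Field L] (hL : FR L) (a b : L[X]) (α β : ℕ)
    (ha : a.natDegree = 2 * α) (hb : b.natDegree = 2 * β) (ha0 : a ≠ 0) (hPD : PD a)
    (hns : ¬ IsSquare b.leadingCoeff) (n : ℕ) (u v w h : (FractionRing L[X])[X])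
    (s : Fin n → (FractionRing L[X])[X])
    (hcop : ∀ g, g ∣ u → g ∣ v → g ∣ w → IsUnit g) (hh : h ≠ 0)
    (heq : h ^ 2 * sg a b u v w = ∑ i, s i ^ 2) (M : ℕ) (hM : IsM α β u v w M)
    (hpar : Odd (M + β)) :
    v ≠ 0 ∧ ∃ (k : Type u) (_ : Field k) (_ : Algebra L k) (_ : FiniteDimensional L k) (ξ : k),
      Odd (Module.finrank L k) ∧ IsSquare (aeval ξ b) ∧
      ∀ G : L[X][X], v ∣ G.map (algebraMap L[X] (FractionRing L[X])) →
        aeval ξ (G.map (evalRingHom 0)) = 0 := by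
  obtain ⟨hv0, hvM⟩ := step_one hL a b α β ha hb ha0 hns n u v w h s hh heq M hM
  refine ⟨hv0, ?_⟩
  have hvodd : Odd v.natDegree := by
    rw [← hvM] at hpar
    rcases hpar with ⟨r, hr⟩
    exact ⟨r - β, by omega⟩
  obtain ⟨g, hgi, hgv, hgodd⟩ := exists_odd_factor _ v rfl hvodd
  have := FR.charZero hL
  have hK : FR (FractionRing L[X]) := FR.fractionRing (FR.polynomial hL)
  have : Fact (Irreducible g) := ⟨hgi⟩
  set pb := AdjoinRoot.powerBasis hgi.ne_zero with hpb
  have : FiniteDimensional (FractionRing L[X]) (AdjoinRoot g) := pb.finite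
  have hfin : Odd (Module.finrank (FractionRing L[X]) (AdjoinRoot g)) := by
    rw [pb.finrank, hpb, AdjoinRoot.powerBasis_dim]
    exact hgodd
  have hN : FR (AdjoinRoot g) := FR.odd_extension hK hfin
  obtain ⟨P⟩ := exists_oddPlace L (AdjoinRoot g) hfin
  have hPk : FR P.k := FR.odd_extension hL P.odd_k
  set ξ : AdjoinRoot g := AdjoinRoot.root g with hξ
  have hdvd : ∀ f : (FractionRing L[X])[X], aeval ξ f = 0 ↔ g ∣ f := by
    intro f
    rw [hξ, AdjoinRoot.aeval_eq, AdjoinRoot.mk_eq_zero]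
  obtain ⟨h', s', hh', heq'⟩ := remove_factor hN ξ g (sg a b u v w) hgi.ne_zero hgi.natDegree_pos
    hdvd n _ h s rfl hh heq
  have hv : aeval ξ v = 0 := (hdvd v).2 hgv
  have huw : aeval ξ u ≠ 0 ∨ aeval ξ w ≠ 0 := by
    by_contra h0
    push Not at h0
    exact hgi.not_isUnit (hcop g ((hdvd u).1 h0.1) hgv ((hdvd w).1 h0.2))
  obtain ⟨hA0, hAs⟩ := hPD (AdjoinRoot g) hN ξ
  set Z : AdjoinRoot g := algebraMap L[X] (AdjoinRoot g) X with hZ
  have hev : (aeval ξ h' ^ 2 * aeval ξ a) * Z *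
      (aeval ξ u ^ 2 - (aeval ξ b * (1 - Z)) * aeval ξ w ^ 2) = ∑ i, (aeval ξ (s' i)) ^ 2 := by
    have h1 := congrArg (aeval ξ) heq'
    have h2 : ∀ f : L[X], algebraMap (FractionRing L[X]) (AdjoinRoot g)
        (algebraMap L[X] (FractionRing L[X]) f) = algebraMap L[X] (AdjoinRoot g) f := fun f =>
      (IsScalarTower.algebraMap_apply L[X] (FractionRing L[X]) (AdjoinRoot g) f).symm
    rw [map_mul, map_pow, map_sum] at h1
    simp only [map_pow, sg, map_add, map_sub, map_mul, aeval_map_algebraMap, aeval_C, h2, hv,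
      map_one] at h1
    rw [← h1]
    ring
  have hsos : SoS ((aeval ξ h' ^ 2 * aeval ξ a) * Z *
      (aeval ξ u ^ 2 - (aeval ξ b * (1 - Z)) * aeval ξ w ^ 2)) := ⟨n, _, hev⟩
  obtain ⟨m1, hm1⟩ := hasOrd_sq (P := P) hh'
  obtain ⟨m2, hm2⟩ := even_of_sos hPk hA0 hAs
  have hm : HasOrd P (aeval ξ h' ^ 2 * aeval ξ a) (2 * (m1 + m2)) := by
    rw [mul_add]; exact hm1.mul hm2
  by_cases hξO : ξ ∈ P.O
  · obtain ⟨y, hy1, hy2⟩ := exists_eval' P ⟨ξ, hξO⟩ b
    obtain ⟨c, hc1, hc2⟩ := exists_coef P y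
    refine ⟨P.k, inferInstance, inferInstance, inferInstance, P.res ⟨ξ, hξO⟩, P.odd_k, ?_, ?_⟩
    · by_contra hsq
      apply not_sos_of hPk hm (c := c) (by rw [hc2, hy2]; exact hsq) huw
      rw [hc1, hy1]
      exact hsos
    · intro G hG
      obtain ⟨y, hy1, hy2⟩ := exists_eval P ⟨ξ, hξO⟩ G
      rw [← hy2]
      have h1 : aeval ξ (G.map (algebraMap L[X] (FractionRing L[X]))) = 0 :=
        (hdvd _).2 (hgv.trans hG)
      rw [aeval_map_algebraMap] at h1
      have h2 : y = 0 := by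
        apply Subtype.ext
        rw [hy1]
        exact h1
      rw [h2, map_zero]
  · exfalso
    have hξ0 : ξ ≠ 0 := by
      intro h0
      rw [h0] at hξO
      exact hξO (zero_mem _)
    obtain ⟨m, y, hy, hym⟩ := P.rep ξ hξ0
    have hmneg : m < 0 := by
      by_contra h0
      push Not at h0
      apply hξO
      obtain ⟨d, rfl⟩ := Int.eq_ofNat_of_zero_le h0
      rw [hym, zpow_natCast]
      exact (P.ϖ ^ d * y).2
    obtain ⟨η, hη1, hη2⟩ : ∃ η : P.O, (η : AdjoinRoot g) = ξ⁻¹ ∧ P.res η = 0 := by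
      obtain ⟨d, hd⟩ : ∃ d : ℕ, -m = (d + 1 : ℕ) := ⟨(-m - 1).toNat, by push_cast; omega⟩
      refine ⟨P.ϖ ^ (d + 1) * ⟨_, P.inv_mem y hy⟩, ?_, ?_⟩
      · rw [hym, mul_inv, ← zpow_neg, hd, zpow_natCast]
        rfl
      · rw [map_mul, map_pow, P.res_ϖ]
        simp
    obtain ⟨y, hy1, hy2⟩ := exists_eval' P η (reverse b)
    obtain ⟨c, hc1, hc2⟩ := exists_coef P y
    have hB : aeval ξ b = (y : AdjoinRoot g) * ξ ^ (2 * β) := by
      let _ : Invertible ξ := invertibleOfNonzero hξ0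
      have := eval₂_reverse_mul_pow (algebraMap L (AdjoinRoot g)) ξ b
      rw [aeval_def, ← this, hy1, hη1, aeval_def, hb, invOf_eq_inv]
    have hcsq : ¬ IsSquare (P.res c) := by
      have h0 : aeval (0 : P.k) (reverse b) = algebraMap L P.k b.leadingCoeff := by
        rw [← coeff_zero_eq_aeval_zero', coeff_zero_reverse]
      rw [hc2, hy2, hη2, h0]
      exact not_isSquare_odd P.odd_k hns
    apply not_sos_of hPk hm hcsq (u := aeval ξ u) (w := ξ ^ β * aeval ξ w)
    · rcases huw with h1 | h1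
      · exact Or.inl h1
      · exact Or.inr (mul_ne_zero (pow_ne_zero _ hξ0) h1)
    · rw [hc1]
      have : aeval ξ u ^ 2 - (y : AdjoinRoot g) * (1 - algebraMap L[X] (AdjoinRoot g) X) *
          (ξ ^ β * aeval ξ w) ^ 2 =
          aeval ξ u ^ 2 - (aeval ξ b * (1 - Z)) * aeval ξ w ^ 2 := by
        rw [hB, hZ]; ring
      rw [this]
      exact hsos

end WInv
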