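import Pool.Agent.WInv.LagCancel

/-!
# Module Q4: isotropic Pfister forms are hyperbolic (MP_2fcb4d_al)
-/

set_option autoImplicit false

namespace WInv

variable {F : Type*} [Field F]

namespace Pfister

section DqBasic

variable {R : Type*} [CommRing R] {ι κ : Type*} [Fintype ι] [Fintype κ]

theorem dq_sumElim (w : ι → R) (w' : κ → R) (x : ι ⊕ κ → R) :
    dq (Sum.elim w w') x = dq w (fun i => x (Sum.inl i)) + dq w' (fun j => x (Sum.inr j)) := by
  simp [dq, Fintype.sum_sum_type]

theorem dq_smul_form (w : ι → R) (c : R) (x : ι → R) :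
    dq (fun i => c * w i) x = c * dq w x := by
  simp only [dq, Finset.mul_sum]
  exact Finset.sum_congr rfl fun i _ => by ring

theorem dq_neg_form (w : ι → R) (x : ι → R) : dq (fun i => - w i) x = - dq w x := by
  simp only [dq, ← Finset.sum_neg_distrib]
  exact Finset.sum_congr rfl fun i _ => by ring

theorem dq_reindex (e : ι ≃ κ) (w : κ → R) (x : κ → R) :
    dq (fun i => w (e i)) (fun i => x (e i)) = dq w x := by
  simp only [dq]
  exact Equiv.sum_comp e (fun j => w j * x j ^ 2)

theorem dq_zero (w : ι → R) : dq w 0 = 0 := by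
  simp [dq]

theorem dq_comb (w : ι → R) (b : R) (x y : ι → R) :
    dq w (x - b • y) + b * dq w (x + y) = (1 + b) * (dq w x + b * dq w y) := by
  simp only [dq, Finset.mul_sum, ← Finset.sum_add_distrib, Pi.sub_apply, Pi.add_apply,
    Pi.smul_apply, smul_eq_mul]
  exact Finset.sum_congr rfl fun i _ => by ring

end DqBasic

/-- Subsets of `Fin (n+1)` as subsets without / with `0`. -/
def splitE (n : ℕ) : Finset (Fin n) ⊕ Finset (Fin n) ≃ Finset (Fin (n + 1)) where
  toFun := Sum.elim (fun S => S.map (Fin.succEmb n)) (fun S => insert 0 (S.map (Fin.succEmb n)))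
  invFun T := if (0 : Fin (n + 1)) ∈ T then Sum.inr (Finset.univ.filter fun i => i.succ ∈ T)
    else Sum.inl (Finset.univ.filter fun i => i.succ ∈ T)
  left_inv := by
    rintro (S | S)
    · have h0 : (0 : Fin (n + 1)) ∉ S.map (Fin.succEmb n) := by simp
      simp only [Sum.elim_inl, if_neg h0]
      congr 1
      ext i
      simp
    · simp only [Sum.elim_inr, Finset.mem_insert_self, if_true]
      congr 1
      ext i
      simp
  right_inv := by
    intro T
    by_cases h0 : (0 : Fin (n + 1)) ∈ T
    · simp only [if_pos h0, Sum.elim_inr]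
      ext i
      refine Fin.cases ?_ (fun j => ?_) i
      · simp [h0]
      · simp
    · simp only [if_neg h0, Sum.elim_inl]
      ext i
      refine Fin.cases ?_ (fun j => ?_) i
      · simp [h0]
      · simp

theorem pf_splitE_inl {R : Type*} [CommRing R] {n : ℕ} (a : Fin (n + 1) → R)
    (S : Finset (Fin n)) : pf a (splitE n (Sum.inl S)) = pf (fun i => a i.succ) S := by
  simp [pf, splitE]

theorem pf_splitE_inr {R : Type*} [CommRing R] {n : ℕ} (a : Fin (n + 1) → R)
    (S : Finset (Fin n)) : pf a (splitE n (Sum.inr S)) = a 0 * pf (fun i => a i.succ) S := by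
  simp only [pf, splitE, Equiv.coe_fn_mk, Sum.elim_inr]
  rw [Finset.prod_insert (by simp)]
  simp

theorem pf_split {R : Type*} [CommRing R] {n : ℕ} (a : Fin (n + 1) → R) :
    (fun p => pf a (splitE n p)) =
      Sum.elim (pf fun i => a i.succ) (fun S => a 0 * pf (fun i => a i.succ) S) := by
  funext p
  rcases p with S | S
  · simp [pf_splitE_inl]
  · simp [pf_splitE_inr]

/-- Coordinates of a Pfister form: the two halves. -/
noncomputable def halves (F : Type*) [Field F] (n : ℕ) :
    (Finset (Fin (n + 1)) → F) ≃ₗ[F] (Finset (Fin n) → F) × (Finset (Fin n) → F) :=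
  (LinearEquiv.funCongrLeft F F (splitE n)).trans
    (LinearEquiv.sumArrowLequivProdArrow (Finset (Fin n)) (Finset (Fin n)) F F)

theorem dq_halves {n : ℕ} (a : Fin (n + 1) → F) (x : Finset (Fin (n + 1)) → F) :
    dq (pf a) x = dq (pf fun i => a i.succ) (halves F n x).1 +
      a 0 * dq (pf fun i => a i.succ) (halves F n x).2 := by
  rw [← dq_reindex (splitE n) (pf a) x, pf_split, dq_sumElim, dq_smul_form]
  rfl

theorem pf_ne_zero {n : ℕ} (a : Fin n → F) (ha : ∀ i, a i ≠ 0) : NZ (pf a) := by
  intro S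
  exact Finset.prod_ne_zero_iff.2 fun i _ => ha i

/-- The rotation `(x, y) ↦ (x - b y, x + y)`. -/
noncomputable def rot {V : Type*} [AddCommGroup V] [Module F V] (b : F) (hb : 1 + b ≠ 0) :
    (V × V) ≃ₗ[F] (V × V) where
  toFun p := (p.1 - b • p.2, p.1 + p.2)
  invFun p := ((1 + b)⁻¹ • (p.1 + b • p.2), (1 + b)⁻¹ • (p.2 - p.1))
  map_add' p q := by
    ext
    · simp only [Prod.fst_add, Prod.snd_add, smul_add]; abel
    · simp only [Prod.fst_add, Prod.snd_add]; abel
  map_smul' c p := by
    ext
    · simp only [Prod.smul_fst, Prod.smul_snd, RingHom.id_apply, smul_sub, smul_comm b c]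
    · simp only [Prod.smul_fst, Prod.smul_snd, RingHom.id_apply, smul_add]
  left_inv p := by
    have h : ∀ v : V, (1 + b)⁻¹ • ((1 + b) • v) = v := fun v => by
      rw [smul_smul, inv_mul_cancel₀ hb, one_smul]
    ext
    · calc (1 + b)⁻¹ • (p.1 - b • p.2 + b • (p.1 + p.2)) = (1 + b)⁻¹ • ((1 + b) • p.1) := by
            congr 1; rw [smul_add, add_smul, one_smul]; abel
        _ = p.1 := h _
    · calc (1 + b)⁻¹ • (p.1 + p.2 - (p.1 - b • p.2)) = (1 + b)⁻¹ • ((1 + b) • p.2) := by
            congr 1; rw [add_smul, one_smul]; abel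
        _ = p.2 := h _
  right_inv p := by
    have h : ∀ v : V, (1 + b)⁻¹ • ((1 + b) • v) = v := fun v => by
      rw [smul_smul, inv_mul_cancel₀ hb, one_smul]
    ext
    · calc (1 + b)⁻¹ • (p.1 + b • p.2) - b • ((1 + b)⁻¹ • (p.2 - p.1))
          = (1 + b)⁻¹ • ((1 + b) • p.1) := by
            rw [smul_comm b, ← smul_sub]
            congr 1; rw [smul_sub, add_smul, one_smul]; abel
        _ = p.1 := h _
    · calc (1 + b)⁻¹ • (p.1 + b • p.2) + (1 + b)⁻¹ • (p.2 - p.1)
          = (1 + b)⁻¹ • ((1 + b) • p.2) := by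
            rw [← smul_add]
            congr 1; rw [add_smul, one_smul]; abel
        _ = p.2 := h _

/-- Quotients of similarity factors. -/
theorem sim_div {V : Type*} [AddCommGroup V] [Module F V] (q : V → F) {c d : F} (hd : d ≠ 0)
    (hc : ∃ e : V ≃ₗ[F] V, ∀ y, q (e y) = c * q y)
    (hd' : ∃ e : V ≃ₗ[F] V, ∀ y, q (e y) = d * q y) :
    ∃ e : V ≃ₗ[F] V, ∀ y, q (e y) = c / d * q y := by
  obtain ⟨e, he⟩ := hc
  obtain ⟨f, hf⟩ := hd'
  refine ⟨f.symm.trans e, fun y => ?_⟩
  have h := hf (f.symm y)
  rw [LinearEquiv.apply_symm_apply] at h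
  rw [LinearEquiv.trans_apply, he, h]
  field_simp

end Pfister

open Pfister

/-- Roundness: each nonzero value of a Pfister form is a similarity factor. -/
theorem pf_round (h2 : (2 : F) ≠ 0) {n : ℕ} (a : Fin n → F) (ha : ∀ i, a i ≠ 0)
    (x : Finset (Fin n) → F) (hx : dq (pf a) x ≠ 0) :
    ∃ e : (Finset (Fin n) → F) ≃ₗ[F] (Finset (Fin n) → F),
      ∀ y, dq (pf a) (e y) = dq (pf a) x * dq (pf a) y := by
  induction n with
  | zero =>
    have hv : ∀ z : Finset (Fin 0) → F, dq (pf a) z = z ∅ ^ 2 := by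
      intro z
      have : (Finset.univ : Finset (Finset (Fin 0))) = {∅} := by decide
      unfold dq
      rw [this, Finset.sum_singleton, pf, Finset.prod_empty, one_mul]
    have hx' : x ∅ ≠ 0 := by
      intro h
      apply hx
      rw [hv, h]; ring
    refine ⟨LinearEquiv.smulOfNeZero F _ (x ∅) hx', fun y => ?_⟩
    rw [hv, hv, hv]
    simp [mul_pow]
  | succ n ih =>
    set a' : Fin n → F := fun i => a i.succ with ha'
    have hnz : ∀ i, a' i ≠ 0 := fun i => ha _
    obtain ⟨x₁, hx₁⟩ : ∃ z, z = (halves F n x).1 := ⟨_, rfl⟩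
    obtain ⟨x₂, hx₂⟩ : ∃ z, z = (halves F n x).2 := ⟨_, rfl⟩
    have hdx : dq (pf a) x = dq (pf a') x₁ + a 0 * dq (pf a') x₂ := by
      rw [dq_halves, hx₁, hx₂]
    -- it is enough to work with the pair of halves
    suffices hs : ∃ e : ((Finset (Fin n) → F) × (Finset (Fin n) → F)) ≃ₗ[F]
        ((Finset (Fin n) → F) × (Finset (Fin n) → F)),
        ∀ p, dq (pf a') (e p).1 + a 0 * dq (pf a') (e p).2 =
          dq (pf a) x * (dq (pf a') p.1 + a 0 * dq (pf a') p.2) by
      obtain ⟨e, he⟩ := hs
      refine ⟨((halves F n).trans e).trans (halves F n).symm, fun y => ?_⟩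
      rw [dq_halves, dq_halves a y]
      simp only [LinearEquiv.trans_apply, LinearEquiv.apply_symm_apply]
      exact he _
    by_cases h1 : dq (pf a') x₁ = 0
    · -- the value is `a 0 * q x₂`
      have h2' : dq (pf a') x₂ ≠ 0 := by
        intro h
        apply hx
        rw [hdx, h1, h]; ring
      obtain ⟨e, he⟩ := ih a' hnz x₂ h2'
      refine ⟨(LinearEquiv.prodComm F _ _).trans
        (LinearEquiv.prodCongr (LinearEquiv.smulOfNeZero F _ (a 0) (ha 0) |>.trans e) e),
        fun p => ?_⟩
      have e1 : dq (pf a') (e (a 0 • p.2)) = dq (pf a') x₂ * (a 0 ^ 2 * dq (pf a') p.2) := by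
        rw [he, dq_smul]
      have e2 : dq (pf a') (e p.1) = dq (pf a') x₂ * dq (pf a') p.1 := he _
      have e3 : dq (pf a) x = a 0 * dq (pf a') x₂ := by rw [hdx, h1]; ring
      have goal' : dq (pf a') (e (a 0 • p.2)) + a 0 * dq (pf a') (e p.1) =
          dq (pf a) x * (dq (pf a') p.1 + a 0 * dq (pf a') p.2) := by
        rw [e1, e2, e3]; ring
      simpa using goal'
    · by_cases h2' : dq (pf a') x₂ = 0
      · obtain ⟨e, he⟩ := ih a' hnz x₁ h1
        refine ⟨LinearEquiv.prodCongr e e, fun p => ?_⟩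
        have e3 : dq (pf a) x = dq (pf a') x₁ := by rw [hdx, h2']; ring
        have goal' : dq (pf a') (e p.1) + a 0 * dq (pf a') (e p.2) =
            dq (pf a) x * (dq (pf a') p.1 + a 0 * dq (pf a') p.2) := by
          rw [he, he, e3]; ring
        simpa using goal'
      · obtain ⟨e, he⟩ := ih a' hnz x₁ h1
        obtain ⟨f, hf⟩ := sim_div (dq (pf a')) h1 (ih a' hnz x₂ h2') (ih a' hnz x₁ h1)
        set z : F := dq (pf a') x₂ / dq (pf a') x₁ with hz
        set b : F := a 0 * z with hb
        have hxb : dq (pf a) x = dq (pf a') x₁ * (1 + b) := by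
          rw [hdx, hb, hz]; field_simp
        have h1b : 1 + b ≠ 0 := by
          intro h
          apply hx
          rw [hxb, h, mul_zero]
        -- isometry from q ⊥ b q to q ⊥ a₀ q
        let S : ((Finset (Fin n) → F) × (Finset (Fin n) → F)) ≃ₗ[F]
            ((Finset (Fin n) → F) × (Finset (Fin n) → F)) :=
          LinearEquiv.prodCongr (LinearEquiv.refl F _) f
        have hS : ∀ p, dq (pf a') (S p).1 + a 0 * dq (pf a') (S p).2 =
            dq (pf a') p.1 + b * dq (pf a') p.2 := by
          intro p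
          have : dq (pf a') p.1 + a 0 * dq (pf a') (f p.2) =
              dq (pf a') p.1 + b * dq (pf a') p.2 := by
            rw [hf]; ring
          simpa [S] using this
        let R : ((Finset (Fin n) → F) × (Finset (Fin n) → F)) ≃ₗ[F]
            ((Finset (Fin n) → F) × (Finset (Fin n) → F)) := rot b h1b
        have hR : ∀ p, dq (pf a') (R p).1 + b * dq (pf a') (R p).2 =
            (1 + b) * (dq (pf a') p.1 + b * dq (pf a') p.2) := fun p => dq_comb _ _ _ _
        let E : ((Finset (Fin n) → F) × (Finset (Fin n) → F)) ≃ₗ[F]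
            ((Finset (Fin n) → F) × (Finset (Fin n) → F)) := LinearEquiv.prodCongr e e
        have hE : ∀ p, dq (pf a') (E p).1 + a 0 * dq (pf a') (E p).2 =
            dq (pf a') x₁ * (dq (pf a') p.1 + a 0 * dq (pf a') p.2) := by
          intro p
          have : dq (pf a') (e p.1) + a 0 * dq (pf a') (e p.2) =
              dq (pf a') x₁ * (dq (pf a') p.1 + a 0 * dq (pf a') p.2) := by
            rw [he, he]; ring
          simpa [E] using this
        refine ⟨((S.symm.trans R).trans S).trans E, fun p => ?_⟩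
        have hp := hS (S.symm p)
        rw [LinearEquiv.apply_symm_apply] at hp
        simp only [LinearEquiv.trans_apply]
        rw [hE, hS, hR, hp, hxb]
        ring

theorem lag_pf (h2 : (2 : F) ≠ 0) {n : ℕ} (a : Fin n → F) (ha : ∀ i, a i ≠ 0)
    (h : ¬ Aniso (pf a)) : Lag (pf a) := by
  induction n with
  | zero =>
    exfalso
    apply h
    intro x hx
    have hv : dq (pf a) x = x ∅ ^ 2 := by
      have : (Finset.univ : Finset (Finset (Fin 0))) = {∅} := by decide
      unfold dq
      rw [this, Finset.sum_singleton, pf, Finset.prod_empty, one_mul]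
    rw [hv] at hx
    funext S
    have : S = ∅ := Subsingleton.elim _ _
    rw [this]
    exact pow_eq_zero_iff (two_ne_zero) |>.1 hx
  | succ n ih =>
    set a' : Fin n → F := fun i => a i.succ with ha'
    have hnz : ∀ i, a' i ≠ 0 := fun i => ha _
    -- reduce to the sum
    suffices hs : Lag (Sum.elim (pf a') (fun S => a 0 * pf a' S)) by
      rw [← pf_split] at hs
      have := Lag.reindex (splitE n).symm hs
      simpa using this
    by_cases hq : Aniso (pf a')
    · unfold Aniso at h
      push Not at h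
      obtain ⟨x, hx, hx0⟩ := h
      obtain ⟨x₁, hx₁⟩ : ∃ z, z = (halves F n x).1 := ⟨_, rfl⟩
      obtain ⟨x₂, hx₂⟩ : ∃ z, z = (halves F n x).2 := ⟨_, rfl⟩
      have hdx : dq (pf a') x₁ + a 0 * dq (pf a') x₂ = 0 := by
        rw [← hx, dq_halves, hx₁, hx₂]
      have hq2 : dq (pf a') x₂ ≠ 0 := by
        intro h0
        have hz2 := hq _ h0
        rw [h0, mul_zero, add_zero] at hdx
        have hz1 := hq _ hdx
        apply hx0
        have : halves F n x = 0 := by
          ext1
          · rw [← hx₁, hz1]; rfl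
          · rw [← hx₂, hz2]; rfl
        exact (LinearEquiv.map_eq_zero_iff _).1 this
      have hq1 : dq (pf a') x₁ ≠ 0 := by
        intro h0
        rw [h0, zero_add] at hdx
        rcases mul_eq_zero.1 hdx with h | h
        · exact ha 0 h
        · exact hq2 h
      obtain ⟨e, he⟩ := sim_div (dq (pf a')) hq2 (pf_round h2 a' hnz x₁ hq1)
        (pf_round h2 a' hnz x₂ hq2)
      have hc : dq (pf a') x₁ / dq (pf a') x₂ = - a 0 := by
        rw [div_eq_iff hq2]
        linear_combination hdx
      rw [hc] at he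
      have hl := lag_self_neg (pf a')
      refine Lag.congr (LinearEquiv.sumArrowLequivProdArrow _ _ F F |>.trans
        ((LinearEquiv.prodCongr (LinearEquiv.refl F _) e.symm).trans
          (LinearEquiv.sumArrowLequivProdArrow _ _ F F).symm)) ?_ hl
      intro y
      rw [dq_sumElim, dq_sumElim, dq_smul_form, dq_neg_form]
      have h3 := he (e.symm (fun j => y (Sum.inr j)))
      rw [LinearEquiv.apply_symm_apply] at h3
      have h4 : dq (pf a') (fun i => y (Sum.inl i)) + a 0 *
          dq (pf a') (e.symm (fun j => y (Sum.inr j))) =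
          dq (pf a') (fun i => y (Sum.inl i)) + - dq (pf a') (fun j => y (Sum.inr j)) := by
        rw [h3]; ring
      exact h4
    · exact Lag.sum (ih a' hnz hq) ((ih a' hnz hq).smul (a 0))

end WInv
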