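import Pool.Agent.WInv.LagCancel

/-!
# Module Q7: forms that become hyperbolic over a quadratic extension (MP_2fcb4d_al)
-/

set_option autoImplicit false

namespace WInv

universe u

variable {F : Type u} [Field F]

theorem exists_quad_ext (d : F) (hd : ¬ IsSquare d) :
    ∃ (E : Type u) (_ : Field E) (φ : F →+* E) (s : E), s ^ 2 = φ d ∧
      ∀ z : E, ∃ a b : F, z = φ a + φ b * s := by
  classical
  have hirr : Irreducible (Polynomial.X ^ 2 - Polynomial.C d : Polynomial F) := by
    apply X_pow_sub_C_irreducible_of_prime Nat.prime_two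
    intro b hb
    exact hd ⟨b, by rw [← hb, sq]⟩
  haveI : Fact (Irreducible (Polynomial.X ^ 2 - Polynomial.C d : Polynomial F)) := ⟨hirr⟩
  set f : Polynomial F := Polynomial.X ^ 2 - Polynomial.C d with hf
  have hmonic : f.Monic := Polynomial.monic_X_pow_sub_C d two_ne_zero
  have hdeg : f.natDegree = 2 := Polynomial.natDegree_X_pow_sub_C
  refine ⟨AdjoinRoot f, inferInstance, AdjoinRoot.of f, AdjoinRoot.root f, ?_, ?_⟩
  · have h : Polynomial.eval₂ (AdjoinRoot.of f) (AdjoinRoot.root f)
        (Polynomial.X ^ 2 - Polynomial.C d) = 0 := AdjoinRoot.eval₂_root f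
    rw [Polynomial.eval₂_sub, Polynomial.eval₂_X_pow, Polynomial.eval₂_C] at h
    exact sub_eq_zero.mp h
  · intro z
    induction z using AdjoinRoot.induction_on with
    | ih p =>
      have hp : AdjoinRoot.mk f p = AdjoinRoot.mk f (p %ₘ f) := by
        conv_lhs => rw [← Polynomial.modByMonic_add_div p f]
        rw [map_add, map_mul, AdjoinRoot.mk_self, zero_mul, add_zero]
      have hlt : (p %ₘ f).natDegree < 2 := by
        have := Polynomial.natDegree_modByMonic_lt p hmonic (by
          intro h1; rw [h1] at hdeg; simp at hdeg)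
        omega
      refine ⟨(p %ₘ f).coeff 0, (p %ₘ f).coeff 1, ?_⟩
      rw [hp]
      conv_lhs => rw [Polynomial.as_sum_range' (p %ₘ f) 2 hlt]
      rw [Finset.sum_range_succ, Finset.sum_range_one, map_add]
      congr 1
      rw [← Polynomial.C_mul_X_pow_eq_monomial, pow_one, map_mul, AdjoinRoot.mk_C, AdjoinRoot.mk_X]

namespace QuadExt

/-- uniqueness of coordinates -/
theorem coord_unique {d : F} (hd : ¬ IsSquare d) {E : Type u} [Field E]
    (φ : F →+* E) (s : E) (hs : s ^ 2 = φ d) {a b : F} (h : φ a + φ b * s = 0) :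
    a = 0 ∧ b = 0 := by
  have hb : b = 0 := by
    by_contra hb
    have hφb : φ b ≠ 0 := by
      intro h0
      exact hb ((map_eq_zero φ).mp h0)
    apply hd
    refine ⟨a / b, ?_⟩
    apply φ.injective
    rw [← hs, map_mul, map_div₀]
    have h1 : s = - φ a / φ b := by
      field_simp
      linear_combination h
    rw [h1]
    field_simp
  refine ⟨?_, hb⟩
  rw [hb, map_zero, zero_mul, add_zero] at h
  exact (map_eq_zero φ).mp h

end QuadExt

open QuadExt

/-- If the anisotropic form `w` over `F` becomes Lagrangian over `F(√d)` then `w` represents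
`(1 - d) * w(x)` for each `x`. -/
theorem represents_of_lag_quad (h2 : (2 : F) ≠ 0) {d : F} (hd : ¬ IsSquare d) {E : Type u} [Field E]
    (φ : F →+* E) (s : E) (hs : s ^ 2 = φ d) (hE : ∀ z : E, ∃ a b : F, z = φ a + φ b * s)
    {m : ℕ} (w : Fin m → F) (hw : NZ w) (ha : Aniso w) (hl : Lag (fun i => φ (w i)))
    (x : Fin m → F) : ∃ y : Fin m → F, dq w y = (1 - d) * dq w x := by
  classical
  obtain ⟨U, hUdim, hU⟩ := hl
  letI : Algebra F E := φ.toAlgebra
  have halg : ∀ a : F, algebraMap F E a = φ a := fun a => rfl
  -- E has the basis 1, s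
  let T1 : (F × F) →ₗ[F] E :=
    { toFun := fun p => φ p.1 + φ p.2 * s
      map_add' := by
        intro p q
        simp only [Prod.fst_add, Prod.snd_add, map_add]
        ring
      map_smul' := by
        intro c p
        change φ (c * p.1) + φ (c * p.2) * s = c • (φ p.1 + φ p.2 * s)
        rw [Algebra.smul_def, halg, map_mul, map_mul]
        ring }
  have hT1inj : Function.Injective T1 := by
    rw [injective_iff_map_eq_zero]
    intro p hp
    obtain ⟨h0, h1⟩ := coord_unique hd φ s hs (a := p.1) (b := p.2) hp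
    exact Prod.ext h0 h1
  have hT1surj : Function.Surjective T1 := by
    intro z
    obtain ⟨a, b, hz⟩ := hE z
    exact ⟨(a, b), hz.symm⟩
  let e1 : (F × F) ≃ₗ[F] E := LinearEquiv.ofBijective T1 ⟨hT1inj, hT1surj⟩
  have hfin : Module.Finite F E := Module.Finite.equiv e1
  have hrank : Module.finrank F E = 2 := by
    rw [← LinearEquiv.finrank_eq e1, Module.finrank_prod, Module.finrank_self]
  -- the map to E^m
  let T : ((Fin m → F) × (Fin m → F)) →ₗ[F] (Fin m → E) :=
    { toFun := fun p i => φ (p.1 i) + φ (p.2 i) * s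
      map_add' := by
        intro p q
        funext i
        simp only [Prod.fst_add, Prod.snd_add, map_add, Pi.add_apply]
        ring
      map_smul' := by
        intro c p
        funext i
        change φ (c * p.1 i) + φ (c * p.2 i) * s = c • (φ (p.1 i) + φ (p.2 i) * s)
        rw [Algebra.smul_def, halg, map_mul, map_mul]
        ring }
  have hTapp : ∀ p i, T p i = φ (p.1 i) + φ (p.2 i) * s := fun p i => rfl
  have hTinj : Function.Injective T := by
    rw [injective_iff_map_eq_zero]
    intro p hp
    have : ∀ i, p.1 i = 0 ∧ p.2 i = 0 := by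
      intro i
      apply coord_unique hd φ s hs
      rw [← hTapp, hp]
      rfl
    exact Prod.ext (funext fun i => (this i).1) (funext fun i => (this i).2)
  have hTsurj : Function.Surjective T := by
    intro z
    choose a b hab using fun i => hE (z i)
    exact ⟨(a, b), funext fun i => (hab i).symm⟩
  let eT : ((Fin m → F) × (Fin m → F)) ≃ₗ[F] (Fin m → E) :=
    LinearEquiv.ofBijective T ⟨hTinj, hTsurj⟩
  let V : Submodule F (Fin m → E) := U.restrictScalars F
  let U' : Submodule F ((Fin m → F) × (Fin m → F)) := V.comap T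
  have hVdim : Module.finrank F V = m := by
    have h3 : Module.finrank F E * Module.finrank E U = Module.finrank F U :=
      Module.finrank_mul_finrank F E U
    have h4 : Module.finrank F V = Module.finrank F U := rfl
    rw [h4, ← h3, hrank, hUdim, Fintype.card_fin]
  have hU'dim : Module.finrank F U' = m := by
    have : U' = V.map (eT.symm : (Fin m → E) →ₗ[F] ((Fin m → F) × (Fin m → F))) := by
      ext p
      simp only [U', Submodule.mem_comap, Submodule.mem_map]
      constructor
      · intro hp
        exact ⟨T p, hp, eT.symm_apply_apply p⟩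
      · rintro ⟨z, hz, rfl⟩
        have : T (eT.symm z) = z := eT.apply_symm_apply z
        rw [LinearEquiv.coe_coe, this]
        exact hz
    rw [this, LinearEquiv.finrank_map_eq, hVdim]
  -- computation of the form
  have hform : ∀ p : (Fin m → F) × (Fin m → F),
      dq (fun i => φ (w i)) (T p) =
        φ (dq w p.1 + d * dq w p.2) + φ (2 * db w p.1 p.2) * s := by
    intro p
    simp only [dq, db, map_add, map_mul, map_sum, map_pow, ← hs, hTapp, Finset.mul_sum,
      Finset.sum_mul, map_ofNat]
    rw [← Finset.sum_add_distrib, ← Finset.sum_add_distrib]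
    refine Finset.sum_congr rfl fun i _ => ?_
    ring
  have hcoord : ∀ p ∈ U', dq w p.1 + d * dq w p.2 = 0 ∧ 2 * db w p.1 p.2 = 0 := by
    intro p hp
    apply coord_unique hd φ s hs
    rw [← hform]
    exact hU _ hp
  -- the first projection is injective on U'
  let pr : U' →ₗ[F] (Fin m → F) := (LinearMap.fst F (Fin m → F) (Fin m → F)).comp U'.subtype
  have hs0 : s ≠ 0 := by
    rintro rfl
    apply hd
    have : φ d = 0 := by rw [← hs]; ring
    rw [(map_eq_zero φ).mp this]
    exact ⟨0, by ring⟩
  have hprinj : Function.Injective pr := by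
    rw [injective_iff_map_eq_zero]
    rintro ⟨p, hp⟩ hp0
    have hp1 : p.1 = 0 := hp0
    have h5 := (hcoord p hp).1
    have h6 : dq w p.1 = 0 := by
      rw [hp1]
      simp [dq]
    rw [h6, zero_add] at h5
    have hd0 : d ≠ 0 := by
      rintro rfl
      exact hd ⟨0, by ring⟩
    have h7 : dq w p.2 = 0 := (mul_eq_zero.mp h5).resolve_left hd0
    have h8 : p.2 = 0 := ha _ h7
    apply Subtype.ext
    exact Prod.ext hp1 h8
  have hprsurj : Function.Surjective pr := by
    apply (LinearMap.injective_iff_surjective_of_finrank_eq_finrank _).mp hprinj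
    rw [hU'dim, Module.finrank_fin_fun]
  obtain ⟨⟨p, hp⟩, hpx⟩ := hprsurj x
  have hpx' : p.1 = x := hpx
  obtain ⟨h9, h10⟩ := hcoord p hp
  refine ⟨p.1 + d • p.2, ?_⟩
  rw [← hpx']
  have h11 : dq w (p.1 + d • p.2) = dq w p.1 + d * (2 * db w p.1 p.2) + d ^ 2 * dq w p.2 := by
    simp only [dq, db, Finset.mul_sum, Pi.add_apply, Pi.smul_apply, smul_eq_mul]
    rw [← Finset.sum_add_distrib, ← Finset.sum_add_distrib]
    refine Finset.sum_congr rfl fun i _ => ?_
    ring
  rw [h11, h10]
  linear_combination d * h9

end WInv
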