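import Pool.Agent.WInv.Gen
import Pool.Agent.WInv.QuadExt
import Pool.Agent.WInv.Pfister

/-!
# Module Q8: the Arason-Pfister Hauptsatz (MP_2fcb4d_al)
-/

set_option autoImplicit false

namespace WInv

universe u

namespace HS

/-- The number of nonempty subsets. -/
noncomputable def NE (n : ℕ) : ℕ := Fintype.card {S : Finset (Fin n) // S ≠ ∅}

/-- Numbering of the nonempty subsets. -/
noncomputable def ee (n : ℕ) : Fin (NE n) ≃ {S : Finset (Fin n) // S ≠ ∅} :=
  (Fintype.equivFin _).symm

theorem NE_add_one (n : ℕ) : NE n + 1 = 2 ^ n := by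
  have h := Fintype.card_congr (Equiv.optionSubtypeNe (∅ : Finset (Fin n)))
  rw [Fintype.card_option, Fintype.card_finset, Fintype.card_fin] at h
  exact h

theorem sum_split {A : Type*} [AddCommMonoid A] {n : ℕ} (g : Finset (Fin n) → A) :
    ∑ S, g S = g ∅ + ∑ i, g (ee n i) := by
  rw [← Equiv.sum_comp (Equiv.optionSubtypeNe (∅ : Finset (Fin n))) g, Fintype.sum_option,
    ← Equiv.sum_comp (ee n) (fun t => g (Equiv.optionSubtypeNe (∅ : Finset (Fin n)) (some t)))]
  simp

/-- The vector with entry `y` at `∅` and entries `X i` at the nonempty subsets. -/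
noncomputable def vec {A : Type*} {n : ℕ} (y : A) (X : Fin (NE n) → A) : Finset (Fin n) → A :=
  fun S => if h : S = ∅ then y else X ((ee n).symm ⟨S, h⟩)

theorem vec_empty {A : Type*} {n : ℕ} (y : A) (X : Fin (NE n) → A) : vec y X ∅ = y := by
  simp [vec]

theorem vec_ee {A : Type*} {n : ℕ} (y : A) (X : Fin (NE n) → A) (i : Fin (NE n)) :
    vec y X (ee n i) = X i := by
  have h : ((ee n i : {S : Finset (Fin n) // S ≠ ∅}) : Finset (Fin n)) ≠ ∅ := (ee n i).2
  rw [vec, dif_neg h]
  simp

theorem dq_vec {A : Type*} [CommRing A] {n : ℕ} (g : Finset (Fin n) → A) (y : A)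
    (X : Fin (NE n) → A) :
    dq g (vec y X) = g ∅ * y ^ 2 + ∑ i, g (ee n i) * X i ^ 2 := by
  rw [dq, sum_split]
  simp only [vec_empty, vec_ee]

/-- Splitting off the last factor. -/
noncomputable def lastEquiv (r : ℕ) (T : Type*) : (Fin r × T) ⊕ T ≃ Fin (r + 1) × T :=
  Equiv.ofBijective (Sum.elim (fun p => (p.1.castSucc, p.2)) (fun t => (Fin.last r, t))) (by
    constructor
    · rintro (⟨i, s⟩ | s) (⟨j, t⟩ | t) h
      · simp only [Sum.elim_inl, Prod.mk.injEq, Fin.castSucc_inj] at h
        rw [h.1, h.2]
      · simp only [Sum.elim_inl, Sum.elim_inr, Prod.mk.injEq] at h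
        exact absurd h.1 (Fin.castSucc_lt_last i).ne
      · simp only [Sum.elim_inl, Sum.elim_inr, Prod.mk.injEq] at h
        exact absurd h.1.symm (Fin.castSucc_lt_last j).ne
      · simp only [Sum.elim_inr, Prod.mk.injEq, true_and] at h
        rw [h]
    · rintro ⟨i, t⟩
      induction i using Fin.lastCases with
      | last => exact ⟨Sum.inr t, rfl⟩
      | cast i => exact ⟨Sum.inl (i, t), rfl⟩)

theorem lastEquiv_inl (r : ℕ) (T : Type*) (p : Fin r × T) :
    lastEquiv r T (Sum.inl p) = (p.1.castSucc, p.2) := rfl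

theorem lastEquiv_inr (r : ℕ) (T : Type*) (t : T) :
    lastEquiv r T (Sum.inr t) = (Fin.last r, t) := rfl

theorem weq_last {F : Type*} [Field F] {ι T : Type*} [Fintype ι] [Fintype T] {r : ℕ} {w : ι → F}
    {W : Fin (r + 1) × T → F} (h : WEq w W) :
    WEq w (Sum.elim (fun p : Fin r × T => W (p.1.castSucc, p.2)) (fun t => W (Fin.last r, t))) := by
  have h1 := Lag.reindex (Equiv.sumCongr (Equiv.refl ι) (lastEquiv r T)) h
  have h2 : (fun i => Sum.elim w (fun j => - W j)
      (Equiv.sumCongr (Equiv.refl ι) (lastEquiv r T) i)) =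
      Sum.elim w (fun j => - Sum.elim (fun p : Fin r × T => W (p.1.castSucc, p.2))
        (fun t => W (Fin.last r, t)) j) := by
    funext i
    rcases i with i | (p | t)
    · rfl
    · rfl
    · rfl
  rw [h2] at h1
  exact h1

theorem lag_empty {F : Type*} [Field F] {ι : Type*} [Fintype ι] [IsEmpty ι] (w : ι → F) :
    Lag w := by
  refine ⟨⊥, ?_, ?_⟩
  · simp
  · intro x _
    simp [dq]

theorem pf_ne_zero {F : Type*} [Field F] {n : ℕ} {a : Fin n → F} (ha : ∀ i, a i ≠ 0)
    (S : Finset (Fin n)) : pf a S ≠ 0 :=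
  Finset.prod_ne_zero_iff.2 fun i _ => ha i

theorem map_pf {F E : Type*} [Field F] [Field E] (φ : F →+* E) {n : ℕ} (a : Fin n → F)
    (S : Finset (Fin n)) : φ (pf a S) = pf (fun i => φ (a i)) S := by
  simp [pf, map_prod]

theorem map_dq {F E : Type*} [Field F] [Field E] (φ : F →+* E) {ι : Type*} [Fintype ι]
    (w x : ι → F) : φ (dq w x) = dq (fun i => φ (w i)) (fun i => φ (x i)) := by
  simp [dq, map_sum]

end HS

open HS in
theorem hauptsatz (n r : ℕ) {F : Type u} [Field F] (h2 : (2 : F) ≠ 0) {m : ℕ} (w : Fin m → F)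
    (hw : NZ w) (ha : Aniso w) (c : Fin r → F) (hc : ∀ j, c j ≠ 0) (a : Fin r → Fin n → F)
    (hna : ∀ j i, a j i ≠ 0)
    (h : WEq w (fun p : Fin r × Finset (Fin n) => c p.1 * pf (a p.1) p.2)) :
    m = 0 ∨ 2 ^ n ≤ m := by
  induction r generalizing F m with
  | zero =>
    left
    have h1 := card_le_of_aniso ha h
    simpa using h1
  | succ r ih =>
    have hlast := weq_last (W := fun p : Fin (r + 1) × Finset (Fin n) => c p.1 * pf (a p.1) p.2) h
    have hNZ1 : NZ (fun p : Fin r × Finset (Fin n) => c p.1.castSucc * pf (a p.1.castSucc) p.2) :=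
      fun p => mul_ne_zero (hc _) (pf_ne_zero (hna _) _)
    have hNZ2 : NZ (fun S : Finset (Fin n) => c (Fin.last r) * pf (a (Fin.last r)) S) :=
      fun S => mul_ne_zero (hc _) (pf_ne_zero (hna _) _)
    by_cases hπ : Aniso (pf (a (Fin.last r)))
    swap
    · -- the last Pfister form is hyperbolic
      have h1 : Lag (fun S : Finset (Fin n) => c (Fin.last r) * pf (a (Fin.last r)) S) :=
        (lag_pf h2 (a (Fin.last r)) (hna _) hπ).smul _
      have h3 := WEq.drop h2 hw hNZ1 hNZ2 hlast h1
      exact ih h2 w hw ha (fun j => c j.castSucc) (fun j => hc _) (fun j => a j.castSucc)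
        (fun j i => hna _ _) h3
    · by_contra hcon
      push Not at hcon
      obtain ⟨hm0, hm⟩ := hcon
      have hN1 : 1 ≤ NE n := by
        have := NE_add_one n
        omega
      obtain ⟨F₀, _, φ, X, G1, G2, -⟩ := exists_gen (NE n) F h2
      -- not all `X i` vanish
      have hX : ¬ ∀ i, X i = 0 := by
        intro hX
        have h1 := G2 1 (fun _ => 1) (fun _ => one_ne_zero) (by
            intro x hx
            have h3 : x 0 ^ 2 = 0 := by simpa [dq] using hx
            funext i
            rw [Subsingleton.elim i 0]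
            exact pow_eq_zero_iff (two_ne_zero) |>.1 h3) 1 (fun _ => 1) one_ne_zero
            (fun _ => one_ne_zero) ⟨fun _ => 1, by simp [dq, hX]⟩
        omega
      set p := pf (a (Fin.last r)) with hp
      set d : F₀ := - ∑ i, φ (p (ee n i)) * X i ^ 2 with hd
      clear_value d
      have hp0 : p ∅ = 1 := by simp [hp, pf]
      have hdsq : ¬ IsSquare d := by
        rintro ⟨y, hy⟩
        have h1 := G1 (NE n + 1)
        -- the form `p` as a form on `Fin`
        have hAn : Aniso (fun S => φ (p S)) := by
          let e : Fin (Fintype.card (Finset (Fin n))) ≃ Finset (Fin n) := (Fintype.equivFin _).symm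
          have h3 : Aniso (fun i => p (e i)) := by
            intro x hx
            have h4 : dq p (fun S => x (e.symm S)) = 0 := by
              rw [← hx, dq, dq, ← Equiv.sum_comp e]
              simp
            have h5 := hπ _ h4
            funext i
            have h6 := congrFun h5 (e i)
            simpa using h6
          have h4 := G1 _ _ h3
          intro x hx
          have h5 : dq (fun i => φ (p (e i))) (fun i => x (e i)) = 0 := by
            rw [← hx, dq, dq, ← Equiv.sum_comp e]
          have h6 := h4 _ h5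
          funext S
          have h7 := congrFun h6 (e.symm S)
          simpa using h7
        have h3 : dq (fun S => φ (p S)) (vec y X) = 0 := by
          rw [dq_vec, hp0, map_one]
          have h4 : ∑ i, φ (p (ee n i)) * X i ^ 2 = -d := by rw [hd, neg_neg]
          rw [h4, hy]; ring
        have h4 := hAn _ h3
        apply hX
        intro i
        have h5 := congrFun h4 (ee n i)
        rw [vec_ee] at h5
        exact h5
      have hd0 : d ≠ 0 := by
        intro h0
        exact hdsq (h0 ▸ IsSquare.zero)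
      obtain ⟨E, _, ψ, s, hs, hE⟩ := exists_quad_ext d hdsq
      have h2F₀ : (2 : F₀) ≠ 0 := by
        intro h0
        apply h2
        apply φ.injective
        rw [map_ofNat, map_zero, h0]
      have h2E : (2 : E) ≠ 0 := by
        intro h0
        apply h2F₀
        apply ψ.injective
        rw [map_ofNat, map_zero, h0]
      let θ : F →+* E := ψ.comp φ
      have hθ : ∀ x, θ x = ψ (φ x) := fun x => rfl
      have hθ0 : ∀ {x : F}, x ≠ 0 → θ x ≠ 0 := fun hx => by
        rw [Ne, map_eq_zero]; exact hx
      have hs0 : s ≠ 0 := by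
        rintro rfl
        rw [zero_pow two_ne_zero] at hs
        exact hd0 ((map_eq_zero ψ).1 hs.symm)
      have hiso : ¬ Aniso (pf (fun i => θ (a (Fin.last r) i))) := by
        intro hA
        have h1 : dq (pf (fun i => θ (a (Fin.last r) i))) (vec s (fun i => ψ (X i))) = 0 := by
          rw [dq_vec]
          have h3 : ∀ S, pf (fun i => θ (a (Fin.last r) i)) S = ψ (φ (p S)) := by
            intro S
            rw [← map_pf θ]
            rfl
          simp only [h3, hp0, map_one, one_mul, hs]
          have h4 : ∑ i, ψ (φ (p (ee n i))) * ψ (X i) ^ 2 = ψ (-d) := by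
            rw [hd, neg_neg, map_sum]
            simp only [map_mul, map_pow]
          rw [h4, map_neg]; ring
        have h3 := congrFun (hA _ h1) ∅
        rw [vec_empty] at h3
        exact hs0 h3
      have hlagE : Lag (pf (fun i => θ (a (Fin.last r) i))) :=
        lag_pf h2E _ (fun i => hθ0 (hna _ _)) hiso
      have hwE : NZ (fun i => θ (w i)) := fun i => hθ0 (hw i)
      -- Witt equivalence over `E`
      have hE1 := WEq.map h2 θ hlast
      have hE2 : WEq (fun i => θ (w i))
          (Sum.elim (fun q : Fin r × Finset (Fin n) =>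
            θ (c q.1.castSucc) * pf (fun i => θ (a q.1.castSucc i)) q.2)
            (fun S => θ (c (Fin.last r)) * pf (fun i => θ (a (Fin.last r) i)) S)) := by
        have h3 : (fun j => θ (Sum.elim (fun q : Fin r × Finset (Fin n) =>
            c q.1.castSucc * pf (a q.1.castSucc) q.2)
            (fun S => c (Fin.last r) * pf (a (Fin.last r)) S) j)) =
            (Sum.elim (fun q : Fin r × Finset (Fin n) =>
            θ (c q.1.castSucc) * pf (fun i => θ (a q.1.castSucc i)) q.2)
            (fun S => θ (c (Fin.last r)) * pf (fun i => θ (a (Fin.last r) i)) S)) := by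
          funext j
          rcases j with q | S
          · simp only [Sum.elim_inl, map_mul, map_pf]
          · simp only [Sum.elim_inr, map_mul, map_pf]
        rw [← h3]
        exact hE1
      have hNZE1 : NZ (fun q : Fin r × Finset (Fin n) =>
          θ (c q.1.castSucc) * pf (fun i => θ (a q.1.castSucc i)) q.2) :=
        fun q => mul_ne_zero (hθ0 (hc _)) (pf_ne_zero (fun i => hθ0 (hna _ _)) _)
      have hNZE2 : NZ (fun S : Finset (Fin n) =>
          θ (c (Fin.last r)) * pf (fun i => θ (a (Fin.last r) i)) S) :=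
        fun S => mul_ne_zero (hθ0 (hc _)) (pf_ne_zero (fun i => hθ0 (hna _ _)) _)
      have hE3 := WEq.drop h2E hwE hNZE1 hNZE2 hE2 (hlagE.smul _)
      obtain ⟨m₀, w₀, hm₀, hw₀, haw₀, hww₀⟩ := exists_aniso_part h2E hwE
      have hE4 := WEq.trans h2E hw₀ hwE hNZE1 hww₀.symm hE3
      have h5 := ih h2E w₀ hw₀ haw₀ (fun j => θ (c j.castSucc)) (fun j => hθ0 (hc _))
        (fun j i => θ (a j.castSucc i)) (fun j i => hθ0 (hna _ _)) hE4
      have hm₀' : m₀ = 0 := by
        rcases h5 with h5 | h5
        · exact h5
        · rw [Fintype.card_fin] at hm₀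
          omega
      subst hm₀'
      have hlagw : Lag (fun i => θ (w i)) := WEq.lag h2E hwE hw₀ hww₀ (lag_empty w₀)
      -- descend to `F₀`
      have hφ0 : ∀ {x : F}, x ≠ 0 → φ x ≠ 0 := fun hx => by
        rw [Ne, map_eq_zero]; exact hx
      have hm1 : 0 < m := Nat.pos_of_ne_zero hm0
      let i₀ : Fin m := ⟨0, hm1⟩
      have hdq0 : dq w (Pi.single i₀ 1) = w i₀ := by
        rw [dq, Finset.sum_eq_single i₀]
        · simp
        · intro b _ hb
          simp [hb]
        · intro h0
          exact absurd (Finset.mem_univ _) h0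
      obtain ⟨y, hy⟩ := represents_of_lag_quad h2F₀ hdsq ψ s hs hE (fun i => φ (w i))
        (fun i => hφ0 (hw i)) (G1 m w ha) hlagw (fun i => φ ((Pi.single i₀ 1 : Fin m → F) i))
      rw [← map_dq, hdq0] at hy
      have h6 := G2 m w hw ha (w i₀) (fun i => w i₀ * p (ee n i)) (hw i₀)
        (fun i => mul_ne_zero (hw i₀) (pf_ne_zero (hna _) _)) ⟨y, by
          rw [hy, sub_mul, one_mul, hd, neg_mul, sub_neg_eq_add, Finset.sum_mul]
          congr 1
          apply Finset.sum_congr rfl
          intro i _
          rw [map_mul]; ring⟩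
      rw [NE_add_one] at h6
      omega

end WInv
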