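import Pool.Agent.WInv.Defs

/-!
# Intermediate value theorem for polynomials over the hyperreals (MP_2fcb4d_al)
-/

set_option autoImplicit false

namespace WInv

open Polynomial

namespace HyperSign

/-- sequences to hyperreals as a ring homomorphism -/
noncomputable def sh : (ℕ → ℝ) →+* Hyperreal :=
  { toFun := Hyperreal.ofSeq
    map_one' := rfl
    map_mul' := fun _ _ => rfl
    map_zero' := rfl
    map_add' := fun _ _ => rfl }

lemma sh_apply (f : ℕ → ℝ) : sh f = Hyperreal.ofSeq f := rfl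

lemma exists_seq (x : Hyperreal) : ∃ f : ℕ → ℝ, sh f = x := Hyperreal.ofSeq_surjective x

lemma exists_coeffs (f : Hyperreal[X]) : ∃ c : ℕ → ℕ → ℝ, (∀ i, sh (c i) = f.coeff i) := by
  choose c hc using fun i => exists_seq (f.coeff i)
  exact ⟨c, hc⟩

lemma eval_seq (f : Hyperreal[X]) (c : ℕ → ℕ → ℝ) (hc : ∀ i, sh (c i) = f.coeff i)
    (t : ℕ → ℝ) : f.eval (sh t) =
      sh (fun k => ∑ i ∈ Finset.range (f.natDegree + 1), c i k * t k ^ i) := by
  have h : (fun k => ∑ i ∈ Finset.range (f.natDegree + 1), c i k * t k ^ i) =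
      ∑ i ∈ Finset.range (f.natDegree + 1), c i * t ^ i := by
    funext k
    simp
  rw [h, map_sum, eval_eq_sum_range]
  refine Finset.sum_congr rfl fun i _ => ?_
  rw [map_mul, map_pow, hc]

end HyperSign

open HyperSign in
/-- A polynomial over the hyperreals without roots has constant sign. -/
theorem hyper_sign (f : Hyperreal[X]) (hf : ∀ t, f.eval t ≠ 0) :
    (∀ t, 0 < f.eval t) ∨ (∀ t, f.eval t < 0) := by
  by_contra hcon
  rw [not_or] at hcon
  obtain ⟨h1, h2⟩ := hcon
  rw [not_forall] at h1 h2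
  obtain ⟨a, ha⟩ := h1
  obtain ⟨b, hb⟩ := h2
  have ha' : f.eval a < 0 := lt_of_le_of_ne (not_lt.1 ha) (hf a)
  have hb' : 0 < f.eval b := lt_of_le_of_ne (not_lt.1 hb) (hf b).symm
  obtain ⟨c, hc⟩ := exists_coeffs f
  obtain ⟨as, rfl⟩ := exists_seq a
  obtain ⟨bs, rfl⟩ := exists_seq b
  rw [eval_seq f c hc] at ha' hb'
  have e0 : (0 : Hyperreal) = Hyperreal.ofSeq (fun _ => 0) := rfl
  rw [e0, sh_apply, Hyperreal.ofSeq_lt_ofSeq] at ha' hb'
  -- choose roots
  have key : ∀ᶠ k in (Filter.hyperfilter ℕ : Filter ℕ), ∃ r : ℝ,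
      ∑ i ∈ Finset.range (f.natDegree + 1), c i k * r ^ i = 0 := by
    filter_upwards [ha', hb'] with k h1 h2
    have hcont : Continuous fun r : ℝ => ∑ i ∈ Finset.range (f.natDegree + 1), c i k * r ^ i := by
      fun_prop
    have := mem_range_of_exists_le_of_exists_ge hcont ⟨as k, h1.le⟩ ⟨bs k, h2.le⟩
    exact this
  classical
  let r : ℕ → ℝ := fun k => if h : ∃ r : ℝ,
      ∑ i ∈ Finset.range (f.natDegree + 1), c i k * r ^ i = 0 then h.choose else 0
  have hr : ∀ᶠ k in (Filter.hyperfilter ℕ : Filter ℕ),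
      ∑ i ∈ Finset.range (f.natDegree + 1), c i k * r k ^ i = 0 := by
    filter_upwards [key] with k h
    have : r k = h.choose := dif_pos h
    rw [this]
    exact h.choose_spec
  apply hf (sh r)
  rw [eval_seq f c hc, sh_apply, e0]
  exact Filter.Germ.coe_eq.2 hr

end WInv
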