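import Pool.Agent.WInv.Split

/-!
# Module Q10: anisotropic forms with `2 w = 0` (MP_2fcb4d_al)
-/

set_option autoImplicit false

namespace WInv

universe u

variable {K : Type u} [Field K]

namespace TwoTor

/-- Isometry of diagonal forms. -/
def Iso {ι κ : Type*} [Fintype ι] [Fintype κ] (w : ι → K) (w' : κ → K) : Prop :=
  ∃ e : (ι → K) ≃ₗ[K] (κ → K), ∀ x, dq w' (e x) = dq w x

section

variable {ι κ μ ν : Type*} [Fintype ι] [Fintype κ] [Fintype μ] [Fintype ν]

theorem Iso.refl (w : ι → K) : Iso w w := ⟨LinearEquiv.refl K _, fun _ => rfl⟩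

theorem Iso.trans {w : ι → K} {w' : κ → K} {w'' : μ → K} (h : Iso w w') (h' : Iso w' w'') :
    Iso w w'' := by
  obtain ⟨e, he⟩ := h
  obtain ⟨e', he'⟩ := h'
  exact ⟨e.trans e', fun x => by simp [he', he]⟩

theorem Iso.symm {w : ι → K} {w' : κ → K} (h : Iso w w') : Iso w' w := by
  obtain ⟨e, he⟩ := h
  exact ⟨e.symm, fun x => by rw [← he]; simp⟩

theorem Iso.reindex (w : κ → K) (e : ι ≃ κ) : Iso (fun i => w (e i)) w := by
  refine ⟨LinearEquiv.funCongrLeft K K e.symm, fun x => ?_⟩
  unfold dq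
  rw [← Equiv.sum_comp e]
  simp [LinearEquiv.funCongrLeft, LinearMap.funLeft]

theorem dq_elim (w : ι → K) (w' : κ → K) (x : ι ⊕ κ → K) :
    dq (Sum.elim w w') x = dq w (fun i => x (Sum.inl i)) + dq w' (fun i => x (Sum.inr i)) := by
  simp [dq, Fintype.sum_sum_type]

theorem Iso.sum {w₁ : ι → K} {w₁' : κ → K} {w₂ : μ → K} {w₂' : ν → K}
    (h₁ : Iso w₁ w₁') (h₂ : Iso w₂ w₂') : Iso (Sum.elim w₁ w₂) (Sum.elim w₁' w₂') := by
  obtain ⟨e₁, h₁⟩ := h₁
  obtain ⟨e₂, h₂⟩ := h₂
  refine ⟨(LinearEquiv.sumArrowLequivProdArrow ι μ K K).trans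
    ((LinearEquiv.prodCongr e₁ e₂).trans (LinearEquiv.sumArrowLequivProdArrow κ ν K K).symm),
    fun x => ?_⟩
  rw [dq_elim, dq_elim]
  have a := h₁ (fun i => x (Sum.inl i))
  have b := h₂ (fun i => x (Sum.inr i))
  rw [← a, ← b]
  rfl

omit [Fintype ι] [Fintype κ] in
theorem Iso.nz {w : ι → K} {w' : κ → K} : NZ (Sum.elim w w') ↔ NZ w ∧ NZ w' := by
  simp [NZ, Sum.forall]

theorem Iso.aniso {w : ι → K} {w' : κ → K} (h : Iso w w') (ha : Aniso w) : Aniso w' := by
  obtain ⟨e, he⟩ := h.symm
  intro x hx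
  have := ha (e x) (by rw [he, hx])
  simpa using this

theorem aniso_left {w : ι → K} {w' : κ → K} (h : Aniso (Sum.elim w w')) : Aniso w' := by
  intro x hx
  have := h (Sum.elim 0 x) (by
    rw [dq_elim]
    simp only [Sum.elim_inl, Sum.elim_inr]
    rw [hx]
    simp [dq])
  funext i
  have := congrFun this (Sum.inr i)
  simpa using this

end

theorem db_of_iso {ι κ : Type*} [Fintype ι] [Fintype κ] (h2 : (2 : K) ≠ 0) {w : ι → K}
    {w' : κ → K} (e : (ι → K) ≃ₗ[K] (κ → K))
    (he : ∀ x, dq w' (e x) = dq w x) (x y : ι → K) : db w' (e x) (e y) = db w x y := by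
  have h := he (x + y)
  rw [map_add, dq_add, dq_add, he, he] at h
  have : 2 * db w' (e x) (e y) = 2 * db w x y := by linear_combination h
  exact mul_left_cancel₀ h2 this

/-- splitting off a vector -/
theorem exists_iso {n : ℕ} (h2 : (2 : K) ≠ 0) {w : Fin n → K} (hw : NZ w) (x : Fin n → K)
    (hx : dq w x ≠ 0) :
    ∃ (m : ℕ) (w' : Fin m → K) (e : (Fin n → K) ≃ₗ[K] (Unit ⊕ Fin m → K)),
      n = m + 1 ∧ NZ w' ∧ (∀ v, dq (Sum.elim (fun _ : Unit => dq w x) w') (e v) = dq w v) ∧
      e x = Pi.single (Sum.inl ()) 1 := by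
  classical
  obtain ⟨m, w', P, Q, hm, hw', hPQ, hQP, hD, hP⟩ := exists_compl h2 hw x hx
  have hdq : ∀ {κ : Type} [Fintype κ] [DecidableEq κ] (w : κ → K) (x : κ → K),
      dq w x = dotProduct x ((Matrix.diagonal w).mulVec x) := by
    intro κ _ _ w x
    simp only [dq, dotProduct, Matrix.mulVec_diagonal]
    exact Finset.sum_congr rfl fun i _ => by ring
  have hsymm : ∀ y, (Matrix.toLin'OfInv hPQ hQP).symm y = P.mulVec y := fun y => rfl
  refine ⟨m, w', Matrix.toLin'OfInv hPQ hQP, by simpa using hm, hw', ?_, ?_⟩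
  · intro v
    obtain ⟨y, rfl⟩ : ∃ y, v = P.mulVec y := ⟨Q.mulVec v, by rw [Matrix.mulVec_mulVec, hPQ]; simp⟩
    have h1 : (Matrix.toLin'OfInv hPQ hQP) (P.mulVec y) = y := by
      rw [← hsymm, LinearEquiv.apply_symm_apply]
    rw [h1, hdq (Sum.elim (fun _ : Unit => dq w x) w') y, hdq w (P.mulVec y), ← hD]
    rw [← Matrix.mulVec_mulVec, ← Matrix.mulVec_mulVec, Matrix.dotProduct_mulVec,
      Matrix.vecMul_transpose]
  · rw [← LinearEquiv.eq_symm_apply, hsymm]
    funext i
    simp [← hP i, Matrix.mulVec_single]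

/-- the doubled binary form -/
def dbl (c t : K) : (Unit ⊕ Unit) ⊕ (Unit ⊕ Unit) → K :=
  Sum.elim (Sum.elim (fun _ => c) (fun _ => -(c * (1 + t ^ 2))))
    (Sum.elim (fun _ => c) (fun _ => -(c * (1 + t ^ 2))))

def dblMap (t : K) : (K × K) →ₗ[K] ((Unit ⊕ Unit) ⊕ (Unit ⊕ Unit) → K) where
  toFun y := Sum.elim (Sum.elim (fun _ => y.1 - t * y.2) (fun _ => y.1))
    (Sum.elim (fun _ => t * y.1 + y.2) (fun _ => y.2))
  map_add' y z := by
    funext i
    rcases i with (_ | _) | (_ | _) <;> simp <;> ring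
  map_smul' a y := by
    funext i
    rcases i with (_ | _) | (_ | _) <;> simp <;> ring

theorem lag_dbl (c t : K) : Lag (dbl c t) := by
  refine ⟨LinearMap.range (dblMap t), ?_, ?_⟩
  · rw [LinearMap.finrank_range_of_inj]
    · simp
    · intro y z h
      have h1 := congrFun h (Sum.inl (Sum.inr ()))
      have h2 := congrFun h (Sum.inr (Sum.inr ()))
      simp only [dblMap, LinearMap.coe_mk, AddHom.coe_mk, Sum.elim_inl, Sum.elim_inr] at h1 h2
      exact Prod.ext h1 h2
  · rintro x ⟨y, rfl⟩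
    simp only [dq, dbl, dblMap, LinearMap.coe_mk, AddHom.coe_mk, Fintype.sum_sum_type,
      Sum.elim_inl, Sum.elim_inr, Finset.univ_unique, Finset.sum_singleton]
    ring

theorem nz_dbl {c t : K} (hc : c ≠ 0) (ht : 1 + t ^ 2 ≠ 0) : NZ (dbl c t) := by
  intro i
  rcases i with (_ | _) | (_ | _) <;> simp [dbl, hc, ht]

def shuffle (α : Type*) : ((α ⊕ α) ⊕ ((Unit ⊕ Unit) ⊕ (Unit ⊕ Unit))) ≃
    ((Unit ⊕ (Unit ⊕ α)) ⊕ (Unit ⊕ (Unit ⊕ α))) where
  toFun
    | .inl (.inl a) => .inl (.inr (.inr a))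
    | .inl (.inr a) => .inr (.inr (.inr a))
    | .inr (.inl (.inl u)) => .inl (.inl u)
    | .inr (.inl (.inr u)) => .inl (.inr (.inl u))
    | .inr (.inr (.inl u)) => .inr (.inl u)
    | .inr (.inr (.inr u)) => .inr (.inr (.inl u))
  invFun
    | .inl (.inr (.inr a)) => .inl (.inl a)
    | .inr (.inr (.inr a)) => .inl (.inr a)
    | .inl (.inl u) => .inr (.inl (.inl u))
    | .inl (.inr (.inl u)) => .inr (.inl (.inr u))
    | .inr (.inl u) => .inr (.inr (.inl u))
    | .inr (.inr (.inl u)) => .inr (.inr (.inr u))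
  left_inv x := by rcases x with (_ | _) | ((_ | _) | (_ | _)) <;> rfl
  right_inv x := by rcases x with (_ | (_ | _)) | (_ | (_ | _)) <;> rfl

def gather (k : ℕ) : (Unit ⊕ (Unit ⊕ (Fin k ⊕ Fin k))) ≃ (Fin (k + 1) ⊕ Fin (k + 1)) where
  toFun
    | .inl _ => .inl 0
    | .inr (.inl _) => .inr 0
    | .inr (.inr (.inl j)) => .inl j.succ
    | .inr (.inr (.inr j)) => .inr j.succ
  invFun := Sum.elim (Fin.cons (.inl ()) (fun j => .inr (.inr (.inl j))))
    (Fin.cons (.inr (.inl ())) (fun j => .inr (.inr (.inr j))))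
  left_inv x := by rcases x with _ | (_ | (_ | _)) <;> simp
  right_inv x := by
    rcases x with j | j
    · refine Fin.cases ?_ (fun j => ?_) j <;> simp
    · refine Fin.cases ?_ (fun j => ?_) j <;> simp

theorem exists_binary_iso (h2 : (2 : K) ≠ 0) (hi : ¬ IsSquare (-1 : K)) (m : ℕ) :
    ∀ w : Fin m → K, NZ w → Aniso w → Lag (Sum.elim w w) →
    ∃ (k : ℕ) (c t : Fin k → K), m = 2 * k ∧ (∀ j, c j ≠ 0) ∧ (∀ j, 1 + t j ^ 2 ≠ 0) ∧
      Iso w (Sum.elim c (fun j => - (c j * (1 + t j ^ 2)))) := by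
  induction m using Nat.strong_induction_on with
  | _ m ih =>
  intro w hw ha hl
  rcases Nat.eq_zero_or_pos m with rfl | hm
  · refine ⟨0, Fin.elim0, Fin.elim0, rfl, fun j => j.elim0, fun j => j.elim0, ?_⟩
    have := Iso.reindex (K := K) (Sum.elim (Fin.elim0 : Fin 0 → K)
      (fun j : Fin 0 => - ((Fin.elim0 : Fin 0 → K) j * (1 + (Fin.elim0 : Fin 0 → K) j ^ 2))))
      (Equiv.equivOfIsEmpty (Fin 0) (Fin 0 ⊕ Fin 0))
    exact (funext fun i => i.elim0 : w = _) ▸ this
  · obtain ⟨U, hU, hq⟩ := id hl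
    have hUne : U ≠ ⊥ := by
      rintro rfl
      simp at hU
      omega
    obtain ⟨v, hvU, hv0⟩ := Submodule.exists_mem_ne_zero_of_ne_bot hUne
    set x : Fin m → K := fun i => v (Sum.inl i) with hx
    set y : Fin m → K := fun i => v (Sum.inr i) with hy
    have hxy : dq w x + dq w y = 0 := by
      have := hq v hvU
      rwa [dq_elim] at this
    have hc : dq w x ≠ 0 := by
      intro h0
      have hx0 := ha x h0
      have hy0 := ha y (by rw [h0] at hxy; simpa using hxy)
      apply hv0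
      funext i
      rcases i with i | i
      · exact congrFun hx0 i
      · exact congrFun hy0 i
    obtain ⟨m', w', e, hm', hw', he, hex⟩ := exists_iso h2 hw x hc
    set c := dq w x with hcdef
    set t := db w x y / c with ht
    have htc : db w x y = t * c := by rw [ht]; field_simp
    set z := y + (-t) • x with hz
    have hdbs : ∀ (a : K) (u v : Fin m → K), db w u (a • v) = a * db w u v := by
      intro a u v
      simp only [db, Pi.smul_apply, smul_eq_mul, Finset.mul_sum]
      exact Finset.sum_congr rfl fun i _ => by ring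
    have hdba : ∀ (u v v' : Fin m → K), db w u (v + v') = db w u v + db w u v' := by
      intro u v v'
      simp only [db, Pi.add_apply, ← Finset.sum_add_distrib]
      exact Finset.sum_congr rfl fun i _ => by ring
    have hdbc : ∀ (u v : Fin m → K), db w u v = db w v u := by
      intro u v
      simp only [db]
      exact Finset.sum_congr rfl fun i _ => by ring
    have hdbx : db w x x = c := by
      rw [hcdef]
      simp only [db, dq]
      exact Finset.sum_congr rfl fun i _ => by ring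
    have hxz : db w x z = 0 := by
      rw [hz, hdba, hdbs, hdbx, htc]; ring
    have hdz : dq w z = -(c * (1 + t ^ 2)) := by
      rw [hz, dq_add, dq_smul, hdbs, hdbc y x, htc, ← hcdef]
      linear_combination hxy
    have h1t : 1 + t ^ 2 ≠ 0 := by
      intro h0
      exact hi ⟨t, by linear_combination -h0⟩
    have hz0 : e z (Sum.inl ()) = 0 := by
      have h3 := db_of_iso h2 e he x z
      rw [hxz, hex] at h3
      have h4 : db (Sum.elim (fun _ : Unit => c) w') (Pi.single (Sum.inl ()) 1) (e z)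
          = c * e z (Sum.inl ()) := by
        simp [db, Fintype.sum_sum_type]
      rw [h4] at h3
      exact (mul_eq_zero.1 h3).resolve_left hc
    set z' : Fin m' → K := fun i => e z (Sum.inr i) with hz'
    have hdz' : dq w' z' = -(c * (1 + t ^ 2)) := by
      rw [← hdz, ← he z, dq_elim]
      simp [dq, hz0, hz']
    have hdz'0 : dq w' z' ≠ 0 := by
      rw [hdz']
      exact neg_ne_zero.2 (mul_ne_zero hc h1t)
    obtain ⟨m'', w'', e', hm'', hw'', he', -⟩ := exists_iso h2 hw' z' hdz'0
    rw [hdz'] at he'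
    have I : Iso w (Sum.elim (fun _ : Unit => c)
        (Sum.elim (fun _ : Unit => -(c * (1 + t ^ 2))) w'')) :=
      Iso.trans ⟨e, he⟩ (Iso.sum (Iso.refl _) ⟨e', he'⟩)
    have ha'' : Aniso w'' := aniso_left (aniso_left (I.aniso ha))
    have hl'' : Lag (Sum.elim w'' w'') := by
      obtain ⟨E, hE⟩ := Iso.sum I I
      have h5 := (Lag.congr E hE hl).reindex (shuffle (Fin m''))
      refine Lag.cancel h2 (w' := dbl c t) (Iso.nz.2 ⟨hw'', hw''⟩) (nz_dbl hc h1t) ?_
        (lag_dbl c t)
      convert h5 using 1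
      funext i
      rcases i with (_ | _) | ((_ | _) | (_ | _)) <;> rfl
    obtain ⟨k, c', t', hk, hc', ht', I'⟩ := ih m'' (by omega) w'' hw'' ha'' hl''
    refine ⟨k + 1, Fin.cons c c', Fin.cons t t', by omega, ?_, ?_, ?_⟩
    · intro j
      refine Fin.cases ?_ (fun j => ?_) j
      · simpa using hc
      · simpa using hc' j
    · intro j
      refine Fin.cases ?_ (fun j => ?_) j
      · simpa using h1t
      · simpa using ht' j
    · refine Iso.trans (Iso.trans I (Iso.sum (Iso.refl _) (Iso.sum (Iso.refl _) I'))) ?_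
      have := Iso.reindex (K := K) (Sum.elim (Fin.cons c c' : Fin (k + 1) → K)
        (fun j => - ((Fin.cons c c' : Fin (k + 1) → K) j *
          (1 + (Fin.cons t t' : Fin (k + 1) → K) j ^ 2)))) (gather k)
      convert this using 1
      funext i
      rcases i with _ | (_ | (_ | _)) <;> simp [gather]

end TwoTor

open TwoTor

/-- If `w` is anisotropic and `w ⊥ w` has a Lagrangian then `w` is an orthogonal sum of
binary forms `c ⟨1, -(1 + t ^ 2)⟩`. -/
theorem exists_binary_sum (h2 : (2 : K) ≠ 0) (hi : ¬ IsSquare (-1 : K)) {m : ℕ} (w : Fin m → K)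
    (hw : NZ w) (ha : Aniso w) (hl : Lag (Sum.elim w w)) :
    ∃ (k : ℕ) (c t : Fin k → K) (e : (Fin m → K) ≃ₗ[K] (Fin k ⊕ Fin k → K)),
      m = 2 * k ∧ (∀ j, c j ≠ 0) ∧ (∀ j, 1 + t j ^ 2 ≠ 0) ∧
      ∀ x, dq (Sum.elim c (fun j => - (c j * (1 + t j ^ 2)))) (e x) = dq w x := by
  obtain ⟨k, c, t, hk, hc, ht, e, he⟩ := exists_binary_iso h2 hi m w hw ha hl
  exact ⟨k, c, t, e, hk, hc, ht, he⟩

/-- Over a field with `U9` such a form has dimension at most `14`. -/
theorem lt_sixteen_of_lag_double (h2 : (2 : K) ≠ 0) (hi : ¬ IsSquare (-1 : K)) (hU : U9 K)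
    {m : ℕ} (w : Fin m → K) (hw : NZ w) (ha : Aniso w) (hl : Lag (Sum.elim w w)) : m < 16 := by
  classical
  obtain ⟨k, c, t, e, hk, hc, ht, he⟩ := exists_binary_sum h2 hi w hw ha hl
  by_contra hm
  have hk8 : 8 ≤ k := by omega
  set ι : Fin 8 → Fin k := Fin.castLE hk8 with hι
  have hιi : Function.Injective ι := Fin.castLE_injective hk8
  obtain ⟨x, y, hxy, hre, him⟩ := hU
    (Fin.snoc (fun j : Fin 8 => c (ι j) * t (ι j)) (-1)) (Fin.snoc (fun j : Fin 8 => c (ι j)) 0)
  rw [Fin.sum_univ_castSucc] at hre him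
  simp only [Fin.snoc_castSucc, Fin.snoc_last] at hre him
  -- the anisotropy of the sum of the binary forms
  have key : ∀ p q : Fin 8 → K,
      ∑ j, (c (ι j) * (p j ^ 2 - q j ^ 2) + c (ι j) * t (ι j) * (2 * p j * q j)) = 0 →
      ∀ j, p j = 0 ∧ q j = 0 := by
    intro p q h
    set V : Fin k ⊕ Fin k → K := Sum.elim
      (Function.extend ι (fun j => p j + t (ι j) * q j) 0)
      (Function.extend ι q 0) with hV
    have hV0 : dq (Sum.elim c (fun j => - (c j * (1 + t j ^ 2)))) V = 0 := by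
      rw [dq_elim]
      simp only [dq, hV, Sum.elim_inl, Sum.elim_inr]
      rw [← Finset.sum_add_distrib, ← h]
      symm
      apply Fintype.sum_of_injective ι hιi
      · intro j hj
        rw [Function.extend_apply' _ _ _ (by simpa using hj),
          Function.extend_apply' _ _ _ (by simpa using hj)]
        simp
      · intro j
        rw [hιi.extend_apply, hιi.extend_apply]
        ring
    have hV1 : V = 0 := by
      obtain ⟨v, hv⟩ := e.surjective V
      rw [← hv, he] at hV0
      rw [← hv, ha v hV0, map_zero]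
    intro j
    have h1 := congrFun hV1 (Sum.inl (ι j))
    have h2 := congrFun hV1 (Sum.inr (ι j))
    simp only [hV, Sum.elim_inl, Sum.elim_inr, hιi.extend_apply, Pi.zero_apply] at h1 h2
    rw [h2] at h1
    exact ⟨by simpa using h1, h2⟩
  set a := x (Fin.last 8) with hax
  set b := y (Fin.last 8) with hby
  by_cases hab : a = 0 ∧ b = 0
  · obtain ⟨h3, h4⟩ := hab
    have h5 := key (fun j => x j.castSucc) (fun j => y j.castSucc) (by
      rw [h3, h4] at him
      simpa using him)
    have hx0 : x = 0 := by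
      funext j
      refine Fin.lastCases ?_ (fun j => ?_) j
      · exact h3
      · exact (h5 j).1
    have hy0 : y = 0 := by
      funext j
      refine Fin.lastCases ?_ (fun j => ?_) j
      · exact h4
      · exact (h5 j).2
    rcases hxy with h | h
    · exact h hx0
    · exact h hy0
  · have hs : a ^ 2 + b ^ 2 ≠ 0 := by
      intro h0
      by_cases hb : b = 0
      · rw [hb] at h0
        exact hab ⟨by simpa using h0, hb⟩
      · apply hi
        refine ⟨a / b, ?_⟩
        field_simp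
        linear_combination -h0
    have hA : ∑ j : Fin 8, (c (ι j) * t (ι j) * (x j.castSucc ^ 2 - y j.castSucc ^ 2) -
        c (ι j) * (2 * x j.castSucc * y j.castSucc)) = a ^ 2 - b ^ 2 := by
      linear_combination hre
    have hB : ∑ j : Fin 8, (c (ι j) * (x j.castSucc ^ 2 - y j.castSucc ^ 2) +
        c (ι j) * t (ι j) * (2 * x j.castSucc * y j.castSucc)) = 2 * a * b := by
      linear_combination him
    have h5 := key (fun j => x j.castSucc * a + y j.castSucc * b)
      (fun j => y j.castSucc * a - x j.castSucc * b) (by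
      have : ∀ j : Fin 8, (c (ι j) * ((x j.castSucc * a + y j.castSucc * b) ^ 2 -
          (y j.castSucc * a - x j.castSucc * b) ^ 2) + c (ι j) * t (ι j) *
          (2 * (x j.castSucc * a + y j.castSucc * b) * (y j.castSucc * a - x j.castSucc * b)))
          = (a ^ 2 - b ^ 2) * (c (ι j) * (x j.castSucc ^ 2 - y j.castSucc ^ 2) +
            c (ι j) * t (ι j) * (2 * x j.castSucc * y j.castSucc)) -
            (2 * a * b) * (c (ι j) * t (ι j) * (x j.castSucc ^ 2 - y j.castSucc ^ 2) -
            c (ι j) * (2 * x j.castSucc * y j.castSucc)) := by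
        intro j
        ring
      rw [Finset.sum_congr rfl fun j _ => this j, Finset.sum_sub_distrib, ← Finset.mul_sum,
        ← Finset.mul_sum, hA, hB]
      ring)
    have h6 : ∀ j : Fin 8, x j.castSucc = 0 ∧ y j.castSucc = 0 := by
      intro j
      obtain ⟨h7, h8⟩ := h5 j
      have h9 : (a ^ 2 + b ^ 2) * x j.castSucc = 0 := by linear_combination a * h7 - b * h8
      have h10 : (a ^ 2 + b ^ 2) * y j.castSucc = 0 := by linear_combination b * h7 + a * h8
      exact ⟨(mul_eq_zero.1 h9).resolve_left hs, (mul_eq_zero.1 h10).resolve_left hs⟩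
    simp only [h6] at hA hB
    have hA' : a ^ 2 - b ^ 2 = 0 := by rw [← hA]; simp
    have hB' : 2 * a * b = 0 := by rw [← hB]; simp
    apply hs
    have h11 : a * b = 0 := by
      have : 2 * (a * b) = 0 := by linear_combination hB'
      exact (mul_eq_zero.1 this).resolve_left h2
    rcases mul_eq_zero.1 h11 with h0 | h0
    · rw [h0] at hA' ⊢
      linear_combination -hA'
    · rw [h0] at hA' ⊢
      linear_combination hA'

end WInv
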