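import Pool.Agent.WInv.Torsion
import Pool.Agent.WInv.TwoTor
import Pool.Agent.WInv.Hauptsatz

/-!
# Module Q12: `I ^ 4` is torsion free if `U9` holds (MP_2fcb4d_al)
-/

set_option autoImplicit false

namespace WInv

universe u

theorem IFour.aux {K : Type u} [Field K] (h2 : (2 : K) ≠ 0)
    (hi : ¬ IsSquare (-1 : K)) (hU : U9 K) (x : WittRing K) (hx : x ∈ fundI K ^ 4)
    (h : x + x = 0) : x = 0 := by
  obtain ⟨m₀, w₀, rfl⟩ := exists_cls x
  have hw₀ : NZ (fun i => (w₀ i : K)) := fun i => (w₀ i).ne_zero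
  obtain ⟨m, w, -, hw, ha, hwe⟩ := exists_aniso_part h2 hw₀
  -- the anisotropic part with unit entries
  set w₁ : Fin m → Kˣ := fun i => Units.mk0 (w i) (hw i) with hw₁
  have hww : (fun i => (w₁ i : K)) = w := by
    funext i; rfl
  have e1 : cls w₀ = cls w₁ := by
    rw [cls_eq_cls_iff h2, hww]
    exact hwe
  rw [e1] at h hx ⊢
  have hl : Lag (Sum.elim w w) := by
    rw [← cls_sum, cls_eq_zero_iff h2] at h
    have e3 : (fun i => ((Sum.elim w₁ w₁ i : Kˣ) : K)) = Sum.elim w w := by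
      funext i
      rcases i with i | i <;> rfl
    rw [e3] at h
    exact h
  have hm : m < 16 := lt_sixteen_of_lag_double h2 hi hU w hw ha hl
  obtain ⟨r, c, a, hca⟩ := mem_fundI_pow 4 _ hx
  rw [cls_eq_cls_iff h2, hww] at hca
  have e4 : (fun p : Fin r × Finset (Fin 4) => ((c p.1 * ∏ i ∈ p.2, a p.1 i : Kˣ) : K)) =
      fun p : Fin r × Finset (Fin 4) => (fun j => (c j : K)) p.1 *
        pf ((fun j i => (a j i : K)) p.1) p.2 := by
    funext p
    simp [pf]
  rw [e4] at hca
  have hh := hauptsatz 4 r h2 w hw ha (fun j => (c j : K)) (fun j => (c j).ne_zero)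
    (fun j i => (a j i : K)) (fun j i => (a j i).ne_zero) hca
  have hm0 : m = 0 := by
    rcases hh with h | h
    · exact h
    · norm_num at h
      omega
  subst hm0
  simp [cls, brk]

theorem fundI_four_torsionFree {K : Type u} [Field K] (h2 : (2 : K) ≠ 0)
    (hi : ¬ IsSquare (-1 : K)) (hU : U9 K) (x : WittRing K) (hx : x ∈ fundI K ^ 4)
    (m : ℕ) (hm : 0 < m) (h : m • x = 0) : x = 0 := by
  obtain ⟨l, hl⟩ := two_pow_torsion h2 x m hm h
  clear h hm
  induction l with
  | zero => simpa using hl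
  | succ l ih =>
    apply ih
    apply IFour.aux h2 hi hU
    · exact nsmul_mem hx _
    · rw [← hl, pow_succ, mul_nsmul, two_nsmul]

end WInv
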