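import Pool.Agent.WInv.Psi

/-!
# Module B5': restriction to the generic line, arithmetic part (MP_2fcb4d_al)
-/

set_option autoImplicit false

namespace WInv

open Polynomial

universe u

variable {R : Type u} [Field R]

namespace PsiPull

/-- Constants of `R[X][X][X]`. -/
noncomputable def base (R : Type u) [Field R] : R →+* R[X][X][X] :=
  (C : R[X][X] →+* R[X][X][X]).comp ((C : R[X] →+* R[X][X]).comp (C : R →+* R[X]))

theorem base_apply (a : R) : base R a = C (C (C a)) := rfl

/-- `p ↦ p`, `x ↦ c₀ + c₁ p`, as a map `R[p][x] → R[c₀][c₁][p]`. -/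
noncomputable def phi (R : Type u) [Field R] : R[X][X] →+* R[X][X][X] :=
  eval₂RingHom (eval₂RingHom (base R) (X : R[X][X][X])) ((C (C X) + C X * X : R[X][X][X]))

/-- The extension of `phi` to `R[p][x][c₁]`. -/
noncomputable def theta (R : Type u) [Field R] : R[X][X][X] →+* R[X][X][X] :=
  eval₂RingHom (phi R) (C X : R[X][X][X])

/-- The inverse of `theta`. -/
noncomputable def theta' (R : Type u) [Field R] : R[X][X][X] →+* R[X][X][X] :=
  eval₂RingHom (eval₂RingHom (eval₂RingHom (base R) ((C X - X * C (C X) : R[X][X][X])))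
    (X : R[X][X][X])) (C (C X) : R[X][X][X])

theorem phi_C (q : R[X]) : phi R (C q) = eval₂ (base R) X q := by
  simp [phi]

theorem phi_X : phi R X = C (C X) + C X * X := by
  simp [phi]

theorem phi_CC (a : R) : phi R (C (C a)) = C (C (C a)) := by
  rw [phi_C, eval₂_C, base_apply]

theorem phi_CX : phi R (C X) = X := by
  rw [phi_C, eval₂_X]

theorem theta_C (q : R[X][X]) : theta R (C q) = phi R q := by
  simp [theta]

theorem theta_X : theta R X = C X := by
  simp [theta]

theorem theta'_CCC (a : R) : theta' R (C (C (C a))) = C (C (C a)) := by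
  simp [theta', base_apply]

theorem theta'_CCX : theta' R (C (C X)) = C X - X * C (C X) := by
  simp [theta']

theorem theta'_CX : theta' R (C X) = X := by
  simp [theta']

theorem theta'_X : theta' R X = C (C X) := by
  simp [theta']

theorem hom3_ext {S : Type*} [Semiring S] {f g : R[X][X][X] →+* S}
    (h0 : ∀ a, f (C (C (C a))) = g (C (C (C a)))) (h1 : f (C (C X)) = g (C (C X)))
    (h2 : f (C X) = g (C X)) (h3 : f X = g X) : f = g := by
  refine ringHom_ext' (ringHom_ext' (ringHom_ext' ?_ ?_) ?_) ?_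
  · exact RingHom.ext h0
  · exact h1
  · exact h2
  · exact h3

theorem hom2_ext {S : Type*} [Semiring S] {f g : R[X][X] →+* S}
    (h0 : ∀ a, f (C (C a)) = g (C (C a))) (h1 : f (C X) = g (C X)) (h2 : f X = g X) : f = g := by
  refine ringHom_ext' (ringHom_ext' ?_ ?_) ?_
  · exact RingHom.ext h0
  · exact h1
  · exact h2

theorem ring_map_sub (f : R[X][X][X] →+* R[X][X][X]) (a b : R[X][X][X]) :
    f (a - b) = f a - f b :=
  map_sub f a b

theorem ring_map_mul (f : R[X][X][X] →+* R[X][X][X]) (a b : R[X][X][X]) :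
    f (a * b) = f a * f b :=
  map_mul f a b

theorem prime_of_equiv {S T : Type*} [CommRing S] [CommRing T] (e : S ≃+* T) {x : S}
    (hx : Prime x) : Prime (e x) :=
  (MulEquiv.prime_iff e).mpr hx

theorem equiv_map_sq_aux {S T : Type*} [CommRing S] [CommRing T] (e : S ≃+* T) (a b c : S) :
    e (a ^ 2 - b * c ^ 2) = e a ^ 2 - e b * e c ^ 2 := by
  rw [map_sub, map_mul, map_pow, map_pow]

theorem equiv_map_sq (e : R[X][X][X] ≃+* R[X][X][X]) (a b c : R[X][X][X]) :
    e (a ^ 2 - b * c ^ 2) = e a ^ 2 - e b * e c ^ 2 :=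
  equiv_map_sq_aux (S := R[X][X][X]) (T := R[X][X][X]) e a b c

theorem theta_comp : (theta R).comp (theta' R) = RingHom.id _ := by
  refine hom3_ext (fun a => ?_) ?_ ?_ ?_
  · rw [RingHom.comp_apply, theta'_CCC, theta_C, phi_CC, RingHom.id_apply]
  · rw [RingHom.comp_apply, theta'_CCX, ring_map_sub, ring_map_mul, theta_C, theta_C, theta_X,
      phi_X, phi_CX, RingHom.id_apply]
    ring
  · rw [RingHom.comp_apply, theta'_CX, theta_X, RingHom.id_apply]
  · rw [RingHom.comp_apply, theta'_X, theta_C, phi_CX, RingHom.id_apply]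

theorem theta_comp' : (theta' R).comp (theta R) = RingHom.id _ := by
  refine hom3_ext (fun a => ?_) ?_ ?_ ?_
  · rw [RingHom.comp_apply, theta_C, phi_CC, theta'_CCC, RingHom.id_apply]
  · rw [RingHom.comp_apply, theta_C, phi_CX, theta'_X, RingHom.id_apply]
  · rw [RingHom.comp_apply, theta_C, phi_X, map_add, map_mul, theta'_CCX, theta'_CX, theta'_X,
      RingHom.id_apply]
    ring
  · rw [RingHom.comp_apply, theta_X, theta'_CX, RingHom.id_apply]

/-- `theta` as an isomorphism. -/
noncomputable def thetaE (R : Type u) [Field R] : R[X][X][X] ≃+* R[X][X][X] :=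
  RingEquiv.ofRingHom (theta R) (theta' R) theta_comp theta_comp'

theorem thetaE_C (h : R[X][X]) : thetaE R (C h) = phi R h :=
  theta_C h

theorem psi_eq (h : R[X][X]) : psi R h = (phi R h).map (algebraMap R[X][X] (LL R)) := by
  have : psi R = (mapRingHom (algebraMap R[X][X] (LL R))).comp (phi R) := by
    refine hom2_ext (fun a => ?_) ?_ ?_
    · rw [RingHom.comp_apply, phi_CC, coe_mapRingHom, Polynomial.map_C]
      simp only [psi, coe_eval₂RingHom, eval₂_C, coe_mapRingHom, Polynomial.map_C]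
      rw [IsScalarTower.algebraMap_apply R R[X][X] (LL R)]
      rfl
    · rw [RingHom.comp_apply, phi_CX, coe_mapRingHom, Polynomial.map_X]
      simp only [psi, coe_eval₂RingHom, eval₂_C, coe_mapRingHom, Polynomial.map_X]
    · rw [RingHom.comp_apply, phi_X, coe_mapRingHom, Polynomial.map_add, Polynomial.map_mul,
        Polynomial.map_C, Polynomial.map_C, Polynomial.map_X]
      simp only [psi, coe_eval₂RingHom, eval₂_X, c0, c1]
  rw [this]
  rfl

theorem prime_phi {h : R[X][X]} (hh : Prime h) : Prime (phi R h) := by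
  rw [← thetaE_C]
  exact prime_of_equiv (S := R[X][X][X]) (T := R[X][X][X]) (thetaE R) (prime_C_iff.mpr hh)

theorem algebraMap_inj : Function.Injective (algebraMap R[X][X] (LL R)) :=
  IsFractionRing.injective _ _

theorem natDegree_psi (h : R[X][X]) : (psi R h).natDegree = (phi R h).natDegree := by
  rw [psi_eq]
  exact natDegree_map_eq_of_injective algebraMap_inj _

/-- Descent of a congruence from `R[p][x][c₁]` to `R[p][x]`. -/
theorem descent {h b : R[X][X]} (hh : Prime h) {F G : R[X][X][X]} (hG : ¬ C h ∣ G)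
    (hF : C h ∣ F ^ 2 - C b * G ^ 2) :
    ∃ f₀ g₀ : R[X][X], ¬ h ∣ g₀ ∧ h ∣ f₀ ^ 2 - b * g₀ ^ 2 := by
  have : (Ideal.span {h} : Ideal R[X][X]).IsPrime :=
    (Ideal.span_singleton_prime hh.ne_zero).mpr hh
  set q := Ideal.Quotient.mk (Ideal.span {h} : Ideal R[X][X]) with hq
  have hq0 : ∀ y, q y = 0 ↔ h ∣ y := fun y => by
    rw [hq, Ideal.Quotient.eq_zero_iff_mem, Ideal.mem_span_singleton]
  have hGne : G.map q ≠ 0 := by
    intro h0
    apply hG
    rw [C_dvd_iff_dvd_coeff]
    intro i
    rw [← hq0, ← coeff_map, h0, coeff_zero]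
  have hEq : (F.map q) ^ 2 = C (q b) * (G.map q) ^ 2 := by
    obtain ⟨K, hK⟩ := hF
    have := congrArg (Polynomial.map q) hK
    rw [Polynomial.map_mul, Polynomial.map_C, (hq0 h).mpr dvd_rfl, C_0, zero_mul,
      Polynomial.map_sub, Polynomial.map_pow, Polynomial.map_mul, Polynomial.map_pow,
      Polynomial.map_C, sub_eq_zero] at this
    exact this
  have hlc := congrArg leadingCoeff hEq
  rw [leadingCoeff_pow, leadingCoeff_mul, leadingCoeff_C, leadingCoeff_pow] at hlc
  obtain ⟨f₀, hf₀⟩ := Ideal.Quotient.mk_surjective (F.map q).leadingCoeff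
  obtain ⟨g₀, hg₀⟩ := Ideal.Quotient.mk_surjective (G.map q).leadingCoeff
  refine ⟨f₀, g₀, ?_, ?_⟩
  · rw [← hq0, hq, hg₀]
    exact leadingCoeff_ne_zero.mpr hGne
  · rw [← hq0, map_sub, map_mul, map_pow, map_pow, hq, hf₀, hg₀, ← hq, hlc, sub_self]

end PsiPull

open PsiPull

/-- Gauss: an irreducible polynomial of positive total degree stays irreducible on the
generic line. -/
theorem irreducible_psi {h : R[X][X]} (hh : Prime h) (hD : 0 < D h) : Irreducible (psi R h) := by
  have hp := prime_phi hh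
  have hd : (phi R h).natDegree ≠ 0 := by
    rw [← natDegree_psi]
    exact hD.ne'
  rw [psi_eq]
  exact ((hp.irreducible.isPrimitive hd).irreducible_iff_irreducible_map_fraction_map).mp
    hp.irreducible

/-- Descent of a congruence from the generic line to the plane. -/
theorem psi_pullback {h b : R[X][X]} (hh : Prime h) (hD : 0 < D h) {f g : (LL R)[X]}
    (hg : ¬ psi R h ∣ g) (hf : psi R h ∣ f ^ 2 - psi R b * g ^ 2) :
    ∃ f₀ g₀ : R[X][X], ¬ h ∣ g₀ ∧ h ∣ f₀ ^ 2 - b * g₀ ^ 2 := by
  have hp := prime_phi hh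
  have hd : (phi R h).natDegree ≠ 0 := by
    rw [← natDegree_psi]
    exact hD.ne'
  obtain ⟨k, hk⟩ := hf
  obtain ⟨t₁, ht₁, e₁⟩ := IsLocalization.integerNormalization_spec (nonZeroDivisors R[X][X]) f
  obtain ⟨t₂, ht₂, e₂⟩ := IsLocalization.integerNormalization_spec (nonZeroDivisors R[X][X]) g
  obtain ⟨t₃, ht₃, e₃⟩ := IsLocalization.integerNormalization_spec (nonZeroDivisors R[X][X]) k
  set F₁ := IsLocalization.integerNormalization (nonZeroDivisors R[X][X]) f with hF₁
  set G₁ := IsLocalization.integerNormalization (nonZeroDivisors R[X][X]) g with hG₁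
  set K₁ := IsLocalization.integerNormalization (nonZeroDivisors R[X][X]) k with hK₁
  have s₁ : F₁.map (algebraMap R[X][X] (LL R)) = C (algebraMap R[X][X] (LL R) t₁) * f := by
    rw [e₁, Algebra.smul_def]
    rfl
  have s₂ : G₁.map (algebraMap R[X][X] (LL R)) = C (algebraMap R[X][X] (LL R) t₂) * g := by
    rw [e₂, Algebra.smul_def]
    rfl
  have s₃ : K₁.map (algebraMap R[X][X] (LL R)) = C (algebraMap R[X][X] (LL R) t₃) * k := by
    rw [e₃, Algebra.smul_def]
    rfl
  have ht₁0 : t₁ ≠ 0 := nonZeroDivisors.ne_zero ht₁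
  have ht₂0 : t₂ ≠ 0 := nonZeroDivisors.ne_zero ht₂
  have ht₃0 : t₃ ≠ 0 := nonZeroDivisors.ne_zero ht₃
  set F := C t₂ * F₁ with hF
  set G := C t₁ * G₁ with hG
  have main : C t₃ * (F ^ 2 - phi R b * G ^ 2) = phi R h * (C (t₁ * t₂) ^ 2 * K₁) := by
    apply map_injective _ (algebraMap_inj (R := R))
    simp only [hF, hG, Polynomial.map_mul, Polynomial.map_sub, Polynomial.map_pow,
      Polynomial.map_C, s₁, s₂, s₃, ← psi_eq, map_mul]
    linear_combination (C (algebraMap R[X][X] (LL R) t₃) * C (algebraMap R[X][X] (LL R) t₁) ^ 2 *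
      C (algebraMap R[X][X] (LL R) t₂) ^ 2) * hk
  have hndvd : ∀ t : R[X][X], t ≠ 0 → ¬ phi R h ∣ C t := by
    intro t ht hdv
    have := natDegree_le_of_dvd hdv (C_ne_zero.mpr ht)
    rw [natDegree_C] at this
    omega
  have hdF : phi R h ∣ F ^ 2 - phi R b * G ^ 2 := by
    rcases hp.dvd_or_dvd (Dvd.intro _ main.symm) with h1 | h1
    · exact absurd h1 (hndvd t₃ ht₃0)
    · exact h1
  have hdG : ¬ phi R h ∣ G := by
    intro h1
    rcases hp.dvd_or_dvd h1 with h2 | h2
    · exact hndvd t₁ ht₁0 h2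
    · apply hg
      have h3 : (phi R h).map (algebraMap R[X][X] (LL R)) ∣ G₁.map (algebraMap R[X][X] (LL R)) :=
        Polynomial.map_dvd _ h2
      rw [← psi_eq, s₂] at h3
      have hu : IsUnit (C (algebraMap R[X][X] (LL R) t₂)) := by
        rw [isUnit_C]
        exact IsUnit.mk0 _ (by
          rw [Ne, ← map_zero (algebraMap R[X][X] (LL R))]
          exact fun h4 => ht₂0 (algebraMap_inj h4))
      exact (hu.dvd_mul_left).mp h3
  -- transport to `R[p][x][c₁]`
  refine descent hh (F := (thetaE R).symm F) (G := (thetaE R).symm G) (b := b) ?_ ?_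
  · intro h1
    apply hdG
    have h2 := map_dvd (thetaE R) h1
    rwa [RingEquiv.apply_symm_apply, thetaE_C] at h2
  · have h2 := map_dvd (thetaE R).symm hdF
    rw [equiv_map_sq, ← thetaE_C, ← thetaE_C, RingEquiv.symm_apply_apply,
      RingEquiv.symm_apply_apply] at h2
    exact h2

end WInv
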