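import Pool.Agent.WInv.Half
import Pool.Agent.WInv.Conic
import Pool.Agent.WInv.PsiPull

/-!
# Module B6: the key lemma (MP_2fcb4d_al)
-/

set_option autoImplicit false

namespace WInv

open Polynomial

universe u

namespace Key

section General

/-- Dividing three polynomials by their greatest common divisor. -/
theorem exists_gcd3 {N : Type*} [Field N] (u v w : N[X]) (h : ¬ (u = 0 ∧ v = 0 ∧ w = 0)) :
    ∃ g u' v' w' : N[X], g ≠ 0 ∧ u = g * u' ∧ v = g * v' ∧ w = g * w' ∧
      ∀ d, d ∣ u' → d ∣ v' → d ∣ w' → IsUnit d := by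
  classical
  set g₁ := EuclideanDomain.gcd u v with hg₁
  set g := EuclideanDomain.gcd g₁ w with hg
  have h₁ := EuclideanDomain.gcd_eq_gcd_ab u v
  have h₂ := EuclideanDomain.gcd_eq_gcd_ab g₁ w
  rw [← hg₁] at h₁
  rw [← hg] at h₂
  have hgg : g ∣ g₁ := EuclideanDomain.gcd_dvd_left _ _
  obtain ⟨u', hu⟩ : g ∣ u := hgg.trans (EuclideanDomain.gcd_dvd_left _ _)
  obtain ⟨v', hv⟩ : g ∣ v := hgg.trans (EuclideanDomain.gcd_dvd_right _ _)
  obtain ⟨w', hw⟩ : g ∣ w := EuclideanDomain.gcd_dvd_right _ _
  have hg0 : g ≠ 0 := by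
    intro h0
    apply h
    rw [hu, hv, hw, h0]
    simp
  refine ⟨g, u', v', w', hg0, hu, hv, hw, ?_⟩
  intro d hdu hdv hdw
  set a₁ := EuclideanDomain.gcdA u v
  set b₁ := EuclideanDomain.gcdB u v
  set a₂ := EuclideanDomain.gcdA g₁ w
  set b₂ := EuclideanDomain.gcdB g₁ w
  have key : g * 1 = g * (u' * a₁ * a₂ + v' * b₁ * a₂ + w' * b₂) := by
    calc g * 1 = g := mul_one _
      _ = g₁ * a₂ + w * b₂ := h₂
      _ = (u * a₁ + v * b₁) * a₂ + w * b₂ := by rw [← h₁]
      _ = ((g * u') * a₁ + (g * v') * b₁) * a₂ + (g * w') * b₂ := by rw [← hu, ← hv, ← hw]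
      _ = _ := by ring
  have key' := mul_left_cancel₀ hg0 key
  apply isUnit_of_dvd_one
  rw [key']
  exact dvd_add (dvd_add (Dvd.dvd.mul_right (Dvd.dvd.mul_right hdu _) _)
    (Dvd.dvd.mul_right (Dvd.dvd.mul_right hdv _) _)) (Dvd.dvd.mul_right hdw _)

theorem exists_isM {N : Type*} [Field N] (α β : ℕ) (u v w : N[X])
    (h : ¬ (u = 0 ∧ v = 0 ∧ w = 0)) : ∃ M, IsM α β u v w M := by
  classical
  refine ⟨max (if u = 0 then 0 else α + u.natDegree)
    (max (if v = 0 then 0 else β + v.natDegree) (if w = 0 then 0 else α + β + w.natDegree)), ?_⟩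
  unfold IsM
  by_cases hu : u = 0 <;> by_cases hv : v = 0 <;> by_cases hw : w = 0 <;>
    simp only [hu, hv, hw, if_true, if_false, ne_eq, not_true_eq_false, not_false_eq_true,
      false_and, true_and, IsEmpty.forall_iff, forall_true_left, false_or, or_false, and_true] at h ⊢
  all_goals first
    | exact absurd trivial h
    | omega

end General

section Tau

variable (L : Type u) [Field L]

/-- The automorphism `z ↦ 1 - z` of `L[z]`. -/
noncomputable def tau0 : L[X] ≃+* L[X] :=
  (Polynomial.algEquivOfCompEqX (1 - X : L[X]) (1 - X) (by simp) (by simp)).toRingEquiv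

/-- The automorphism `z ↦ 1 - z` of `L(z)`. -/
noncomputable def tau : FractionRing L[X] ≃+* FractionRing L[X] :=
  IsFractionRing.ringEquivOfRingEquiv (tau0 L)

theorem tau0_C (c : L) : tau0 L (C c) = C c := by
  simp [tau0]

theorem tau0_X : tau0 L X = 1 - X := by
  simp [tau0]

theorem tau_algebraMap (f : L[X]) :
    tau L (algebraMap L[X] (FractionRing L[X]) f) =
      algebraMap L[X] (FractionRing L[X]) (tau0 L f) :=
  IsFractionRing.ringEquivOfRingEquiv_algebraMap (tau0 L) f

theorem tau_base (c : L) :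
    tau L (algebraMap L (FractionRing L[X]) c) = algebraMap L (FractionRing L[X]) c := by
  rw [IsScalarTower.algebraMap_apply L L[X] (FractionRing L[X]) c, Polynomial.algebraMap_eq,
    tau_algebraMap, tau0_C]

theorem tau_comp_base :
    (tau L : FractionRing L[X] →+* FractionRing L[X]).comp (algebraMap L (FractionRing L[X])) =
      algebraMap L (FractionRing L[X]) := by
  ext c
  exact tau_base L c

theorem map_sg (a b : L[X]) (u v w : (FractionRing L[X])[X]) :
    (sg a b u v w).map (tau L : FractionRing L[X] →+* FractionRing L[X]) =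
      sg b a (v.map (tau L : FractionRing L[X] →+* FractionRing L[X]))
        (u.map (tau L : FractionRing L[X] →+* FractionRing L[X]))
        (w.map (tau L : FractionRing L[X] →+* FractionRing L[X])) := by
  unfold sg
  simp only [Polynomial.map_add, Polynomial.map_sub, Polynomial.map_mul, Polynomial.map_pow,
    Polynomial.map_map, tau_comp_base, Polynomial.map_C, RingHom.coe_coe, tau_algebraMap,
    map_sub, map_mul, map_one, tau0_X, Polynomial.map_one]
  ring

end Tau

section Swap

/-- Evaluating the first variable at `0` after the swap. -/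
theorem swap_map_eval_zero {L : Type u} [Field L] (F : L[X][X]) :
    (Bivariate.swap F).map (evalRingHom (0 : L)) = F.coeff 0 := by
  induction F using Polynomial.induction_on' with
  | add p q hp hq => simp [hp, hq, map_add, Polynomial.map_add]
  | monomial n f =>
    rw [Bivariate.swap_monomial, Polynomial.map_mul, Polynomial.map_map, Polynomial.map_C,
      Polynomial.coeff_monomial]
    have hc : (evalRingHom (0 : L)).comp (C : L →+* L[X]) = RingHom.id L := by
      ext c; simp
    rw [hc, Polynomial.map_id]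
    rcases Nat.eq_zero_or_pos n with hn | hn
    · subst hn; simp
    · simp [hn.ne']

end Swap

section Phi

variable (R : Type u) [Field R]

/-- The map `R[p][x][z] → L(z)[p]`. -/
noncomputable def Phi : R[X][X][X] →+* (FractionRing (LL R)[X])[X] :=
  (mapRingHom (algebraMap (LL R)[X] (FractionRing (LL R)[X]))).comp
    (((Bivariate.swap (R := LL R)) : (LL R)[X][X] →+* (LL R)[X][X]).comp (mapRingHom (psi R)))

theorem Phi_apply (f : R[X][X][X]) :
    Phi R f = (Bivariate.swap (R := LL R) (f.map (psi R))).map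
      (algebraMap (LL R)[X] (FractionRing (LL R)[X])) := rfl

theorem Phi_C (a : R[X][X]) :
    Phi R (C a) = (psi R a).map (algebraMap (LL R) (FractionRing (LL R)[X])) := by
  rw [Phi_apply, Polynomial.map_C, Bivariate.swap_C, Polynomial.map_map,
    IsScalarTower.algebraMap_eq (LL R) (LL R)[X] (FractionRing (LL R)[X]), Polynomial.algebraMap_eq]

theorem Phi_X : Phi R X = C (algebraMap (LL R)[X] (FractionRing (LL R)[X]) X) := by
  rw [Phi_apply, Polynomial.map_X, Bivariate.swap_Y, Polynomial.map_C]

theorem Phi_injective : Function.Injective (Phi R) := by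
  intro f g hfg
  rw [Phi_apply, Phi_apply] at hfg
  have h1 := Polynomial.map_injective _
    (IsFractionRing.injective (LL R)[X] (FractionRing (LL R)[X])) hfg
  have h2 := (Bivariate.swap (R := LL R)).injective h1
  exact Polynomial.map_injective _ psi_injective h2

theorem Phi_key (a b : R[X][X]) (u v w : R[X][X][X]) :
    Phi R (C a * X * u ^ 2 + C b * (1 - X) * v ^ 2 - C a * C b * (X * (1 - X)) * w ^ 2) =
      sg (psi R a) (psi R b) (Phi R u) (Phi R v) (Phi R w) := by
  unfold sg
  rw [map_sub (Phi R), map_add (Phi R), map_mul (Phi R), map_mul (Phi R), map_mul (Phi R),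
    map_mul (Phi R), map_mul (Phi R), map_mul (Phi R), map_mul (Phi R), map_pow (Phi R),
    map_pow (Phi R), map_pow (Phi R), Phi_C, Phi_C, map_sub (Phi R), map_mul (Phi R),
    map_one (Phi R), map_sub (Phi R), map_one (Phi R), Phi_X]
  simp only [map_sub, map_mul, map_one]

end Phi

section Curve

variable {R : Type u} [Field R]

/-- A point of odd degree on the generic line where `b` is a square and a nonzero polynomial
vanishes gives an odd curve over which `b` is a square. -/
theorem no_curve {δ σ : R} (hno : NoOddCurve δ σ) {k : Type u} [Field k] [Algebra (LL R) k]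
    [FiniteDimensional (LL R) k] (hodd : Odd (Module.finrank (LL R) k)) (ξ : k)
    (hsq : IsSquare (aeval ξ (psi R (bpol δ σ)))) (v₀ : R[X][X]) (hv₀ : v₀ ≠ 0)
    (hz : aeval ξ (psi R v₀) = 0) : False := by
  -- a prime factor through the point
  have hfac : ∀ q : R[X][X], q ≠ 0 → aeval ξ (psi R q) = 0 →
      ∃ h : R[X][X], Prime h ∧ aeval ξ (psi R h) = 0 := by
    intro q
    induction q using UniqueFactorizationMonoid.induction_on_prime with
    | h₁ => intro h0; exact absurd rfl h0
    | h₂ x hx =>
      intro _ h1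
      exact absurd h1 ((hx.map (psi R)).map (aeval ξ)).ne_zero
    | h₃ a p ha hp ih =>
      intro _ h1
      rw [map_mul, map_mul, mul_eq_zero] at h1
      rcases h1 with h1 | h1
      · exact ⟨p, hp, h1⟩
      · exact ih ha h1
  obtain ⟨h, hh, hξ⟩ := hfac v₀ hv₀ hz
  have hpsi0 : psi R h ≠ 0 := by
    intro h0
    exact hh.ne_zero (psi_injective (h0.trans (map_zero _).symm))
  have hD : 0 < D h := by
    rw [Nat.pos_iff_ne_zero]
    intro h0
    obtain ⟨c, hc⟩ := Polynomial.natDegree_eq_zero.1 (h0 : (psi R h).natDegree = 0)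
    rw [← hc, aeval_C] at hξ
    have hc0 : c = 0 := by
      apply (algebraMap (LL R) k).injective
      rw [hξ, map_zero]
    apply hpsi0
    rw [← hc, hc0, map_zero]
  have hirr : Irreducible (psi R h) := irreducible_psi hh hD
  have hint : IsIntegral (LL R) ξ := IsIntegral.of_finite (LL R) ξ
  have hdvd : minpoly (LL R) ξ ∣ psi R h := minpoly.dvd (LL R) ξ hξ
  have hass : Associated (minpoly (LL R) ξ) (psi R h) :=
    (minpoly.irreducible hint).associated_of_dvd hirr hdvd
  have hdeg : D h = (minpoly (LL R) ξ).natDegree :=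
    (Polynomial.natDegree_eq_of_degree_eq (Polynomial.degree_eq_degree_of_associated hass)).symm
  have hDodd : Odd (D h) := by
    rw [hdeg]
    exact odd_natDegree_minpoly hodd ξ
  obtain ⟨r, -, hr⟩ := exists_minpoly_dvd hodd ξ (psi R (bpol δ σ)) hsq
  have hr' : psi R h ∣ r ^ 2 - psi R (bpol δ σ) * 1 ^ 2 := by
    rw [one_pow, mul_one]
    exact hass.symm.dvd.trans hr
  obtain ⟨f₀, g₀, hg₀, hf₀⟩ := psi_pullback hh hD (f := r) (g := 1)
    (fun hd => hirr.not_isUnit (isUnit_of_dvd_one hd)) hr'
  exact hno h f₀ g₀ hh hDodd hg₀ hf₀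

end Curve

end Key

theorem key {R : Type u} [Field R] (hR : FR R) {δ σ : R} (hδ : δ ≠ 0) (hσ : σ ≠ 0)
    (hno : NoOddCurve δ σ) : KeyStatement δ σ := by
  classical
  intro n u v w s heq
  by_contra hne
  have hL : FR (LL R) := FR.fractionRing (FR.polynomial (FR.polynomial hR))
  -- transport to `L(z)[p]`
  have heq' := congrArg (Key.Phi R) heq
  rw [Key.Phi_key, map_sum] at heq'
  simp only [map_pow] at heq'
  have hne' : ∑ i, Key.Phi R (s i) ^ 2 ≠ 0 := by
    intro h0
    apply hne
    apply Key.Phi_injective R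
    rw [map_sum, map_zero]
    simpa only [map_pow] using h0
  have hnz : ¬ (Key.Phi R u = 0 ∧ Key.Phi R v = 0 ∧ Key.Phi R w = 0) := by
    rintro ⟨h1, h2, h3⟩
    apply hne'
    rw [← heq', h1, h2, h3]
    simp [sg]
  obtain ⟨h, U, V, W, hh, hU, hV, hW, hcop⟩ := Key.exists_gcd3 _ _ _ hnz
  have heq2 : h ^ 2 * sg (psi R (apol R)) (psi R (bpol δ σ)) U V W =
      ∑ i, Key.Phi R (s i) ^ 2 := by
    rw [← heq', hU, hV, hW]
    unfold sg
    ring
  have hnz2 : ¬ (U = 0 ∧ V = 0 ∧ W = 0) := by
    rintro ⟨h1, h2, h3⟩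
    apply hnz
    rw [hU, hV, hW, h1, h2, h3]
    simp
  obtain ⟨M, hM⟩ := Key.exists_isM 1 4 U V W hnz2
  have ha0 : psi R (apol R) ≠ 0 := by
    intro h0
    have := natDegree_psi_apol hR
    rw [h0] at this
    simp at this
  have hb0 : psi R (bpol δ σ) ≠ 0 := by
    intro h0
    have := natDegree_psi_bpol hR δ σ
    rw [h0] at this
    simp at this
  rcases Nat.even_or_odd M with hMe | hMo
  · -- `M` even: exchange the roles
    have hpar : Odd (M + 1) := hMe.add_one
    set t : FractionRing (LL R)[X] →+* FractionRing (LL R)[X] :=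
      (Key.tau (LL R) : FractionRing (LL R)[X] →+* FractionRing (LL R)[X]) with ht
    have htinj : Function.Injective t := (Key.tau (LL R)).injective
    have hcop' : ∀ g, g ∣ V.map t → g ∣ U.map t → g ∣ W.map t → IsUnit g := by
      intro g h1 h2 h3
      set t' : FractionRing (LL R)[X] →+* FractionRing (LL R)[X] :=
        ((Key.tau (LL R)).symm : FractionRing (LL R)[X] →+* FractionRing (LL R)[X]) with ht'
      have hc1 : t'.comp t = RingHom.id _ := by
        apply RingHom.ext
        intro x
        simp [ht, ht']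
      have hc2 : t.comp t' = RingHom.id _ := by
        apply RingHom.ext
        intro x
        simp [ht, ht']
      have hback : ∀ F : (FractionRing (LL R)[X])[X], (F.map t).map t' = F := by
        intro F
        rw [Polynomial.map_map, hc1, Polynomial.map_id]
      have hforth : ∀ F : (FractionRing (LL R)[X])[X], (F.map t').map t = F := by
        intro F
        rw [Polynomial.map_map, hc2, Polynomial.map_id]
      have hg : IsUnit (g.map t') := by
        apply hcop
        · rw [← hback U]; exact Polynomial.map_dvd t' h2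
        · rw [← hback V]; exact Polynomial.map_dvd t' h1
        · rw [← hback W]; exact Polynomial.map_dvd t' h3
      rw [← hforth g]
      exact hg.map (mapRingHom t)
    have hh' : h.map t ≠ 0 := by
      rwa [Ne, Polynomial.map_eq_zero_iff htinj]
    have heq3 : (h.map t) ^ 2 * sg (psi R (bpol δ σ)) (psi R (apol R)) (V.map t) (U.map t)
        (W.map t) = ∑ i, ((Key.Phi R (s i)).map t) ^ 2 := by
      have := congrArg (Polynomial.map t) heq2
      rw [Polynomial.map_mul, Polynomial.map_pow, ht, Key.map_sg, ← ht,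
        Polynomial.map_sum] at this
      simpa only [Polynomial.map_pow] using this
    have hM' : IsM 4 1 (V.map t) (U.map t) (W.map t) M := by
      obtain ⟨m1, m2, m3, m4⟩ := hM
      unfold IsM
      simp only [Ne, Polynomial.map_eq_zero_iff htinj, Polynomial.natDegree_map_eq_of_injective htinj]
      refine ⟨m2, m1, fun hw => ?_, ?_⟩
      · have := m3 hw; omega
      · rcases m4 with m4 | m4 | m4
        · exact Or.inr (Or.inl m4)
        · exact Or.inl m4
        · exact Or.inr (Or.inr ⟨m4.1, by have := m4.2; omega⟩)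
    obtain ⟨-, k, fk, ak, fd, ξ, hodd, hsq, -⟩ := half hL (psi R (bpol δ σ)) (psi R (apol R)) 4 1
      (natDegree_psi_bpol hR δ σ) (natDegree_psi_apol hR) hb0 (pd_psi_bpol hδ hσ)
      (by rw [leadingCoeff_psi_apol hR]; exact not_isSquare_one_add_c1_sq hR) n
      (V.map t) (U.map t) (W.map t) (h.map t) (fun i => (Key.Phi R (s i)).map t) hcop' hh' heq3
      M hM' hpar
    exact not_isSquare_apol_odd hR hodd ξ hsq
  · -- `M` odd
    have hpar : Odd (M + 4) := hMo.add_even (by decide)
    obtain ⟨hV0, k, fk, ak, fd, ξ, hodd, hsq, hG⟩ := half hL (psi R (apol R)) (psi R (bpol δ σ)) 1 4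
      (natDegree_psi_apol hR) (natDegree_psi_bpol hR δ σ) ha0 pd_psi_apol
      (by rw [leadingCoeff_psi_bpol hR]; exact not_isSquare_b_inf hR hδ hσ) n
      U V W h (fun i => Key.Phi R (s i)) hcop hh heq2 M hM hpar
    have hv0 : v ≠ 0 := by
      intro h0
      rw [h0, map_zero] at hV
      exact (mul_ne_zero hh hV0) hV.symm
    obtain ⟨j, v₁, hX, hv₁⟩ := WfDvdMonoid.max_power_factor (α := R[X][X][X]) hv0
      (Polynomial.prime_X (R := R[X][X])).irreducible
    rw [Polynomial.X_dvd_iff] at hX
    have hz : (algebraMap (LL R)[X] (FractionRing (LL R)[X]) X) ≠ 0 := by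
      intro h0
      exact Polynomial.X_ne_zero ((IsFractionRing.injective (LL R)[X] (FractionRing (LL R)[X]))
        (h0.trans (map_zero _).symm))
    have hdv : V ∣ Key.Phi R v₁ := by
      have h1 : V ∣ Key.Phi R v := Dvd.intro_left _ hV.symm
      rw [hv₁, map_mul, map_pow, Key.Phi_X] at h1
      have hun : IsUnit ((C (algebraMap (LL R)[X] (FractionRing (LL R)[X]) X)) ^ j :
          (FractionRing (LL R)[X])[X]) :=
        ((Polynomial.isUnit_C.2 hz.isUnit)).pow j
      exact hun.dvd_mul_left.1 h1
    have hval := hG (Bivariate.swap (R := LL R) (v₁.map (psi R))) hdv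
    rw [Key.swap_map_eval_zero, Polynomial.coeff_map] at hval
    exact Key.no_curve hno hodd ξ hsq (v₁.coeff 0) hX hval

end WInv
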