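import Pool.Agent.WInv.Defs

/-!
# Module T0: `r` quadratic forms in more than `r` variables over an algebraically closed field
have a common nontrivial zero (MP_2fcb4d_al)
-/

set_option autoImplicit false

namespace WInv

universe u

namespace Krull

open MvPolynomial

variable (k : Type u) [Field k] (m : ℕ)

/-- Kill the first `i` variables. -/
noncomputable def killHom (i : ℕ) : MvPolynomial (Fin m) k →ₐ[k] MvPolynomial (Fin m) k :=
  MvPolynomial.aeval (fun j : Fin m => if j.val < i then 0 else X j)

lemma killHom_ker_prime (i : ℕ) : (RingHom.ker (killHom k m i)).IsPrime :=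
  RingHom.ker_isPrime _

lemma killHom_succ (i : ℕ) :
    (killHom k m (i + 1)).comp (killHom k m i) = killHom k m (i + 1) := by
  refine MvPolynomial.algHom_ext fun j => ?_
  unfold killHom
  by_cases h : j.val < i
  · have h' : j.val ≤ i := by omega
    simp [h, h']
  · simp [h]

lemma ker_le (i : ℕ) : RingHom.ker (killHom k m i) ≤ RingHom.ker (killHom k m (i + 1)) := by
  intro f hf
  rw [RingHom.mem_ker] at hf ⊢
  rw [← killHom_succ k m i, AlgHom.comp_apply]
  change killHom k m i f = 0 at hf
  rw [hf, map_zero]

lemma ker_lt (i : ℕ) (hi : i < m) :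
    RingHom.ker (killHom k m i) < RingHom.ker (killHom k m (i + 1)) := by
  refine lt_of_le_of_ne (ker_le k m i) ?_
  intro h
  have h1 : (X (⟨i, hi⟩ : Fin m) : MvPolynomial (Fin m) k) ∈ RingHom.ker (killHom k m (i + 1)) := by
    rw [RingHom.mem_ker]
    change killHom k m (i + 1) (X (⟨i, hi⟩ : Fin m)) = 0
    unfold killHom
    simp
  rw [← h, RingHom.mem_ker] at h1
  change killHom k m i (X (⟨i, hi⟩ : Fin m)) = 0 at h1
  unfold killHom at h1
  simp at h1

lemma le_height (i : ℕ) (hi : i ≤ m) :
    (i : ℕ∞) ≤ (RingHom.ker (killHom k m i)).height := by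
  induction i with
  | zero => simp
  | succ i ih =>
    haveI := killHom_ker_prime k m i
    haveI := killHom_ker_prime k m (i + 1)
    have h1 := ih (by omega)
    have h2 := Ideal.height_add_one_le_of_lt_of_isPrime (ker_lt k m i (by omega))
    push_cast
    exact le_trans (by gcongr) h2

lemma ker_eq : RingHom.ker (killHom k m m) = vanishingIdeal k ({0} : Set (Fin m → k)) := by
  ext f
  rw [RingHom.mem_ker, mem_vanishingIdeal_singleton_iff]
  have h1 : killHom k m m = (Algebra.ofId k (MvPolynomial (Fin m) k)).comp
      (MvPolynomial.aeval (0 : Fin m → k)) := by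
    refine MvPolynomial.algHom_ext fun j => ?_
    unfold killHom
    simp
  change killHom k m m f = 0 ↔ _
  rw [h1]
  constructor
  · intro h
    have : (Algebra.ofId k (MvPolynomial (Fin m) k)) (MvPolynomial.aeval (0 : Fin m → k) f) = 0 := h
    have h3 : Function.Injective (Algebra.ofId k (MvPolynomial (Fin m) k)) :=
      (Algebra.ofId k (MvPolynomial (Fin m) k)).toRingHom.injective
    exact h3 (by rw [this, map_zero])
  · intro h
    change (Algebra.ofId k (MvPolynomial (Fin m) k)) (MvPolynomial.aeval (0 : Fin m → k) f) = 0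
    rw [h, map_zero]

end Krull

open MvPolynomial in
theorem tl_zero (k : Type u) [Field k] [IsAlgClosed k] : TL 0 k := by
  intro r m hrm c
  by_contra hcon
  push Not at hcon
  simp only [pow_zero, mul_one] at hrm
  let q : Fin r → MvPolynomial (Fin m) k := fun j => ∑ a, ∑ b, C (c j a b) * X a * X b
  let I : Ideal (MvPolynomial (Fin m) k) := Ideal.span (Set.range q)
  have hz : zeroLocus k I = {0} := by
    ext v
    simp only [Set.mem_singleton_iff]
    rw [zeroLocus_span]
    constructor
    · intro hv
      by_contra hne
      obtain ⟨j, hj⟩ := hcon v hne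
      apply hj
      have := hv (q j) (Set.mem_range_self j)
      simpa [q] using this
    · rintro rfl
      rintro p ⟨j, rfl⟩
      simp [q]
  have hrad : I.radical = vanishingIdeal k ({0} : Set (Fin m → k)) := by
    rw [← vanishingIdeal_zeroLocus_eq_radical (K := k), hz]
  haveI hprime : (vanishingIdeal k ({0} : Set (Fin m → k))).IsPrime := by
    rw [← Krull.ker_eq]
    exact Krull.killHom_ker_prime k m m
  have hmin : vanishingIdeal k ({0} : Set (Fin m → k)) ∈ I.minimalPrimes := by
    rw [← hrad] at hprime ⊢
    rw [← Ideal.radical_minimalPrimes, Ideal.minimalPrimes_eq_subsingleton_self]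
    exact Set.mem_singleton _
  have h1 := Ideal.height_le_card_of_mem_minimalPrimes_span (Set.finite_range q) hmin
  have h2 : (Set.range q).ncard ≤ r := by
    have := Set.ncard_image_le (f := q) (Set.finite_univ : (Set.univ : Set (Fin r)).Finite)
    simpa [Set.ncard_univ] using this
  have h3 := Krull.le_height k m m le_rfl
  rw [Krull.ker_eq] at h3
  have h4 : (m : ℕ∞) ≤ (r : ℕ∞) := h3.trans (h1.trans (by exact_mod_cast h2))
  have h5 : m ≤ r := by exact_mod_cast h4
  omega

end WInv
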