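import Pool.Agent.WInv.Defs

/-!
# Module Q1: elementary facts on Lagrangians (MP_2fcb4d_al)
-/

set_option autoImplicit false

namespace WInv

open Polynomial

variable {F : Type*} [Field F] {ι κ : Type*} [Fintype ι] [Fintype κ]

theorem dq_add (w x y : ι → F) : dq w (x + y) = dq w x + 2 * db w x y + dq w y := by
  simp only [dq, db, Pi.add_apply, Finset.mul_sum, ← Finset.sum_add_distrib]
  exact Finset.sum_congr rfl fun i _ => by ring

theorem dq_smul (w : ι → F) (c : F) (x : ι → F) : dq w (c • x) = c ^ 2 * dq w x := by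
  simp only [dq, Pi.smul_apply, smul_eq_mul, Finset.mul_sum]
  exact Finset.sum_congr rfl fun i _ => by ring

/-- transport of a Lagrangian along an isometry -/
theorem Lag.congr {w : ι → F} {w' : κ → F} (e : (ι → F) ≃ₗ[F] (κ → F))
    (h : ∀ x, dq w' (e x) = dq w x) (hw : Lag w) : Lag w' := by
  obtain ⟨U, hU, hiso⟩ := hw
  have hcard : Fintype.card ι = Fintype.card κ := by
    have h1 := e.finrank_eq
    rwa [Module.finrank_fintype_fun_eq_card, Module.finrank_fintype_fun_eq_card] at h1
  refine ⟨U.map (e : (ι → F) →ₗ[F] (κ → F)), ?_, ?_⟩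
  · rw [LinearEquiv.finrank_map_eq, hU, hcard]
  · intro x hx
    obtain ⟨y, hy, rfl⟩ := Submodule.mem_map.1 hx
    rw [LinearEquiv.coe_coe, h]
    exact hiso y hy

theorem Lag.reindex {w : κ → F} (e : ι ≃ κ) (hw : Lag w) : Lag (fun i => w (e i)) := by
  refine Lag.congr (LinearEquiv.funCongrLeft F F e) ?_ hw
  intro x
  simp only [dq, LinearEquiv.funCongrLeft_apply, LinearMap.funLeft_apply]
  exact Equiv.sum_comp e (fun j => w j * x j ^ 2)

theorem Lag.smul {w : ι → F} (hw : Lag w) (c : F) : Lag (fun i => c * w i) := by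
  obtain ⟨U, hU, hiso⟩ := hw
  refine ⟨U, hU, fun x hx => ?_⟩
  have h1 := hiso x hx
  simp only [dq] at h1 ⊢
  rw [show ∑ i, c * w i * x i ^ 2 = c * ∑ i, w i * x i ^ 2 by
    rw [Finset.mul_sum]
    exact Finset.sum_congr rfl fun i _ => by ring, h1, mul_zero]

theorem Lag.sum {w : ι → F} {w' : κ → F} (hw : Lag w) (hw' : Lag w') :
    Lag (Sum.elim w w') := by
  obtain ⟨U, hU, hiso⟩ := hw
  obtain ⟨U', hU', hiso'⟩ := hw'
  let T : (U × U') →ₗ[F] (ι ⊕ κ → F) :=
    { toFun := fun p => Sum.elim (p.1 : ι → F) (p.2 : κ → F)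
      map_add' := fun p q => by
        funext i
        rcases i with i | j <;> simp
      map_smul' := fun c p => by
        funext i
        rcases i with i | j <;> simp }
  have hinj : Function.Injective T := by
    intro p q hpq
    have h1 : ∀ i, T p i = T q i := fun i => congrFun hpq i
    refine Prod.ext (Subtype.ext (funext fun i => h1 (Sum.inl i)))
      (Subtype.ext (funext fun j => h1 (Sum.inr j)))
  refine ⟨LinearMap.range T, ?_, ?_⟩
  · rw [LinearMap.finrank_range_of_inj hinj, Module.finrank_prod, Fintype.card_sum]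
    omega
  · rintro x ⟨p, rfl⟩
    have h1 := hiso p.1 p.1.2
    have h2 := hiso' p.2 p.2.2
    simp only [dq] at h1 h2 ⊢
    rw [Fintype.sum_sum_type]
    simp only [T, LinearMap.coe_mk, AddHom.coe_mk, Sum.elim_inl, Sum.elim_inr]
    rw [h1, h2, add_zero]

/-- The diagonal `{(x, x)}` is a Lagrangian of `w ⊥ -w`. -/
theorem lag_self_neg (w : ι → F) : Lag (Sum.elim w (fun i => - w i)) := by
  let T : (ι → F) →ₗ[F] (ι ⊕ ι → F) :=
    { toFun := fun x => Sum.elim x x
      map_add' := fun p q => by
        funext i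
        rcases i with i | j <;> simp
      map_smul' := fun c p => by
        funext i
        rcases i with i | j <;> simp }
  have hinj : Function.Injective T := by
    intro p q hpq
    exact funext fun i => congrFun hpq (Sum.inl i)
  refine ⟨LinearMap.range T, ?_, ?_⟩
  · rw [LinearMap.finrank_range_of_inj hinj, Module.finrank_fintype_fun_eq_card, Fintype.card_sum]
    omega
  · rintro x ⟨p, rfl⟩
    simp only [dq]
    rw [Fintype.sum_sum_type]
    simp only [T, LinearMap.coe_mk, AddHom.coe_mk, Sum.elim_inl, Sum.elim_inr]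
    rw [← Finset.sum_add_distrib]
    exact Finset.sum_eq_zero fun i _ => by ring

theorem Lag.prod {ρ : Type*} [Fintype ρ] {w : ρ → κ → F} (h : ∀ j, Lag (w j)) :
    Lag (fun p : ρ × κ => w p.1 p.2) := by
  choose U hU hiso using h
  let T : (∀ j, U j) →ₗ[F] (ρ × κ → F) :=
    { toFun := fun u p => (u p.1 : κ → F) p.2
      map_add' := fun p q => rfl
      map_smul' := fun c p => rfl }
  have hinj : Function.Injective T := by
    intro p q hpq
    funext j
    exact Subtype.ext (funext fun k => congrFun hpq (j, k))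
  refine ⟨LinearMap.range T, ?_, ?_⟩
  · rw [LinearMap.finrank_range_of_inj hinj, Module.finrank_pi_fintype, Fintype.card_prod,
      Finset.mul_sum, Finset.sum_congr rfl (fun j _ => hU j), Finset.sum_const, Finset.card_univ,
      smul_eq_mul]
  · rintro x ⟨u, rfl⟩
    simp only [dq]
    rw [Fintype.sum_prod_type]
    refine Finset.sum_eq_zero fun j _ => ?_
    exact hiso j (u j) (u j).2

namespace LagBasic

theorem dq_eq [DecidableEq ι] (w x : ι → F) : dq w x = x ⬝ᵥ (Matrix.diagonal w).mulVec x := by
  simp only [dq, dotProduct, Matrix.mulVec_diagonal]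
  exact Finset.sum_congr rfl fun i _ => by ring

end LagBasic

/-- Base change along a homomorphism of fields: take a basis of the Lagrangian; it stays
linearly independent (a matrix with a right inverse), and because `2 ≠ 0` the bilinear form
vanishes on pairs of basis vectors. -/
theorem Lag.map {E : Type*} [Field E] (h2 : (2 : F) ≠ 0) (φ : F →+* E) {w : ι → F}
    (hw : Lag w) : Lag (fun i => φ (w i)) := by
  classical
  obtain ⟨U, hU, hiso⟩ := hw
  have hdb : ∀ x ∈ U, ∀ y ∈ U, db w x y = 0 := by
    intro x hx y hy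
    have h := dq_add w x y
    rw [hiso x hx, hiso y hy, hiso _ (U.add_mem hx hy)] at h
    have : 2 * db w x y = 0 := by linear_combination -h
    exact (mul_eq_zero.1 this).resolve_left h2
  set k := Module.finrank F U with hk
  let b := Module.finBasis F U
  let f : (Fin k → F) →ₗ[F] (ι → F) := U.subtype ∘ₗ (b.equivFun.symm : (Fin k → F) →ₗ[F] U)
  have hfU : ∀ c, f c ∈ U := fun c => (b.equivFun.symm c).2
  have hfinj : LinearMap.ker f = ⊥ := by
    rw [LinearMap.ker_eq_bot]
    exact U.injective_subtype.comp b.equivFun.symm.injective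
  obtain ⟨g, hg⟩ := LinearMap.exists_leftInverse_of_injective f hfinj
  set A := LinearMap.toMatrix' f with hA
  set G := LinearMap.toMatrix' g with hG
  have hGA : G * A = 1 := by
    rw [hG, hA, ← LinearMap.toMatrix'_comp, hg, LinearMap.toMatrix'_id]
  have hADA : A.transpose * Matrix.diagonal w * A = 0 := by
    ext j l
    rw [Matrix.mul_apply]
    simp only [Matrix.mul_diagonal, Matrix.transpose_apply, Matrix.zero_apply]
    have h1 := hdb _ (hfU (Pi.single j 1)) _ (hfU (Pi.single l 1))
    rw [← h1]
    simp only [db]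
    refine Finset.sum_congr rfl fun i _ => ?_
    rw [hA, LinearMap.toMatrix'_apply, LinearMap.toMatrix'_apply]
    ring
  have hGA' : G.map φ * A.map φ = 1 := by
    rw [← Matrix.map_mul, hGA, Matrix.map_one φ (map_zero φ) (map_one φ)]
  have hADA' : (A.map φ).transpose * Matrix.diagonal (fun i => φ (w i)) * A.map φ = 0 := by
    have h1 := congrArg (fun M => M.map φ) hADA
    simp only [Matrix.map_mul, Matrix.transpose_map] at h1
    rw [Matrix.diagonal_map (map_zero φ)] at h1
    rw [Matrix.map_zero _ (map_zero φ)] at h1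
    exact h1
  let T : (Fin k → E) →ₗ[E] (ι → E) := Matrix.toLin' (A.map φ)
  have hinj : Function.Injective T := by
    intro c c' hcc
    have h1 : Matrix.toLin' (G.map φ) (T c) = Matrix.toLin' (G.map φ) (T c') := by rw [hcc]
    simp only [T] at h1
    rw [← LinearMap.comp_apply, ← LinearMap.comp_apply, ← Matrix.toLin'_mul, hGA',
      Matrix.toLin'_one] at h1
    exact h1
  refine ⟨LinearMap.range T, ?_, ?_⟩
  · rw [LinearMap.finrank_range_of_inj hinj, Module.finrank_fintype_fun_eq_card, Fintype.card_fin]
    exact hU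
  · rintro x ⟨c, rfl⟩
    simp only [T, Matrix.toLin'_apply]
    rw [LagBasic.dq_eq]
    have h1 : ∀ y : ι → E, ((A.map φ).mulVec c) ⬝ᵥ y = c ⬝ᵥ ((A.map φ).transpose.mulVec y) := by
      intro y
      rw [Matrix.dotProduct_mulVec, Matrix.vecMul_transpose]
    rw [h1, Matrix.mulVec_mulVec, Matrix.mulVec_mulVec, hADA', Matrix.zero_mulVec,
      dotProduct_zero]

end WInv
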