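import Pool.Agent.WInv.LagBasic

/-!
# Module Q2: Witt cancellation for Lagrangians (MP_2fcb4d_al)
-/

set_option autoImplicit false

namespace WInv

variable {F : Type*} [Field F] {ι κ μ ν : Type*} [Fintype ι] [Fintype κ] [Fintype μ] [Fintype ν]

namespace LagCancel

/-- the bilinear form of a diagonal form -/
noncomputable def BF (w : ι → F) : LinearMap.BilinForm F (ι → F) :=
  LinearMap.mk₂ F (db w)
    (fun x x' y => by
      simp only [db, Pi.add_apply, ← Finset.sum_add_distrib]
      exact Finset.sum_congr rfl fun i _ => by ring)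
    (fun c x y => by
      simp only [db, Pi.smul_apply, smul_eq_mul, Finset.mul_sum]
      exact Finset.sum_congr rfl fun i _ => by ring)
    (fun x y y' => by
      simp only [db, Pi.add_apply, ← Finset.sum_add_distrib]
      exact Finset.sum_congr rfl fun i _ => by ring)
    (fun c x y => by
      simp only [db, Pi.smul_apply, smul_eq_mul, Finset.mul_sum]
      exact Finset.sum_congr rfl fun i _ => by ring)

theorem BF_apply (w x y : ι → F) : BF w x y = db w x y := rfl

theorem db_comm (w x y : ι → F) : db w x y = db w y x := by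
  simp only [db]
  exact Finset.sum_congr rfl fun i _ => by ring

theorem BF_isRefl (w : ι → F) : (BF w).IsRefl := by
  intro x y h
  rw [BF_apply] at h ⊢
  rw [db_comm, h]

theorem db_single (w x : ι → F) [DecidableEq ι] (i : ι) : db w x (Pi.single i 1) = w i * x i := by
  simp only [db]
  rw [Finset.sum_eq_single i]
  · simp
  · intro j _ hj
    simp [Pi.single_eq_of_ne hj]
  · intro h
    exact absurd (Finset.mem_univ i) h

theorem BF_nondeg {w : ι → F} (hw : NZ w) : (BF w).Nondegenerate := by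
  classical
  refine (LinearMap.IsRefl.nondegenerate_iff_separatingLeft (BF_isRefl w)).2 ?_
  intro x hx
  funext i
  have h1 := hx (Pi.single i 1)
  rw [BF_apply, db_single] at h1
  exact (mul_eq_zero.1 h1).resolve_left (hw i)

theorem db_eq_zero (h2 : (2 : F) ≠ 0) {w : ι → F} {U : Submodule F (ι → F)}
    (hU : ∀ x ∈ U, dq w x = 0) {x y : ι → F} (hx : x ∈ U) (hy : y ∈ U) : db w x y = 0 := by
  have h := dq_add w x y
  rw [hU x hx, hU y hy, hU _ (U.add_mem hx hy)] at h
  have : 2 * db w x y = 0 := by linear_combination -h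
  exact (mul_eq_zero.1 this).resolve_left h2

theorem finrank_orth {w : ι → F} (hw : NZ w) (U : Submodule F (ι → F)) :
    Module.finrank F U + Module.finrank F ((BF w).orthogonal U) = Fintype.card ι := by
  have h1 := LinearMap.BilinForm.finrank_orthogonal (BF_nondeg hw) U
  have h2 := Submodule.finrank_le U
  rw [Module.finrank_fintype_fun_eq_card] at h1 h2
  omega

theorem le_orth (h2 : (2 : F) ≠ 0) {w : ι → F} {U : Submodule F (ι → F)}
    (hU : ∀ x ∈ U, dq w x = 0) : U ≤ (BF w).orthogonal U := by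
  intro x hx
  rw [LinearMap.BilinForm.mem_orthogonal_iff]
  intro y hy
  rw [BF_apply]
  exact db_eq_zero h2 hU hy hx

theorem eq_orth (h2 : (2 : F) ≠ 0) {w : ι → F} (hw : NZ w) {U : Submodule F (ι → F)}
    (hU : ∀ x ∈ U, dq w x = 0) (hc : 2 * Module.finrank F U = Fintype.card ι) :
    (BF w).orthogonal U = U := by
  refine (Submodule.eq_of_le_of_finrank_eq (le_orth h2 hU) ?_).symm
  have := finrank_orth hw U
  omega

theorem orth_sup (w : ι → F) (U W : Submodule F (ι → F)) :
    (BF w).orthogonal (U ⊔ W) = (BF w).orthogonal U ⊓ (BF w).orthogonal W := by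
  apply le_antisymm
  · exact le_inf (LinearMap.BilinForm.orthogonal_le le_sup_left)
      (LinearMap.BilinForm.orthogonal_le le_sup_right)
  · rintro z ⟨hzU, hzW⟩
    rw [LinearMap.BilinForm.mem_orthogonal_iff]
    intro n hn
    obtain ⟨u, hu, v, hv, rfl⟩ := Submodule.mem_sup.1 hn
    have e1 : BF w u z = 0 := hzU u hu
    have e2 : BF w v z = 0 := hzW v hv
    rw [map_add, LinearMap.add_apply, e1, e2, add_zero]

theorem dq_sum (w : ι → F) (w' : κ → F) (z : ι ⊕ κ → F) :
    dq (Sum.elim w w') z = dq w (fun i => z (Sum.inl i)) + dq w' (fun j => z (Sum.inr j)) := by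
  simp [dq, Fintype.sum_sum_type]

theorem db_sum (w : ι → F) (w' : κ → F) (z z' : ι ⊕ κ → F) :
    db (Sum.elim w w') z z' = db w (fun i => z (Sum.inl i)) (fun i => z' (Sum.inl i))
      + db w' (fun j => z (Sum.inr j)) (fun j => z' (Sum.inr j)) := by
  simp [db, Fintype.sum_sum_type]

omit [Fintype ι] [Fintype κ] in
theorem nz_sum {w : ι → F} {w' : κ → F} (hw : NZ w) (hw' : NZ w') : NZ (Sum.elim w w') := by
  rintro (i | j)
  · exact hw i
  · exact hw' j

/-- restriction to the first summand -/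
noncomputable def resl : (ι ⊕ κ → F) →ₗ[F] (ι → F) := LinearMap.funLeft F F Sum.inl

/-- restriction to the second summand -/
noncomputable def resr : (ι ⊕ κ → F) →ₗ[F] (κ → F) := LinearMap.funLeft F F Sum.inr

/-- extension by zero from the second summand -/
noncomputable def extr : (κ → F) →ₗ[F] (ι ⊕ κ → F) where
  toFun y := Sum.elim (fun _ => 0) y
  map_add' y y' := by
    funext i
    rcases i with i | j <;> simp
  map_smul' c y := by
    funext i
    rcases i with i | j <;> simp

omit [Fintype ι] [Fintype κ] in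
theorem resl_apply (z : ι ⊕ κ → F) : resl z = fun i => z (Sum.inl i) := rfl

omit [Fintype ι] [Fintype κ] in
theorem resr_apply (z : ι ⊕ κ → F) : resr z = fun j => z (Sum.inr j) := rfl

omit [Fintype ι] [Fintype κ] in
theorem extr_inl (y : κ → F) (i : ι) : (extr y : ι ⊕ κ → F) (Sum.inl i) = 0 := rfl

omit [Fintype ι] [Fintype κ] in
theorem extr_inr (y : κ → F) (j : κ) : (extr y : ι ⊕ κ → F) (Sum.inr j) = y j := rfl

end LagCancel

open LagCancel

/-- A totally isotropic subspace of a nondegenerate form has at most half the dimension. -/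
theorem two_mul_finrank_le (h2 : (2 : F) ≠ 0) {w : ι → F} (hw : NZ w) (U : Submodule F (ι → F))
    (hU : ∀ x ∈ U, dq w x = 0) : 2 * Module.finrank F U ≤ Fintype.card ι := by
  have h1 := finrank_orth hw U
  have h3 := Submodule.finrank_mono (le_orth h2 hU)
  omega

/-- Lagrangian reduction: `w ⊥ w'` and `w'` Lagrangian implies `w` Lagrangian. -/
theorem Lag.cancel (h2 : (2 : F) ≠ 0) {w : ι → F} {w' : κ → F} (hw : NZ w) (hw' : NZ w')
    (h : Lag (Sum.elim w w')) (h' : Lag w') : Lag w := by
  obtain ⟨U, hUc, hU⟩ := h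
  obtain ⟨U', hUc', hU'⟩ := h'
  rw [Fintype.card_sum] at hUc
  set B := BF (Sum.elim w w') with hB
  have hnz := nz_sum hw hw'
  set K : Submodule F (ι ⊕ κ → F) := U'.map extr with hK
  have hinj : Function.Injective (extr : (κ → F) →ₗ[F] (ι ⊕ κ → F)) := by
    intro y y' hy
    funext j
    exact congrFun hy (Sum.inr j)
  have hKc : Module.finrank F K = Module.finrank F U' :=
    (LinearEquiv.finrank_eq (Submodule.equivMapOfInjective extr hinj U')).symm
  set W := B.orthogonal K with hW
  have hWc : Module.finrank F K + Module.finrank F W = Fintype.card (ι ⊕ κ) :=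
    finrank_orth hnz K
  have hWK : B.orthogonal W = K :=
    LinearMap.BilinForm.orthogonal_orthogonal (BF_nondeg hnz) (BF_isRefl _) K
  have hUU : B.orthogonal U = U := eq_orth h2 hnz hU (by rw [Fintype.card_sum]; exact hUc)
  have hU'U' : (BF w').orthogonal U' = U' := eq_orth h2 hw' hU' hUc'
  -- membership in `W`
  have hWmem : ∀ z ∈ W, (fun j => z (Sum.inr j)) ∈ U' := by
    intro z hz
    rw [← hU'U', LinearMap.BilinForm.mem_orthogonal_iff]
    intro y hy
    have h1 := hz (extr y) (Submodule.mem_map_of_mem hy)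
    rw [hB, BF_apply, db_sum] at h1
    simp only [extr_inl, extr_inr] at h1
    rw [BF_apply]
    have h3 : db w (fun _ : ι => (0 : F)) (fun i => z (Sum.inl i)) = 0 := by simp [db]
    rw [h3, zero_add] at h1
    exact h1
  -- the kernel of the restriction
  have hker : ∀ z ∈ U ⊓ W, resl z = 0 → z ∈ U ⊓ K := by
    rintro z ⟨hzU, hzW⟩ hz0
    refine ⟨hzU, ?_⟩
    refine Submodule.mem_map.2 ⟨_, hWmem z hzW, ?_⟩
    funext i
    rcases i with i | j
    · rw [extr_inl]
      exact (congrFun hz0 i).symm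
    · rw [extr_inr]
  have hdim1 : Module.finrank F ((U ⊓ W : Submodule F (ι ⊕ κ → F)).map resl) +
      Module.finrank F (U ⊓ K : Submodule F (ι ⊕ κ → F)) ≥
      Module.finrank F (U ⊓ W : Submodule F (ι ⊕ κ → F)) := by
    set f := (resl (F := F) (ι := ι) (κ := κ)).domRestrict (U ⊓ W) with hf
    have h1 := LinearMap.finrank_range_add_finrank_ker f
    have h3 : LinearMap.range f = (U ⊓ W : Submodule F (ι ⊕ κ → F)).map resl := by
      rw [hf, LinearMap.range_domRestrict]
    have h4 : Module.finrank F (LinearMap.ker f) ≤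
        Module.finrank F (U ⊓ K : Submodule F (ι ⊕ κ → F)) := by
      let g : LinearMap.ker f →ₗ[F] (U ⊓ K : Submodule F (ι ⊕ κ → F)) :=
        { toFun := fun z => ⟨z.1.1, hker z.1.1 z.1.2 z.2⟩
          map_add' := fun _ _ => rfl
          map_smul' := fun _ _ => rfl }
      refine LinearMap.finrank_le_finrank_of_injective (f := g) ?_
      intro z z' hzz
      have : z.1.1 = z'.1.1 :=
        congrArg (fun q : (U ⊓ K : Submodule F (ι ⊕ κ → F)) => (q : ι ⊕ κ → F)) hzz
      exact Subtype.ext (Subtype.ext this)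
    rw [h3] at h1
    omega
  have hdim2 : Module.finrank F (U ⊓ K : Submodule F (ι ⊕ κ → F)) =
      Module.finrank F (B.orthogonal (U ⊔ W)) := by
    rw [hB, orth_sup, ← hB, hUU, hWK]
  have hdim3 : Module.finrank F (U ⊔ W : Submodule F (ι ⊕ κ → F)) +
      Module.finrank F (B.orthogonal (U ⊔ W)) = Fintype.card (ι ⊕ κ) :=
    finrank_orth hnz (U ⊔ W)
  have hdim4 := Submodule.finrank_sup_add_finrank_inf_eq U W
  rw [Fintype.card_sum] at hWc hdim3
  have hiso : ∀ x ∈ (U ⊓ W : Submodule F (ι ⊕ κ → F)).map resl, dq w x = 0 := by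
    intro x hx
    obtain ⟨z, ⟨hzU, hzW⟩, rfl⟩ := Submodule.mem_map.1 hx
    have h1 := hU z hzU
    rw [dq_sum, hU' _ (hWmem z hzW), add_zero] at h1
    exact h1
  refine ⟨(U ⊓ W : Submodule F (ι ⊕ κ → F)).map resl, ?_, hiso⟩
  have hle := two_mul_finrank_le h2 hw _ hiso
  omega

theorem card_le_of_aniso {w : ι → F} {w' : κ → F} (ha : Aniso w) (h : Lag (Sum.elim w w')) :
    Fintype.card ι ≤ Fintype.card κ := by
  obtain ⟨U, hUc, hU⟩ := h
  rw [Fintype.card_sum] at hUc
  have hinj : Function.Injective ((resr (F := F) (ι := ι) (κ := κ)).domRestrict U) := by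
    rw [← LinearMap.ker_eq_bot, LinearMap.ker_eq_bot']
    rintro ⟨z, hz⟩ hz0
    have h1 : ∀ j, z (Sum.inr j) = 0 := fun j => congrFun hz0 j
    have h3 := hU z hz
    rw [dq_sum] at h3
    have h4 : dq w' (fun j => z (Sum.inr j)) = 0 := by simp [dq, h1]
    rw [h4, add_zero] at h3
    have h5 := ha _ h3
    ext i
    rcases i with i | j
    · exact congrFun h5 i
    · exact h1 j
  have h6 := LinearMap.finrank_le_finrank_of_injective hinj
  rw [Module.finrank_fintype_fun_eq_card] at h6
  omega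

theorem card_eq_zero_of_aniso_lag {w : ι → F} (ha : Aniso w) (h : Lag w) :
    Fintype.card ι = 0 := by
  obtain ⟨U, hUc, hU⟩ := h
  have : U = ⊥ := by
    rw [Submodule.eq_bot_iff]
    intro x hx
    exact ha x (hU x hx)
  rw [this, finrank_bot] at hUc
  omega

theorem WEq.refl (w : ι → F) : WEq w w := lag_self_neg w

theorem WEq.symm {w : ι → F} {w' : κ → F} (h : WEq w w') : WEq w' w := by
  have h1 := (Lag.smul h (-1)).reindex (Equiv.sumComm κ ι)
  unfold WEq
  convert h1 using 1
  funext i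
  rcases i with i | j <;> simp

theorem WEq.trans (h2 : (2 : F) ≠ 0) {w : ι → F} {w' : κ → F} {w'' : μ → F}
    (hw : NZ w) (hw' : NZ w') (hw'' : NZ w'') (h : WEq w w') (h' : WEq w' w'') :
    WEq w w'' := by
  have h1 := Lag.sum h h'
  let e : (ι ⊕ μ) ⊕ (κ ⊕ κ) ≃ (ι ⊕ κ) ⊕ (κ ⊕ μ) :=
    { toFun := Sum.elim (Sum.elim (fun i => Sum.inl (Sum.inl i)) (fun m => Sum.inr (Sum.inr m)))
        (Sum.elim (fun k => Sum.inr (Sum.inl k)) (fun k => Sum.inl (Sum.inr k)))
      invFun := Sum.elim (Sum.elim (fun i => Sum.inl (Sum.inl i)) (fun k => Sum.inr (Sum.inr k)))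
        (Sum.elim (fun k => Sum.inr (Sum.inl k)) (fun m => Sum.inl (Sum.inr m)))
      left_inv := by rintro ((i | m) | (k | k)) <;> rfl
      right_inv := by rintro ((i | k) | (k | m)) <;> rfl }
  have h3 := h1.reindex e
  have h4 : Lag (Sum.elim (Sum.elim w (fun j => - w'' j)) (Sum.elim w' (fun j => - w' j))) := by
    convert h3 using 1
    funext i
    rcases i with (i | m) | (k | k) <;> simp [e]
  refine Lag.cancel h2 ?_ ?_ h4 (lag_self_neg w')
  · exact nz_sum hw fun j => neg_ne_zero.2 (hw'' j)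
  · exact nz_sum hw' fun j => neg_ne_zero.2 (hw' j)

theorem WEq.sum {w₁ : ι → F} {w₁' : κ → F} {w₂ : μ → F} {w₂' : ν → F}
    (h₁ : WEq w₁ w₁') (h₂ : WEq w₂ w₂') : WEq (Sum.elim w₁ w₂) (Sum.elim w₁' w₂') := by
  have h1 := Lag.sum h₁ h₂
  have h3 := h1.reindex (Equiv.sumSumSumComm ι μ κ ν)
  unfold WEq
  convert h3 using 1
  funext i
  rcases i with (i | m) | (k | k) <;> simp [Equiv.sumSumSumComm]

theorem WEq.smul {w : ι → F} {w' : κ → F} (h : WEq w w') (c : F) :
    WEq (fun i => c * w i) (fun j => c * w' j) := by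
  have h1 := Lag.smul h c
  unfold WEq
  convert h1 using 1
  funext i
  rcases i with i | j <;> simp

theorem WEq.lag (h2 : (2 : F) ≠ 0) {w : ι → F} {w' : κ → F} (hw : NZ w) (hw' : NZ w')
    (h : WEq w w') (h' : Lag w') : Lag w := by
  have h1 := Lag.smul h' (-1)
  have h3 : Lag (fun j => - w' j) := by simpa using h1
  exact Lag.cancel h2 hw (fun j => neg_ne_zero.2 (hw' j)) h h3

theorem weq_of_lag {w : ι → F} {w' : κ → F} (h : Lag w) (h' : Lag w') : WEq w w' := by
  have h1 := Lag.smul h' (-1)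
  have h3 : Lag (fun j => - w' j) := by simpa using h1
  exact Lag.sum h h3

theorem weq_of_isometry {w : ι → F} {w' : κ → F} (e : (ι → F) ≃ₗ[F] (κ → F))
    (h : ∀ x, dq w' (e x) = dq w x) : WEq w w' := by
  let e' : (ι ⊕ ι → F) ≃ₗ[F] (ι ⊕ κ → F) :=
    ((LinearEquiv.sumArrowLequivProdArrow ι ι F F).trans
      ((LinearEquiv.refl F (ι → F)).prodCongr e)).trans
      (LinearEquiv.sumArrowLequivProdArrow ι κ F F).symm
  refine Lag.congr e' ?_ (lag_self_neg w)
  intro z
  have h1 : (fun i => e' z (Sum.inl i)) = fun i => z (Sum.inl i) := rfl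
  have h3 : (fun j => e' z (Sum.inr j)) = e (fun i => z (Sum.inr i)) := rfl
  rw [dq_sum, dq_sum, h1, h3]
  have h4 : ∀ {ρ : Type _} [Fintype ρ] (u x : ρ → F), dq (fun i => - u i) x = - dq u x := by
    intro ρ _ u x
    simp [dq]
  rw [h4]
  have h5 : dq (fun i => - w i) (fun i => z (Sum.inr i)) = - dq w (fun i => z (Sum.inr i)) := by
    simp [dq]
  rw [h5, h]

theorem WEq.map {E : Type*} [Field E] (h2 : (2 : F) ≠ 0) (φ : F →+* E) {w : ι → F} {w' : κ → F}
    (h : WEq w w') : WEq (fun i => φ (w i)) (fun j => φ (w' j)) := by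
  have h1 := Lag.map h2 φ h
  unfold WEq
  convert h1 using 1
  funext i
  rcases i with i | j <;> simp

/-- Witt equivalence to a sum of a form and a Lagrangian one. -/
theorem WEq.drop (h2 : (2 : F) ≠ 0) {w : ι → F} {w' : κ → F} {w'' : μ → F}
    (hw : NZ w) (hw' : NZ w') (hw'' : NZ w'')
    (h : WEq w (Sum.elim w' w'')) (h'' : Lag w'') : WEq w w' := by
  have h1 := Lag.smul h'' (-1)
  have h3 : Lag (fun j => - w'' j) := by simpa using h1
  have h4 := Lag.reindex (Equiv.sumAssoc ι κ μ) h
  refine Lag.cancel h2 (nz_sum hw fun j => neg_ne_zero.2 (hw' j))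
    (fun j => neg_ne_zero.2 (hw'' j)) ?_ h3
  convert h4 using 1
  funext i
  rcases i with (i | j) | k <;> simp

end WInv
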