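import Pool.Agent.WInv.EZero

/-!
# Module D2: `y² = x³ - 4 (P² + 1) x` over `ℝ(P)` (MP_2fcb4d_al)
-/

set_option autoImplicit false

namespace WInv

open Polynomial

namespace ROne

/-- `e_zero` shifted by one. -/
theorem e_zero_shift (A B G : ℝ[X]) (hB : B ≠ 0)
    (h : G ^ 2 = A * B * (A ^ 2 - 4 * (X + 1) * B ^ 2)) : A = 0 := by
  have h1 := e_zero (A.comp (X + C (-1))) (B.comp (X + C (-1))) (G.comp (X + C (-1))) ?_ ?_
  · exact (comp_X_add_C_eq_zero_iff).1 h1
  · intro h0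
    exact hB ((comp_X_add_C_eq_zero_iff).1 h0)
  · have h2 := congrArg (fun p : ℝ[X] => p.comp (X + C (-1))) h
    simp only [pow_comp, mul_comp, sub_comp, add_comp, X_comp, one_comp, ofNat_comp] at h2
    rw [h2, C_neg, C_1]
    ring

/-- even and odd part -/
theorem decomp (f : ℝ[X]) : ∃ f₀ f₁ : ℝ[X], f = expand ℝ 2 f₀ + X * expand ℝ 2 f₁ := by
  induction f using Polynomial.induction_on' with
  | add p q hp hq =>
    obtain ⟨p0, p1, hp⟩ := hp
    obtain ⟨q0, q1, hq⟩ := hq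
    refine ⟨p0 + q0, p1 + q1, ?_⟩
    rw [map_add, map_add]
    linear_combination hp + hq
  | monomial n a =>
    rcases Nat.even_or_odd' n with ⟨k, rfl | rfl⟩
    · refine ⟨monomial k a, 0, ?_⟩
      rw [expand_monomial, map_zero, mul_zero, add_zero, mul_comm]
    · refine ⟨0, monomial k a, ?_⟩
      rw [expand_monomial, map_zero, zero_add, X_mul_monomial, mul_comm]

theorem decomp_zero (f₀ f₁ : ℝ[X]) (h : expand ℝ 2 f₀ + X * expand ℝ 2 f₁ = 0) :
    f₀ = 0 ∧ f₁ = 0 := by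
  constructor
  · ext k
    have h1 := congrArg (fun p : ℝ[X] => p.coeff (k * 2)) h
    simp only [coeff_add, coeff_zero] at h1
    rw [coeff_expand_mul (by norm_num)] at h1
    have h2 : (X * expand ℝ 2 f₁).coeff (k * 2) = 0 := by
      rcases k with _ | k
      · simp
      · rw [show (k + 1) * 2 = (k * 2 + 1) + 1 by ring, coeff_X_mul, coeff_expand (by norm_num)]
        rw [if_neg (by omega)]
    rw [h2, add_zero] at h1
    rw [h1, coeff_zero]
  · ext k
    have h1 := congrArg (fun p : ℝ[X] => p.coeff (k * 2 + 1)) h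
    simp only [coeff_add, coeff_zero, coeff_X_mul] at h1
    rw [coeff_expand_mul (by norm_num), coeff_expand (by norm_num), if_neg (by omega),
      zero_add] at h1
    rw [h1, coeff_zero]

/-- order at zero as an explicit factorisation -/
theorem ord_split (p : ℝ[X]) (hp : p ≠ 0) :
    ∃ q : ℝ[X], p = X ^ (rootMultiplicity 0 p) * q ∧ q.eval 0 ≠ 0 := by
  obtain ⟨q, h1, h2⟩ := exists_eq_pow_rootMultiplicity_mul_and_not_dvd p hp 0
  refine ⟨q, ?_, ?_⟩
  · rw [C_0, sub_zero] at h1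
    exact h1
  · intro h
    exact h2 (dvd_iff_isRoot.2 h)

theorem ord_eq (p q : ℝ[X]) (n : ℕ) (hq : q.eval 0 ≠ 0) (h : p = X ^ n * q) :
    rootMultiplicity 0 p = n := by
  have hq0 : q ≠ 0 := by
    rintro rfl
    simp at hq
  have hX : (X : ℝ[X]) ^ n ≠ 0 := pow_ne_zero _ X_ne_zero
  rw [h, rootMultiplicity_mul (mul_ne_zero hX hq0)]
  have h1 : rootMultiplicity 0 (X ^ n : ℝ[X]) = n := by
    have := rootMultiplicity_X_sub_C_pow (0 : ℝ) n
    rwa [C_0, sub_zero] at this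
  have h2 : rootMultiplicity 0 q = 0 := rootMultiplicity_eq_zero hq
  rw [h1, h2, add_zero]

theorem ord_expand (p : ℝ[X]) (hp : p ≠ 0) :
    rootMultiplicity 0 (expand ℝ 2 p) = 2 * rootMultiplicity 0 p := by
  obtain ⟨q, h1, h2⟩ := ord_split p hp
  apply ord_eq _ (expand ℝ 2 q)
  · rw [expand_eval]
    simpa using h2
  · conv_lhs => rw [h1]
    rw [map_mul, map_pow, expand_X, ← pow_mul]

theorem ord_sq (p : ℝ[X]) (hp : p ≠ 0) :
    rootMultiplicity 0 (p ^ 2) = 2 * rootMultiplicity 0 p := by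
  obtain ⟨q, h1, h2⟩ := ord_split p hp
  apply ord_eq _ (q ^ 2)
  · rw [eval_pow]
    exact pow_ne_zero _ h2
  · conv_lhs => rw [h1]
    ring

/-- the third point of the line through a point and its conjugate -/
theorem third (a₀ a₁ g₀ g₁ b : ℝ[X]) (hb : b ≠ 0) (ha : a₁ ≠ 0)
    (L0 : g₀ ^ 2 + X * g₁ ^ 2 =
      b * (a₀ ^ 3 + 3 * X * a₀ * a₁ ^ 2 - 4 * (X + 1) * b ^ 2 * a₀))
    (L1 : 2 * g₀ * g₁ = b * (3 * a₀ ^ 2 * a₁ + X * a₁ ^ 3 - 4 * (X + 1) * b ^ 2 * a₁)) :
    a₀ ^ 2 - X * a₁ ^ 2 = - (4 * (X + 1) * b ^ 2) := by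
  have hG : (g₁ ^ 3 * b * a₁ - 3 * g₁ * a₀ * b ^ 2 * a₁ ^ 3 + g₀ * b ^ 2 * a₁ ^ 4) ^ 2 =
      (g₁ ^ 2 - 2 * a₀ * a₁ ^ 2 * b) * (b ^ 2 * a₁ ^ 2) *
      ((g₁ ^ 2 - 2 * a₀ * a₁ ^ 2 * b) ^ 2 - 4 * (X + 1) * (b ^ 2 * a₁ ^ 2) ^ 2) := by
    linear_combination (b ^ 4 * a₁ ^ 8) * L0 +
      (g₁ ^ 2 - 3 * a₀ * a₁ ^ 2 * b) * b ^ 3 * a₁ ^ 5 * L1
  have hA := e_zero_shift _ _ _ (by positivity) hG
  rw [hA] at hG
  have hG0 : g₁ ^ 3 * b * a₁ - 3 * g₁ * a₀ * b ^ 2 * a₁ ^ 3 + g₀ * b ^ 2 * a₁ ^ 4 = 0 := by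
    rw [zero_mul, zero_mul] at hG
    exact pow_eq_zero_iff (by norm_num) |>.1 hG
  have h1 : b ^ 2 * a₁ ^ 3 * (g₀ * a₁ - g₁ * a₀) = 0 := by
    linear_combination hG0 - g₁ * b * a₁ * hA
  have h2 : g₀ * a₁ - g₁ * a₀ = 0 := by
    rcases mul_eq_zero.1 h1 with h | h
    · exact absurd h (mul_ne_zero (pow_ne_zero _ hb) (pow_ne_zero _ ha))
    · exact h
  have h3 : b * a₁ ^ 2 * (a₀ ^ 2 - X * a₁ ^ 2 + 4 * (X + 1) * b ^ 2) = 0 := by
    linear_combination a₁ * L1 - 2 * g₁ * h2 - 2 * a₀ * hA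
  rcases mul_eq_zero.1 h3 with h | h
  · exact absurd h (mul_ne_zero hb (pow_ne_zero _ ha))
  · linear_combination h

/-- the even case -/
theorem even_case (a b g n : ℝ[X]) (j ε : ℕ) (κ : ℝ) (hκ : 0 < κ) (ha : a ≠ 0) (hb : b ≠ 0)
    (hG : X * g ^ 2 = a * b * (a ^ 2 - 4 * (X + 1) * b ^ 2)) (hε : ε = 0 ∨ ε = 1)
    (hAB : a * b = C κ * (X + 1) ^ j * (X ^ ε * n ^ 2)) :
    (Odd j ∧ rootMultiplicity 0 a = rootMultiplicity 0 b) ∨
    (Even j ∧ rootMultiplicity 0 a < rootMultiplicity 0 b) := by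
  have hab : a * b ≠ 0 := mul_ne_zero ha hb
  have evG : ∀ s : ℝ, s * g.eval s ^ 2 =
      (a.eval s * b.eval s) * (a.eval s ^ 2 - 4 * (s + 1) * b.eval s ^ 2) := by
    intro s
    have := congrArg (fun p : ℝ[X] => p.eval s) hG
    simpa using this
  have evAB : ∀ s : ℝ, a.eval s * b.eval s = κ * (s + 1) ^ j * (s ^ ε * n.eval s ^ 2) := by
    intro s
    have := congrArg (fun p : ℝ[X] => p.eval s) hAB
    simpa using this
  -- sign at s < -1
  have hsign : (ε = 0 → Odd j) ∧ (ε = 1 → Even j) := by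
    obtain ⟨s, hs, hs'⟩ := (Set.Iio_infinite (-1 : ℝ)).exists_notMem_finset (a * b).roots.toFinset
    have hs1 : s < -1 := hs
    have hs2 : a.eval s * b.eval s ≠ 0 := by
      intro h0
      apply hs'
      rw [Multiset.mem_toFinset, mem_roots hab, IsRoot, eval_mul]
      exact h0
    have hb0 : b.eval s ≠ 0 := right_ne_zero_of_mul hs2
    have hD : 0 < a.eval s ^ 2 - 4 * (s + 1) * b.eval s ^ 2 := by
      have : 0 < b.eval s ^ 2 := by positivity
      nlinarith [sq_nonneg (a.eval s)]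
    have hneg : a.eval s * b.eval s < 0 := by
      rcases lt_or_gt_of_ne hs2 with h | h
      · exact h
      · exfalso
        have h1 := mul_pos h hD
        rw [← evG] at h1
        nlinarith [sq_nonneg (g.eval s)]
    rw [evAB] at hneg
    constructor
    · rintro rfl
      by_contra hj
      rw [Nat.not_odd_iff_even] at hj
      have : 0 ≤ κ * (s + 1) ^ j * (s ^ 0 * n.eval s ^ 2) := by
        have := hj.pow_nonneg (s + 1)
        positivity
      linarith
    · rintro rfl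
      by_contra hj
      rw [Nat.not_even_iff_odd] at hj
      have h1 : (s + 1) ^ j < 0 := hj.pow_neg (by linarith)
      have h2 : 0 ≤ (κ * n.eval s ^ 2) * ((s + 1) ^ j * s) := by
        have : 0 ≤ (s + 1) ^ j * s := le_of_lt (mul_pos_of_neg_of_neg h1 (by linarith))
        positivity
      nlinarith
  obtain ⟨a', ha1, ha2⟩ := ord_split a ha
  obtain ⟨b', hb1, hb2⟩ := ord_split b hb
  set α := rootMultiplicity 0 a with hα
  set β := rootMultiplicity 0 b with hβ
  have hle : α ≤ β := by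
    by_contra hlt
    push Not at hlt
    obtain ⟨d, hd⟩ : ∃ d, α = β + (d + 1) := ⟨α - β - 1, by omega⟩
    have hQ : (X ^ (2 * (d + 1)) * a' ^ 2 - 4 * (X + 1) * b' ^ 2 : ℝ[X]).eval 0 < 0 := by
      have : 0 < b'.eval 0 ^ 2 := by positivity
      simp
      linarith
    have e1 : ∀ᶠ s in nhds (0 : ℝ),
        (X ^ (2 * (d + 1)) * a' ^ 2 - 4 * (X + 1) * b' ^ 2 : ℝ[X]).eval s < 0 :=
      (Polynomial.continuous _).continuousAt.eventually_lt continuousAt_const hQ
    have e2 : ∀ᶠ s in nhds (0 : ℝ), a'.eval s ≠ 0 :=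
      (Polynomial.continuous _).continuousAt.eventually_ne ha2
    have e3 : ∀ᶠ s in nhds (0 : ℝ), b'.eval s ≠ 0 :=
      (Polynomial.continuous _).continuousAt.eventually_ne hb2
    have e4 := (e1.and (e2.and e3)).filter_mono (nhdsWithin_le_nhds (s := Set.Ioi 0))
    obtain ⟨s, ⟨h1, h2, h3⟩, hs⟩ := (e4.and self_mem_nhdsWithin).exists
    have hs0 : 0 < s := hs
    have ea : a.eval s = s ^ α * a'.eval s := by
      conv_lhs => rw [ha1]
      simp
    have eb : b.eval s = s ^ β * b'.eval s := by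
      conv_lhs => rw [hb1]
      simp
    have ha0 : a.eval s ≠ 0 := by
      rw [ea]
      exact mul_ne_zero (by positivity) h2
    have hb0 : b.eval s ≠ 0 := by
      rw [eb]
      exact mul_ne_zero (by positivity) h3
    have hpos : 0 < a.eval s * b.eval s := by
      refine lt_of_le_of_ne ?_ (Ne.symm (mul_ne_zero ha0 hb0))
      rw [evAB]
      positivity
    have hD : a.eval s ^ 2 - 4 * (s + 1) * b.eval s ^ 2 < 0 := by
      have : a.eval s ^ 2 - 4 * (s + 1) * b.eval s ^ 2 = s ^ (2 * β) *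
          (X ^ (2 * (d + 1)) * a' ^ 2 - 4 * (X + 1) * b' ^ 2 : ℝ[X]).eval s := by
        rw [ea, eb, hd]
        simp
        ring
      rw [this]
      exact mul_neg_of_pos_of_neg (by positivity) h1
    have h5 := mul_neg_of_pos_of_neg hpos hD
    rw [← evG] at h5
    have : 0 ≤ s * g.eval s ^ 2 := by positivity
    linarith
  have hn : n ≠ 0 := by
    rintro rfl
    apply hab
    rw [hAB]
    simp
  obtain ⟨n', hn1, hn2⟩ := ord_split n hn
  set ν := rootMultiplicity 0 n with hν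
  have hsum : α + β = ε + 2 * ν := by
    have h1 : rootMultiplicity 0 (a * b) = α + β := by
      apply ord_eq _ (a' * b')
      · rw [eval_mul]
        exact mul_ne_zero ha2 hb2
      · conv_lhs => rw [ha1, hb1]
        ring
    have h2 : rootMultiplicity 0 (a * b) = ε + 2 * ν := by
      apply ord_eq _ (C κ * (X + 1) ^ j * n' ^ 2)
      · simp only [eval_mul, eval_C, eval_pow, eval_add, eval_X, eval_one, zero_add, one_pow,
          mul_one]
        exact mul_ne_zero hκ.ne' (pow_ne_zero _ hn2)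
      · rw [hAB]
        conv_lhs => rw [hn1]
        ring
    rw [← h1, h2]
  rcases hε with hε | hε
  · left
    refine ⟨hsign.1 hε, ?_⟩
    by_contra hne
    obtain ⟨d, hd⟩ : ∃ d, β = α + (d + 1) := ⟨β - α - 1, by omega⟩
    have hg : g ≠ 0 := by
      rintro rfl
      have h0 : a * b * (a ^ 2 - 4 * (X + 1) * b ^ 2) = 0 := by
        rw [← hG]
        ring
      have h1 := (mul_eq_zero.1 h0).resolve_left hab
      have h2 : rootMultiplicity 0 (a ^ 2 - 4 * (X + 1) * b ^ 2) = 2 * α := by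
        apply ord_eq _ (a' ^ 2 - 4 * (X + 1) * (X ^ (2 * (d + 1)) * b' ^ 2))
        · simpa using ha2
        · conv_lhs => rw [ha1, hb1, hd]
          ring
      have h3 : (a' ^ 2 - 4 * (X + 1) * (X ^ (2 * (d + 1)) * b' ^ 2) : ℝ[X]) = 0 := by
        have h4 : (X : ℝ[X]) ^ (2 * α) *
            (a' ^ 2 - 4 * (X + 1) * (X ^ (2 * (d + 1)) * b' ^ 2)) = 0 := by
          rw [← h1]
          conv_rhs => rw [ha1, hb1, hd]
          ring
        exact (mul_eq_zero.1 h4).resolve_left (pow_ne_zero _ X_ne_zero)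
      have h5 := congrArg (fun p : ℝ[X] => p.eval 0) h3
      simp at h5
      exact ha2 h5
    obtain ⟨g', hg1, hg2⟩ := ord_split g hg
    have h1 : rootMultiplicity 0 (X * g ^ 2) = 1 + 2 * rootMultiplicity 0 g := by
      apply ord_eq _ (g' ^ 2)
      · rw [eval_pow]
        exact pow_ne_zero _ hg2
      · conv_lhs => rw [hg1]
        ring
    have h2 : rootMultiplicity 0 (X * g ^ 2) = (α + β) + 2 * α := by
      apply ord_eq _ (a' * b' * (a' ^ 2 - 4 * (X + 1) * (X ^ (2 * (d + 1)) * b' ^ 2)))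
      · simp only [eval_mul, eval_sub, eval_pow, eval_add, eval_X]
        simp
        exact ⟨⟨ha2, hb2⟩, ha2⟩
      · rw [hG]
        conv_lhs => rw [ha1, hb1, hd]
        rw [hd]
        ring
    omega
  · right
    refine ⟨hsign.2 hε, ?_⟩
    omega

end ROne

theorem r_one (A B G m : ℝ[X]) (j : ℕ) (κ : ℝ) (hκ : 0 < κ) (hA : A ≠ 0) (hB : B ≠ 0)
    (hG : G ^ 2 = A * B * (A ^ 2 - 4 * (X ^ 2 + 1) * B ^ 2))
    (hAB : A * B = C κ * (X ^ 2 + 1) ^ j * m ^ 2) :
    (Odd j ∧ rootMultiplicity 0 A = rootMultiplicity 0 B) ∨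
    (Even j ∧ rootMultiplicity 0 A < rootMultiplicity 0 B) := by
  obtain ⟨b₀, b₁, hBd⟩ := ROne.decomp B
  -- the conjugate of B
  set B' : ℝ[X] := expand ℝ 2 b₀ - X * expand ℝ 2 b₁ with hB'
  set b : ℝ[X] := b₀ ^ 2 - X * b₁ ^ 2 with hbdef
  have hBB : B * B' = expand ℝ 2 b := by
    rw [hBd, hB', hbdef, map_sub, map_mul, map_pow, map_pow, expand_X]
    ring
  have hB'0 : B' ≠ 0 := by
    intro h0
    have h1 := ROne.decomp_zero b₀ (-b₁) (by rw [map_neg]; rw [hB'] at h0; linear_combination h0)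
    apply hB
    rw [hBd, h1.1, neg_eq_zero.1 h1.2]
    simp
  have hb : b ≠ 0 := by
    intro h0
    rw [h0, map_zero] at hBB
    exact mul_ne_zero hB hB'0 hBB
  obtain ⟨a₀, a₁, hAd⟩ := ROne.decomp (A * B')
  obtain ⟨g₀, g₁, hGd⟩ := ROne.decomp (G * B' ^ 2)
  obtain ⟨m₀, m₁, hmd⟩ := ROne.decomp (m * B')
  have hA2 : A * B' ≠ 0 := mul_ne_zero hA hB'0
  have hG2 : (G * B' ^ 2) ^ 2 = (A * B') * (B * B') *
      ((A * B') ^ 2 - 4 * (X ^ 2 + 1) * (B * B') ^ 2) := by
    linear_combination B' ^ 4 * hG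
  have hAB2 : (A * B') * (B * B') = C κ * (X ^ 2 + 1) ^ j * (m * B') ^ 2 := by
    linear_combination B' ^ 2 * hAB
  rw [hAd, hBB, hGd] at hG2
  rw [hAd, hBB, hmd] at hAB2
  have eX : expand ℝ 2 (X : ℝ[X]) = X ^ 2 := expand_X 2
  have eC : expand ℝ 2 (C κ : ℝ[X]) = C κ := expand_C _ _
  -- the two coordinates of the equations
  have hL := ROne.decomp_zero (g₀ ^ 2 + X * g₁ ^ 2 -
      b * (a₀ ^ 3 + 3 * X * a₀ * a₁ ^ 2 - 4 * (X + 1) * b ^ 2 * a₀))
      (2 * g₀ * g₁ - b * (3 * a₀ ^ 2 * a₁ + X * a₁ ^ 3 - 4 * (X + 1) * b ^ 2 * a₁)) (by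
        simp only [map_sub, map_mul, map_pow, map_add, eX, map_ofNat, map_one]
        linear_combination hG2)
  have hM := ROne.decomp_zero (a₀ * b - C κ * (X + 1) ^ j * (m₀ ^ 2 + X * m₁ ^ 2))
      (a₁ * b - C κ * (X + 1) ^ j * (2 * m₀ * m₁)) (by
        simp only [map_sub, map_mul, map_pow, map_add, eX, eC, map_ofNat, map_one]
        linear_combination hAB2)
  have L0 := sub_eq_zero.1 hL.1
  have L1 := sub_eq_zero.1 hL.2
  have M0 := sub_eq_zero.1 hM.1
  have M1 := sub_eq_zero.1 hM.2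
  have ha1 : a₁ = 0 := by
    by_contra ha1
    have h3 := ROne.third a₀ a₁ g₀ g₁ b hb ha1 L0 L1
    obtain ⟨t, ht, ht'⟩ := (Set.Ioi_infinite (0 : ℝ)).exists_notMem_finset b.roots.toFinset
    have ht0 : 0 < t := ht
    have hbt : b.eval t ≠ 0 := by
      intro h0
      apply ht'
      rw [Multiset.mem_toFinset, mem_roots hb]
      exact h0
    have e3 : a₀.eval t ^ 2 - t * a₁.eval t ^ 2 = - (4 * (t + 1) * b.eval t ^ 2) := by
      have := congrArg (fun p : ℝ[X] => p.eval t) h3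
      simpa using this
    have e0 : a₀.eval t * b.eval t = κ * (t + 1) ^ j * (m₀.eval t ^ 2 + t * m₁.eval t ^ 2) := by
      have := congrArg (fun p : ℝ[X] => p.eval t) M0
      simpa using this
    have e1 : a₁.eval t * b.eval t = κ * (t + 1) ^ j * (2 * m₀.eval t * m₁.eval t) := by
      have := congrArg (fun p : ℝ[X] => p.eval t) M1
      simpa using this
    have h4 : (a₀.eval t ^ 2 - t * a₁.eval t ^ 2) * b.eval t ^ 2 =
        (κ * (t + 1) ^ j) ^ 2 * (m₀.eval t ^ 2 - t * m₁.eval t ^ 2) ^ 2 := by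
      have h5 : (a₀.eval t ^ 2 - t * a₁.eval t ^ 2) * b.eval t ^ 2 =
        (a₀.eval t * b.eval t) ^ 2 - t * (a₁.eval t * b.eval t) ^ 2 := by ring
      rw [h5, e0, e1]
      ring
    rw [e3] at h4
    have h5 : 0 ≤ (κ * (t + 1) ^ j) ^ 2 * (m₀.eval t ^ 2 - t * m₁.eval t ^ 2) ^ 2 := by
      positivity
    have h6 : 0 < 4 * (t + 1) * b.eval t ^ 2 * b.eval t ^ 2 := by positivity
    linarith
  subst ha1
  have ha0 : a₀ ≠ 0 := by
    rintro rfl
    apply hA2
    rw [hAd]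
    simp
  have hg : g₀ = 0 := by
    have h1 : 2 * g₀ * g₁ = 0 := by
      rw [L1]
      ring
    rcases mul_eq_zero.1 h1 with h | h
    · rcases mul_eq_zero.1 h with h | h
      · norm_num at h
      · exact h
    · exfalso
      apply ha0
      apply ROne.e_zero_shift a₀ b g₀ hb
      rw [h] at L0
      linear_combination L0
  subst hg
  have hfin : (Odd j ∧ rootMultiplicity 0 a₀ = rootMultiplicity 0 b) ∨
      (Even j ∧ rootMultiplicity 0 a₀ < rootMultiplicity 0 b) := by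
    have h1 : C κ * (X + 1) ^ j * (2 * m₀ * m₁) = 0 := by
      rw [← M1]
      ring
    have hX1 : (X + 1 : ℝ[X]) ≠ 0 := by
      have := X_add_C_ne_zero (1 : ℝ)
      rwa [C_1] at this
    have h2 : m₀ = 0 ∨ m₁ = 0 := by
      rcases mul_eq_zero.1 h1 with h | h
      · exact absurd h (mul_ne_zero (C_ne_zero.2 hκ.ne') (pow_ne_zero _ hX1))
      · rcases mul_eq_zero.1 h with h | h
        · rcases mul_eq_zero.1 h with h | h
          · norm_num at h
          · exact Or.inl h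
        · exact Or.inr h
    rcases h2 with h2 | h2
    · apply ROne.even_case a₀ b g₁ m₁ j 1 κ hκ ha0 hb _ (Or.inr rfl)
      · rw [h2] at M0
        linear_combination M0
      · linear_combination L0
    · apply ROne.even_case a₀ b g₁ m₀ j 0 κ hκ ha0 hb _ (Or.inl rfl)
      · rw [h2] at M0
        linear_combination M0
      · linear_combination L0
  have r1 : rootMultiplicity 0 A + rootMultiplicity 0 B' = 2 * rootMultiplicity 0 a₀ := by
    rw [← rootMultiplicity_mul hA2, hAd, map_zero, mul_zero, add_zero, ROne.ord_expand _ ha0]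
  have r2 : rootMultiplicity 0 B + rootMultiplicity 0 B' = 2 * rootMultiplicity 0 b := by
    rw [← rootMultiplicity_mul (mul_ne_zero hB hB'0), hBB, ROne.ord_expand _ hb]
  rcases hfin with ⟨h1, h2⟩ | ⟨h1, h2⟩
  · left
    exact ⟨h1, by omega⟩
  · right
    exact ⟨h1, by omega⟩

end WInv
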