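import Pool.Agent.WInv.Defs

/-!
# Module D4: reduction of polynomials by the standard part (MP_2fcb4d_al)

`Rd lam f g`: the coefficients of `f / lam` are finite with standard parts the coefficients
of `g`.
-/

set_option autoImplicit false
set_option linter.unusedSectionVars false

namespace WInv

open Polynomial ArchimedeanClass

universe u

variable {R : Type u} [Field R] [LinearOrder R] [IsStrictOrderedRing R]

def Rd (lam : R) (f : R[X]) (g : ℝ[X]) : Prop :=
  0 < lam ∧ ∀ i, 0 ≤ mk (f.coeff i / lam) ∧ stdPart (f.coeff i / lam) = g.coeff i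

/-- `ℓ¹` norm of the coefficients. -/
def nrm (f : R[X]) : R := ∑ i ∈ f.support, |f.coeff i|

namespace Red

theorem mk_add_nonneg {x y : R} (hx : 0 ≤ mk x) (hy : 0 ≤ mk y) : 0 ≤ mk (x + y) :=
  le_trans (le_min hx hy) (min_le_mk_add x y)

theorem mk_mul_nonneg {x y : R} (hx : 0 ≤ mk x) (hy : 0 ≤ mk y) : 0 ≤ mk (x * y) := by
  rw [mk_mul]
  exact add_nonneg hx hy

theorem stdPart_sum {ι : Type*} (s : Finset ι) (a : ι → R) (h : ∀ i ∈ s, 0 ≤ mk (a i)) :
    0 ≤ mk (∑ i ∈ s, a i) ∧ stdPart (∑ i ∈ s, a i) = ∑ i ∈ s, stdPart (a i) := by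
  classical
  induction s using Finset.induction_on with
  | empty =>
    rw [Finset.sum_empty, Finset.sum_empty, mk_zero, stdPart_zero]
    exact ⟨le_top, rfl⟩
  | insert i s hi ih =>
    obtain ⟨h1, h2⟩ := ih (fun j hj => h j (Finset.mem_insert_of_mem hj))
    have h3 := h i (Finset.mem_insert_self i s)
    rw [Finset.sum_insert hi, Finset.sum_insert hi, stdPart_add h3 h1, h2]
    exact ⟨mk_add_nonneg h3 h1, rfl⟩

theorem mk_nonneg_of_abs_le {x : R} (h : |x| ≤ 1) : 0 ≤ mk x := by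
  rw [← mk_one]
  exact mk_le_mk.2 ⟨1, by simpa using h⟩

theorem nrm_pos {f : R[X]} (hf : f ≠ 0) : 0 < nrm f := by
  unfold nrm
  apply Finset.sum_pos
  · intro i hi
    exact abs_pos.2 (mem_support_iff.1 hi)
  · exact Finset.nonempty_iff_ne_empty.2 (fun h => hf (support_eq_empty.1 h))

theorem abs_coeff_le_nrm (f : R[X]) (i : ℕ) : |f.coeff i| ≤ nrm f := by
  by_cases hi : i ∈ f.support
  · exact Finset.single_le_sum (f := fun i => |f.coeff i|) (fun j _ => abs_nonneg _) hi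
  · rw [mem_support_iff, not_not] at hi
    rw [hi, abs_zero]
    exact Finset.sum_nonneg fun j _ => abs_nonneg _

theorem mk_ne_top {l : R} (hl : 0 < l) : mk l ≠ ⊤ := by
  rw [Ne, mk_eq_top_iff]
  exact hl.ne'

theorem mk_div_nonneg {x l : R} (hl : 0 < l) : 0 ≤ mk (x / l) ↔ mk l ≤ mk x := by
  have h1 : mk x = mk (x / l) + mk l := by
    rw [← mk_mul, div_mul_cancel₀ _ hl.ne']
  constructor
  · intro h
    rw [h1]
    calc mk l = 0 + mk l := by rw [zero_add]
      _ ≤ mk (x / l) + mk l := by gcongr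
  · intro h
    by_contra hlt
    push Not at hlt
    have h2 : mk (x / l) + mk l < 0 + mk l := by
      exact (add_lt_add_iff_left_of_ne_top (mk_ne_top hl)).2 hlt
    rw [← h1, zero_add] at h2
    exact absurd h2 (not_lt.2 h)

theorem mk_div_eq_zero {x l : R} (hl : 0 < l) : mk (x / l) = 0 ↔ mk x = mk l := by
  have h1 : mk x = mk (x / l) + mk l := by
    rw [← mk_mul, div_mul_cancel₀ _ hl.ne']
  constructor
  · intro h
    rw [h1, h, zero_add]
  · intro h
    rw [mk_div, h]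
    exact LinearOrderedAddCommGroupWithTop.sub_self_eq_zero_of_ne_top (mk_ne_top hl)

end Red

open Red

theorem Rd.exists {f : R[X]} (hf : f ≠ 0) : ∃ g : ℝ[X], Rd (nrm f) f g ∧ g ≠ 0 := by
  have hn := nrm_pos hf
  have hfin : ∀ i, 0 ≤ mk (f.coeff i / nrm f) := by
    intro i
    apply mk_nonneg_of_abs_le
    rw [abs_div, abs_of_pos hn, div_le_one hn]
    exact abs_coeff_le_nrm f i
  set g : ℝ[X] := ∑ i ∈ f.support, monomial i (stdPart (f.coeff i / nrm f)) with hg
  have hco : ∀ i, stdPart (f.coeff i / nrm f) = g.coeff i := by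
    intro i
    rw [hg, finsetSum_coeff]
    simp only [coeff_monomial]
    rw [Finset.sum_ite_eq' f.support i]
    by_cases hi : i ∈ f.support
    · rw [if_pos hi]
    · rw [if_neg hi]
      rw [mem_support_iff, not_not] at hi
      rw [hi, zero_div, stdPart_zero]
  refine ⟨g, ⟨hn, fun i => ⟨hfin i, hco i⟩⟩, ?_⟩
  intro hg0
  have hz : ∀ i, 0 < mk (f.coeff i / nrm f) := by
    intro i
    have h1 := hco i
    rw [hg0, coeff_zero, stdPart_eq_zero] at h1
    exact lt_of_le_of_ne (hfin i) h1.symm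
  have hsum := stdPart_sum f.support (fun i => |f.coeff i| / nrm f) (by
    intro i _
    have : |f.coeff i| / nrm f = |f.coeff i / nrm f| := by rw [abs_div, abs_of_pos hn]
    rw [this, mk_abs]
    exact hfin i)
  have h2 : ∑ i ∈ f.support, |f.coeff i| / nrm f = 1 := by
    rw [← Finset.sum_div]
    exact div_self hn.ne'
  have h3 : ∑ i ∈ f.support, stdPart (|f.coeff i| / nrm f) = 0 := by
    apply Finset.sum_eq_zero
    intro i _
    have : |f.coeff i| / nrm f = |f.coeff i / nrm f| := by rw [abs_div, abs_of_pos hn]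
    rw [this, stdPart_eq_zero, mk_abs]
    exact (hz i).ne'
  rw [h2, h3, stdPart_one] at hsum
  exact one_ne_zero hsum.2

theorem Rd.mul {l l' : R} {f f' : R[X]} {g g' : ℝ[X]} (h : Rd l f g) (h' : Rd l' f' g') :
    Rd (l * l') (f * f') (g * g') := by
  obtain ⟨hl, h1⟩ := h
  obtain ⟨hl', h1'⟩ := h'
  refine ⟨mul_pos hl hl', fun i => ?_⟩
  rw [coeff_mul, coeff_mul, Finset.sum_div]
  have e : ∀ p : ℕ × ℕ, f.coeff p.1 * f'.coeff p.2 / (l * l') =
      (f.coeff p.1 / l) * (f'.coeff p.2 / l') := by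
    intro p
    rw [div_mul_div_comm]
  simp only [e]
  have h2 := stdPart_sum (Finset.HasAntidiagonal.antidiagonal i)
    (fun p => (f.coeff p.1 / l) * (f'.coeff p.2 / l'))
    (fun p _ => mk_mul_nonneg (h1 p.1).1 (h1' p.2).1)
  refine ⟨h2.1, ?_⟩
  rw [h2.2]
  refine Finset.sum_congr rfl fun p _ => ?_
  rw [stdPart_mul (h1 p.1).1 (h1' p.2).1, (h1 p.1).2, (h1' p.2).2]

/-- constants and simple polynomials -/
theorem rd_C {c : R} (hc : 0 ≤ mk c) : Rd 1 (C c) (C (stdPart c)) := by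
  refine ⟨one_pos, fun i => ?_⟩
  rw [div_one, coeff_C, coeff_C]
  by_cases hi : i = 0
  · rw [if_pos hi, if_pos hi]
    exact ⟨hc, rfl⟩
  · rw [if_neg hi, if_neg hi, mk_zero, stdPart_zero]
    exact ⟨le_top, rfl⟩

theorem rd_X : Rd (1 : R) X X := by
  refine ⟨one_pos, fun i => ?_⟩
  rw [div_one, coeff_X, coeff_X]
  by_cases hi : 1 = i
  · rw [if_pos hi, if_pos hi, mk_one, stdPart_one]
    exact ⟨le_rfl, rfl⟩
  · rw [if_neg hi, if_neg hi, mk_zero, stdPart_zero]
    exact ⟨le_top, rfl⟩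

theorem rd_one : Rd (1 : R) 1 1 := by
  have h := rd_C (c := (1 : R)) (by rw [mk_one])
  rwa [stdPart_one, C_1, C_1] at h

theorem Rd.pow {l : R} {f : R[X]} {g : ℝ[X]} (h : Rd l f g) (n : ℕ) :
    Rd (l ^ n) (f ^ n) (g ^ n) := by
  induction n with
  | zero => simpa using rd_one
  | succ n ih =>
    rw [pow_succ, pow_succ, pow_succ]
    exact ih.mul h

theorem Rd.add {l : R} {f f' : R[X]} {g g' : ℝ[X]} (h : Rd l f g) (h' : Rd l f' g') :
    Rd l (f + f') (g + g') := by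
  refine ⟨h.1, fun i => ?_⟩
  rw [coeff_add, coeff_add, add_div, stdPart_add (h.2 i).1 (h'.2 i).1, (h.2 i).2, (h'.2 i).2]
  exact ⟨mk_add_nonneg (h.2 i).1 (h'.2 i).1, rfl⟩

theorem Rd.sub {l : R} {f f' : R[X]} {g g' : ℝ[X]} (h : Rd l f g) (h' : Rd l f' g') :
    Rd l (f - f') (g - g') := by
  refine ⟨h.1, fun i => ?_⟩
  rw [coeff_sub, coeff_sub, sub_div, stdPart_sub (h.2 i).1 (h'.2 i).1, (h.2 i).2, (h'.2 i).2]
  refine ⟨?_, rfl⟩
  rw [sub_eq_add_neg]
  apply mk_add_nonneg (h.2 i).1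
  rw [mk_neg]
  exact (h'.2 i).1

/-- change of the scaling factor -/
theorem Rd.scale {l l' : R} {f : R[X]} {g : ℝ[X]} (h : Rd l f g) (hl : 0 < l')
    (hf : 0 ≤ mk (l / l')) : Rd l' f (C (stdPart (l / l')) * g) := by
  refine ⟨hl, fun i => ?_⟩
  have e : f.coeff i / l' = (l / l') * (f.coeff i / l) := by
    have := h.1.ne'
    have := hl.ne'
    field_simp
  rw [e, coeff_C_mul, stdPart_mul hf (h.2 i).1, (h.2 i).2]
  exact ⟨mk_mul_nonneg hf (h.2 i).1, rfl⟩

/-- two nonzero reductions of the same polynomial are positive multiples of each other -/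
theorem Rd.unique {l l' : R} {f : R[X]} {g g' : ℝ[X]} (h : Rd l f g) (h' : Rd l' f g')
    (hg : g ≠ 0) (hg' : g' ≠ 0) :
    mk (l / l') = 0 ∧ 0 < stdPart (l / l') ∧ g' = C (stdPart (l / l')) * g := by
  have key : ∀ {l : R} {g : ℝ[X]}, Rd l f g → g ≠ 0 → ∃ i, mk (f.coeff i) = mk l := by
    intro l g h hg
    obtain ⟨k, hk⟩ : ∃ k, g.coeff k ≠ 0 := by
      by_contra hcon
      push Not at hcon
      exact hg (by ext k; simpa using hcon k)
    refine ⟨k, ?_⟩
    rw [← mk_div_eq_zero h.1]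
    by_contra h3
    apply hk
    rw [← (h.2 k).2]
    exact stdPart_eq_zero.2 h3
  obtain ⟨i, hi⟩ := key h hg
  obtain ⟨j, hj⟩ := key h' hg'
  have h1 : mk l' ≤ mk l := by
    rw [← hi]
    exact (mk_div_nonneg h'.1).1 (h'.2 i).1
  have h2 : mk l ≤ mk l' := by
    rw [← hj]
    exact (mk_div_nonneg h.1).1 (h.2 j).1
  have h3 : mk (l / l') = 0 := (mk_div_eq_zero h'.1).2 (le_antisymm h2 h1)
  have h4 : stdPart (l / l') ≠ 0 := by
    rw [Ne, stdPart_eq_zero, not_not]
    exact h3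
  have h5 : 0 ≤ stdPart (l / l') := stdPart_nonneg (div_nonneg h.1.le h'.1.le)
  refine ⟨h3, lt_of_le_of_ne h5 h4.symm, ?_⟩
  have h6 := h.scale h'.1 h3.ge
  ext k
  rw [← (h'.2 k).2, ← (h6.2 k).2]

theorem Rd.eval {l : R} {f : R[X]} {g : ℝ[X]} (h : Rd l f g) (n : ℕ) :
    0 ≤ mk (f.eval (n : R) / l) ∧ stdPart (f.eval (n : R) / l) = g.eval (n : ℝ) := by
  set N := max f.natDegree g.natDegree + 1 with hN
  rw [eval_eq_sum_range' (n := N) (by omega), eval_eq_sum_range' (n := N) (by omega),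
    Finset.sum_div]
  have e : ∀ i, f.coeff i * (n : R) ^ i / l = (f.coeff i / l) * (n : R) ^ i := by
    intro i
    ring
  simp only [e]
  have hn : ∀ i, 0 ≤ mk ((n : R) ^ i) := by
    intro i
    have : ((n : R) ^ i) = ((n ^ i : ℕ) : R) := by push_cast; ring
    rw [this]
    exact mk_natCast_nonneg _
  have h2 := stdPart_sum (Finset.range N) (fun i => (f.coeff i / l) * (n : R) ^ i)
    (fun i _ => mk_mul_nonneg (h.2 i).1 (hn i))
  refine ⟨h2.1, ?_⟩
  rw [h2.2]
  refine Finset.sum_congr rfl fun i _ => ?_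
  rw [stdPart_mul (h.2 i).1 (hn i), (h.2 i).2]
  have : ((n : R) ^ i) = ((n ^ i : ℕ) : R) := by push_cast; ring
  rw [this, stdPart_natCast]
  push_cast
  ring

end WInv
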