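import Pool.Agent.WInv.LocalDefs
import Pool.Agent.WInv.Red
import Pool.Agent.WInv.ROne
import Pool.Agent.WInv.ConstPt

/-!
# Module D6: analysis at the radii `1`, `δ` and in between (MP_2fcb4d_al)
-/

set_option autoImplicit false
set_option linter.unusedSectionVars false
set_option linter.unusedVariables false

namespace WInv

open Polynomial ArchimedeanClass

universe u

variable {R : Type u} [Field R] [LinearOrder R] [IsStrictOrderedRing R]

namespace Local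

/-- rescaled polynomial -/
noncomputable def sc (r : R) : R[X] →+* R[X] := compRingHom (C r * X)

theorem sc_coeff (r : R) (f : R[X]) (k : ℕ) : (sc r f).coeff k = f.coeff k * r ^ k := by
  show (f.comp (C r * X)).coeff k = _
  rw [comp_C_mul_X_coeff]

theorem sc_C (r c : R) : sc r (C c) = C c := by
  show (C c).comp (C r * X) = _
  simp

theorem sc_X (r : R) : sc r X = C r * X := by
  show (X : R[X]).comp (C r * X) = _
  simp

theorem sc_eval (r : R) (f : R[X]) (t : R) : (sc r f).eval t = f.eval (r * t) := by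
  show (f.comp (C r * X)).eval t = _
  simp

theorem sc_ne_zero {r : R} (hr : 0 < r) {f : R[X]} (hf : f ≠ 0) : sc r f ≠ 0 := by
  intro h
  apply hf
  ext k
  have := sc_coeff r f k
  rw [h, coeff_zero] at this
  have h2 : r ^ k ≠ 0 := pow_ne_zero _ hr.ne'
  rw [coeff_zero]
  rcases mul_eq_zero.1 this.symm with h3 | h3
  · exact h3
  · exact absurd h3 h2

theorem mk_ne_top {l : R} (hl : 0 < l) : mk l ≠ ⊤ := by
  rw [Ne, mk_eq_top_iff]
  exact hl.ne'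

theorem mk_div_nonneg {x l : R} (hl : 0 < l) : 0 ≤ mk (x / l) ↔ mk l ≤ mk x := by
  have h1 : mk x = mk (x / l) + mk l := by
    rw [← mk_mul, div_mul_cancel₀ _ hl.ne']
  constructor
  · intro h
    rw [h1]
    calc mk l = 0 + mk l := by rw [zero_add]
      _ ≤ mk (x / l) + mk l := by gcongr
  · intro h
    by_contra hlt
    push Not at hlt
    have h2 : mk (x / l) + mk l < 0 + mk l := by
      exact (add_lt_add_iff_left_of_ne_top (mk_ne_top hl)).2 hlt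
    rw [← h1, zero_add] at h2
    exact absurd h2 (not_lt.2 h)

theorem mk_div_eq_zero {x l : R} (hl : 0 < l) : mk (x / l) = 0 ↔ mk x = mk l := by
  have h1 : mk x = mk (x / l) + mk l := by
    rw [← mk_mul, div_mul_cancel₀ _ hl.ne']
  constructor
  · intro h
    rw [h1, h, zero_add]
  · intro h
    rw [mk_div, h]
    exact LinearOrderedAddCommGroupWithTop.sub_self_eq_zero_of_ne_top (mk_ne_top hl)

theorem mk_div_pos {x l : R} (hl : 0 < l) : 0 < mk (x / l) ↔ mk l < mk x := by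
  rw [lt_iff_le_and_ne, lt_iff_le_and_ne, mk_div_nonneg hl, ne_comm, Ne, mk_div_eq_zero hl]
  constructor
  · rintro ⟨h1, h2⟩
    exact ⟨h1, fun h => h2 h.symm⟩
  · rintro ⟨h1, h2⟩
    exact ⟨h1, fun h => h2 h.symm⟩

theorem vv_of_rd {r l : R} {f : R[X]} {g : ℝ[X]} (h : Rd l (sc r f) g) (hg : g ≠ 0) :
    VV f r = mk l := by
  obtain ⟨hl, hc⟩ := h
  obtain ⟨k, hk⟩ : ∃ k, g.coeff k ≠ 0 := by
    by_contra hcon
    push Not at hcon
    exact hg (by ext k; simpa using hcon k)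
  apply le_antisymm
  · have h1 := (hc k).2
    rw [← h1] at hk
    have h2 : mk ((sc r f).coeff k / l) = 0 := by
      by_contra h3
      exact hk (stdPart_eq_zero.2 h3)
    rw [mk_div_eq_zero hl, sc_coeff] at h2
    rw [← h2]
    unfold VV
    refine Finset.inf_le ?_
    rw [mem_support_iff]
    intro h3
    rw [h3, zero_mul, mk_zero] at h2
    exact mk_ne_top hl h2.symm
  · unfold VV
    refine Finset.le_inf fun k _ => ?_
    have h1 := (hc k).1
    rw [mk_div_nonneg hl, sc_coeff] at h1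
    exact h1

theorem act_of_rd {r l : R} {f : R[X]} {g : ℝ[X]} (h : Rd l (sc r f) g) (hg : g ≠ 0) (k : ℕ) :
    Act f r k ↔ g.coeff k ≠ 0 := by
  have hv := vv_of_rd h hg
  obtain ⟨hl, hc⟩ := h
  unfold Act
  rw [hv, ← (hc k).2, Ne, Ne, stdPart_eq_zero, not_not, mk_div_eq_zero hl, sc_coeff]
  constructor
  · rintro ⟨-, h2⟩
    exact h2
  · intro h2
    refine ⟨?_, h2⟩
    intro h3
    rw [h3, zero_mul, mk_zero] at h2
    exact mk_ne_top hl h2.symm

/-- a square reduces to a square -/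
theorem rd_sq {l : R} {F G : R[X]} {f : ℝ[X]} (hG : G ^ 2 = F) (h : Rd l F f) :
    ∃ g : ℝ[X], g ^ 2 = f := by
  by_cases hf : f = 0
  · exact ⟨0, by rw [hf]; simp⟩
  · have hF : F ≠ 0 := by
      rintro rfl
      apply hf
      ext k
      rw [← (h.2 k).2]
      simp
    have hG0 : G ≠ 0 := by
      rintro rfl
      apply hF
      rw [← hG]; simp
    obtain ⟨g, hg, hg0⟩ := Rd.exists hG0
    have h2 := hg.pow 2
    rw [hG] at h2
    obtain ⟨-, h4, h5⟩ := Rd.unique h2 h (pow_ne_zero 2 hg0) hf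
    refine ⟨C (Real.sqrt (stdPart (nrm G ^ 2 / l))) * g, ?_⟩
    rw [h5, mul_pow, ← C_pow, Real.sq_sqrt h4.le]

theorem rd_const {c : R} (hc : 0 < c) : Rd c (C c) 1 := by
  refine ⟨hc, fun i => ?_⟩
  rw [coeff_C, coeff_one]
  by_cases hi : i = 0
  · simp [hi, hc.ne']
  · simp [hi]

/-- the polynomial identities at radius `r` -/
theorem sc_e (r δ : R) : sc r (X ^ 2 + C (δ ^ 2)) = C (r ^ 2) * X ^ 2 + C (δ ^ 2) := by
  rw [map_add, map_pow, sc_X, sc_C, mul_pow, ← C_pow]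

theorem sc_p (r : R) : sc r (X ^ 2 + 1) = C (r ^ 2) * X ^ 2 + 1 := by
  rw [map_add, map_pow, sc_X, map_one, mul_pow, ← C_pow]

theorem sc_a (r α : R) : sc r (1 + C α * X ^ 2) = 1 + C (α * r ^ 2) * X ^ 2 := by
  rw [map_add, map_one, map_mul, map_pow, sc_X, sc_C, mul_pow, ← C_pow, C_mul, mul_assoc]

theorem coeff_quad {K : Type*} [Field K] (a b : K) (i : ℕ) : (C a * X ^ 2 + C b).coeff i =
    if i = 0 then b else if i = 2 then a else 0 := by
  simp only [coeff_add, coeff_C_mul, coeff_X_pow, coeff_C]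
  rcases eq_or_ne i 0 with rfl | h0
  · simp
  rcases eq_or_ne i 2 with rfl | h2
  · simp
  · simp [h0, h2]

theorem rd_quad {l a b : R} (hl : 0 < l) (ha : 0 ≤ mk (a / l)) (hb : 0 ≤ mk (b / l)) :
    Rd l (C a * X ^ 2 + C b) (C (stdPart (a / l)) * X ^ 2 + C (stdPart (b / l))) := by
  refine ⟨hl, fun i => ?_⟩
  rw [coeff_quad, coeff_quad]
  rcases eq_or_ne i 0 with rfl | h0
  · rw [if_pos rfl, if_pos rfl]
    exact ⟨hb, rfl⟩
  rcases eq_or_ne i 2 with rfl | h2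
  · rw [if_neg (by norm_num), if_pos rfl, if_neg (by norm_num), if_pos rfl]
    exact ⟨ha, rfl⟩
  · rw [if_neg h0, if_neg h2, if_neg h0, if_neg h2, zero_div, stdPart_zero, mk_zero]
    exact ⟨le_top, rfl⟩

theorem rd_quad_one {l a : R} (hl : l = 1) (ha : 0 < mk a) :
    Rd l (1 + C a * X ^ 2) 1 := by
  subst hl
  have h := rd_quad (l := (1 : R)) (a := a) (b := 1) one_pos (by rw [div_one]; exact ha.le)
    (by rw [div_one, mk_one])
  rw [div_one, div_one, stdPart_eq_zero.2 ha.ne', stdPart_one, C_0, zero_mul, zero_add, C_1, C_1,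
    add_comm] at h
  exact h

/-- The data of the reductions of `e`, `H` and the product at the radius `r`. -/
structure RData (r δ α β : R) (i j k l : ℕ) (le lP : R) (eb Hb Pb : ℝ[X]) : Prop where
  hr : 0 < r
  he : Rd le (sc r (X ^ 2 + C (δ ^ 2))) eb
  he0 : eb ≠ 0
  hH : Rd 1 (sc r (HH α β)) Hb
  hP : Rd lP (sc r ((X ^ 2 + C (δ ^ 2)) ^ i * (X ^ 2 + 1) ^ j * (1 + C α * X ^ 2) ^ k *
      (1 + C β * X ^ 2) ^ l)) Pb
  hP0 : Pb ≠ 0

/-- the reduction of `A B` -/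
theorem red_AB {r δ α β : R} {i j k l : ℕ} {le lP : R} {eb Hb Pb : ℝ[X]}
    (D : RData r δ α β i j k l le lP eb Hb Pb) {A B m : R[X]} {c : R} (hc : 0 < c)
    (hA : A ≠ 0) (hB : B ≠ 0)
    (hAB : A * B = C c * (X ^ 2 + C (δ ^ 2)) ^ i * (X ^ 2 + 1) ^ j * (1 + C α * X ^ 2) ^ k *
      (1 + C β * X ^ 2) ^ l * m ^ 2) {lA lB : R} {Ab Bb : ℝ[X]} (hrA : Rd lA (sc r A) Ab)
    (hrB : Rd lB (sc r B) Bb) (hAb : Ab ≠ 0) (hBb : Bb ≠ 0) :
    ∃ (κ : ℝ) (mb : ℝ[X]), 0 < κ ∧ mb ≠ 0 ∧ Ab * Bb = C κ * Pb * mb ^ 2 := by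
  have hm : m ≠ 0 := by
    rintro rfl
    have : A * B = 0 := by rw [hAB]; ring
    exact mul_ne_zero hA hB this
  obtain ⟨mb, hmb, hmb0⟩ := Rd.exists (sc_ne_zero D.hr hm)
  have h1 := hrA.mul hrB
  rw [← map_mul, hAB] at h1
  have h2 := ((rd_const hc).mul D.hP).mul (hmb.pow 2)
  have e : sc r (C c * (X ^ 2 + C (δ ^ 2)) ^ i * (X ^ 2 + 1) ^ j * (1 + C α * X ^ 2) ^ k *
      (1 + C β * X ^ 2) ^ l * m ^ 2) = C c * sc r ((X ^ 2 + C (δ ^ 2)) ^ i * (X ^ 2 + 1) ^ j *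
        (1 + C α * X ^ 2) ^ k * (1 + C β * X ^ 2) ^ l) * sc r m ^ 2 := by
    simp only [map_mul, map_pow, sc_C]
    ring
  rw [e] at h1
  have hne : (1 * Pb * mb ^ 2 : ℝ[X]) ≠ 0 := by
    rw [one_mul]
    exact mul_ne_zero D.hP0 (pow_ne_zero 2 hmb0)
  obtain ⟨-, h4, h5⟩ := Rd.unique h2 h1 hne (mul_ne_zero hAb hBb)
  exact ⟨_, mb, h4, hmb0, by rw [h5]; ring⟩

/-- `A` infinitely larger than `B` -/
theorem red_inf {r δ α β : R} {i j k l : ℕ} {le lP : R} {eb Hb Pb : ℝ[X]}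
    (D : RData r δ α β i j k l le lP eb Hb Pb) {A B G : R[X]}
    (hG : G ^ 2 = (X ^ 2 + C (δ ^ 2)) * (A * B * (A ^ 2 - 4 * HH α β * B ^ 2)))
    {lA lB : R} {Ab Bb : ℝ[X]} (hrA : Rd lA (sc r A) Ab)
    (hrB : Rd lB (sc r B) Bb) (hlt : mk lA < mk lB) :
    ∃ g : ℝ[X], g ^ 2 = eb * (Ab * Bb * Ab ^ 2) := by
  have h4 : Rd (4 * 1 * lB ^ 2) (C 4 * sc r (HH α β) * sc r B ^ 2) (1 * Hb * Bb ^ 2) :=
    ((rd_const (by norm_num)).mul D.hH).mul (hrB.pow 2)
  have hlA2 : 0 < lA ^ 2 := pow_pos hrA.1 2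
  have hpos : 0 < mk (4 * 1 * lB ^ 2 / lA ^ 2) := by
    have e : 4 * 1 * lB ^ 2 / lA ^ 2 = 4 * (lB / lA) ^ 2 := by ring
    rw [e, mk_mul, mk_ofNat, zero_add, mk_pow]
    have := (mk_div_pos hrA.1).2 hlt
    rw [two_nsmul]
    exact lt_of_lt_of_le this (le_add_of_nonneg_left this.le)
  have h5 := h4.scale hlA2 hpos.le
  rw [stdPart_eq_zero.2 hpos.ne', C_0, zero_mul] at h5
  have h6 := (hrA.pow 2).sub h5
  rw [sub_zero] at h6
  have h7 := D.he.mul ((hrA.mul hrB).mul h6)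
  refine rd_sq (G := sc r G) ?_ h7
  rw [← map_pow, hG]
  simp only [map_mul, map_sub, map_pow]
  rw [show (4 : R[X]) = C 4 from rfl, sc_C]

/-- `A` and `B` of the same size -/
theorem red_fin {r δ α β : R} {i j k l : ℕ} {le lP : R} {eb Hb Pb : ℝ[X]}
    (D : RData r δ α β i j k l le lP eb Hb Pb) {A B G : R[X]}
    (hG : G ^ 2 = (X ^ 2 + C (δ ^ 2)) * (A * B * (A ^ 2 - 4 * HH α β * B ^ 2)))
    {lB : R} {Ab Bb : ℝ[X]} (hrA : Rd lB (sc r A) Ab)
    (hrB : Rd lB (sc r B) Bb) :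
    ∃ g : ℝ[X], g ^ 2 = eb * (Ab * Bb * (Ab ^ 2 - 4 * Hb * Bb ^ 2)) := by
  have h4 : Rd (1 * 1 * lB ^ 2) (C 4 * sc r (HH α β) * sc r B ^ 2) (C 4 * Hb * Bb ^ 2) := by
    have : Rd (1 : R) (C 4) (C 4) := by
      have := rd_C (c := (4 : R)) (by rw [mk_ofNat])
      rwa [stdPart_ofNat] at this
    exact (this.mul D.hH).mul (hrB.pow 2)
  rw [one_mul, one_mul] at h4
  have h6 := (hrA.pow 2).sub h4
  have h7 := D.he.mul ((hrA.mul hrB).mul h6)
  obtain ⟨g, hg⟩ := rd_sq (G := sc r G) (by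
    rw [← map_pow, hG]
    simp only [map_mul, map_sub, map_pow]
    rw [show (4 : R[X]) = C 4 from rfl, sc_C]) h7
  exact ⟨g, by rw [hg, show (C 4 : ℝ[X]) = 4 from rfl]⟩

/-- multiplicity of `X ^ 2 + 1` -/
theorem even_of_sq {g h : ℝ[X]} {κ : ℝ} {n : ℕ} (hκ : κ ≠ 0) (hh : h ≠ 0)
    (hg : g ^ 2 = C κ * (X ^ 2 + 1) ^ n * h ^ 2) : Even n := by
  have hinj : Function.Injective (algebraMap ℝ ℂ) := (algebraMap ℝ ℂ).injective
  set φ : ℝ[X] →+* ℂ[X] := mapRingHom (algebraMap ℝ ℂ) with hφ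
  have hφi : Function.Injective φ := Polynomial.map_injective _ hinj
  have hI : φ (X ^ 2 + 1) = (X - C Complex.I) * (X + C Complex.I) := by
    simp only [hφ, map_add, map_pow, map_one, coe_mapRingHom, map_X]
    have : (C Complex.I : ℂ[X]) * C Complex.I = -1 := by
      rw [← C_mul, Complex.I_mul_I]; simp
    linear_combination this
  have hq : (X ^ 2 + 1 : ℝ[X]) ≠ 0 := by
    intro h0
    have := congrArg (Polynomial.eval 0) h0
    simp at this
  have hg0 : g ≠ 0 := by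
    rintro rfl
    have h1 : C κ * (X ^ 2 + 1) ^ n * h ^ 2 = (0 : ℝ[X]) := by rw [← hg]; simp
    have h2 : C κ ≠ (0 : ℝ[X]) := C_ne_zero.2 hκ
    exact mul_ne_zero (mul_ne_zero h2 (pow_ne_zero _ hq)) (pow_ne_zero _ hh) h1
  have hmul : φ g ^ 2 = C (κ : ℂ) * ((X - C Complex.I) * (X + C Complex.I)) ^ n * φ h ^ 2 := by
    rw [← map_pow, hg, map_mul, map_mul, map_pow, map_pow, hI]
    simp [hφ]
  have hg1 : φ g ≠ 0 := (map_ne_zero_iff _ hφi).2 hg0
  have hh1 : φ h ≠ 0 := (map_ne_zero_iff _ hφi).2 hh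
  have hplus : (X + C Complex.I : ℂ[X]) ≠ 0 := X_add_C_ne_zero _
  have hminus : (X - C Complex.I : ℂ[X]) ≠ 0 := X_sub_C_ne_zero _
  have hCκ : (C (κ : ℂ) : ℂ[X]) ≠ 0 := C_ne_zero.2 (by exact_mod_cast hκ)
  have hroot : rootMultiplicity Complex.I (X + C Complex.I : ℂ[X]) = 0 := by
    apply rootMultiplicity_eq_zero
    simp [IsRoot, Complex.ext_iff]
  have hrootm : rootMultiplicity Complex.I (X - C Complex.I : ℂ[X]) = 1 :=
    rootMultiplicity_X_sub_C_self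
  have hpow : ∀ (p : ℂ[X]) (n : ℕ), p ≠ 0 →
      rootMultiplicity Complex.I (p ^ n) = n * rootMultiplicity Complex.I p := by
    intro p n hp
    rw [← count_roots, ← count_roots, roots_pow, Multiset.count_nsmul]
  have hL := hpow (φ g) 2 hg1
  rw [hmul] at hL
  have hprod : ((X - C Complex.I) * (X + C Complex.I) : ℂ[X]) ≠ 0 := mul_ne_zero hminus hplus
  rw [rootMultiplicity_mul (mul_ne_zero (mul_ne_zero hCκ (pow_ne_zero _ hprod))
    (pow_ne_zero _ hh1)), rootMultiplicity_mul (mul_ne_zero hCκ (pow_ne_zero _ hprod)),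
    hpow _ _ hprod, hpow _ _ hh1, rootMultiplicity_mul hprod, hroot, hrootm,
    rootMultiplicity_C] at hL
  exact ⟨rootMultiplicity Complex.I (φ g) - rootMultiplicity Complex.I (φ h), by omega⟩

/-- lowest index -/
theorem low_iff {r l : R} {f : R[X]} {g : ℝ[X]} (h : Rd l (sc r f) g) (hg : g ≠ 0) (m : ℕ) :
    LowAct f r m ↔ m = rootMultiplicity 0 g := by
  rw [rootMultiplicity_eq_natTrailingDegree']
  unfold LowAct
  rw [act_of_rd h hg]
  constructor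
  · rintro ⟨h1, h2⟩
    apply le_antisymm
    · by_contra hlt
      push Not at hlt
      apply h2 _ hlt
      rw [act_of_rd h hg]
      exact mt trailingCoeff_eq_zero.1 hg
    · exact natTrailingDegree_le_of_ne_zero h1
  · rintro rfl
    refine ⟨mt trailingCoeff_eq_zero.1 hg, fun k hk => ?_⟩
    rw [act_of_rd h hg, not_not]
    exact coeff_eq_zero_of_lt_natTrailingDegree hk

/-- highest index -/
theorem high_iff {r l : R} {f : R[X]} {g : ℝ[X]} (h : Rd l (sc r f) g) (hg : g ≠ 0) :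
    HighAct f r (natDegree g) := by
  unfold HighAct
  rw [act_of_rd h hg]
  refine ⟨?_, fun k hk => ?_⟩
  · rw [coeff_natDegree]; exact leadingCoeff_ne_zero.2 hg
  · rw [act_of_rd h hg, not_not]
    exact coeff_eq_zero_of_natDegree_lt hk

/-- rescaling `A` to the scale of `B` -/
theorem rescale {lA lB : R} {F : R[X]} {f : ℝ[X]} (h : Rd lA F f) (hf : f ≠ 0) (hl : 0 < lB)
    (he : mk lA = mk lB) : ∃ Λ : ℝ, 0 < Λ ∧ Rd lB F (C Λ * f) ∧ C Λ * f ≠ 0 := by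
  have h0 : mk (lA / lB) = 0 := (mk_div_eq_zero hl).2 he
  have h1 : stdPart (lA / lB) ≠ 0 := by
    rw [Ne, stdPart_eq_zero, not_not]; exact h0
  have h2 : 0 ≤ stdPart (lA / lB) := stdPart_nonneg (div_nonneg h.1.le hl.le)
  have h3 : 0 < stdPart (lA / lB) := lt_of_le_of_ne h2 h1.symm
  exact ⟨_, h3, h.scale hl h0.ge, mul_ne_zero (C_ne_zero.2 h1) hf⟩

/-- building the data -/
theorem mkData {r δ α β : R} (hr : 0 < r) (hr0 : 0 ≤ mk r) (hα' : 0 < mk α) (hβ' : 0 < mk β)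
    (i j k l : ℕ) {le : R} {eb pb : ℝ[X]} (he : Rd le (sc r (X ^ 2 + C (δ ^ 2))) eb) (he0 : eb ≠ 0)
    (hp : Rd 1 (sc r (X ^ 2 + 1)) pb) (hp0 : pb ≠ 0) :
    RData r δ α β i j k l le (le ^ i) eb pb (eb ^ i * pb ^ j) := by
  have hq : ∀ γ : R, 0 < mk γ → Rd 1 (sc r (1 + C γ * X ^ 2)) 1 := by
    intro γ hγ
    rw [sc_a]
    refine rd_quad_one rfl ?_
    rw [mk_mul, mk_pow]
    have : (0 : ArchimedeanClass R) ≤ 2 • mk r := nsmul_nonneg hr0 2
    exact lt_of_lt_of_le hγ (le_add_of_nonneg_right this)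
  have ha := hq α hα'
  have hb := hq β hβ'
  refine ⟨hr, he, he0, ?_, ?_, mul_ne_zero (pow_ne_zero _ he0) (pow_ne_zero _ hp0)⟩
  · have h := (hp.mul ha).mul (hb.pow 2)
    unfold HH
    simp only [map_mul, map_pow]
    simpa only [one_pow, mul_one] using h
  · have h := (((he.pow i).mul (hp.pow j)).mul (ha.pow k)).mul (hb.pow l)
    rw [map_mul, map_mul, map_mul, map_pow (sc r), map_pow (sc r), map_pow (sc r), map_pow (sc r)]
    simpa only [one_pow, mul_one] using h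

end Local

open Local

theorem local_pos {δ α β : R} (hδ : 0 < δ) (hα : 0 < α) (hβ : 0 < β) {A B : R[X]} {i j : ℕ}
    (h : DD δ α β A B i j) (r : R) (hr : 0 < r) : VV A r ≤ VV B r := by
  obtain ⟨hA, hB, ⟨G, hG⟩, c, k, l, m, hc, hAB⟩ := h
  obtain ⟨Ab, hrA, hAb⟩ := Rd.exists (sc_ne_zero hr hA)
  obtain ⟨Bb, hrB, hBb⟩ := Rd.exists (sc_ne_zero hr hB)
  rw [vv_of_rd hrA hAb, vv_of_rd hrB hBb]
  -- a natural number which is not a root
  obtain ⟨n, hn⟩ : ∃ n : ℕ, (Ab * Bb).eval (n : ℝ) ≠ 0 := by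
    by_contra hcon
    push Not at hcon
    have hinf : Set.Infinite (Set.range (fun n : ℕ => (n : ℝ))) :=
      Set.infinite_range_of_injective Nat.cast_injective
    have := Polynomial.eq_zero_of_infinite_isRoot (Ab * Bb) (hinf.mono (by
      rintro x ⟨n, rfl⟩
      exact hcon n))
    exact mul_ne_zero hAb hBb this
  rw [eval_mul] at hn
  have hnA : Ab.eval (n : ℝ) ≠ 0 := left_ne_zero_of_mul hn
  have hnB : Bb.eval (n : ℝ) ≠ 0 := right_ne_zero_of_mul hn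
  set t : R := r * n with ht
  have eA := hrA.eval n
  have eB := hrB.eval n
  rw [sc_eval, ← ht] at eA eB
  have mA : mk (A.eval t) = mk (nrm (sc r A)) := by
    rw [← mk_div_eq_zero hrA.1]
    by_contra h3
    apply hnA
    rw [← eA.2]
    exact stdPart_eq_zero.2 h3
  have mB : mk (B.eval t) = mk (nrm (sc r B)) := by
    rw [← mk_div_eq_zero hrB.1]
    by_contra h3
    apply hnB
    rw [← eB.2]
    exact stdPart_eq_zero.2 h3
  have hAt : A.eval t ≠ 0 := by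
    intro h0
    rw [h0, mk_zero] at mA
    exact mk_ne_top hrA.1 mA.symm
  have hBt : B.eval t ≠ 0 := by
    intro h0
    rw [h0, mk_zero] at mB
    exact mk_ne_top hrB.1 mB.symm
  have hABt : 0 < A.eval t * B.eval t := by
    have h1 := congrArg (Polynomial.eval t) hAB
    simp only [eval_mul, eval_add, eval_pow, eval_X, eval_C, eval_one] at h1
    have h2 : 0 ≤ A.eval t * B.eval t := by
      rw [h1]
      have a1 : 0 < t ^ 2 + δ ^ 2 := by positivity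
      have a2 : 0 < t ^ 2 + 1 := by positivity
      have a3 : 0 < 1 + α * t ^ 2 := by positivity
      have a4 : 0 < 1 + β * t ^ 2 := by positivity
      positivity
    exact lt_of_le_of_ne h2 (mul_ne_zero hAt hBt).symm
  have hH : 1 ≤ (HH α β).eval t := by
    unfold HH
    simp only [eval_mul, eval_add, eval_pow, eval_X, eval_C, eval_one]
    have a2 : 1 ≤ t ^ 2 + 1 := by nlinarith [sq_nonneg t]
    have a3 : 1 ≤ 1 + α * t ^ 2 := by nlinarith [mul_nonneg hα.le (sq_nonneg t)]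
    have a4 : 1 ≤ 1 + β * t ^ 2 := by nlinarith [mul_nonneg hβ.le (sq_nonneg t)]
    have a5 : 1 ≤ (1 + β * t ^ 2) ^ 2 := one_le_pow₀ a4
    have a6 : 1 ≤ (t ^ 2 + 1) * (1 + α * t ^ 2) := one_le_mul_of_one_le_of_one_le a2 a3
    exact one_le_mul_of_one_le_of_one_le a6 a5
  have hsq : 0 ≤ A.eval t ^ 2 - 4 * (HH α β).eval t * B.eval t ^ 2 := by
    have h1 := congrArg (Polynomial.eval t) hG
    simp only [eval_mul, eval_add, eval_sub, eval_pow, eval_X, eval_C, eval_ofNat] at h1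
    have a1 : 0 < (t ^ 2 + δ ^ 2) * (A.eval t * B.eval t) := mul_pos (by positivity) hABt
    by_contra hneg
    push Not at hneg
    have h2 : G.eval t ^ 2 < 0 := by
      rw [h1]
      have := mul_neg_of_pos_of_neg a1 hneg
      nlinarith
    exact absurd h2 (not_lt.2 (sq_nonneg _))
  have hle : |B.eval t| ≤ |A.eval t| := by
    rw [← sq_le_sq]
    have : B.eval t ^ 2 ≤ (HH α β).eval t * B.eval t ^ 2 :=
      le_mul_of_one_le_left (sq_nonneg _) hH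
    nlinarith [sq_nonneg (B.eval t)]
  rw [← mA, ← mB]
  exact mk_le_mk.2 ⟨1, by simpa using hle⟩

theorem local_one {δ α β : R} (hδ : 0 < δ) (hδ' : 0 < mk δ) (hα : 0 < α) (hα' : 0 < mk α)
    (hβ : 0 < β) (hβ' : 0 < mk β) {A B : R[X]} {i j : ℕ} (h : DD δ α β A B i j) :
    (Odd j ∧ VV B 1 ≤ VV A 1 ∧ ∃ m, LowAct A 1 m ∧ LowAct B 1 m) ∨
    (Even j ∧ ¬ (VV B 1 ≤ VV A 1 ∧ ∃ m, LowAct A 1 m ∧ LowAct B 1 m)) := by
  have hpos := local_pos hδ hα hβ h 1 one_pos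
  obtain ⟨hA, hB, ⟨G, hG⟩, c, k, l, m, hc, hAB⟩ := h
  have hX : (X ^ 2 : ℝ[X]) ≠ 0 := pow_ne_zero _ X_ne_zero
  have hX1 : (X ^ 2 + 1 : ℝ[X]) ≠ 0 := by
    intro h0
    have := congrArg (Polynomial.eval 0) h0
    simp at this
  have D : RData (1 : R) δ α β i j k l 1 (1 ^ i) (X ^ 2) (X ^ 2 + 1)
      ((X ^ 2) ^ i * (X ^ 2 + 1) ^ j) := by
    refine mkData one_pos (by rw [mk_one]) hα' hβ' i j k l ?_ hX ?_ hX1
    · rw [sc_e, one_pow]
      have hd : 0 < mk (δ ^ 2 / 1) := by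
        rw [div_one, mk_pow, two_nsmul]
        exact lt_of_lt_of_le hδ' (le_add_of_nonneg_left hδ'.le)
      have h1 := rd_quad (l := (1 : R)) (a := 1) (b := δ ^ 2) one_pos (by rw [div_one, mk_one]) hd.le
      rw [stdPart_eq_zero.2 hd.ne', div_one, stdPart_one] at h1
      simpa using h1
    · rw [sc_p, one_pow]
      have h1 := rd_quad (l := (1 : R)) (a := 1) (b := 1) one_pos (by rw [div_one, mk_one])
        (by rw [div_one, mk_one])
      rw [div_one, stdPart_one, C_1, C_1, one_mul] at h1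
      simpa using h1
  obtain ⟨Ab, hrA, hAb⟩ := Rd.exists (sc_ne_zero D.hr hA)
  obtain ⟨Bb, hrB, hBb⟩ := Rd.exists (sc_ne_zero D.hr hB)
  obtain ⟨κ, mb, hκ, hmb, hprod⟩ := red_AB D hc hA hB hAB hrA hrB hAb hBb
  have vA := vv_of_rd hrA hAb
  have vB := vv_of_rd hrB hBb
  rcases hpos.lt_or_eq with hlt | heq
  · -- infinite case
    obtain ⟨g, hg⟩ := red_inf D hG hrA hrB (by rwa [← vA, ← vB])
    right
    refine ⟨?_, fun h => absurd h.1 (not_le.2 hlt)⟩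
    have h2 : g ^ 2 = C κ * (X ^ 2 + 1) ^ j * (X * X ^ i * mb * Ab) ^ 2 := by
      rw [hg, hprod]; ring
    exact even_of_sq hκ.ne' (mul_ne_zero (mul_ne_zero (mul_ne_zero X_ne_zero
      (pow_ne_zero _ X_ne_zero)) hmb) hAb) h2
  · -- finite case
    obtain ⟨Λ, hΛ, hrA', hA'⟩ := rescale hrA hAb hrB.1 (by rw [← vA, ← vB, heq])
    obtain ⟨g, hg⟩ := red_fin D hG hrA' hrB
    obtain ⟨g', rfl⟩ : X ∣ g := by
      have : (X : ℝ[X]) ^ 2 ∣ g ^ 2 := by rw [hg]; exact dvd_mul_right _ _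
      exact prime_X.dvd_of_dvd_pow ((dvd_pow_self X two_ne_zero).trans this)
    have hg' : g' ^ 2 = C Λ * Ab * Bb * ((C Λ * Ab) ^ 2 - 4 * (X ^ 2 + 1) * Bb ^ 2) := by
      have : (X : ℝ[X]) ^ 2 * g' ^ 2 =
          X ^ 2 * (C Λ * Ab * Bb * ((C Λ * Ab) ^ 2 - 4 * (X ^ 2 + 1) * Bb ^ 2)) := by
        rw [← hg]; ring
      exact mul_left_cancel₀ hX this
    have hprod' : C Λ * Ab * Bb = C (Λ * κ) * (X ^ 2 + 1) ^ j * (X ^ i * mb) ^ 2 := by
      rw [mul_assoc, hprod, C_mul]; ring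
    have key := r_one (C Λ * Ab) Bb g' (X ^ i * mb) j (Λ * κ) (mul_pos hΛ hκ) hA' hBb hg' hprod'
    rcases key with ⟨hj, hm⟩ | ⟨hj, hm⟩
    · left
      refine ⟨hj, heq.ge, rootMultiplicity 0 Bb, ?_, ?_⟩
      · rw [low_iff hrA' hA', hm]
      · rw [low_iff hrB hBb]
    · right
      refine ⟨hj, ?_⟩
      rintro ⟨-, m', h1, h2⟩
      rw [low_iff hrA' hA'] at h1
      rw [low_iff hrB hBb] at h2
      omega

theorem local_delta {δ α β : R} (hδ : 0 < δ) (hδ' : 0 < mk δ) (hα : 0 < α) (hα' : 0 < mk α)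
    (hβ : 0 < β) (hβ' : 0 < mk β) {A B : R[X]} {i j : ℕ} (h : DD δ α β A B i j) :
    (Even i ∧ VV B δ ≤ VV A δ ∧ ∃ m, HighAct A δ m ∧ HighAct B δ m) ∨
    (Odd i ∧ ¬ VV B δ ≤ VV A δ) := by
  have hpos := local_pos hδ hα hβ h δ hδ
  obtain ⟨hA, hB, ⟨G, hG⟩, c, k, l, m, hc, hAB⟩ := h
  have hX1 : (X ^ 2 + 1 : ℝ[X]) ≠ 0 := by
    intro h0
    have := congrArg (Polynomial.eval 0) h0
    simp at this
  have hd2 : 0 < mk (δ ^ 2) := by
    rw [mk_pow, two_nsmul]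
    exact lt_of_lt_of_le hδ' (le_add_of_nonneg_left hδ'.le)
  have D : RData δ δ α β i j k l (δ ^ 2) ((δ ^ 2) ^ i) (X ^ 2 + 1) 1 ((X ^ 2 + 1) ^ i * 1 ^ j) := by
    refine mkData hδ hδ'.le hα' hβ' i j k l ?_ hX1 ?_ one_ne_zero
    · rw [sc_e]
      have hs : δ ^ 2 / δ ^ 2 = 1 := div_self (pow_ne_zero 2 hδ.ne')
      have h1 := rd_quad (l := δ ^ 2) (a := δ ^ 2) (b := δ ^ 2) (by positivity)
        (by rw [hs, mk_one]) (by rw [hs, mk_one])
      rw [hs, stdPart_one, C_1, one_mul] at h1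
      exact h1
    · rw [sc_p, add_comm]
      exact rd_quad_one rfl hd2
  obtain ⟨Ab, hrA, hAb⟩ := Rd.exists (sc_ne_zero D.hr hA)
  obtain ⟨Bb, hrB, hBb⟩ := Rd.exists (sc_ne_zero D.hr hB)
  obtain ⟨κ, mb, hκ, hmb, hprod⟩ := red_AB D hc hA hB hAB hrA hrB hAb hBb
  have vA := vv_of_rd hrA hAb
  have vB := vv_of_rd hrB hBb
  rcases hpos.lt_or_eq with hlt | heq
  · right
    obtain ⟨g, hg⟩ := red_inf D hG hrA hrB (by rwa [← vA, ← vB])
    refine ⟨?_, not_le.2 hlt⟩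
    have h2 : g ^ 2 = C κ * (X ^ 2 + 1) ^ (i + 1) * (mb * Ab) ^ 2 := by
      rw [hg, hprod]; ring
    have h3 := even_of_sq hκ.ne' (mul_ne_zero hmb hAb) h2
    rcases Nat.even_or_odd i with h4 | h4
    · exact absurd h3 (Nat.not_even_iff_odd.2 h4.add_one)
    · exact h4
  · left
    obtain ⟨Λ, hΛ, hrA', hA'⟩ := rescale hrA hAb hrB.1 (by rw [← vA, ← vB, heq])
    obtain ⟨g, hg⟩ := red_fin D hG hrA' hrB
    have hg' : g ^ 2 = (X ^ 2 + 1) * (C Λ * Ab * Bb * ((C Λ * Ab) ^ 2 - 4 * Bb ^ 2)) := by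
      rw [hg]; ring
    have hprod' : C Λ * Ab * Bb = C (Λ * κ) * (X ^ 2 + 1) ^ i * mb ^ 2 := by
      rw [mul_assoc, hprod, C_mul]; ring
    obtain ⟨h2, h3⟩ := const_two (C Λ * Ab) Bb g mb i (Λ * κ) (mul_pos hΛ hκ) hA' hBb hg' hprod'
    refine ⟨h3, heq.ge, natDegree Bb, ?_, high_iff hrB hBb⟩
    have h4 := high_iff hrA' hA'
    have h5 : natDegree (C Λ * Ab) = natDegree Bb := by
      rw [h2, natDegree_C_mul (by norm_num)]
    rwa [h5] at h4

theorem local_mid {δ α β : R} (hδ : 0 < δ) (hδ' : 0 < mk δ) (hα : 0 < α) (hα' : 0 < mk α)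
    (hβ : 0 < β) (hβ' : 0 < mk β) {A B : R[X]} {i j : ℕ} (h : DD δ α β A B i j)
    (r : R) (hr : 0 < r) (hr1 : 0 < mk r) (hr2 : 0 < mk (δ / r)) (hv : VV B r ≤ VV A r) (k : ℕ) :
    Act A r k ↔ Act B r k := by
  have hpos := local_pos hδ hα hβ h r hr
  obtain ⟨hA, hB, ⟨G, hG⟩, c, k', l, m, hc, hAB⟩ := h
  have hX : (X ^ 2 : ℝ[X]) ≠ 0 := pow_ne_zero _ X_ne_zero
  have D : RData r δ α β i j k' l (r ^ 2) ((r ^ 2) ^ i) (X ^ 2) 1 ((X ^ 2) ^ i * 1 ^ j) := by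
    refine mkData hr hr1.le hα' hβ' i j k' l ?_ hX ?_ one_ne_zero
    · rw [sc_e]
      have hs : r ^ 2 / r ^ 2 = 1 := div_self (pow_ne_zero 2 hr.ne')
      have hd : 0 < mk (δ ^ 2 / r ^ 2) := by
        rw [← div_pow, mk_pow, two_nsmul]
        exact lt_of_lt_of_le hr2 (le_add_of_nonneg_left hr2.le)
      have h1 := rd_quad (l := r ^ 2) (a := r ^ 2) (b := δ ^ 2) (by positivity)
        (by rw [hs, mk_one]) hd.le
      rw [hs, stdPart_eq_zero.2 hd.ne', stdPart_one, C_1, one_mul, C_0, add_zero] at h1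
      exact h1
    · rw [sc_p, add_comm]
      refine rd_quad_one rfl ?_
      rw [mk_pow, two_nsmul]
      exact lt_of_lt_of_le hr1 (le_add_of_nonneg_left hr1.le)
  obtain ⟨Ab, hrA, hAb⟩ := Rd.exists (sc_ne_zero D.hr hA)
  obtain ⟨Bb, hrB, hBb⟩ := Rd.exists (sc_ne_zero D.hr hB)
  have vA := vv_of_rd hrA hAb
  have vB := vv_of_rd hrB hBb
  have heq := le_antisymm hpos hv
  obtain ⟨Λ, hΛ, hrA', hA'⟩ := rescale hrA hAb hrB.1 (by rw [← vA, ← vB, heq])
  obtain ⟨g, hg⟩ := red_fin D hG hrA' hrB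
  obtain ⟨g', rfl⟩ : X ∣ g := by
    have : (X : ℝ[X]) ^ 2 ∣ g ^ 2 := by rw [hg]; exact dvd_mul_right _ _
    exact prime_X.dvd_of_dvd_pow ((dvd_pow_self X two_ne_zero).trans this)
  have hg' : g' ^ 2 = C Λ * Ab * Bb * ((C Λ * Ab) ^ 2 - 4 * Bb ^ 2) := by
    have : (X : ℝ[X]) ^ 2 * g' ^ 2 =
        X ^ 2 * (C Λ * Ab * Bb * ((C Λ * Ab) ^ 2 - 4 * Bb ^ 2)) := by
      rw [← mul_pow, hg]; ring
    exact mul_left_cancel₀ hX this
  obtain ⟨c', hc'⟩ := const_one (C Λ * Ab) Bb g' hA' hBb hg'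
  have hc0 : c' ≠ 0 := by
    rintro rfl
    rw [C_0, zero_mul] at hc'
    exact hA' hc'
  rw [act_of_rd hrA' hA', act_of_rd hrB hBb, hc', coeff_C_mul]
  simp [hc0]

end WInv
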