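import Pool.Agent.WInv.RigidDefs

/-!
# The normalised pair `(A, B)` (MP_2fcb4d_al)
-/

set_option autoImplicit false

namespace WInv

open Polynomial ArchimedeanClass

universe u

variable {R : Type u} [Field R]

/-- `H = (p² + 1)(1 + α p²)(1 + β p²)²` -/
noncomputable def HH (α β : R) : R[X] :=
  (X ^ 2 + 1) * (1 + C α * X ^ 2) * (1 + C β * X ^ 2) ^ 2

/-- `x = A / B` satisfies `x² - 4 H = e x θ²` with `e = p² + δ²` and `x` is a positive constant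
times `e ^ i (p² + 1) ^ j (1 + α p²) ^ k (1 + β p²) ^ l` times a square. -/
def DD [LinearOrder R] (δ α β : R) (A B : R[X]) (i j : ℕ) : Prop :=
  A ≠ 0 ∧ B ≠ 0 ∧
  (∃ G : R[X], G ^ 2 = (X ^ 2 + C (δ ^ 2)) * (A * B * (A ^ 2 - 4 * HH α β * B ^ 2))) ∧
  ∃ (c : R) (k l : ℕ) (m : R[X]), 0 < c ∧
    A * B = C c * (X ^ 2 + C (δ ^ 2)) ^ i * (X ^ 2 + 1) ^ j * (1 + C α * X ^ 2) ^ k *
      (1 + C β * X ^ 2) ^ l * m ^ 2

end WInv
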