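import Pool.Agent.WInv.DDag
import Pool.Agent.WInv.Factor
import Pool.Agent.WInv.Data

/-!
# Module D8b: no rational points of odd degree (MP_2fcb4d_al)
-/

set_option autoImplicit false

namespace WInv

open Polynomial ArchimedeanClass

universe u

namespace NoLinear

variable {R : Type u} [Field R] [LinearOrder R] [IsStrictOrderedRing R]

lemma eval_e1_pos {δ : R} (hδ : 0 < δ) (t : R) : 0 < (e1 δ).eval t := by
  simp only [e1, eval_add, eval_pow, eval_X, eval_C]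
  positivity

lemma eval_g1_pos {σ : R} (hσ : 0 < σ) (t : R) : 0 < (g1 σ).eval t := by
  simp only [g1, eval_add, eval_pow, eval_X, eval_C]
  positivity

lemma eval_g2_pos (σ : R) (t : R) : 0 < (g2 σ).eval t := by
  simp only [g2, eval_add, eval_mul, eval_pow, eval_X, eval_C, eval_one]
  positivity

lemma eval_e2_pos (δ : R) (t : R) : 0 < (e2 δ).eval t := by
  simp only [e2, eval_add, eval_mul, eval_pow, eval_X, eval_C, eval_one]
  positivity

lemma natDegree_e1 (δ : R) : (e1 δ).natDegree = 2 := by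
  unfold e1; compute_degree!

lemma natDegree_g1 (σ : R) : (g1 σ).natDegree = 2 := by
  unfold g1; compute_degree!

lemma natDegree_g2 {σ : R} (hσ : σ ≠ 0) : (g2 σ).natDegree = 2 := by
  unfold g2
  compute_degree!

lemma natDegree_e2 {δ : R} (hδ : δ ≠ 0) : (e2 δ).natDegree = 2 := by
  unfold e2
  compute_degree!

lemma leadingCoeff_e1 (δ : R) : (e1 δ).leadingCoeff = 1 := by
  rw [leadingCoeff, natDegree_e1, e1, coeff_add, coeff_X_pow, coeff_C]
  simp

lemma leadingCoeff_g1 (σ : R) : (g1 σ).leadingCoeff = 1 := by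
  rw [leadingCoeff, natDegree_g1, g1, coeff_add, coeff_X_pow, coeff_C]
  simp

lemma leadingCoeff_g2 {σ : R} (hσ : σ ≠ 0) : (g2 σ).leadingCoeff = σ ^ 2 := by
  rw [leadingCoeff, natDegree_g2 hσ, g2, coeff_add, coeff_C_mul, coeff_X_pow, coeff_one]
  simp

lemma leadingCoeff_e2 {δ : R} (hδ : δ ≠ 0) : (e2 δ).leadingCoeff = δ ^ 2 := by
  rw [leadingCoeff, natDegree_e2 hδ, e2, coeff_add, coeff_C_mul, coeff_X_pow, coeff_one]
  simp

lemma prime_of_quadratic {f : R[X]} (hd : f.natDegree = 2) (hf : ∀ t, 0 < f.eval t) : Prime f := by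
  apply Irreducible.prime
  rw [Polynomial.irreducible_iff_roots_eq_zero_of_degree_le_three (by omega) (by omega)]
  rw [Multiset.eq_zero_iff_forall_notMem]
  intro a ha
  have := (mem_roots'.1 ha).2
  have h := hf a
  rw [IsRoot.def] at this
  exact h.ne' this

/-- degree of a sum of polynomials with nonnegative leading coefficients -/
lemma natDegree_add_of_nonneg {P Q : R[X]} (hP : 0 ≤ P.leadingCoeff) (hQ : 0 ≤ Q.leadingCoeff) :
    (P + Q).natDegree = max P.natDegree Q.natDegree := by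
  rcases eq_or_ne P 0 with rfl | hP0
  · simp
  rcases eq_or_ne Q 0 with rfl | hQ0
  · simp
  have hP1 : 0 < P.leadingCoeff := lt_of_le_of_ne hP (Ne.symm (leadingCoeff_ne_zero.2 hP0))
  have hQ1 : 0 < Q.leadingCoeff := lt_of_le_of_ne hQ (Ne.symm (leadingCoeff_ne_zero.2 hQ0))
  have h := degree_add_eq_of_leadingCoeff_add_ne_zero (p := P) (q := Q) (add_pos hP1 hQ1).ne'
  have hPQ : P + Q ≠ 0 := by
    intro h0
    rw [h0, degree_zero] at h
    have h1 : P.degree ≤ ⊥ := h ▸ le_max_left _ _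
    exact hP0 (degree_eq_bot.1 (le_bot_iff.1 h1))
  rw [degree_eq_natDegree hPQ, degree_eq_natDegree hP0, degree_eq_natDegree hQ0] at h
  rcases le_total P.natDegree Q.natDegree with hle | hle
  · rw [max_eq_right (by exact_mod_cast hle)] at h
    rw [max_eq_right hle]
    exact_mod_cast h
  · rw [max_eq_left (by exact_mod_cast hle)] at h
    rw [max_eq_left hle]
    exact_mod_cast h

/-- A polynomial with positive leading coefficient is eventually bounded below. -/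
lemma exists_lower (n : ℕ) : ∀ f : R[X], f.natDegree = n → 0 < f.leadingCoeff →
    ∃ c T : R, 0 < c ∧ 0 < T ∧ ∀ t, T ≤ t → c ≤ f.eval t := by
  induction n with
  | zero =>
    intro f hf hl
    rw [eq_C_of_natDegree_eq_zero hf] at hl ⊢
    refine ⟨f.coeff 0, 1, ?_, one_pos, ?_⟩
    · simpa using hl
    · intro t _
      simp
  | succ n ih =>
    intro f hf hl
    have h1 : f.divX.natDegree = n := by rw [natDegree_divX_eq_natDegree_tsub_one, hf]; rfl
    have h2 : 0 < f.divX.leadingCoeff := by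
      rw [leadingCoeff, h1, coeff_divX, ← hf]
      exact hl
    obtain ⟨c, T, hc, hT, h⟩ := ih f.divX h1 h2
    refine ⟨c, max T (1 + |f.coeff 0| / c), hc, lt_of_lt_of_le hT (le_max_left _ _), ?_⟩
    intro t ht
    have hfe : f.eval t = t * f.divX.eval t + f.coeff 0 := by
      have h0 := congrArg (eval t) (divX_mul_X_add f)
      rw [eval_add, eval_mul, eval_X, eval_C] at h0
      rw [← h0, mul_comm]
    have ht1 : T ≤ t := le_trans (le_max_left _ _) ht
    have ht2 : 1 + |f.coeff 0| / c ≤ t := le_trans (le_max_right _ _) ht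
    have ht0 : 0 < t := lt_of_lt_of_le hT ht1
    have h3 := h t ht1
    have h4 : t * c ≤ t * f.divX.eval t := mul_le_mul_of_nonneg_left h3 ht0.le
    have h5 : (1 + |f.coeff 0| / c) * c ≤ t * c := mul_le_mul_of_nonneg_right ht2 hc.le
    have h6 : (1 + |f.coeff 0| / c) * c = c + |f.coeff 0| := by field_simp
    have h7 := neg_abs_le (f.coeff 0)
    rw [hfe]
    linarith

lemma leadingCoeff_pos_of_pos {f : R[X]} (hf : ∀ t, 0 < f.eval t) : 0 < f.leadingCoeff := by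
  by_contra hneg
  have hf0 : f ≠ 0 := by
    rintro rfl
    simpa using hf 0
  have h1 : 0 < (-f).leadingCoeff := by
    rw [leadingCoeff_neg]
    have : f.leadingCoeff ≠ 0 := leadingCoeff_ne_zero.2 hf0
    rcases lt_or_gt_of_ne this with h | h
    · linarith
    · exact absurd h hneg
  obtain ⟨c, T, hc, -, h⟩ := exists_lower _ (-f) rfl h1
  have h2 := h T le_rfl
  have h3 := hf T
  rw [eval_neg] at h2
  linarith

/-- the valuation argument -/
lemma even_exponent {y₁ y₂ N N' E K : R[X]} (hc : IsCoprime y₁ y₂) (hNN : N * N' = K * y₂ ^ 4)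
    (hdiff : N - N' = 2 * E * y₁ ^ 2) {q : R[X]} (hq : Prime q) (hqE : ¬ q ∣ E)
    (hqK : ¬ q ∣ K) (a : ℕ) (ha : q ^ (2 * a + 1) ∣ N) : q ^ (2 * a + 2) ∣ N := by
  have hqN : q ∣ N := dvd_trans (dvd_pow_self q (by omega)) ha
  have h2 : ¬ q ∣ (2 : R[X]) := by
    intro h
    have : IsUnit (2 : R[X]) := by
      rw [show (2 : R[X]) = C 2 from rfl, Polynomial.isUnit_C]
      exact (two_ne_zero : (2 : R) ≠ 0).isUnit
    exact hq.not_unit (isUnit_of_dvd_unit h this)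
  have hqN' : ¬ q ∣ N' := by
    intro h
    have h3 : q ∣ 2 * E * y₁ ^ 2 := hdiff ▸ dvd_sub hqN h
    have h4 : q ∣ y₁ := by
      rcases hq.dvd_or_dvd h3 with h5 | h5
      · rcases hq.dvd_or_dvd h5 with h6 | h6
        · exact absurd h6 h2
        · exact absurd h6 hqE
      · exact hq.dvd_of_dvd_pow h5
    have h5 : q ∣ K * y₂ ^ 4 := hNN ▸ dvd_mul_of_dvd_left hqN _
    have h6 : q ∣ y₂ := by
      rcases hq.dvd_or_dvd h5 with h6 | h6
      · exact absurd h6 hqK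
      · exact hq.dvd_of_dvd_pow h6
    exact hq.not_unit (hc.isUnit_of_dvd' h4 h6)
  have e1 : emultiplicity q N = 4 * emultiplicity q y₂ := by
    have e2 := congrArg (emultiplicity q) hNN
    rw [emultiplicity_mul hq, emultiplicity_mul hq, emultiplicity_pow hq,
      emultiplicity_eq_zero.2 hqN', emultiplicity_eq_zero.2 hqK, add_zero, zero_add] at e2
    exact_mod_cast e2
  rw [pow_dvd_iff_le_emultiplicity] at ha ⊢
  rw [e1] at ha ⊢
  generalize emultiplicity q y₂ = v at ha ⊢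
  induction v using ENat.recTopCoe with
  | top => simp
  | coe v =>
    have h1 : 2 * a + 1 ≤ 4 * v := by exact_mod_cast ha
    have h2 : 2 * a + 2 ≤ 4 * v := by omega
    exact_mod_cast h2

/-! ### scaling -/

lemma sc_e1 {δ σ : R} (hσ : σ ≠ 0) :
    (e1 δ).comp (C σ * X) = C (σ ^ 2) * (X ^ 2 + C ((δ / σ) ^ 2)) := by
  have h : C (δ ^ 2) = C (σ ^ 2) * (C ((δ / σ) ^ 2) : R[X]) := by
    rw [← C_mul]; congr 1; field_simp
  simp only [e1, add_comp, pow_comp, X_comp, C_comp]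
  rw [h, C_pow]
  ring

lemma sc_g1 (σ : R) : (g1 σ).comp (C σ * X) = C (σ ^ 2) * (X ^ 2 + 1) := by
  simp only [g1, add_comp, pow_comp, X_comp, C_comp]
  rw [C_pow]
  ring

lemma sc_g2 (σ : R) : (g2 σ).comp (C σ * X) = 1 + C (σ ^ 4) * X ^ 2 := by
  simp only [g2, add_comp, mul_comp, pow_comp, X_comp, C_comp, one_comp]
  rw [C_pow, C_pow]
  ring

lemma sc_e2 (δ σ : R) : (e2 δ).comp (C σ * X) = 1 + C (δ ^ 2 * σ ^ 2) * X ^ 2 := by
  simp only [e2, add_comp, mul_comp, pow_comp, X_comp, C_comp, one_comp]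
  rw [C_mul, C_pow, C_pow]
  ring

lemma comp_ne_zero {f : R[X]} (hf : f ≠ 0) {σ : R} (hσ : σ ≠ 0) : f.comp (C σ * X) ≠ 0 := by
  intro h
  rw [comp_eq_zero_iff] at h
  rcases h with h | ⟨-, h⟩
  · exact hf h
  · have h1 := congrArg (fun g : R[X] => g.coeff 1) h
    simp only [coeff_C_mul, coeff_X_one, coeff_C_succ] at h1
    exact hσ (by simpa using h1)

/-- first pair -/
lemma pair_one {δ σ s : R} (hσ : 0 < σ) (hs : s ^ 2 = σ) {N y₁ y₂ m : R[X]} (hN : N ≠ 0)
    (hy₂ : y₂ ≠ 0) (hid : N * (N - 2 * e1 δ * y₁ ^ 2) = e2 δ ^ 2 * g1 σ * g2 σ * y₂ ^ 4)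
    {c : R} (hc : 0 < c) {i j k l : ℕ}
    (hfac : N = C c * (e1 δ ^ i * g1 σ ^ j * g2 σ ^ k * e2 δ ^ l) * m ^ 2) :
    DD (δ / σ) (σ ^ 4) (δ ^ 2 * σ ^ 2) (2 * N.comp (C σ * X)) (C σ * y₂.comp (C σ * X) ^ 2)
      i j := by
  have hN' := comp_ne_zero hN hσ.ne'
  have hy' := comp_ne_zero hy₂ hσ.ne'
  have hid' := congrArg (fun f : R[X] => f.comp (C σ * X)) hid
  simp only [mul_comp, sub_comp, pow_comp, sc_e1 hσ.ne', sc_g1, sc_g2, sc_e2, ofNat_comp] at hid'
  have hfac' := congrArg (fun f : R[X] => f.comp (C σ * X)) hfac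
  simp only [mul_comp, pow_comp, C_comp, sc_e1 hσ.ne', sc_g1, sc_g2, sc_e2] at hfac'
  have hS : (C σ : R[X]) = C s ^ 2 := by rw [← C_pow, hs]
  have hS2 : (C (σ ^ 2) : R[X]) = C s ^ 4 := by rw [← C_pow]; congr 1; rw [← hs]; ring
  refine ⟨mul_ne_zero two_ne_zero hN', mul_ne_zero (C_ne_zero.2 hσ.ne') (pow_ne_zero _ hy'), ?_, ?_⟩
  · refine ⟨4 * C s ^ 3 * (X ^ 2 + C ((δ / σ) ^ 2)) * N.comp (C σ * X) * y₁.comp (C σ * X) *
      y₂.comp (C σ * X), ?_⟩
    generalize N.comp (C σ * X) = N' at *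
    generalize y₁.comp (C σ * X) = Y₁ at *
    generalize y₂.comp (C σ * X) = Y₂ at *
    rw [hS2] at hid'
    rw [hS, HH]
    generalize (X ^ 2 + C ((δ / σ) ^ 2) : R[X]) = e at *
    generalize (1 + C (σ ^ 4) * X ^ 2 : R[X]) = A1 at *
    generalize (1 + C (δ ^ 2 * σ ^ 2) * X ^ 2 : R[X]) = B1 at *
    generalize (X ^ 2 + 1 : R[X]) = h at *
    linear_combination (-8 * e * N' * C s ^ 2 * Y₂ ^ 2) * hid'
  · refine ⟨2 * σ * c * σ ^ (2 * i + 2 * j), k, l, m.comp (C σ * X) * y₂.comp (C σ * X),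
      by positivity, ?_⟩
    rw [hfac']
    simp only [C_mul, C_pow, mul_pow, pow_add, pow_mul, map_ofNat]
    ring

/-- second pair -/
lemma pair_two {δ σ s : R} (hσ : 0 < σ) (hs : s ^ 2 = σ) {N y₁ y₂ m : R[X]} (hN : N ≠ 0)
    (hy₂ : y₂ ≠ 0) (hδ : δ ≠ 0)
    (hid : N * (N - 2 * e2 δ * y₁ ^ 2) = e1 δ ^ 2 * g1 σ * g2 σ * y₂ ^ 4)
    {c : R} (hc : 0 < c) {i j k l : ℕ}
    (hfac : N = C c * (e2 δ ^ i * g2 σ ^ j * g1 σ ^ k * e1 δ ^ l) * m ^ 2) :
    DD (δ / σ) (σ ^ 4) (δ ^ 2 * σ ^ 2)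
      (2 * (1 + C (δ ^ 2 * σ ^ 2) * X ^ 2) * N.comp (C σ * X))
      (C (σ ^ 3) * (X ^ 2 + C ((δ / σ) ^ 2)) * y₂.comp (C σ * X) ^ 2) (1 + l) k := by
  have hN' := comp_ne_zero hN hσ.ne'
  have hy' := comp_ne_zero hy₂ hσ.ne'
  have hid' := congrArg (fun f : R[X] => f.comp (C σ * X)) hid
  simp only [mul_comp, sub_comp, pow_comp, sc_e1 hσ.ne', sc_g1, sc_g2, sc_e2, ofNat_comp] at hid'
  have hfac' := congrArg (fun f : R[X] => f.comp (C σ * X)) hfac
  simp only [mul_comp, pow_comp, C_comp, sc_e1 hσ.ne', sc_g1, sc_g2, sc_e2] at hfac'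
  have hS : (C (σ ^ 3) : R[X]) = C s ^ 6 := by rw [← C_pow]; congr 1; rw [← hs]; ring
  have hS2 : (C (σ ^ 2) : R[X]) = C s ^ 4 := by rw [← C_pow]; congr 1; rw [← hs]; ring
  have hB1 : (1 + C (δ ^ 2 * σ ^ 2) * X ^ 2 : R[X]) ≠ 0 := by
    intro h
    have := congrArg (eval 0) h
    simp at this
  have he : (X ^ 2 + C ((δ / σ) ^ 2) : R[X]) ≠ 0 := by
    intro h
    have h1 := congrArg (eval 0) h
    simp only [eval_add, eval_pow, eval_X, eval_C, eval_zero] at h1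
    have h2 : (δ / σ) ^ 2 ≠ 0 := pow_ne_zero _ (div_ne_zero hδ hσ.ne')
    exact h2 (by linear_combination h1)
  refine ⟨mul_ne_zero (mul_ne_zero two_ne_zero hB1) hN',
    mul_ne_zero (mul_ne_zero (C_ne_zero.2 (pow_ne_zero _ hσ.ne')) he) (pow_ne_zero _ hy'), ?_, ?_⟩
  · refine ⟨4 * C s ^ 3 * (X ^ 2 + C ((δ / σ) ^ 2)) * (1 + C (δ ^ 2 * σ ^ 2) * X ^ 2) ^ 2 *
      N.comp (C σ * X) * y₁.comp (C σ * X) * y₂.comp (C σ * X), ?_⟩
    generalize N.comp (C σ * X) = N' at *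
    generalize y₁.comp (C σ * X) = Y₁ at *
    generalize y₂.comp (C σ * X) = Y₂ at *
    rw [hS2] at hid'
    rw [hS, HH]
    generalize (X ^ 2 + C ((δ / σ) ^ 2) : R[X]) = e at *
    generalize (1 + C (σ ^ 4) * X ^ 2 : R[X]) = A1 at *
    generalize (1 + C (δ ^ 2 * σ ^ 2) * X ^ 2 : R[X]) = B1 at *
    generalize (X ^ 2 + 1 : R[X]) = h at *
    linear_combination (-8 * e ^ 2 * B1 ^ 3 * N' * C s ^ 6 * Y₂ ^ 2) * hid'
  · refine ⟨2 * σ ^ 3 * c * σ ^ (2 * k + 2 * l), j, i + 1, m.comp (C σ * X) * y₂.comp (C σ * X),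
      by positivity, ?_⟩
    rw [hfac']
    simp only [C_mul, C_pow, mul_pow, pow_add, pow_mul, map_ofNat]
    ring

lemma reflect_e1 (δ : R) : reflect 2 (e1 δ) = e2 δ := by
  rw [e1, e2, reflect_add, reflect_C]
  have : reflect 2 (X ^ 2 : R[X]) = 1 := by
    rw [reflect_monomial, revAt_le (le_refl 2)]
    simp
  rw [this, add_comm]

lemma reflect_e2 (δ : R) : reflect 2 (e2 δ) = e1 δ := by
  rw [← reflect_e1, reflect_reflect]

lemma reflect_g1 (σ : R) : reflect 2 (g1 σ) = g2 σ := by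
  rw [g1, g2, reflect_add, reflect_C]
  have : reflect 2 (X ^ 2 : R[X]) = 1 := by
    rw [reflect_monomial, revAt_le (le_refl 2)]
    simp
  rw [this, add_comm]

lemma reflect_g2 (σ : R) : reflect 2 (g2 σ) = g1 σ := by
  rw [← reflect_g1, reflect_reflect]

lemma reflect_pow {f : R[X]} {F : ℕ} (hf : f.natDegree ≤ F) (n : ℕ) :
    reflect (n * F) (f ^ n) = reflect F f ^ n := by
  induction n with
  | zero => simp [reflect_one]
  | succ n ih =>
    have h : (f ^ n).natDegree ≤ n * F :=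
      le_trans natDegree_pow_le (Nat.mul_le_mul_left n hf)
    rw [pow_succ, pow_succ, Nat.succ_mul, reflect_mul _ _ h hf, ih]

/-- the reflected identity -/
lemma reflect_identity {δ σ : R} (hδ : δ ≠ 0) (hσ : σ ≠ 0) {d : ℕ} (hd : 1 ≤ d)
    {N y₁ y₂ : R[X]} (hN : N.natDegree ≤ 2 + 2 * d) (h1 : y₁.natDegree ≤ d)
    (h2 : y₂.natDegree ≤ d - 1)
    (hid : N * (N - 2 * e1 δ * y₁ ^ 2) = e2 δ ^ 2 * g1 σ * g2 σ * y₂ ^ 4) :
    reflect (2 + 2 * d) N * (reflect (2 + 2 * d) N - 2 * e2 δ * reflect d y₁ ^ 2) =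
      e1 δ ^ 2 * g1 σ * g2 σ * reflect (d - 1) y₂ ^ 4 := by
  have hy1 : (y₁ ^ 2).natDegree ≤ 2 * d := le_trans natDegree_pow_le (Nat.mul_le_mul_left 2 h1)
  have h2e : (2 * e1 δ : R[X]).natDegree ≤ 2 := by
    have : (2 : R[X]) = C 2 := rfl
    rw [this]
    exact le_trans (natDegree_C_mul_le _ _) (natDegree_e1 δ).le
  have hey : (2 * e1 δ * y₁ ^ 2).natDegree ≤ 2 + 2 * d :=
    le_trans natDegree_mul_le (Nat.add_le_add h2e hy1)
  have hdiff : (N - 2 * e1 δ * y₁ ^ 2).natDegree ≤ 2 + 2 * d :=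
    le_trans (natDegree_sub_le _ _) (max_le hN hey)
  have hr := congrArg (reflect ((2 + 2 * d) + (2 + 2 * d))) hid
  rw [reflect_mul _ _ hN hdiff, reflect_sub, reflect_mul _ _ h2e hy1, reflect_pow h1] at hr
  have hc2 : reflect 2 (2 * e1 δ : R[X]) = 2 * e2 δ := by
    have : (2 : R[X]) = C 2 := rfl
    rw [this, reflect_C_mul, reflect_e1]
  rw [hc2] at hr
  rw [hr]
  have hdeg : (2 + 2 * d) + (2 + 2 * d) = ((2 * 2 + 2) + 2) + 4 * (d - 1) := by omega
  rw [hdeg]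
  have a1 : (e2 δ ^ 2).natDegree ≤ 2 * 2 :=
    le_trans natDegree_pow_le (Nat.mul_le_mul_left 2 (natDegree_e2 hδ).le)
  have a2 : (e2 δ ^ 2 * g1 σ).natDegree ≤ 2 * 2 + 2 :=
    le_trans natDegree_mul_le (Nat.add_le_add a1 (natDegree_g1 σ).le)
  have a3 : (e2 δ ^ 2 * g1 σ * g2 σ).natDegree ≤ 2 * 2 + 2 + 2 :=
    le_trans natDegree_mul_le (Nat.add_le_add a2 (natDegree_g2 hσ).le)
  have a4 : (y₂ ^ 4).natDegree ≤ 4 * (d - 1) :=
    le_trans natDegree_pow_le (Nat.mul_le_mul_left 4 h2)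
  rw [reflect_mul _ _ a3 a4, reflect_mul _ _ a2 (natDegree_g2 hσ).le,
    reflect_mul _ _ a1 (natDegree_g1 σ).le, reflect_pow (natDegree_e2 hδ).le, reflect_pow h2,
    reflect_e2, reflect_g1, reflect_g2]
  ring

/-- the reflected factorisation -/
lemma reflect_factor {δ σ : R} (hδ : δ ≠ 0) (hσ : σ ≠ 0) {c : R} {i j k l : ℕ} (m : R[X]) :
    reflect (2 * (i + j + k + l) + 2 * m.natDegree)
        (C c * (e1 δ ^ i * g1 σ ^ j * g2 σ ^ k * e2 δ ^ l) * m ^ 2) =
      C c * (e2 δ ^ i * g2 σ ^ j * g1 σ ^ k * e1 δ ^ l) * reflect m.natDegree m ^ 2 := by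
  have b1 : (e1 δ ^ i).natDegree ≤ i * 2 :=
    le_trans natDegree_pow_le (Nat.mul_le_mul_left i (natDegree_e1 δ).le)
  have b2 : (g1 σ ^ j).natDegree ≤ j * 2 :=
    le_trans natDegree_pow_le (Nat.mul_le_mul_left j (natDegree_g1 σ).le)
  have b3 : (g2 σ ^ k).natDegree ≤ k * 2 :=
    le_trans natDegree_pow_le (Nat.mul_le_mul_left k (natDegree_g2 hσ).le)
  have b4 : (e2 δ ^ l).natDegree ≤ l * 2 :=
    le_trans natDegree_pow_le (Nat.mul_le_mul_left l (natDegree_e2 hδ).le)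
  have b12 : (e1 δ ^ i * g1 σ ^ j).natDegree ≤ i * 2 + j * 2 :=
    le_trans natDegree_mul_le (Nat.add_le_add b1 b2)
  have b123 : (e1 δ ^ i * g1 σ ^ j * g2 σ ^ k).natDegree ≤ i * 2 + j * 2 + k * 2 :=
    le_trans natDegree_mul_le (Nat.add_le_add b12 b3)
  have b1234 : (e1 δ ^ i * g1 σ ^ j * g2 σ ^ k * e2 δ ^ l).natDegree ≤
      i * 2 + j * 2 + k * 2 + l * 2 :=
    le_trans natDegree_mul_le (Nat.add_le_add b123 b4)
  have bm : (m ^ 2).natDegree ≤ 2 * m.natDegree := natDegree_pow_le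
  have hdeg : 2 * (i + j + k + l) + 2 * m.natDegree =
      (i * 2 + j * 2 + k * 2 + l * 2) + 2 * m.natDegree := by ring
  rw [hdeg, mul_assoc (C c), reflect_C_mul, reflect_mul _ _ b1234 bm, reflect_mul _ _ b123 b4,
    reflect_mul _ _ b12 b3, reflect_mul _ _ b1 b2, reflect_pow (natDegree_e1 δ).le,
    reflect_pow (natDegree_g1 σ).le, reflect_pow (natDegree_g2 hσ).le,
    reflect_pow (natDegree_e2 hδ).le, reflect_pow (le_refl _), reflect_e1, reflect_e2,
    reflect_g1, reflect_g2]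
  ring

end NoLinear

variable {R : Type u} [Field R] [LinearOrder R] [IsStrictOrderedRing R] [IsRealClosed R]

/-- No rational point of odd degree. The hypothesis `hsg` (polynomials without roots have constant
sign) is true in each real closed field; it is proved for the hyperreals in HyperSign.lean. -/
theorem noLin {δ σ : R}
    (hsg : ∀ f : R[X], (∀ t, f.eval t ≠ 0) → (∀ t, 0 < f.eval t) ∨ (∀ t, f.eval t < 0))
    (hδ : 0 < δ) (hσ : 0 < σ) (hσ' : 0 < mk σ) (hδσ : 0 < mk (δ / σ)) :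
    NoLin δ σ := by
  intro y₁ y₂ ρ hc hy₂ hd heq
  have he1 := NoLinear.eval_e1_pos (R := R) hδ
  have hg1 := NoLinear.eval_g1_pos (R := R) hσ
  have hg2 := NoLinear.eval_g2_pos (R := R) σ
  have he2 := NoLinear.eval_e2_pos (R := R) δ
  -- ρ has no roots
  have hρ0 : ∀ t, ρ.eval t ≠ 0 := by
    intro t ht
    have h := congrArg (eval t) heq
    simp only [eval_add, eval_mul, eval_pow, ht] at h
    have h1 : 0 ≤ eval t (e1 δ) ^ 2 * eval t y₁ ^ 4 := by positivity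
    have h2 : 0 ≤ eval t (e2 δ) ^ 2 * eval t (g1 σ) * eval t (g2 σ) * eval t y₂ ^ 4 := by
      have := (hg1 t).le; have := (hg2 t).le; positivity
    have h3 : eval t (e1 δ) ^ 2 * eval t y₁ ^ 4 = 0 := by nlinarith
    have h4 : eval t (e2 δ) ^ 2 * eval t (g1 σ) * eval t (g2 σ) * eval t y₂ ^ 4 = 0 := by nlinarith
    have h5 : eval t y₁ = 0 := by
      rcases mul_eq_zero.1 h3 with h5 | h5
      · exact absurd h5 (pow_ne_zero _ (he1 t).ne')
      · exact pow_eq_zero_iff (by norm_num) |>.1 h5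
    have h6 : eval t y₂ = 0 := by
      rcases mul_eq_zero.1 h4 with h6 | h6
      · exact absurd h6 (mul_ne_zero (mul_ne_zero (pow_ne_zero _ (he2 t).ne') (hg1 t).ne')
          (hg2 t).ne')
      · exact pow_eq_zero_iff (by norm_num) |>.1 h6
    obtain ⟨u, v, huv⟩ := hc
    have := congrArg (eval t) huv
    simp [h5, h6] at this
  -- WLOG ρ positive
  obtain ⟨r, hr, hreq⟩ : ∃ r : R[X], (∀ t, 0 < r.eval t) ∧
      e1 δ ^ 2 * y₁ ^ 4 + e2 δ ^ 2 * g1 σ * g2 σ * y₂ ^ 4 = r ^ 2 := by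
    rcases hsg ρ hρ0 with h | h
    · exact ⟨ρ, h, heq⟩
    · refine ⟨-ρ, fun t => by simpa using h t, by rw [heq]; ring⟩
  clear hρ0 heq ρ
  -- the degree d
  set d : ℕ := max y₁.natDegree (y₂.natDegree + 1) with hddef
  have hd1 : 1 ≤ d := le_trans (Nat.le_add_left 1 _) (le_max_right _ _)
  have hy1d : y₁.natDegree ≤ d := le_max_left _ _
  have hy2d : y₂.natDegree ≤ d - 1 := by
    have : y₂.natDegree + 1 ≤ d := le_max_right _ _
    omega
  -- N
  set N : R[X] := r + e1 δ * y₁ ^ 2 with hNdef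
  have hNpos : ∀ t, 0 < N.eval t := by
    intro t
    have h1 := hr t
    have h2 : 0 ≤ eval t (e1 δ) * eval t y₁ ^ 2 := by
      have := (he1 t).le; positivity
    rw [hNdef, eval_add, eval_mul, eval_pow]
    linarith
  have hN0 : N ≠ 0 := by
    intro h
    have := hNpos 0
    rw [h, eval_zero] at this
    exact lt_irrefl _ this
  have hid : N * (N - 2 * e1 δ * y₁ ^ 2) = e2 δ ^ 2 * g1 σ * g2 σ * y₂ ^ 4 := by
    rw [hNdef]
    linear_combination -hreq
  -- degrees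
  have hl1 : (e1 δ ^ 2 * y₁ ^ 4).leadingCoeff = y₁.leadingCoeff ^ 4 := by
    rw [leadingCoeff_mul, leadingCoeff_pow, leadingCoeff_pow, NoLinear.leadingCoeff_e1]
    ring
  have hl2 : (e2 δ ^ 2 * g1 σ * g2 σ * y₂ ^ 4).leadingCoeff =
      δ ^ 4 * σ ^ 2 * y₂.leadingCoeff ^ 4 := by
    rw [leadingCoeff_mul, leadingCoeff_mul, leadingCoeff_mul, leadingCoeff_pow, leadingCoeff_pow,
      NoLinear.leadingCoeff_e2 hδ.ne', NoLinear.leadingCoeff_g1, NoLinear.leadingCoeff_g2 hσ.ne']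
    ring
  have e1ne : e1 δ ≠ 0 := fun h => by
    have := NoLinear.natDegree_e1 δ; rw [h, natDegree_zero] at this; omega
  have g1ne : g1 σ ≠ 0 := fun h => by
    have := NoLinear.natDegree_g1 σ; rw [h, natDegree_zero] at this; omega
  have g2ne : g2 σ ≠ 0 := fun h => by
    have := NoLinear.natDegree_g2 hσ.ne'; rw [h, natDegree_zero] at this; omega
  have e2ne : e2 δ ≠ 0 := fun h => by
    have := NoLinear.natDegree_e2 hδ.ne'; rw [h, natDegree_zero] at this; omega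
  have hdr : r.natDegree = 2 + 2 * d := by
    have h1 := NoLinear.natDegree_add_of_nonneg (P := e1 δ ^ 2 * y₁ ^ 4)
      (Q := e2 δ ^ 2 * g1 σ * g2 σ * y₂ ^ 4) (by rw [hl1]; positivity) (by rw [hl2]; positivity)
    rw [hreq, natDegree_pow] at h1
    have h2 : (e2 δ ^ 2 * g1 σ * g2 σ * y₂ ^ 4).natDegree = 8 + 4 * y₂.natDegree := by
      rw [natDegree_mul (mul_ne_zero (mul_ne_zero (pow_ne_zero _ e2ne) g1ne) g2ne)
        (pow_ne_zero _ hy₂), natDegree_mul (mul_ne_zero (pow_ne_zero _ e2ne) g1ne) g2ne,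
        natDegree_mul (pow_ne_zero _ e2ne) g1ne, natDegree_pow, natDegree_pow,
        NoLinear.natDegree_e2 hδ.ne', NoLinear.natDegree_g1, NoLinear.natDegree_g2 hσ.ne']
    rw [h2] at h1
    rcases eq_or_ne y₁ 0 with h0 | h0
    · rw [h0] at h1 hddef
      simp only [ne_eq, OfNat.ofNat_ne_zero, not_false_eq_true, zero_pow, mul_zero,
        natDegree_zero] at h1 hddef
      omega
    · rw [natDegree_mul (pow_ne_zero _ e1ne) (pow_ne_zero _ h0), natDegree_pow, natDegree_pow,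
        NoLinear.natDegree_e1] at h1
      omega
  have hdN : N.natDegree = 2 + 2 * d := by
    have h1 := NoLinear.natDegree_add_of_nonneg (P := r) (Q := e1 δ * y₁ ^ 2)
      (NoLinear.leadingCoeff_pos_of_pos hr).le
      (by rw [leadingCoeff_mul, leadingCoeff_pow, NoLinear.leadingCoeff_e1]; positivity)
    rw [← hNdef, hdr] at h1
    have h2 : (e1 δ * y₁ ^ 2).natDegree ≤ 2 + 2 * d :=
      le_trans natDegree_mul_le (Nat.add_le_add (NoLinear.natDegree_e1 δ).le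
        (le_trans natDegree_pow_le (Nat.mul_le_mul_left 2 hy1d)))
    rw [h1, max_eq_left h2]
  -- factorisation
  have hev : ∀ q : R[X], Prime q → (∀ k, ¬ Associated q ((![e1 δ, g1 σ, g2 σ, e2 δ] : Fin 4 → R[X]) k)) →
      ∀ a : ℕ, q ^ (2 * a + 1) ∣ N → q ^ (2 * a + 2) ∣ N := by
    intro q hq hna a ha
    have p1 := NoLinear.prime_of_quadratic (NoLinear.natDegree_e1 δ) he1
    have p2 := NoLinear.prime_of_quadratic (NoLinear.natDegree_g1 σ) hg1
    have p3 := NoLinear.prime_of_quadratic (NoLinear.natDegree_g2 hσ.ne') hg2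
    have p4 := NoLinear.prime_of_quadratic (NoLinear.natDegree_e2 hδ.ne') he2
    have n1 : ¬ q ∣ e1 δ := fun h => hna 0 ((hq.dvd_prime_iff_associated p1).1 h)
    have n2 : ¬ q ∣ g1 σ := fun h => hna 1 ((hq.dvd_prime_iff_associated p2).1 h)
    have n3 : ¬ q ∣ g2 σ := fun h => hna 2 ((hq.dvd_prime_iff_associated p3).1 h)
    have n4 : ¬ q ∣ e2 δ := fun h => hna 3 ((hq.dvd_prime_iff_associated p4).1 h)
    refine NoLinear.even_exponent hc (N' := N - 2 * e1 δ * y₁ ^ 2) (E := e1 δ) hid (by ring) hq n1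
      ?_ a ha
    intro h
    rcases hq.dvd_or_dvd h with h | h
    · rcases hq.dvd_or_dvd h with h | h
      · exact n4 (hq.dvd_of_dvd_pow h)
      · exact n2 h
    · exact n3 h
  obtain ⟨c, ix, m, hc0, hm, hmev, hfac⟩ := exists_factor N hNpos
    (![e1 δ, g1 σ, g2 σ, e2 δ] : Fin 4 → R[X])
    (by
      intro k
      fin_cases k
      · exact NoLinear.prime_of_quadratic (NoLinear.natDegree_e1 δ) he1
      · exact NoLinear.prime_of_quadratic (NoLinear.natDegree_g1 σ) hg1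
      · exact NoLinear.prime_of_quadratic (NoLinear.natDegree_g2 hσ.ne') hg2
      · exact NoLinear.prime_of_quadratic (NoLinear.natDegree_e2 hδ.ne') he2)
    (by
      intro k t
      fin_cases k
      · exact he1 t
      · exact hg1 t
      · exact hg2 t
      · exact he2 t) hev
  rw [Fin.prod_univ_four] at hfac
  generalize ix 0 = i at hfac
  generalize ix 1 = j at hfac
  generalize ix 2 = k at hfac
  generalize ix 3 = l at hfac
  have hfac' : N = C c * (e1 δ ^ i * g1 σ ^ j * g2 σ ^ k * e2 δ ^ l) * m ^ 2 := hfac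
  have hm0 : m ≠ 0 := by
    intro h
    have := hm 0
    rw [h, eval_zero] at this
    exact this rfl
  -- the degree count
  have hcount : 2 + 2 * d = 2 * (i + j + k + l) + 2 * m.natDegree := by
    rw [← hdN, hfac', natDegree_mul (mul_ne_zero (C_ne_zero.2 hc0.ne')
      (mul_ne_zero (mul_ne_zero (mul_ne_zero (pow_ne_zero _ e1ne) (pow_ne_zero _ g1ne))
        (pow_ne_zero _ g2ne)) (pow_ne_zero _ e2ne))) (pow_ne_zero _ hm0),
      natDegree_C_mul hc0.ne',
      natDegree_mul (mul_ne_zero (mul_ne_zero (pow_ne_zero _ e1ne) (pow_ne_zero _ g1ne))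
        (pow_ne_zero _ g2ne)) (pow_ne_zero _ e2ne),
      natDegree_mul (mul_ne_zero (pow_ne_zero _ e1ne) (pow_ne_zero _ g1ne))
        (pow_ne_zero _ g2ne),
      natDegree_mul (pow_ne_zero _ e1ne) (pow_ne_zero _ g1ne), natDegree_pow, natDegree_pow,
      natDegree_pow, natDegree_pow, natDegree_pow, NoLinear.natDegree_e1, NoLinear.natDegree_g1,
      NoLinear.natDegree_g2 hσ.ne', NoLinear.natDegree_e2 hδ.ne']
    ring
  -- square root of σ
  obtain ⟨s, hs⟩ := IsRealClosed.exists_eq_pow_of_nonneg hσ.le (n := 2) (by norm_num)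
  -- infinitesimals
  have hδσ0 : 0 < δ / σ := div_pos hδ hσ
  have hδ' : 0 < mk δ := by
    have : δ = (δ / σ) * σ := by field_simp
    rw [this, mk_mul]
    exact lt_of_lt_of_le hδσ (le_add_of_nonneg_right hσ'.le)
  have hα' : 0 < mk (σ ^ 4) := by
    rw [mk_pow]
    exact nsmul_pos hσ' (by norm_num)
  have hβ' : 0 < mk (δ ^ 2 * σ ^ 2) := by
    rw [mk_mul, mk_pow, mk_pow]
    exact lt_of_lt_of_le (nsmul_pos hδ' (by norm_num))
      (le_add_of_nonneg_right (nsmul_pos hσ' (by norm_num)).le)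
  -- first pair
  have hfirst : Odd (i + j) :=
    ddag hδσ0 hδσ (pow_pos hσ 4) hα' (mul_pos (pow_pos hδ 2) (pow_pos hσ 2)) hβ'
      (NoLinear.pair_one hσ hs.symm hN0 hy₂ hid hc0 hfac')
  -- second pair
  have hid2 := NoLinear.reflect_identity hδ.ne' hσ.ne' hd1 hdN.le hy1d hy2d hid
  have hfac2 := NoLinear.reflect_factor hδ.ne' hσ.ne' (c := c) (i := i) (j := j) (k := k) (l := l) m
  rw [← hfac', ← hcount] at hfac2
  have hsecond : Odd ((1 + l) + k) :=
    ddag hδσ0 hδσ (pow_pos hσ 4) hα' (mul_pos (pow_pos hδ 2) (pow_pos hσ 2)) hβ'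
      (NoLinear.pair_two hσ hs.symm (by rwa [Ne, reflect_eq_zero_iff])
        (by rwa [Ne, reflect_eq_zero_iff]) hδ.ne' hid2 hc0 hfac2)
  obtain ⟨a, ha⟩ := hfirst
  obtain ⟨b, hb⟩ := hsecond
  obtain ⟨e, he⟩ := hd
  obtain ⟨f, hf⟩ := hmev
  omega

end WInv
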