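import Pool.Agent.WInv.HyperSign

/-!
# Module H1: the hyperreals are real closed (MP_2fcb4d_al)
-/

set_option autoImplicit false

namespace WInv

open Polynomial

namespace RealClosed

lemma real_root_pos (P : ℝ[X]) (hP : Odd P.natDegree) (hl : 0 < P.leadingCoeff) :
    ∃ r, P.eval r = 0 := by
  have hd : 0 < P.natDegree := hP.pos
  have hd' : 0 < P.degree := natDegree_pos_iff_degree_pos.1 hd
  have h1 := P.tendsto_atTop_of_leadingCoeff_nonneg hd' hl.le
  obtain ⟨b, hb⟩ := (h1.eventually (Filter.eventually_ge_atTop (0 : ℝ))).exists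
  have hc : (P.comp (-X)).leadingCoeff = - P.leadingCoeff := by
    rw [leadingCoeff_comp (by simp)]
    simp [hP.neg_one_pow]
  have hdc : 0 < (P.comp (-X)).degree := by
    rw [← natDegree_pos_iff_degree_pos, natDegree_comp]
    simpa using hd
  have h2 := (P.comp (-X)).tendsto_atBot_of_leadingCoeff_nonpos hdc (by rw [hc]; linarith)
  obtain ⟨a, ha⟩ := (h2.eventually (Filter.eventually_le_atBot (0 : ℝ))).exists
  rw [eval_comp] at ha
  have hcont : Continuous fun r : ℝ => P.eval r := P.continuous
  exact mem_range_of_exists_le_of_exists_ge hcont ⟨_, ha⟩ ⟨b, hb⟩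

lemma real_root (P : ℝ[X]) (hP : Odd P.natDegree) : ∃ r, P.eval r = 0 := by
  have h0 : P.leadingCoeff ≠ 0 := by
    rw [Ne, leadingCoeff_eq_zero]
    rintro rfl
    simp at hP
  rcases lt_or_gt_of_ne h0 with h | h
  · obtain ⟨r, hr⟩ := real_root_pos (-P) (by rwa [natDegree_neg]) (by rw [leadingCoeff_neg]; linarith)
    exact ⟨r, by simpa using hr⟩
  · exact real_root_pos P hP h

end RealClosed

open HyperSign RealClosed in
theorem isRealClosed_hyperreal : IsRealClosed Hyperreal := by
  apply IsRealClosed.of_linearOrderedField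
  · intro x hx
    obtain ⟨s, rfl⟩ := exists_seq x
    have e0 : (0 : Hyperreal) = Hyperreal.ofSeq (fun _ => 0) := rfl
    rw [e0, sh_apply, Hyperreal.ofSeq_le_ofSeq] at hx
    refine ⟨sh (fun k => Real.sqrt (s k)), ?_⟩
    rw [← map_mul]
    refine (Filter.Germ.coe_eq.2 ?_).symm
    filter_upwards [hx] with k hk
    exact Real.mul_self_sqrt hk
  · intro f hf
    obtain ⟨c, hc⟩ := exists_coeffs f
    have hlc : f.coeff f.natDegree ≠ 0 := by
      intro h
      have h0 : f = 0 := leadingCoeff_eq_zero.1 h
      rw [h0] at hf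
      simp at hf
    have hne : ∀ᶠ k in (Filter.hyperfilter ℕ : Filter ℕ), c f.natDegree k ≠ 0 := by
      by_contra hcon
      rw [← Ultrafilter.eventually_not] at hcon
      apply hlc
      rw [← hc]
      refine Filter.Germ.coe_eq.2 ?_
      filter_upwards [hcon] with k hk
      exact not_not.1 hk
    have key : ∀ᶠ k in (Filter.hyperfilter ℕ : Filter ℕ), ∃ r : ℝ,
        ∑ i ∈ Finset.range (f.natDegree + 1), c i k * r ^ i = 0 := by
      filter_upwards [hne] with k hk
      set P : ℝ[X] := ∑ i ∈ Finset.range (f.natDegree + 1), C (c i k) * X ^ i with hPdef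
      have hPd : P.natDegree = f.natDegree := by
        apply le_antisymm
        · apply natDegree_sum_le_of_forall_le
          intro i hi
          exact le_trans (natDegree_C_mul_X_pow_le _ _)
            (Nat.lt_succ_iff.1 (Finset.mem_range.1 hi))
        · apply le_natDegree_of_ne_zero
          rw [hPdef, finsetSum_coeff]
          simp only [coeff_C_mul_X_pow]
          rw [Finset.sum_ite_eq]
          simpa using hk
      obtain ⟨r, hr⟩ := real_root P (by rw [hPd]; exact hf)
      refine ⟨r, ?_⟩
      rw [hPdef, eval_finsetSum] at hr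
      simpa using hr
    classical
    let r : ℕ → ℝ := fun k => if h : ∃ r : ℝ,
        ∑ i ∈ Finset.range (f.natDegree + 1), c i k * r ^ i = 0 then h.choose else 0
    have hr : ∀ᶠ k in (Filter.hyperfilter ℕ : Filter ℕ),
        ∑ i ∈ Finset.range (f.natDegree + 1), c i k * r k ^ i = 0 := by
      filter_upwards [key] with k h
      have : r k = h.choose := dif_pos h
      rw [this]
      exact h.choose_spec
    refine ⟨sh r, ?_⟩
    rw [IsRoot.def, eval_seq f c hc, sh_apply]
    exact Filter.Germ.coe_eq.2 hr

end WInv
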