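import Pool.Agent.WInv.Psi

/-!
# Module C: reduction of odd curves to linear ones (MP_2fcb4d_al)
-/

set_option autoImplicit false

namespace WInv

open Polynomial

universe u

namespace Star

variable {R : Type u} [Field R]

/-- `α x⁴ + β` is not a square for nonzero `α`, `β` (characteristic not two). -/
lemma not_sq (h2 : (2 : R) ≠ 0) {α β : R} (hα : α ≠ 0) (hβ : β ≠ 0) (k : R[X])
    (hk : k ^ 2 = C α * X ^ 4 + C β) : False := by
  have hd : (C α * X ^ 4 + C β : R[X]).natDegree = 4 := by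
    compute_degree!
  have hkd : k.natDegree = 2 := by
    rw [← hk, natDegree_pow] at hd
    omega
  have hk' : k = C (k.coeff 2) * X ^ 2 + C (k.coeff 1) * X + C (k.coeff 0) := by
    ext n
    simp only [coeff_add, coeff_C_mul, coeff_X_pow, coeff_X, coeff_C]
    rcases n with _ | _ | _ | n
    · simp
    · simp
    · simp
    · rw [coeff_eq_zero_of_natDegree_lt (by omega)]
      simp
  generalize k.coeff 2 = a at hk'
  generalize k.coeff 1 = b at hk'
  generalize k.coeff 0 = c at hk'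
  rw [hk'] at hk
  have hexp : (C a * X ^ 2 + C b * X + C c : R[X]) ^ 2 =
      C (a ^ 2) * X ^ 4 + C (2 * a * b) * X ^ 3 + C (b ^ 2 + 2 * a * c) * X ^ 2 +
        C (2 * b * c) * X + C (c ^ 2) := by
    simp only [C_mul, C_add, C_pow, map_ofNat]
    ring
  rw [hexp] at hk
  have c4 := congrArg (fun f : R[X] => f.coeff 4) hk
  have c3 := congrArg (fun f : R[X] => f.coeff 3) hk
  have c2 := congrArg (fun f : R[X] => f.coeff 2) hk
  have c0 := congrArg (fun f : R[X] => f.coeff 0) hk
  simp only [coeff_add, coeff_C_mul, coeff_X_pow, coeff_X, coeff_C] at c4 c3 c2 c0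
  norm_num at c4 c3 c2 c0
  have ha : a ≠ 0 := by
    rintro rfl
    apply hα
    rw [← c4]; ring
  have hb : b = 0 := by
    rcases c3 with (h | h) | h
    · exact absurd h h2
    · exact absurd h ha
    · exact h
  rw [hb] at c2
  have hc : c = 0 := by
    have : 2 * a * c = 0 := by linear_combination c2
    rcases mul_eq_zero.1 this with h | h
    · exact absurd h (mul_ne_zero h2 ha)
    · exact h
  apply hβ
  rw [← c0, hc]; ring

/-- the same in the form `f² ≠ (α x⁴ + β) g²` -/
lemma not_sq' (h2 : (2 : R) ≠ 0) {α β : R} (hα : α ≠ 0) (hβ : β ≠ 0) (f g : R[X]) (hg : g ≠ 0)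
    (h : f ^ 2 = (C α * X ^ 4 + C β) * g ^ 2) : False := by
  have hdvd : g ^ 2 ∣ f ^ 2 := ⟨C α * X ^ 4 + C β, by rw [h]; ring⟩
  rw [IsIntegrallyClosed.pow_dvd_pow_iff (by norm_num)] at hdvd
  obtain ⟨k, rfl⟩ := hdvd
  have hg2 : g ^ 2 ≠ 0 := pow_ne_zero _ hg
  refine not_sq h2 hα hβ k (mul_right_cancel₀ hg2 ?_)
  rw [← h]; ring

lemma D_unit {k : R[X][X]} (hk : IsUnit k) : D k = 0 := by
  rw [Polynomial.isUnit_iff] at hk
  obtain ⟨r, hr, rfl⟩ := hk
  rw [D_C]
  exact natDegree_eq_zero_of_isUnit hr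

/-- a polynomial of odd total degree has a prime factor of odd total degree -/
lemma exists_odd_prime (k : R[X][X]) (hk : k ≠ 0) (hD : Odd (D k)) :
    ∃ q, Prime q ∧ q ∣ k ∧ Odd (D q) := by
  induction k using UniqueFactorizationMonoid.induction_on_prime with
  | h₁ => exact absurd rfl hk
  | h₂ x hx =>
    rw [D_unit hx] at hD
    exact absurd hD (by decide)
  | h₃ a p ha hp ih =>
    have hpa : D (p * a) = D p + D a := D_mul hp.ne_zero ha
    rw [hpa] at hD
    by_cases h : Odd (D p)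
    · exact ⟨p, hp, dvd_mul_right _ _, h⟩
    · have hDa : Odd (D a) := by
        rw [Nat.not_odd_iff_even] at h
        rcases h with ⟨x, hx⟩
        rcases hD with ⟨y, hy⟩
        exact ⟨y - x, by omega⟩
      obtain ⟨q, hq, hqa, hqD⟩ := ih ha hDa
      exact ⟨q, hq, dvd_mul_of_dvd_right hqa _, hqD⟩

/-- coprime clearing of denominators -/
lemma exists_clear (r : (FractionRing R[X])[X]) :
    ∃ (q : R[X]) (r₀ : R[X][X]), q ≠ 0 ∧
      r₀.map (algebraMap R[X] (FractionRing R[X])) =
        C (algebraMap R[X] (FractionRing R[X]) q) * r ∧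
      ∀ π : R[X], Prime π → π ∣ q → ¬ C π ∣ r₀ := by
  classical
  -- some denominator
  obtain ⟨b, hb1, hb⟩ := IsLocalization.integerNormalization_spec (nonZeroDivisors R[X]) r
  let P : ℕ → Prop := fun n => ∃ (q : R[X]) (r₀ : R[X][X]), q ≠ 0 ∧ q.natDegree = n ∧
      r₀.map (algebraMap R[X] (FractionRing R[X])) =
        C (algebraMap R[X] (FractionRing R[X]) q) * r
  have hP : ∃ n, P n := by
    refine ⟨_, (b : R[X]), IsLocalization.integerNormalization (nonZeroDivisors R[X]) r,
      nonZeroDivisors.ne_zero hb1, rfl, ?_⟩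
    rw [hb, Algebra.smul_def]
    rfl
  obtain ⟨q, r₀, hq, hqn, hr₀⟩ := Nat.find_spec hP
  refine ⟨q, r₀, hq, hr₀, ?_⟩
  rintro π hπ ⟨q', rfl⟩ ⟨r', rfl⟩
  have hπ0 : algebraMap R[X] (FractionRing R[X]) π ≠ 0 := by
    rw [Ne, FaithfulSMul.algebraMap_eq_zero_iff]
    exact hπ.ne_zero
  have hq' : q' ≠ 0 := right_ne_zero_of_mul hq
  have hlt : q'.natDegree < Nat.find hP := by
    rw [← hqn, natDegree_mul hπ.ne_zero hq']
    have : 0 < π.natDegree := by
      rw [Nat.pos_iff_ne_zero]
      intro h0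
      apply hπ.not_isUnit
      rw [eq_C_of_natDegree_eq_zero h0]
      refine Polynomial.isUnit_C.2 (Ne.isUnit ?_)
      intro h1
      apply hπ.ne_zero
      rw [eq_C_of_natDegree_eq_zero h0, h1, C_0]
    omega
  apply Nat.find_min hP hlt
  refine ⟨q', r', hq', rfl, ?_⟩
  have hC : (C (algebraMap R[X] (FractionRing R[X]) π) : (FractionRing R[X])[X]) ≠ 0 :=
    C_ne_zero.2 hπ0
  apply mul_left_cancel₀ hC
  rw [Polynomial.map_mul, map_C] at hr₀
  rw [hr₀, map_mul, C_mul]
  ring

/-- existence of a good square root modulo `h` over the fraction field -/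
lemma exists_root_mod {δ σ : R} {h f g : R[X][X]} (hirr : Irreducible h) (hn : 2 ≤ h.natDegree)
    (hg : ¬ h ∣ g) (hf : h ∣ f ^ 2 - bpol δ σ * g ^ 2) :
    ∃ r : (FractionRing R[X])[X],
      h.map (algebraMap R[X] (FractionRing R[X])) ∣
        r ^ 2 - (bpol δ σ).map (algebraMap R[X] (FractionRing R[X])) ∧
      (r ^ 2 - (bpol δ σ).map (algebraMap R[X] (FractionRing R[X]))).natDegree <
        2 * h.natDegree := by
  have hprim : h.IsPrimitive := hirr.isPrimitive (by omega)
  have hirr' : Irreducible (h.map (algebraMap R[X] (FractionRing R[X]))) :=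
    (hprim.irreducible_iff_irreducible_map_fraction_map).1 hirr
  have hinj : Function.Injective (algebraMap R[X] (FractionRing R[X])) :=
    IsFractionRing.injective _ _
  have hdeg : (h.map (algebraMap R[X] (FractionRing R[X]))).natDegree = h.natDegree :=
    natDegree_map_eq_of_injective hinj h
  have hng : ¬ h.map (algebraMap R[X] (FractionRing R[X])) ∣
      g.map (algebraMap R[X] (FractionRing R[X])) := by
    intro hd
    exact hg (hprim.dvd_of_fraction_map_dvd_fraction_map (K := FractionRing R[X]) hd)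
  have hfd := Polynomial.map_dvd (algebraMap R[X] (FractionRing R[X])) hf
  rw [Polynomial.map_sub, Polynomial.map_mul, Polynomial.map_pow, Polynomial.map_pow] at hfd
  have hb4 : ((bpol δ σ).map (algebraMap R[X] (FractionRing R[X]))).natDegree ≤ 4 := by
    refine le_trans natDegree_map_le ?_
    unfold bpol
    compute_degree
  have hbc : ((bpol δ σ).map (algebraMap R[X] (FractionRing R[X]))).coeff 4 =
      algebraMap R[X] (FractionRing R[X]) (e1 δ) ^ 2 := by
    rw [coeff_map, bpol, coeff_add, coeff_C_mul, coeff_X_pow, coeff_C]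
    simp
  generalize (bpol δ σ).map (algebraMap R[X] (FractionRing R[X])) = b' at *
  generalize f.map (algebraMap R[X] (FractionRing R[X])) = f' at *
  generalize g.map (algebraMap R[X] (FractionRing R[X])) = g' at *
  rw [← hdeg] at hn ⊢
  generalize h.map (algebraMap R[X] (FractionRing R[X])) = h' at *
  clear hf hg hdeg
  obtain ⟨s, t, hst⟩ := (hirr'.coprime_iff_not_dvd).2 hng
  have hmod : h' ∣ (t * f') % h' - t * f' := by
    have := EuclideanDomain.mod_add_div (t * f') h'
    exact ⟨-((t * f') / h'), by linear_combination this⟩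
  have hrdeg : ((t * f') % h').natDegree < h'.natDegree :=
    natDegree_mod_lt _ (by omega)
  generalize (t * f') % h' = r at hmod hrdeg
  have hrg : h' ∣ r * g' - f' := by
    obtain ⟨u, hu⟩ := hmod
    exact ⟨u * g' - s * f', by linear_combination g' * hu + f' * hst⟩
  have hmain : ∀ r₁ : (FractionRing R[X])[X], h' ∣ r₁ - r → h' ∣ r₁ ^ 2 - b' := by
    intro r₁ hr₁
    have h1 : h' ∣ (r₁ ^ 2 - b') * g' ^ 2 := by
      obtain ⟨u, hu⟩ := hrg
      obtain ⟨v, hv⟩ := hfd
      obtain ⟨w, hw⟩ := hr₁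
      exact ⟨u * (r * g' + f') + v + w * (r₁ + r) * g' ^ 2, by
        linear_combination (r * g' + f') * hu + hv + (r₁ + r) * g' ^ 2 * hw⟩
    rcases hirr'.prime.dvd_or_dvd h1 with h2 | h2
    · exact h2
    · exact absurd (hirr'.prime.dvd_of_dvd_pow h2) hng
  by_cases hn3 : 3 ≤ h'.natDegree
  · refine ⟨r, hmain r (by simp), ?_⟩
    have h1 : (r ^ 2).natDegree ≤ 2 * r.natDegree := natDegree_pow_le
    have h2 := natDegree_sub_le (r ^ 2) b'
    have h3 : max (r ^ 2).natDegree b'.natDegree ≤ 2 * h'.natDegree - 1 :=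
      max_le (by omega) (by omega)
    omega
  · have hn2 : h'.natDegree = 2 := by omega
    have hlc : h'.leadingCoeff ≠ 0 := leadingCoeff_ne_zero.2 hirr'.ne_zero
    set c : FractionRing R[X] := algebraMap R[X] (FractionRing R[X]) (e1 δ) / h'.leadingCoeff
      with hc
    refine ⟨r + C c * h', hmain _ ⟨C c, by ring⟩, ?_⟩
    have hd1 : (r + C c * h').natDegree ≤ 2 :=
      natDegree_add_le_of_degree_le (by omega) (le_trans (natDegree_C_mul_le _ _) hn2.le)
    have hc2 : (r + C c * h').coeff 2 = algebraMap R[X] (FractionRing R[X]) (e1 δ) := by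
      have h1 : h'.coeff 2 = h'.leadingCoeff := by rw [leadingCoeff, hn2]
      rw [coeff_add, coeff_eq_zero_of_natDegree_lt (by omega), coeff_C_mul, h1, hc, zero_add,
        div_mul_cancel₀ _ hlc]
    generalize r + C c * h' = r₁ at hd1 hc2
    have h4 : ((r₁ ^ 2 - b').coeff 4) = 0 := by
      have : (r₁ ^ 2).coeff 4 = r₁.coeff 2 ^ 2 := by
        exact coeff_pow_of_natDegree_le (m := 2) hd1
      rw [coeff_sub, this, hc2, hbc, sub_self]
    have h5 : (r₁ ^ 2 - b').natDegree ≤ 4 := by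
      have h1 : (r₁ ^ 2).natDegree ≤ 2 * r₁.natDegree := natDegree_pow_le
      exact le_trans (natDegree_sub_le _ _) (max_le (by omega) hb4)
    have h6 : (r₁ ^ 2 - b').natDegree ≠ 4 := by
      intro h7
      have h8 : (r₁ ^ 2 - b').leadingCoeff = 0 := by rw [leadingCoeff, h7]; exact h4
      rw [leadingCoeff_eq_zero] at h8
      rw [h8] at h7
      simp at h7
    omega

variable [LinearOrder R] [IsStrictOrderedRing R]

lemma pos_e1 {δ : R} (hδ : 0 < δ) (t : R) : 0 < (e1 δ).eval t := by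
  simp only [e1, eval_add, eval_pow, eval_X, eval_C]
  positivity

lemma pos_rest {δ σ : R} (hσ : 0 < σ) (t : R) :
    0 < (e2 δ ^ 2 * g1 σ * g2 σ).eval t := by
  simp only [e2, g1, g2, eval_add, eval_mul, eval_pow, eval_X, eval_C, eval_one]
  positivity

/-- degree zero case -/
lemma base [IsRealClosed R] {δ σ : R} (hδ : 0 < δ) (hσ : 0 < σ) {h f g : R[X][X]} (hh : Prime h)
    (hD : Odd (D h)) (h0 : h.natDegree = 0) (hg : ¬ h ∣ g)
    (hf : h ∣ f ^ 2 - bpol δ σ * g ^ 2) : False := by
  obtain ⟨q, rfl⟩ : ∃ q, h = C q := ⟨_, eq_C_of_natDegree_eq_zero h0⟩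
  rw [D_C] at hD
  have hq : Prime q := Polynomial.prime_C_iff.1 hh
  obtain ⟨p₀, hp₀⟩ := IsRealClosed.exists_isRoot_of_odd_natDegree hD
  have hdvd : X - C p₀ ∣ q := dvd_iff_isRoot.2 hp₀
  have hass : q ∣ X - C p₀ :=
    ((prime_X_sub_C p₀).associated_of_dvd hq hdvd).symm.dvd
  have hf' := Polynomial.map_dvd (evalRingHom p₀) hf
  rw [map_C, coe_evalRingHom, hp₀.eq_zero, C_0, zero_dvd_iff, Polynomial.map_sub,
    Polynomial.map_mul, Polynomial.map_pow, Polynomial.map_pow, sub_eq_zero] at hf'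
  have hgne : g.map (evalRingHom p₀) ≠ 0 := by
    intro hg0
    apply hg
    rw [C_dvd_iff_dvd_coeff]
    intro i
    refine dvd_trans hass (dvd_iff_isRoot.2 ?_)
    have := congrArg (fun k : R[X] => k.coeff i) hg0
    simpa using this
  have hb : (bpol δ σ).map (evalRingHom p₀) =
      C ((e1 δ).eval p₀ ^ 2) * X ^ 4 + C ((e2 δ ^ 2 * g1 σ * g2 σ).eval p₀) := by
    rw [bpol, Polynomial.map_add, Polynomial.map_mul, Polynomial.map_pow, map_C, map_C, map_X,
      coe_evalRingHom, eval_pow]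
  rw [hb] at hf'
  exact not_sq' two_ne_zero (pow_ne_zero _ (pos_e1 hδ p₀).ne') (pos_rest hσ p₀).ne' _ _ hgne hf'

/-- degree one case -/
lemma linear {δ σ : R} (hlin : NoLin δ σ) {h f g : R[X][X]} (hh : Prime h)
    (hD : Odd (D h)) (h1 : h.natDegree = 1) (hg : ¬ h ∣ g)
    (hf : h ∣ f ^ 2 - bpol δ σ * g ^ 2) : False := by
  obtain ⟨y₂, y₁, hy₂, rfl⟩ : ∃ y₂ y₁ : R[X], y₂ ≠ 0 ∧ h = C y₂ * X - C y₁ := by
    obtain ⟨a, ha, b, hab⟩ := natDegree_eq_one.1 h1
    exact ⟨a, -b, ha, by rw [← hab, C_neg, sub_neg_eq_add]⟩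
  rw [D_linear _ _ hy₂] at hD
  have hprim : (C y₂ * X - C y₁ : R[X][X]).IsPrimitive := hh.irreducible.isPrimitive (by omega)
  have hcop : IsCoprime y₁ y₂ := by
    apply isCoprime_of_prime_dvd
    · rintro ⟨-, h⟩
      exact hy₂ h
    · intro π hπ hπ1 hπ2
      apply hπ.not_isUnit
      apply hprim
      have d1 : (C π : R[X][X]) ∣ C y₁ := by
        obtain ⟨u, hu⟩ := hπ1
        exact ⟨C u, by rw [hu, C_mul]⟩
      have d2 : (C π : R[X][X]) ∣ C y₂ := by
        obtain ⟨u, hu⟩ := hπ2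
        exact ⟨C u, by rw [hu, C_mul]⟩
      exact dvd_sub (dvd_mul_of_dvd_left d2 _) d1
  have hι : Function.Injective (algebraMap R[X] (FractionRing R[X])) :=
    IsFractionRing.injective _ _
  have hy₂' : algebraMap R[X] (FractionRing R[X]) y₂ ≠ 0 := by
    rw [Ne, map_eq_zero_iff _ hι]; exact hy₂
  set x₀ : FractionRing R[X] := algebraMap R[X] (FractionRing R[X]) y₁ /
    algebraMap R[X] (FractionRing R[X]) y₂ with hx₀
  -- evaluate at x₀
  have hroot : ((C y₂ * X - C y₁ : R[X][X]).map (algebraMap R[X] (FractionRing R[X]))).eval x₀ =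
      0 := by
    simp only [Polynomial.map_sub, Polynomial.map_mul, map_C, map_X, eval_sub, eval_mul, eval_C,
      eval_X]
    rw [hx₀]
    field_simp
    ring
  have hgne : (g.map (algebraMap R[X] (FractionRing R[X]))).eval x₀ ≠ 0 := by
    intro hg0
    apply hg
    apply hprim.dvd_of_fraction_map_dvd_fraction_map (K := FractionRing R[X])
    have e1 : (C y₂ * X - C y₁ : R[X][X]).map (algebraMap R[X] (FractionRing R[X])) =
        C (algebraMap R[X] (FractionRing R[X]) y₂) * (X - C x₀) := by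
      simp only [Polynomial.map_sub, Polynomial.map_mul, map_C, map_X]
      rw [mul_sub, ← C_mul, hx₀, mul_div_cancel₀ _ hy₂']
    rw [e1]
    have e2 : IsUnit (C (algebraMap R[X] (FractionRing R[X]) y₂)) :=
      Polynomial.isUnit_C.2 hy₂'.isUnit
    rw [e2.mul_left_dvd]
    exact dvd_iff_isRoot.2 hg0
  have hfe := Polynomial.map_dvd (algebraMap R[X] (FractionRing R[X])) hf
  obtain ⟨w, hw⟩ := hfe
  have hev := congrArg (eval x₀) hw
  rw [eval_mul, hroot, zero_mul, Polynomial.map_sub, Polynomial.map_mul, Polynomial.map_pow,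
    Polynomial.map_pow, eval_sub, eval_mul, eval_pow, eval_pow, sub_eq_zero] at hev
  have hb : ((bpol δ σ).map (algebraMap R[X] (FractionRing R[X]))).eval x₀ =
      algebraMap R[X] (FractionRing R[X]) (e1 δ) ^ 2 * x₀ ^ 4 +
        algebraMap R[X] (FractionRing R[X]) (e2 δ ^ 2 * g1 σ * g2 σ) := by
    rw [bpol]
    simp only [Polynomial.map_add, Polynomial.map_mul, Polynomial.map_pow, map_C, map_X, eval_add,
      eval_mul, eval_pow, eval_C, eval_X, map_pow]
  rw [hb] at hev
  -- the square root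
  have hsq : (algebraMap R[X] (FractionRing R[X]) y₂ ^ 2 *
      ((f.map (algebraMap R[X] (FractionRing R[X]))).eval x₀ /
        (g.map (algebraMap R[X] (FractionRing R[X]))).eval x₀)) ^ 2 =
      algebraMap R[X] (FractionRing R[X])
        (e1 δ ^ 2 * y₁ ^ 4 + e2 δ ^ 2 * g1 σ * g2 σ * y₂ ^ 4) := by
    rw [mul_pow, div_pow, hev, mul_div_assoc, div_self (pow_ne_zero _ hgne), mul_one, hx₀]
    simp only [map_add, map_mul, map_pow]
    field_simp
  obtain ⟨ρ, hρ⟩ := IsIntegrallyClosed.exists_algebraMap_eq_of_isIntegral_pow (R := R[X])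
    (K := FractionRing R[X]) (n := 2) (by norm_num)
    (by rw [hsq]; exact isIntegral_algebraMap)
  refine hlin y₁ y₂ ρ hcop hy₂ hD ?_
  apply hι
  rw [← hsq, map_pow, ← hρ]

theorem main [IsRealClosed R] {δ σ : R} (hδ : 0 < δ) (hσ : 0 < σ) (hlin : NoLin δ σ) (n : ℕ) :
    ∀ h f g : R[X][X], h.natDegree = n → Prime h → Odd (D h) → ¬ h ∣ g →
      ¬ h ∣ f ^ 2 - bpol δ σ * g ^ 2 := by
  induction n using Nat.strong_induction_on with
  | _ n ih =>
    intro h f g hn hh hD hg hf
    rcases Nat.lt_or_ge n 1 with h0 | h1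
    · exact base hδ hσ hh hD (by omega) hg hf
    rcases Nat.lt_or_ge n 2 with h2 | h2
    · exact linear hlin hh hD (by omega) hg hf
    have hR : FR R := fr_of_linearOrder R
    obtain ⟨r, hr1, hr2⟩ := exists_root_mod hh.irreducible (by omega) hg hf
    obtain ⟨q, r₀, hq, hr₀, hmin⟩ := exists_clear r
    have hι : Function.Injective (algebraMap R[X] (FractionRing R[X])) :=
      IsFractionRing.injective _ _
    have hmap : (r₀ ^ 2 - bpol δ σ * C q ^ 2).map (algebraMap R[X] (FractionRing R[X])) =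
        C (algebraMap R[X] (FractionRing R[X]) q ^ 2) *
          (r ^ 2 - (bpol δ σ).map (algebraMap R[X] (FractionRing R[X]))) := by
      simp only [Polynomial.map_sub, Polynomial.map_mul, Polynomial.map_pow, map_C, hr₀, C_pow]
      ring
    have hq' : algebraMap R[X] (FractionRing R[X]) q ^ 2 ≠ 0 := by
      refine pow_ne_zero _ ?_
      rw [Ne, map_eq_zero_iff _ hι]; exact hq
    have hprim : h.IsPrimitive := hh.irreducible.isPrimitive (by omega)
    have hdvd : h ∣ r₀ ^ 2 - bpol δ σ * C q ^ 2 := by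
      apply hprim.dvd_of_fraction_map_dvd_fraction_map (K := FractionRing R[X])
      rw [hmap]
      exact dvd_mul_of_dvd_right hr1 _
    have hdeg : (r₀ ^ 2 - bpol δ σ * C q ^ 2).natDegree < 2 * h.natDegree := by
      rw [← natDegree_map_eq_of_injective hι, hmap, natDegree_C_mul hq']
      exact hr2
    obtain ⟨hne, hev⟩ := even_D_sq_sub hR hδ.ne' hσ.ne' r₀ hq
    obtain ⟨k, hk⟩ := hdvd
    rw [hk] at hne hev hdeg
    have hk0 : k ≠ 0 := right_ne_zero_of_mul hne
    rw [D_mul hh.ne_zero hk0] at hev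
    rw [natDegree_mul hh.ne_zero hk0] at hdeg
    have hDk : Odd (D k) := by
      obtain ⟨a, ha⟩ := hD
      obtain ⟨b, hb⟩ := hev
      exact ⟨b - a - 1, by omega⟩
    obtain ⟨k', hk', hkk, hDk'⟩ := exists_odd_prime k hk0 hDk
    have hdk' : k'.natDegree < n := by
      have := natDegree_le_of_dvd hkk hk0
      omega
    refine ih k'.natDegree hdk' k' r₀ (C q) rfl hk' hDk' ?_ ?_
    · intro hkq
      rcases Nat.eq_zero_or_pos k'.natDegree with h0 | h0
      · obtain ⟨π, rfl⟩ : ∃ π, k' = C π := ⟨_, eq_C_of_natDegree_eq_zero h0⟩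
        have hπ : Prime π := Polynomial.prime_C_iff.1 hk'
        have hπq : π ∣ q := by
          rw [C_dvd_iff_dvd_coeff] at hkq
          simpa using hkq 0
        refine hmin π hπ hπq ?_
        have h3 : (C π : R[X][X]) ∣ r₀ ^ 2 := by
          have h4 : (C π : R[X][X]) ∣ r₀ ^ 2 - bpol δ σ * C q ^ 2 := by
            rw [hk]; exact dvd_mul_of_dvd_right hkk _
          have h5 : (C π : R[X][X]) ∣ bpol δ σ * C q ^ 2 :=
            dvd_mul_of_dvd_right (dvd_pow hkq (by norm_num)) _
          have := dvd_add h4 h5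
          simpa using this
        exact hk'.dvd_of_dvd_pow h3
      · have hCq : (C q : R[X][X]) ≠ 0 := C_ne_zero.2 hq
        have := natDegree_le_of_dvd hkq hCq
        rw [natDegree_C] at this
        omega
    · rw [hk]
      exact dvd_mul_of_dvd_right hkk _

end Star

theorem noOddCurve {R : Type u} [Field R] [LinearOrder R] [IsStrictOrderedRing R]
    [IsRealClosed R] {δ σ : R} (hδ : 0 < δ) (hσ : 0 < σ) (hlin : NoLin δ σ) :
    NoOddCurve δ σ :=
  fun h f g hh hD hg => Star.main hδ hσ hlin _ h f g rfl hh hD hg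

end WInv
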