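import Pool.Agent.WInv.Defs

/-!
# Module T1: the Tsen-Lang step for systems of quadratic forms (MP_2fcb4d_al)
-/

set_option autoImplicit false

namespace WInv

open Polynomial

universe u

namespace TsenStep

lemma tl_fintype {n : ℕ} {A : Type u} [CommRing A] (h : TL n A) {ι κ : Type} [Fintype ι]
    [Fintype κ] (hc : Fintype.card ι * 2 ^ n < Fintype.card κ) (c : ι → κ → κ → A) :
    ∃ v : κ → A, v ≠ 0 ∧ ∀ j, ∑ a, ∑ b, c j a b * v a * v b = 0 := by
  classical
  let e := Fintype.equivFin ι
  let f := Fintype.equivFin κ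
  obtain ⟨v, hv, hj⟩ := h (Fintype.card ι) (Fintype.card κ) hc
    (fun j a b => c (e.symm j) (f.symm a) (f.symm b))
  refine ⟨fun a => v (f a), ?_, ?_⟩
  · intro h0
    apply hv
    funext a
    have := congrFun h0 (f.symm a)
    simpa using this
  · intro j
    have := hj (e j)
    rw [← this]
    rw [← f.symm.sum_comp]
    refine Finset.sum_congr rfl fun a _ => ?_
    rw [← f.symm.sum_comp]
    simp

end TsenStep

open TsenStep in
theorem tl_step (n : ℕ) (A : Type u) [CommRing A] [IsDomain A] (h : TL n A) : TL (n + 1) A[X] := by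
  classical
  intro r m hrm c
  -- a bound for the degrees
  obtain ⟨d, hd⟩ : ∃ d : ℕ, ∀ j a b, (c j a b).natDegree ≤ d := by
    refine ⟨∑ j, ∑ a, ∑ b, (c j a b).natDegree, fun j a b => ?_⟩
    calc (c j a b).natDegree ≤ ∑ b, (c j a b).natDegree :=
          Finset.single_le_sum (f := fun b => (c j a b).natDegree) (fun _ _ => Nat.zero_le _)
            (Finset.mem_univ b)
      _ ≤ ∑ a, ∑ b, (c j a b).natDegree :=
          Finset.single_le_sum (f := fun a => ∑ b, (c j a b).natDegree)
            (fun _ _ => Nat.zero_le _) (Finset.mem_univ a)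
      _ ≤ ∑ j, ∑ a, ∑ b, (c j a b).natDegree :=
          Finset.single_le_sum (f := fun j => ∑ a, ∑ b, (c j a b).natDegree)
            (fun _ _ => Nat.zero_le _) (Finset.mem_univ j)
  set S : ℕ := r * 2 ^ n * d with hS
  have hcard : Fintype.card (Fin r × Fin (d + 2 * S + 1)) * 2 ^ n
      < Fintype.card (Fin m × Fin (S + 1)) := by
    simp only [Fintype.card_prod, Fintype.card_fin]
    have h1 : r * 2 ^ (n + 1) + 1 ≤ m := hrm
    have h2 : (r * 2 ^ (n + 1) + 1) * (S + 1) ≤ m * (S + 1) := Nat.mul_le_mul_right _ h1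
    have h3 : r * (d + 2 * S + 1) * 2 ^ n < (r * 2 ^ (n + 1) + 1) * (S + 1) := by
      have e1 : r * (d + 2 * S + 1) * 2 ^ n = S + (2 * S + 1) * (r * 2 ^ n) := by
        rw [hS]; ring
      have e2 : (r * 2 ^ (n + 1) + 1) * (S + 1) = (2 * S + 2) * (r * 2 ^ n) + S + 1 := by
        rw [pow_succ]; ring
      rw [e1, e2]
      have : (2 * S + 1) * (r * 2 ^ n) ≤ (2 * S + 2) * (r * 2 ^ n) :=
        Nat.mul_le_mul_right _ (by omega)
      omega
    exact lt_of_lt_of_le h3 h2
  obtain ⟨y, hy, hsol⟩ := tl_fintype h hcard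
    (fun jt p q => (c jt.1 p.1 q.1 * X ^ ((p.2 : ℕ) + (q.2 : ℕ))).coeff (jt.2 : ℕ))
  let v : Fin m → A[X] := fun a => ∑ s : Fin (S + 1), C (y (a, s)) * X ^ (s : ℕ)
  have hvdeg : ∀ a, (v a).natDegree ≤ S := by
    intro a
    refine Polynomial.natDegree_sum_le_of_forall_le _ _ fun s _ => ?_
    refine (Polynomial.natDegree_C_mul_X_pow_le _ _).trans ?_
    have := s.isLt
    omega
  refine ⟨v, ?_, ?_⟩
  · intro h0
    apply hy
    funext p
    obtain ⟨a, s⟩ := p
    have h1 : (v a).coeff (s : ℕ) = 0 := by rw [h0]; simp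
    simp only [v, Polynomial.finset_sum_coeff, Polynomial.coeff_C_mul_X_pow] at h1
    rw [Finset.sum_eq_single s] at h1
    · simpa using h1
    · intro t _ hts
      rw [if_neg]
      intro hh
      exact hts (Fin.ext hh.symm)
    · simp
  · intro j
    ext t
    rw [Polynomial.coeff_zero]
    by_cases ht : t < d + 2 * S + 1
    · have := hsol (j, ⟨t, ht⟩)
      rw [← this]
      simp only [Polynomial.finset_sum_coeff, Fintype.sum_prod_type]
      refine Finset.sum_congr rfl fun a _ => ?_
      -- right side: Σ_s Σ_b Σ_s'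
      rw [Finset.sum_comm]
      refine Finset.sum_congr rfl fun b _ => ?_
      have hexp : c j a b * v a * v b = ∑ s : Fin (S + 1), ∑ s' : Fin (S + 1),
          C (y (a, s)) * (C (y (b, s')) * (c j a b * X ^ ((s : ℕ) + (s' : ℕ)))) := by
        simp only [v]
        rw [mul_assoc, Finset.sum_mul_sum, Finset.mul_sum]
        refine Finset.sum_congr rfl fun s _ => ?_
        rw [Finset.mul_sum]
        refine Finset.sum_congr rfl fun s' _ => ?_
        rw [pow_add]
        ring
      rw [hexp]
      simp only [Polynomial.finset_sum_coeff, Polynomial.coeff_C_mul]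
      refine Finset.sum_congr rfl fun s _ => ?_
      refine Finset.sum_congr rfl fun s' _ => ?_
      ring
    · apply Polynomial.coeff_eq_zero_of_natDegree_lt
      have : (∑ a, ∑ b, c j a b * v a * v b).natDegree ≤ d + 2 * S := by
        refine Polynomial.natDegree_sum_le_of_forall_le _ _ fun a _ => ?_
        refine Polynomial.natDegree_sum_le_of_forall_le _ _ fun b _ => ?_
        refine Polynomial.natDegree_mul_le.trans ?_
        have h1 := Polynomial.natDegree_mul_le (p := c j a b) (q := v a)
        have h2 := hd j a b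
        have h3 := hvdeg a
        have h4 := hvdeg b
        omega
      omega

end WInv
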