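import Pool.Agent.WInv.Krull
import Pool.Agent.WInv.TsenStep
import Pool.Agent.WInv.GermComplex

/-!
# Module T2: `U9` for the fraction field of `ℝ*[p][x][z]` (MP_2fcb4d_al)
-/

set_option autoImplicit false

namespace WInv

open Polynomial

namespace UNine

universe u v

/-- `S` is obtained from `R` by adjoining `i`. -/
structure Cplx {R : Type u} {S : Type v} [CommRing R] [CommRing S] (φ : R →+* S) (I : S) :
    Prop where
  sq : I ^ 2 = -1
  surj : ∀ z : S, ∃ a b : R, z = φ a + φ b * I
  inj : ∀ a b : R, φ a + φ b * I = 0 → a = 0 ∧ b = 0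

lemma Cplx.poly {R : Type u} {S : Type v} [CommRing R] [CommRing S] {φ : R →+* S} {I : S}
    (h : Cplx φ I) : Cplx (Polynomial.mapRingHom φ) (C I) where
  sq := by rw [← map_pow, h.sq, map_neg, map_one]
  surj := by
    intro z
    induction z using Polynomial.induction_on' with
    | add p q hp hq =>
      obtain ⟨a, b, rfl⟩ := hp
      obtain ⟨a', b', rfl⟩ := hq
      exact ⟨a + a', b + b', by simp only [map_add]; ring⟩
    | monomial n c =>
      obtain ⟨a, b, rfl⟩ := h.surj c
      refine ⟨monomial n a, monomial n b, ?_⟩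
      simp [Polynomial.coe_mapRingHom, Polynomial.map_monomial, Polynomial.monomial_mul_C]
  inj := by
    intro a b hab
    have h1 : ∀ n, a.coeff n = 0 ∧ b.coeff n = 0 := by
      intro n
      apply h.inj
      have := congrArg (fun p => Polynomial.coeff p n) hab
      simpa [Polynomial.coe_mapRingHom, Polynomial.coeff_map, Polynomial.coeff_mul_C] using this
    constructor
    · ext n; exact (h1 n).1
    · ext n; exact (h1 n).2

lemma cplx_base {F : Type u} {E : Type v} [Field F] [LinearOrder F] [IsStrictOrderedRing F]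
    [Field E] {φ : F →+* E} {I : E} (hI : I ^ 2 = -1) (hs : ∀ z : E, ∃ a b : F, z = φ a + φ b * I) :
    Cplx φ I where
  sq := hI
  surj := hs
  inj := by
    intro a b hab
    have hb : b = 0 := by
      by_contra hb
      have hb' : φ b ≠ 0 := (map_ne_zero φ).2 hb
      have h1 : I = φ (-(a / b)) := by
        rw [map_neg, map_div₀]
        field_simp
        linear_combination hab
      have h2 : φ ((a / b) ^ 2 + 1) = 0 := by
        rw [map_add, map_pow, map_one]
        have h3 : I ^ 2 = φ (a / b) ^ 2 := by rw [h1, map_neg, neg_sq]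
        rw [← h3, hI]
        ring
      have h3 : (a / b) ^ 2 + 1 = 0 := (map_eq_zero φ).1 h2
      have h4 : 0 ≤ (a / b) ^ 2 := sq_nonneg _
      linarith
    subst hb
    refine ⟨?_, rfl⟩
    have : φ a = 0 := by simpa using hab
    exact (map_eq_zero φ).1 this

theorem aux {P : Type u} {A : Type v} [CommRing P] [IsDomain P] [CommRing A] {Φ : P →+* A}
    {J : A} (hC : Cplx Φ J) (hTL : TL 3 A) : U9 (FractionRing P) := by
  classical
  intro a b
  obtain ⟨d, hd⟩ := IsLocalization.exist_integer_multiples_of_finite (R := P)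
    (M := nonZeroDivisors P) (S := FractionRing P) (Sum.elim a b)
  have hd0 : algebraMap P (FractionRing P) (d : P) ≠ 0 := by
    have h1 : (d : P) ≠ 0 := nonZeroDivisors.ne_zero d.2
    intro h2
    exact h1 ((FaithfulSMul.algebraMap_injective P (FractionRing P))
      (by rw [h2, map_zero]))
  choose α hα using fun j => hd (Sum.inl j)
  choose β hβ using fun j => hd (Sum.inr j)
  simp only [Sum.elim_inl, Sum.elim_inr] at hα hβ
  obtain ⟨v, hv, hsol⟩ := hTL 1 9 (by norm_num)
    (fun _ p q => if p = q then Φ (α p) + Φ (β p) * J else 0)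
  have h0 : ∑ p, (Φ (α p) + Φ (β p) * J) * v p ^ 2 = 0 := by
    rw [← hsol 0]
    refine Finset.sum_congr rfl fun p _ => ?_
    rw [Finset.sum_eq_single p]
    · simp only [if_true]; ring
    · intro q _ hq
      rw [if_neg (fun h => hq h.symm)]
      ring
    · simp
  choose f g hfg using fun p => hC.surj (v p)
  have hJ2 : J ^ 2 = -1 := hC.sq
  have h1 : Φ (∑ p, (α p * (f p ^ 2 - g p ^ 2) - β p * (2 * f p * g p))) +
      Φ (∑ p, (β p * (f p ^ 2 - g p ^ 2) + α p * (2 * f p * g p))) * J = 0 := by
    rw [← h0, map_sum, map_sum, Finset.sum_mul, ← Finset.sum_add_distrib]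
    refine Finset.sum_congr rfl fun p _ => ?_
    rw [hfg p]
    simp only [map_add, map_sub, map_mul, map_pow, map_ofNat]
    linear_combination (-(Φ (α p) * Φ (g p) ^ 2 + Φ (β p) * 2 * Φ (f p) * Φ (g p) +
      Φ (β p) * Φ (g p) ^ 2 * J)) * hJ2
  obtain ⟨hr, hi⟩ := hC.inj _ _ h1
  refine ⟨fun p => algebraMap P (FractionRing P) (f p),
    fun p => algebraMap P (FractionRing P) (g p), ?_, ?_, ?_⟩
  · by_contra hcon
    push Not at hcon
    obtain ⟨hf, hg⟩ := hcon
    apply hv
    funext p
    have e1 : f p = 0 := by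
      have := congrFun hf p
      simpa using this
    have e2 : g p = 0 := by
      have := congrFun hg p
      simpa using this
    rw [hfg p, e1, e2]
    simp
  · apply mul_left_cancel₀ hd0
    rw [mul_zero, Finset.mul_sum, ← map_zero (algebraMap P (FractionRing P)),
      ← hr, map_sum]
    refine Finset.sum_congr rfl fun p _ => ?_
    simp only [map_add, map_sub, map_mul, map_pow, map_ofNat, hα, hβ, Algebra.smul_def]
    ring
  · apply mul_left_cancel₀ hd0
    rw [mul_zero, Finset.mul_sum, ← map_zero (algebraMap P (FractionRing P)),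
      ← hi, map_sum]
    refine Finset.sum_congr rfl fun p _ => ?_
    simp only [map_add, map_sub, map_mul, map_pow, map_ofNat, hα, hβ, Algebra.smul_def]
    ring

end UNine

open UNine in
theorem uNine : U9 (FractionRing (Polynomial (Polynomial (Polynomial Hyperreal)))) := by
  obtain ⟨E, _, _, φ, I, hI, hs⟩ := exists_hypercomplex
  have hC := (((cplx_base hI hs).poly).poly).poly
  have hTL : TL 3 E[X][X][X] := tl_step 2 _ (tl_step 1 _ (tl_step 0 _ (tl_zero E)))
  exact aux hC hTL

end WInv
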