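import Pool.Agent.WInv.MinForm
import Pool.Agent.WInv.Key
import Pool.Agent.WInv.Star
import Pool.Agent.WInv.NoLinear
import Pool.Agent.WInv.HyperSign
import Pool.Agent.WInv.RealClosed
import Pool.Agent.WInv.UNine
import Pool.Agent.WInv.IFour

/-!
# Assembly (MP_2fcb4d_al)
-/

set_option autoImplicit false

namespace WInv

open Polynomial ArchimedeanClass

/-- `I^n_tors K = 0`: the `n`-th power of the fundamental ideal of the Witt ring has no nonzero
element of finite additive order. -/
def ITorsZero (n : ℕ) (K : Type) [Field K] : Prop :=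
  ∀ x ∈ fundI K ^ n, ∀ m : ℕ, 0 < m → m • x = 0 → x = 0

theorem exists_field :
    ∃ (K : Type) (_ : Field K), CharZero K ∧ 3 ≤ wInv K ∧ ITorsZero 4 K := by
  have hRC := isRealClosed_hyperreal
  have hF : FR Hyperreal := fr_of_linearOrder Hyperreal
  have hε : (0 : Hyperreal) < Hyperreal.epsilon := Hyperreal.epsilon_pos
  have hε' : 0 < mk Hyperreal.epsilon := Hyperreal.archimedeanClassMk_epsilon_pos
  have hδ : (0 : Hyperreal) < Hyperreal.epsilon ^ 2 := pow_pos hε 2
  have hq : Hyperreal.epsilon ^ 2 / Hyperreal.epsilon = Hyperreal.epsilon := by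
    field_simp
  have hlin : NoLin (Hyperreal.epsilon ^ 2) Hyperreal.epsilon :=
    noLin hyper_sign hδ hε hε' (by rw [hq]; exact hε')
  have hkey := key hF hδ.ne' hε.ne' (noOddCurve hδ hε hlin)
  have hK : FR (KK Hyperreal) := FR.fractionRing hF.polynomial.polynomial.polynomial
  have : CharZero (KK Hyperreal) := hK.charZero
  refine ⟨KK Hyperreal, inferInstance, inferInstance, three_le_wInv hF hδ.ne' hε.ne' hkey, ?_⟩
  intro x hx m hm h
  exact fundI_four_torsionFree two_ne_zero hK.not_isSquare_neg_one uNine x hx m hm h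

end WInv
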