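import Pool.Agent.WInv.Defs

/-!
# Module B0: formally real rings and fields (MP_2fcb4d_al)
-/

set_option autoImplicit false

namespace WInv

open Polynomial

universe u

theorem FR.of_injective {A B : Type*} [CommRing A] [CommRing B] (φ : A →+* B)
    (hφ : Function.Injective φ) (h : FR B) : FR A := by
  intro n f hf i
  have h1 : ∑ i, (φ (f i)) ^ 2 = 0 := by
    have := congrArg φ hf
    simpa [map_sum, map_pow] using this
  have h2 := h n (fun i => φ (f i)) h1 i
  exact (map_eq_zero_iff φ hφ).1 h2

theorem fr_of_linearOrder (F : Type*) [Field F] [LinearOrder F] [IsStrictOrderedRing F] :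
    FR F := by
  intro n f hf i
  have h := (Finset.sum_eq_zero_iff_of_nonneg (fun i _ => sq_nonneg (f i))).1 hf i
    (Finset.mem_univ i)
  exact pow_eq_zero_iff (two_ne_zero) |>.1 h

theorem FR.polynomial {A : Type*} [CommRing A] (h : FR A) : FR A[X] := by
  intro n f hf
  have key : ∀ k : ℕ, ∀ i, (f i).coeff k = 0 := by
    intro k
    induction k using Nat.strong_induction_on with
    | _ k ih =>
      have h1 : ∀ i, ((f i) ^ 2).coeff (k + k) = ((f i).coeff k) ^ 2 := by
        intro i
        rw [pow_two, coeff_mul, pow_two]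
        refine Finset.sum_eq_single (k, k) ?_ ?_
        · rintro ⟨a, b⟩ hab hne
          rw [Finset.HasAntidiagonal.mem_antidiagonal] at hab
          simp only at hab ⊢
          rcases lt_trichotomy a k with hlt | heq | hgt
          · rw [ih a hlt i, zero_mul]
          · exfalso
            apply hne
            have : b = k := by omega
            rw [heq, this]
          · have hb : b < k := by omega
            rw [ih b hb i, mul_zero]
        · intro hn
          exact absurd (by rw [Finset.HasAntidiagonal.mem_antidiagonal]) hn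
      have h2 : ∑ i, ((f i).coeff k) ^ 2 = 0 := by
        have := congrArg (fun p : A[X] => p.coeff (k + k)) hf
        simp only [finsetSum_coeff, coeff_zero] at this
        rw [← this]
        exact Finset.sum_congr rfl (fun i _ => (h1 i).symm)
      exact h n _ h2
  intro i
  ext k
  simpa using key k i

theorem FR.fractionRing {A : Type*} [CommRing A] [IsDomain A] (h : FR A) :
    FR (FractionRing A) := by
  intro n f hf
  obtain ⟨b, hb⟩ := IsLocalization.exist_integer_multiples_of_finite
    (nonZeroDivisors A) (S := FractionRing A) f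
  choose a ha using hb
  have hb0 : algebraMap A (FractionRing A) (b : A) ≠ 0 := by
    intro h0
    have : (b : A) = 0 := by
      have hinj := IsFractionRing.injective A (FractionRing A)
      exact (map_eq_zero_iff _ hinj).1 h0
    exact nonZeroDivisors.ne_zero b.2 this
  have ha' : ∀ i, algebraMap A (FractionRing A) (a i) =
      algebraMap A (FractionRing A) (b : A) * f i := by
    intro i
    rw [ha i, Algebra.smul_def]
  have h1 : ∑ i, (a i) ^ 2 = 0 := by
    have hinj := IsFractionRing.injective A (FractionRing A)
    apply hinj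
    rw [map_sum, map_zero]
    have : ∀ i, algebraMap A (FractionRing A) ((a i) ^ 2) =
        (algebraMap A (FractionRing A) (b : A)) ^ 2 * (f i) ^ 2 := by
      intro i
      rw [map_pow, ha' i, mul_pow]
    rw [Finset.sum_congr rfl (fun i _ => this i), ← Finset.mul_sum, hf, mul_zero]
  intro i
  have h2 := h n a h1 i
  have h3 := ha' i
  rw [h2, map_zero] at h3
  exact (mul_eq_zero.1 h3.symm).resolve_left hb0

/-- `-1` is not a square in a nontrivial formally real ring. -/
theorem FR.not_isSquare_neg_one {A : Type*} [CommRing A] [Nontrivial A] (h : FR A) :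
    ¬ IsSquare (-1 : A) := by
  rintro ⟨r, hr⟩
  have h1 := h 2 ![1, r] (by
    simp only [Fin.sum_univ_two, Matrix.cons_val_zero, Matrix.cons_val_one]
    rw [pow_two r, ← hr]
    ring) 0
  simp at h1

theorem FR.charZero {A : Type*} [CommRing A] [Nontrivial A] (h : FR A) : CharZero A := by
  refine charZero_of_inj_zero ?_
  intro n hn
  by_contra hne
  have hpos : 0 < n := Nat.pos_of_ne_zero hne
  have h1 := h n (fun _ => 1) (by simp [hn]) ⟨0, hpos⟩
  exact one_ne_zero h1

theorem SoS.zero {A : Type*} [CommRing A] : SoS (0 : A) :=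
  ⟨0, Fin.elim0, by simp⟩

theorem SoS.sq {A : Type*} [CommRing A] (a : A) : SoS (a ^ 2) :=
  ⟨1, fun _ => a, by simp⟩

theorem SoS.add {A : Type*} [CommRing A] {a b : A} (ha : SoS a) (hb : SoS b) : SoS (a + b) := by
  obtain ⟨n, f, rfl⟩ := ha
  obtain ⟨m, g, rfl⟩ := hb
  refine ⟨n + m, Fin.append f g, ?_⟩
  rw [Fin.sum_univ_add]
  simp

theorem SoS.mul {A : Type*} [CommRing A] {a b : A} (ha : SoS a) (hb : SoS b) : SoS (a * b) := by
  obtain ⟨n, f, rfl⟩ := ha
  obtain ⟨m, g, rfl⟩ := hb
  refine ⟨n * m, fun k => f (finProdFinEquiv.symm k).1 * g (finProdFinEquiv.symm k).2, ?_⟩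
  rw [Finset.sum_mul_sum, ← Equiv.sum_comp finProdFinEquiv, Fintype.sum_prod_type]
  refine Finset.sum_congr rfl ?_
  intro i _
  refine Finset.sum_congr rfl ?_
  intro j _
  simp [mul_pow]

theorem SoS.map {A B : Type*} [CommRing A] [CommRing B] (φ : A →+* B) {a : A} (ha : SoS a) :
    SoS (φ a) := by
  obtain ⟨n, f, rfl⟩ := ha
  exact ⟨n, fun i => φ (f i), by simp [map_sum, map_pow]⟩

theorem SoS.div {A : Type*} [Field A] {a b : A} (ha : SoS a) (hb : SoS b) : SoS (a / b) := by
  by_cases hb0 : b = 0
  · rw [hb0, div_zero]
    exact SoS.zero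
  · have : a / b = a * b * (b⁻¹) ^ 2 := by
      field_simp
    rw [this]
    exact (ha.mul hb).mul (SoS.sq _)

/-- In a formally real ring a vanishing sum of two sums of squares has vanishing terms. -/
theorem FR.eq_zero_of_add {A : Type*} [CommRing A] (h : FR A) {a b : A} (ha : SoS a) (hb : SoS b)
    (hab : a + b = 0) : a = 0 ∧ b = 0 := by
  obtain ⟨n, f, rfl⟩ := ha
  obtain ⟨m, g, rfl⟩ := hb
  have h1 : ∑ i, (Fin.append f g i) ^ 2 = 0 := by
    rw [Fin.sum_univ_add]
    simpa using hab
  have h2 := h (n + m) (Fin.append f g) h1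
  constructor
  · refine Finset.sum_eq_zero ?_
    intro i _
    have := h2 (Fin.castAdd m i)
    rw [Fin.append_left] at this
    rw [this]
    ring
  · refine Finset.sum_eq_zero ?_
    intro i _
    have := h2 (Fin.natAdd n i)
    rw [Fin.append_right] at this
    rw [this]
    ring

/-- The leading coefficient of a sum of squares of polynomials over a formally real domain. -/
theorem SoS.leadingCoeff {A : Type*} [CommRing A] [IsDomain A] (h : FR A) {f : A[X]}
    (hf : SoS f) : SoS f.leadingCoeff ∧ Even f.natDegree := by
  classical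
  obtain ⟨n, s, rfl⟩ := hf
  by_cases hall : ∀ i, s i = 0
  · have : ∑ i, (s i) ^ 2 = 0 := Finset.sum_eq_zero (fun i _ => by rw [hall i]; ring)
    rw [this]
    simp only [leadingCoeff_zero, natDegree_zero]
    exact ⟨SoS.zero, Even.zero⟩
  · push Not at hall
    obtain ⟨i0, hi0⟩ := hall
    obtain ⟨j, -, hj⟩ := Finset.exists_max_image Finset.univ
      (fun i => if s i = 0 then 0 else (s i).natDegree + 1) ⟨i0, Finset.mem_univ i0⟩
    set d := (s j).natDegree with hd
    have hj0 : s j ≠ 0 := by
      intro h0
      have := hj i0 (Finset.mem_univ i0)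
      simp only [if_neg hi0, if_pos h0] at this
      omega
    have hle : ∀ i, (s i).natDegree ≤ d := by
      intro i
      by_cases hi : s i = 0
      · rw [hi, natDegree_zero]
        exact Nat.zero_le _
      · have := hj i (Finset.mem_univ i)
        simp only [if_neg hi, if_neg hj0] at this
        omega
    have hc : (∑ i, (s i) ^ 2).coeff (d + d) = ∑ i, ((s i).coeff d) ^ 2 := by
      rw [finsetSum_coeff]
      refine Finset.sum_congr rfl ?_
      intro i _
      rw [pow_two, coeff_mul_add_eq_of_natDegree_le (hle i) (hle i), pow_two]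
    have hne : ∑ i, ((s i).coeff d) ^ 2 ≠ 0 := by
      intro h0
      have := h n (fun i => (s i).coeff d) h0 j
      exact hj0 (leadingCoeff_eq_zero.1 this)
    have hdeg : (∑ i, (s i) ^ 2).natDegree = d + d := by
      apply le_antisymm
      · refine natDegree_sum_le_of_forall_le _ _ ?_
        intro i _
        calc ((s i) ^ 2).natDegree ≤ 2 * (s i).natDegree := natDegree_pow_le
          _ ≤ d + d := by have := hle i; omega
      · refine le_natDegree_of_ne_zero ?_
        rw [hc]
        exact hne
    refine ⟨?_, ?_⟩
    · rw [Polynomial.leadingCoeff, hdeg, hc]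
      exact ⟨n, fun i => (s i).coeff d, rfl⟩
    · rw [hdeg]
      exact ⟨d, rfl⟩

end WInv
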