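import Pool.Agent.WInv.Data
import Pool.Agent.WInv.RealBasics

/-!
# Module F1: the form `⟨1, -a z, -b (1 - z)⟩` is minimal weakly isotropic (MP_2fcb4d_al)
-/

set_option autoImplicit false

namespace WInv

open Polynomial

universe u

section General

variable {K : Type*} [Field K] {V : Type*} [AddCommGroup V] [Module K V]

/-- The orthogonal sum of `n` copies of `Q`. -/
noncomputable def copies (n : ℕ) (Q : QuadraticForm K V) : QuadraticForm K (Fin n → V) :=
  QuadraticMap.pi (fun _ : Fin n => Q)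

/-- Weakly isotropic: some positive multiple is isotropic. -/
def WeaklyIsotropic (Q : QuadraticForm K V) : Prop :=
  ∃ n : ℕ, 1 ≤ n ∧ ¬ (copies n Q).Anisotropic

/-- Regular: the associated (polar) bilinear form is nondegenerate. -/
def Regular (Q : QuadraticForm K V) : Prop :=
  ∀ v : V, (∀ w : V, QuadraticMap.polar Q v w = 0) → v = 0

/-- The restriction of a quadratic form to a subspace. -/
def restr (Q : QuadraticForm K V) (W : Submodule K V) : QuadraticForm K W :=
  Q.comp W.subtype

/-- Minimal weakly isotropic: regular, weakly isotropic, and no proper regular subform is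
weakly isotropic. -/
def MinimalWeaklyIsotropic (Q : QuadraticForm K V) : Prop :=
  Regular Q ∧ WeaklyIsotropic Q ∧
    ∀ W : Submodule K V, W ≠ ⊤ → Regular (restr Q W) → ¬ WeaklyIsotropic (restr Q W)

end General

/-- The supremum of the dimensions of the minimal weakly isotropic forms over `K`. -/
noncomputable def wInv (K : Type*) [Field K] : ℕ∞ :=
  ⨆ (n : ℕ) (_ : ∃ Q : QuadraticForm K (Fin n → K), MinimalWeaklyIsotropic Q), (n : ℕ∞)

/-- The field `K = R(p, x, z)`. -/
abbrev KK (R : Type u) [Field R] : Type u := FractionRing R[X][X][X]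

namespace MinForm

theorem SoS_finset {F : Type*} [CommRing F] {ι : Type*} (s : Finset ι) (f : ι → F)
    (h : ∀ i ∈ s, SoS (f i)) : SoS (∑ i ∈ s, f i) := by
  classical
  induction s using Finset.induction_on with
  | empty => simpa using SoS.zero
  | insert a s ha ih =>
    rw [Finset.sum_insert ha]
    exact (h a (Finset.mem_insert_self a s)).add
      (ih (fun i hi => h i (Finset.mem_insert_of_mem hi)))

theorem SoS_one {F : Type*} [CommRing F] : SoS (1 : F) := by
  simpa using SoS.sq (1 : F)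

theorem SoS_two {F : Type*} [CommRing F] : SoS (2 : F) := by
  have := (SoS_one (F := F)).add (SoS_one (F := F))
  rwa [one_add_one_eq_two] at this

/-- Lagrange identity: the Gram determinant of `s`, `t` is a sum of squares. -/
theorem SoS_gram {K : Type*} [Field K] (h2 : (2 : K) ≠ 0) {n : ℕ} (s t : Fin n → K) :
    SoS ((∑ k, s k ^ 2) * (∑ k, t k ^ 2) - (∑ k, s k * t k) ^ 2) := by
  have key : (∑ k, s k ^ 2) * (∑ k, t k ^ 2) - (∑ k, s k * t k) ^ 2
      = (∑ k, ∑ l, (s k * t l - s l * t k) ^ 2) / 2 := by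
    rw [eq_div_iff h2]
    have e1 : ∀ k l : Fin n, (s k * t l - s l * t k) ^ 2
        = s k ^ 2 * t l ^ 2 + t k ^ 2 * s l ^ 2 - 2 * ((s k * t k) * (s l * t l)) := by
      intro k l; ring
    simp_rw [e1, Finset.sum_sub_distrib, Finset.sum_add_distrib, ← Finset.mul_sum]
    rw [← Finset.sum_mul, ← Finset.sum_mul, ← Finset.sum_mul]
    ring
  rw [key]
  refine SoS.div ?_ SoS_two
  exact SoS_finset _ _ (fun k _ => SoS_finset _ _ (fun l _ => SoS.sq _))

/-- If the plane spanned by `f`, `g` is weakly isotropic then minus its Gram determinant is a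
sum of squares. -/
theorem SoS_neg_det {K : Type*} [Field K] (hK : FR K) (h2 : (2 : K) ≠ 0) (c11 c12 c22 : K) {n : ℕ}
    (s t : Fin n → K) (hne : s ≠ 0 ∨ t ≠ 0)
    (h : c11 * (∑ k, s k ^ 2) + 2 * c12 * (∑ k, s k * t k) + c22 * (∑ k, t k ^ 2) = 0) :
    SoS (c12 ^ 2 - c11 * c22) := by
  set A := ∑ k, s k ^ 2 with hA
  set B := ∑ k, s k * t k with hB
  set Cc := ∑ k, t k ^ 2 with hC
  by_cases hA0 : A = 0
  · have hs : ∀ k, s k = 0 := hK n s hA0
    have hB0 : B = 0 := by
      rw [hB]; exact Finset.sum_eq_zero (fun k _ => by rw [hs k, zero_mul])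
    have ht : t ≠ 0 := by
      rcases hne with hne | hne
      · exact absurd (funext hs) hne
      · exact hne
    have hC0 : Cc ≠ 0 := by
      intro h0
      exact ht (funext (hK n t h0))
    have hc22 : c22 = 0 := by
      rw [hA0, hB0] at h
      have : c22 * Cc = 0 := by linear_combination h
      exact (mul_eq_zero.mp this).resolve_right hC0
    rw [hc22]
    simpa using SoS.sq c12
  · by_cases hC0 : Cc = 0
    · have ht : ∀ k, t k = 0 := hK n t hC0
      have hB0 : B = 0 := by
        rw [hB]; exact Finset.sum_eq_zero (fun k _ => by rw [ht k, mul_zero])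
      have hc11 : c11 = 0 := by
        rw [hC0, hB0] at h
        have : c11 * A = 0 := by linear_combination h
        exact (mul_eq_zero.mp this).resolve_right hA0
      rw [hc11]
      simpa using SoS.sq c12
    · have e : c12 ^ 2 - c11 * c22
          = ((c11 * A + c12 * B) ^ 2 + c12 ^ 2 * (A * Cc - B ^ 2)) / (A * Cc) := by
        rw [eq_div_iff (mul_ne_zero hA0 hC0)]
        linear_combination (-(c11 * A)) * h
      rw [e]
      refine SoS.div ((SoS.sq _).add ((SoS.sq _).mul ?_)) (SoS.mul ?_ ?_)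
      · exact SoS_gram h2 s t
      · exact SoS_finset _ _ (fun k _ => SoS.sq _)
      · exact SoS_finset _ _ (fun k _ => SoS.sq _)

/-- The ternary form attached to the weights `w`: minus the second exterior power. -/
def sg {K : Type*} [Field K] (w : Fin 3 → K) (m : Fin 3 → K) : K :=
  - (w 0 * w 1 * m 2 ^ 2 + w 0 * w 2 * m 1 ^ 2 + w 1 * w 2 * m 0 ^ 2)

/-- A plane orthogonal to `l`: weak isotropy makes `sg w (c • l)` a sum of squares for a nonzero
multiple of `l`; here `l` is written through two vectors `f`, `g` of the plane. -/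
theorem SoS_sg {K : Type*} [Field K] (hK : FR K) (h2 : (2 : K) ≠ 0) (w f g : Fin 3 → K) {n : ℕ}
    (s t : Fin n → K) (hne : s ≠ 0 ∨ t ≠ 0)
    (h : ∑ k, ∑ i, w i * (s k * f i + t k * g i) ^ 2 = 0) :
    SoS (sg w ![f 1 * g 2 - f 2 * g 1, f 2 * g 0 - f 0 * g 2, f 0 * g 1 - f 1 * g 0]) := by
  have h' : (∑ i, w i * f i ^ 2) * (∑ k, s k ^ 2)
      + 2 * (∑ i, w i * f i * g i) * (∑ k, s k * t k)
      + (∑ i, w i * g i ^ 2) * (∑ k, t k ^ 2) = 0 := by
    rw [← h]
    simp only [Finset.mul_sum, ← Finset.sum_add_distrib]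
    refine Finset.sum_congr rfl (fun k _ => ?_)
    simp only [Fin.sum_univ_three]
    ring
  have := SoS_neg_det hK h2 _ _ _ s t hne h'
  convert this using 1
  simp only [sg, Fin.sum_univ_three, Matrix.cons_val_zero, Matrix.cons_val_one, Matrix.cons_val]
  ring

/-- Vectors `v k` (not all zero) in a plane `l · x = 0` with `∑ φ(v k) = 0` give a nonzero `m`
with `sg w m` a sum of squares. -/
theorem exists_sg {K : Type*} [Field K] (hK : FR K) (h2 : (2 : K) ≠ 0) (w l : Fin 3 → K)
    (hl : l ≠ 0) {n : ℕ} (v : Fin n → Fin 3 → K) (hv : v ≠ 0)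
    (hort : ∀ k, l 0 * v k 0 + l 1 * v k 1 + l 2 * v k 2 = 0)
    (h : ∑ k, ∑ i, w i * (v k i) ^ 2 = 0) :
    ∃ m : Fin 3 → K, m ≠ 0 ∧ SoS (sg w m) := by
  have hl' : l 0 ≠ 0 ∨ l 1 ≠ 0 ∨ l 2 ≠ 0 := by
    by_contra hcon
    push Not at hcon
    apply hl
    funext i
    fin_cases i
    · exact hcon.1
    · exact hcon.2.1
    · exact hcon.2.2
  have hvne : ∀ (a b : Fin 3) (c : K), c ≠ 0 →
      (∀ k, v k a = 0 → v k b = 0 → v k = 0) →
      (fun k => v k a / c) ≠ 0 ∨ (fun k => v k b / c) ≠ 0 := by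
    intro a b c hc hab
    by_contra hcon
    push Not at hcon
    apply hv
    funext k
    have h1 := congrFun hcon.1 k
    have h3 := congrFun hcon.2 k
    simp only [Pi.zero_apply, div_eq_zero_iff, hc, or_false] at h1 h3
    rw [hab k h1 h3]
    rfl
  rcases hl' with h0 | h1 | h3
  · refine ⟨_, ?_, SoS_sg hK h2 w ![-l 1, l 0, 0] ![-l 2, 0, l 0]
      (fun k => v k 1 / l 0) (fun k => v k 2 / l 0) ?_ ?_⟩
    · intro hz
      have := congrFun hz 0
      simp at this
      exact h0 this
    · refine hvne 1 2 (l 0) h0 (fun k ha hb => ?_)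
      have hk := hort k
      rw [ha, hb] at hk
      have : v k 0 = 0 := by
        have : l 0 * v k 0 = 0 := by linear_combination hk
        exact (mul_eq_zero.mp this).resolve_left h0
      funext i
      fin_cases i
      · exact this
      · exact ha
      · exact hb
    · refine Eq.trans (Finset.sum_congr rfl (fun k _ => ?_)) h
      have hk : v k 0 = -(l 1 * v k 1 + l 2 * v k 2) / l 0 := by
        rw [eq_div_iff h0]; linear_combination hort k
      simp only [Fin.sum_univ_three, Matrix.cons_val_zero, Matrix.cons_val_one, Matrix.cons_val]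
      rw [hk]
      field_simp
      ring
  · refine ⟨_, ?_, SoS_sg hK h2 w ![l 1, -l 0, 0] ![0, -l 2, l 1]
      (fun k => v k 0 / l 1) (fun k => v k 2 / l 1) ?_ ?_⟩
    · intro hz
      have := congrFun hz 1
      simp at this
      exact h1 this
    · refine hvne 0 2 (l 1) h1 (fun k ha hb => ?_)
      have hk := hort k
      rw [ha, hb] at hk
      have : v k 1 = 0 := by
        have : l 1 * v k 1 = 0 := by linear_combination hk
        exact (mul_eq_zero.mp this).resolve_left h1
      funext i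
      fin_cases i
      · exact ha
      · exact this
      · exact hb
    · refine Eq.trans (Finset.sum_congr rfl (fun k _ => ?_)) h
      have hk : v k 1 = -(l 0 * v k 0 + l 2 * v k 2) / l 1 := by
        rw [eq_div_iff h1]; linear_combination hort k
      simp only [Fin.sum_univ_three, Matrix.cons_val_zero, Matrix.cons_val_one, Matrix.cons_val]
      rw [hk]
      field_simp
      ring
  · refine ⟨_, ?_, SoS_sg hK h2 w ![l 2, 0, -l 0] ![0, l 2, -l 1]
      (fun k => v k 0 / l 2) (fun k => v k 1 / l 2) ?_ ?_⟩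
    · intro hz
      have := congrFun hz 2
      simp at this
      exact h3 this
    · refine hvne 0 1 (l 2) h3 (fun k ha hb => ?_)
      have hk := hort k
      rw [ha, hb] at hk
      have : v k 2 = 0 := by
        have : l 2 * v k 2 = 0 := by linear_combination hk
        exact (mul_eq_zero.mp this).resolve_left h3
      funext i
      fin_cases i
      · exact ha
      · exact hb
      · exact this
    · refine Eq.trans (Finset.sum_congr rfl (fun k _ => ?_)) h
      have hk : v k 2 = -(l 0 * v k 0 + l 1 * v k 1) / l 2 := by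
        rw [eq_div_iff h3]; linear_combination hort k
      simp only [Fin.sum_univ_three, Matrix.cons_val_zero, Matrix.cons_val_one, Matrix.cons_val]
      rw [hk]
      field_simp
      ring

theorem exists_sg_eq_one {K : Type*} [Field K] (h2 : (2 : K) ≠ 0) (w : Fin 3 → K)
    (hw : ∀ i, w i ≠ 0) (m : Fin 3 → K) (hm : m ≠ 0) (h : sg w m = 0) :
    ∃ m' : Fin 3 → K, sg w m' = 1 := by
  have hm' : m 0 ≠ 0 ∨ m 1 ≠ 0 ∨ m 2 ≠ 0 := by
    by_contra hcon
    push Not at hcon
    apply hm
    funext i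
    fin_cases i
    · exact hcon.1
    · exact hcon.2.1
    · exact hcon.2.2
  have h0 := hw 0
  have h1 := hw 1
  have h3 := hw 2
  unfold sg at h
  rcases hm' with hm0 | hm0 | hm0
  · set c := -(w 1 * w 2) with hc
    have hc0 : c ≠ 0 := neg_ne_zero.mpr (mul_ne_zero h1 h3)
    set t := (1 - c) / (2 * c * m 0) with ht
    have ht' : t * (2 * c * m 0) = 1 - c := by
      rw [ht]; exact div_mul_cancel₀ _ (mul_ne_zero (mul_ne_zero h2 hc0) hm0)
    refine ⟨![t * m 0 + 1, t * m 1, t * m 2], ?_⟩
    simp only [sg, Matrix.cons_val_zero, Matrix.cons_val_one, Matrix.cons_val]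
    linear_combination t ^ 2 * h + ht'
  · set c := -(w 0 * w 2) with hc
    have hc0 : c ≠ 0 := neg_ne_zero.mpr (mul_ne_zero h0 h3)
    set t := (1 - c) / (2 * c * m 1) with ht
    have ht' : t * (2 * c * m 1) = 1 - c := by
      rw [ht]; exact div_mul_cancel₀ _ (mul_ne_zero (mul_ne_zero h2 hc0) hm0)
    refine ⟨![t * m 0, t * m 1 + 1, t * m 2], ?_⟩
    simp only [sg, Matrix.cons_val_zero, Matrix.cons_val_one, Matrix.cons_val]
    linear_combination t ^ 2 * h + ht'
  · set c := -(w 0 * w 1) with hc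
    have hc0 : c ≠ 0 := neg_ne_zero.mpr (mul_ne_zero h0 h1)
    set t := (1 - c) / (2 * c * m 2) with ht
    have ht' : t * (2 * c * m 2) = 1 - c := by
      rw [ht]; exact div_mul_cancel₀ _ (mul_ne_zero (mul_ne_zero h2 hc0) hm0)
    refine ⟨![t * m 0, t * m 1, t * m 2 + 1], ?_⟩
    simp only [sg, Matrix.cons_val_zero, Matrix.cons_val_one, Matrix.cons_val]
    linear_combination t ^ 2 * h + ht'

/-- Weights of a minimal form: nonzero weights, `sg w` represents only zero among the sums of
squares, and the form is weakly isotropic. -/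
theorem minimal_of {K : Type*} [Field K] (hK : FR K) (h2 : (2 : K) ≠ 0) (w : Fin 3 → K)
    (hw : ∀ i, w i ≠ 0) (hsg : ∀ m : Fin 3 → K, SoS (sg w m) → sg w m = 0)
    (hwi : ∃ v : Fin 3 → Fin 3 → K, v ≠ 0 ∧ ∑ k, ∑ i, w i * (v k i) ^ 2 = 0) :
    MinimalWeaklyIsotropic (QuadraticMap.weightedSumSquares K w) := by
  have happ : ∀ x : Fin 3 → K, QuadraticMap.weightedSumSquares K w x = ∑ i, w i * x i ^ 2 := by
    intro x
    rw [QuadraticMap.weightedSumSquares_apply]
    refine Finset.sum_congr rfl (fun i _ => ?_)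
    rw [smul_eq_mul, pow_two]
  refine ⟨?_, ?_, ?_⟩
  · intro v hv
    funext i
    have := hv (Pi.single i 1)
    rw [QuadraticMap.polar, happ, happ, happ, ← Finset.sum_sub_distrib, ← Finset.sum_sub_distrib,
      Finset.sum_eq_single i] at this
    · simp only [Pi.add_apply, Pi.single_eq_same] at this
      have h3 : (2 * w i) * v i = 0 := by linear_combination this
      exact (mul_eq_zero.mp h3).resolve_left (mul_ne_zero h2 (hw i))
    · intro j _ hj
      simp [Pi.single_eq_of_ne hj]
    · intro hi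
      exact absurd (Finset.mem_univ i) hi
  · obtain ⟨v, hv, hsum⟩ := hwi
    refine ⟨3, by norm_num, ?_⟩
    rw [QuadraticMap.not_anisotropic_iff_exists]
    refine ⟨v, hv, ?_⟩
    rw [copies, QuadraticMap.pi_apply]
    simp only [happ]
    exact hsum
  · rintro W hW - ⟨n, -, hn⟩
    rw [QuadraticMap.not_anisotropic_iff_exists] at hn
    obtain ⟨v, hv, hsum⟩ := hn
    rw [copies, QuadraticMap.pi_apply] at hsum
    obtain ⟨f, hf, hWf⟩ := Submodule.exists_le_ker_of_lt_top W (lt_top_iff_ne_top.mpr hW)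
    set l : Fin 3 → K := fun i => f (Pi.single i 1) with hldef
    have hfl : ∀ x : Fin 3 → K, f x = l 0 * x 0 + l 1 * x 1 + l 2 * x 2 := by
      intro x
      rw [LinearMap.pi_apply_eq_sum_univ f x, Fin.sum_univ_three]
      simp only [smul_eq_mul, hldef]
      have hsingle : ∀ i : Fin 3, (fun j => if i = j then (1 : K) else 0) = Pi.single i 1 := by
        intro i
        funext j
        simp only [Pi.single_apply, eq_comm]
      simp only [hsingle]
      ring
    have hl : l ≠ 0 := by
      intro hl0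
      apply hf
      ext x
      have := hfl (Pi.single x 1)
      rw [hl0] at this
      simpa using this
    obtain ⟨m, hm, hSoS⟩ := exists_sg hK h2 w l hl (fun k => (v k : Fin 3 → K))
      (by
        intro h0
        apply hv
        funext k
        exact Subtype.ext (congrFun h0 k))
      (by
        intro k
        rw [← hfl]
        exact hWf (v k).2)
      (by
        rw [← hsum]
        refine Finset.sum_congr rfl (fun k _ => ?_)
        rw [restr, QuadraticMap.comp_apply, Submodule.coe_subtype, happ])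
    obtain ⟨m', hm'⟩ := exists_sg_eq_one h2 w hw m hm (hsg m hSoS)
    have := hsg m' (by rw [hm']; exact SoS_one)
    rw [hm'] at this
    exact one_ne_zero this

end MinForm

namespace MinForm

section Domain

variable {B : Type u} [CommRing B] [IsDomain B]

/-- The embedding of a domain in its field of fractions. -/
noncomputable abbrev emb (B : Type u) [CommRing B] [IsDomain B] : B →+* FractionRing B :=
  algebraMap B (FractionRing B)

theorem emb_inj (B : Type u) [CommRing B] [IsDomain B] : Function.Injective (emb B) :=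
  IsFractionRing.injective B (FractionRing B)

/-- The weights of the form. -/
noncomputable def wt (a b z : B) : Fin 3 → FractionRing B :=
  ![1, -(emb B (a * z)), -(emb B (b * (1 - z)))]

theorem wt_ne_zero (a b z : B) (ha : a ≠ 0) (hb : b ≠ 0) (hz : z ≠ 0) (hz1 : 1 - z ≠ 0)
    (i : Fin 3) : wt a b z i ≠ 0 := by
  fin_cases i
  · simp [wt]
  · simp only [wt, Fin.mk_one, Matrix.cons_val_one, Matrix.cons_val_zero]
    rw [neg_ne_zero, (map_ne_zero_iff _ (emb_inj B))]
    exact mul_ne_zero ha hz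
  · simp only [wt, Fin.reduceFinMk, Matrix.cons_val]
    rw [neg_ne_zero, (map_ne_zero_iff _ (emb_inj B))]
    exact mul_ne_zero hb hz1

theorem sg_wt (a b z : B)
    (hkey : ∀ (n : ℕ) (u v w : B) (s : Fin n → B),
      a * z * u ^ 2 + b * (1 - z) * v ^ 2 - a * b * (z * (1 - z)) * w ^ 2 = ∑ i, s i ^ 2 →
        ∑ i, s i ^ 2 = 0)
    (m : Fin 3 → FractionRing B)
    (hm : SoS (sg (wt a b z) m)) : sg (wt a b z) m = 0 := by
  obtain ⟨n, s, hs⟩ := hm
  obtain ⟨d, hd⟩ := IsLocalization.exist_integer_multiples_of_finite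
    (nonZeroDivisors B) (S := FractionRing B) (Sum.elim m s)
  have hd0 : (d : B) ≠ 0 := nonZeroDivisors.ne_zero d.2
  choose g hg using hd
  have hgm : ∀ i, emb B (g (Sum.inl i)) = emb B d * m i := by
    intro i
    rw [hg (Sum.inl i), Algebra.smul_def, Sum.elim_inl]
  have hgs : ∀ i, emb B (g (Sum.inr i)) = emb B d * s i := by
    intro i
    rw [hg (Sum.inr i), Algebra.smul_def, Sum.elim_inr]
  have hD : emb B (d : B) ≠ 0 := by
    rw [map_ne_zero_iff _ (emb_inj B)]
    exact hd0
  have hsum : emb B (∑ i, g (Sum.inr i) ^ 2) = emb B d ^ 2 * sg (wt a b z) m := by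
    rw [map_sum, hs, Finset.mul_sum]
    refine Finset.sum_congr rfl (fun i _ => ?_)
    rw [map_pow, hgs i]
    ring
  have hid : a * z * g (Sum.inl 2) ^ 2 + b * (1 - z) * g (Sum.inl 1) ^ 2 -
      a * b * (z * (1 - z)) * g (Sum.inl 0) ^ 2
        = ∑ i, g (Sum.inr i) ^ 2 := by
    apply emb_inj B
    rw [hsum]
    simp only [map_add, map_sub, map_mul, map_pow, hgm, sg, wt, Matrix.cons_val_zero,
      Matrix.cons_val_one, Matrix.cons_val]
    ring
  have h0 := hkey n (g (Sum.inl 2)) (g (Sum.inl 1)) (g (Sum.inl 0)) (fun i => g (Sum.inr i)) hid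
  rw [h0, map_zero] at hsum
  exact (mul_eq_zero.mp hsum.symm).resolve_left (pow_ne_zero 2 hD)

theorem wi (a b z a1 a2 b1 b2 b3 : B) (ha : a ≠ 0) (hb : b ≠ 0)
    (haeq : a = a1 ^ 2 + a2 ^ 2 + 1) (hbeq : b = b1 ^ 2 + b2 ^ 2 + b3 ^ 2) :
    ∃ v : Fin 3 → Fin 3 → FractionRing B, v ≠ 0 ∧
      ∑ k, ∑ i, wt a b z i * (v k i) ^ 2 = 0 := by
  have ha0 : emb B a ≠ 0 := by
    rw [map_ne_zero_iff _ (emb_inj B)]
    exact ha
  have hb0 : emb B b ≠ 0 := by
    rw [map_ne_zero_iff _ (emb_inj B)]
    exact hb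
  have haeq' : emb B a = emb B a1 ^ 2 + emb B a2 ^ 2 + 1 := by
    conv_lhs => rw [haeq]
    simp only [map_add, map_pow, map_one]
  have hbeq' : emb B b = emb B b1 ^ 2 + emb B b2 ^ 2 + emb B b3 ^ 2 := by
    conv_lhs => rw [hbeq]
    simp only [map_add, map_pow]
  have e1' : (emb B a1 / emb B a) ^ 2 + (emb B a2 / emb B a) ^ 2 + (1 / emb B a) ^ 2
      = 1 / emb B a := by
    rw [div_pow, div_pow, div_pow, ← add_div, ← add_div, one_pow, ← haeq']
    field_simp
  have e2' : (emb B b1 / emb B b) ^ 2 + (emb B b2 / emb B b) ^ 2 + (emb B b3 / emb B b) ^ 2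
      = 1 / emb B b := by
    rw [div_pow, div_pow, div_pow, ← add_div, ← add_div, ← hbeq']
    field_simp
  have hA : emb B a * (1 / emb B a) = 1 := by field_simp
  have hB : emb B b * (1 / emb B b) = 1 := by field_simp
  refine ⟨![![1, emb B a1 / emb B a, emb B b1 / emb B b],
    ![0, emb B a2 / emb B a, emb B b2 / emb B b], ![0, 1 / emb B a, emb B b3 / emb B b]], ?_, ?_⟩
  · intro h
    have := congrFun (congrFun h 0) 0
    simp at this
  · simp only [Fin.sum_univ_three, wt, Matrix.cons_val_zero, Matrix.cons_val_one,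
      Matrix.cons_val, map_mul, map_sub, map_one]
    linear_combination (-(emb B a * emb B z)) * e1' + (-(emb B b * (1 - emb B z))) * e2'
      - emb B z * hA - (1 - emb B z) * hB

theorem minimal_gen (hFR : FR B) (a b z a1 a2 b1 b2 b3 : B) (ha : a ≠ 0) (hb : b ≠ 0)
    (hz : z ≠ 0) (hz1 : 1 - z ≠ 0)
    (haeq : a = a1 ^ 2 + a2 ^ 2 + 1) (hbeq : b = b1 ^ 2 + b2 ^ 2 + b3 ^ 2)
    (hkey : ∀ (n : ℕ) (u v w : B) (s : Fin n → B),
      a * z * u ^ 2 + b * (1 - z) * v ^ 2 - a * b * (z * (1 - z)) * w ^ 2 = ∑ i, s i ^ 2 →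
        ∑ i, s i ^ 2 = 0) :
    3 ≤ wInv (FractionRing B) := by
  have hK : FR (FractionRing B) := hFR.fractionRing
  have := hK.charZero
  have hmin := minimal_of hK two_ne_zero (wt a b z) (wt_ne_zero a b z ha hb hz hz1)
    (sg_wt a b z hkey) (wi a b z a1 a2 b1 b2 b3 ha hb haeq hbeq)
  exact le_iSup₂_of_le 3 ⟨_, hmin⟩ le_rfl

end Domain

theorem apol_ne_zero (R : Type u) [Field R] : apol R ≠ 0 := by
  have : (apol R).Monic := by
    unfold apol
    exact monic_X_pow_add_C _ two_ne_zero
  exact this.ne_zero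

theorem bpol_ne_zero {R : Type u} [Field R] (δ σ : R) : bpol δ σ ≠ 0 := by
  intro h
  have h4 : (bpol δ σ).coeff 4 = e1 δ ^ 2 := by
    unfold bpol
    rw [coeff_add, coeff_C_mul, coeff_X_pow, coeff_C]
    simp
  rw [h, coeff_zero] at h4
  have he : e1 δ ≠ 0 := by
    have : (e1 δ).Monic := by
      unfold e1
      exact monic_X_pow_add_C _ two_ne_zero
    exact this.ne_zero
  exact pow_ne_zero 2 he h4.symm

theorem bpol_eq {R : Type u} [Field R] (δ σ : R) :
    bpol δ σ = (C (e1 δ) * X ^ 2) ^ 2 + (C (e2 δ * C (1 - σ ^ 2) * X)) ^ 2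
      + (C (e2 δ * C σ * (X ^ 2 + 1))) ^ 2 := by
  unfold bpol e1 e2 g1 g2
  simp only [map_mul, map_pow, map_add, map_sub, map_one]
  ring

end MinForm

theorem three_le_wInv {R : Type u} [Field R] (hR : FR R) {δ σ : R} (hδ : δ ≠ 0) (hσ : σ ≠ 0)
    (hkey : KeyStatement δ σ) : 3 ≤ wInv (KK R) := by
  have h1X : (1 - X : R[X][X][X]) ≠ 0 := by
    intro h
    have := congrArg (fun q => coeff q 0) h
    simp at this
  refine MinForm.minimal_gen (hR.polynomial.polynomial.polynomial) (C (apol R)) (C (bpol δ σ)) X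
    (C X) (C (C X)) (C (C (e1 δ) * X ^ 2)) (C (C (e2 δ * C (1 - σ ^ 2) * X)))
    (C (C (e2 δ * C σ * (X ^ 2 + 1)))) (C_ne_zero.mpr (MinForm.apol_ne_zero R))
    (C_ne_zero.mpr (MinForm.bpol_ne_zero δ σ)) X_ne_zero h1X ?_ ?_ hkey
  · simp only [apol, ← map_pow, ← map_one C, ← map_add]
    congr 1
    simp only [map_add, map_pow, map_one]
    ring
  · rw [MinForm.bpol_eq, map_add, map_add, map_pow, map_pow, map_pow]

end WInv
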