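import Pool.Agent.WInv.Defs

/-!
# Module B1: odd places over `z = 0` in odd extensions of `L(z)` (MP_2fcb4d_al)
-/

set_option autoImplicit false
set_option linter.all false

namespace WInv

open Polynomial

universe u

/-- A discrete valuation ring `O` of the field `N` lying over the place `z = 0` of `L(z)`, with
odd residue degree over `L` and odd ramification index `e`. -/
structure OddPlace (L : Type u) [Field L] (N : Type u) [Field N] [Algebra L[X] N] where
  k : Type u
  [fk : Field k]
  [ak : Algebra L k]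
  [fd : FiniteDimensional L k]
  odd_k : Odd (Module.finrank L k)
  O : Subring N
  res : O →+* k
  ϖ : O
  e : ℕ
  odd_e : Odd e
  ϖ_ne : (ϖ : N) ≠ 0
  res_ϖ : res ϖ = 0
  poly_mem : ∀ f : L[X], algebraMap L[X] N f ∈ O
  res_poly : ∀ f : L[X], res ⟨algebraMap L[X] N f, poly_mem f⟩ = algebraMap L k (f.eval 0)
  inv_mem : ∀ u : O, res u ≠ 0 → (u : N)⁻¹ ∈ O
  rep : ∀ x : N, x ≠ 0 → ∃ (n : ℤ) (u : O), res u ≠ 0 ∧ x = (ϖ : N) ^ n * (u : N)
  z_rep : ∃ u : O, res u ≠ 0 ∧ algebraMap L[X] N X = (ϖ : N) ^ e * (u : N)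

namespace OddPlaceAux

theorem sub_eval_mem (L : Type u) [Field L] (f : L[X]) :
    f - C (f.eval 0) ∈ Ideal.span {(X : L[X])} := by
  rw [Ideal.mem_span_singleton, X_dvd_iff]
  simp [coeff_zero_eq_eval_zero]

section

variable {L : Type u} [Field L] {N : Type u} [Field N] [Algebra L[X] N]
  {S : Type u} [CommRing S] [IsDedekindDomain S] [Algebra L[X] S] [Algebra S N] [IsFractionRing S N]
  [IsScalarTower L[X] S N]

theorem build (P : Ideal S) [hPm : P.IsMaximal] (hP0 : P ≠ ⊥)
    [hov : P.LiesOver (Ideal.span {(X : L[X])})]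
    (hXS : algebraMap L[X] S X ≠ 0)
    (he : Odd (Ideal.ramificationIdx' (Ideal.span {(X : L[X])}) P))
    (hf : Odd (Ideal.inertiaDeg' (Ideal.span {(X : L[X])}) P)) : Nonempty (OddPlace L N) := by
  classical
  have hPp : P.IsPrime := hPm.isPrime
  -- the residue field
  letI fk : Field (S ⧸ P) := Ideal.Quotient.field P
  letI ak : Algebra L (S ⧸ P) := ((algebraMap L[X] (S ⧸ P)).comp C).toAlgebra
  have hspan : (Ideal.span {(X : L[X])}).IsMaximal := by
    refine PrincipalIdealRing.isMaximal_of_irreducible irreducible_X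
  have hXP : algebraMap L[X] S X ∈ P := by
    have h1 : (X : L[X]) ∈ Ideal.under L[X] P := by
      rw [← hov.over]
      exact Ideal.mem_span_singleton_self _
    exact h1
  have hfin : Module.finrank L (S ⧸ P) =
      Module.finrank (L[X] ⧸ Ideal.span {(X : L[X])}) (S ⧸ P) := by
    let φ : L →+* (L[X] ⧸ Ideal.span {(X : L[X])}) := (Ideal.Quotient.mk _).comp C
    have hφ : Function.Bijective φ := by
      refine ⟨?_, ?_⟩
      · haveI : Nontrivial (L[X] ⧸ Ideal.span {(X : L[X])}) :=
          Ideal.Quotient.nontrivial_iff.2 hspan.ne_top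
        exact φ.injective
      · intro y
        obtain ⟨f, rfl⟩ := Ideal.Quotient.mk_surjective y
        refine ⟨f.eval 0, ?_⟩
        symm
        exact Ideal.Quotient.eq.2 (sub_eval_mem L f)
    refine Algebra.finrank_eq_of_equiv_equiv (RingEquiv.ofBijective φ hφ) (RingEquiv.refl _) ?_
    ext a
    rfl
  have hodd : Odd (Module.finrank L (S ⧸ P)) := by
    rw [hfin, ← Ideal.inertiaDeg'_algebraMap]
    exact hf
  have hfd : FiniteDimensional L (S ⧸ P) := FiniteDimensional.of_finrank_pos hodd.pos
  -- the ring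
  have hle : P.primeCompl ≤ nonZeroDivisors S := P.primeCompl_le_nonZeroDivisors
  let O : Subalgebra S N := Localization.subalgebra.ofField N P.primeCompl hle
  have hloc : IsLocalization.AtPrime O P := Localization.subalgebra.isLocalization_ofField N _ hle
  have hdvr : IsDiscreteValuationRing O :=
    IsLocalization.AtPrime.isDiscreteValuationRing_of_dedekind_domain S hP0 O
  have hunit : ∀ y : P.primeCompl, IsUnit (Ideal.Quotient.mk P (y : S)) := by
    intro y
    have : Ideal.Quotient.mk P (y : S) ≠ 0 := by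
      rw [Ne, Ideal.Quotient.eq_zero_iff_mem]
      exact y.2
    exact isUnit_iff_ne_zero.2 this
  let res : O →+* (S ⧸ P) := IsLocalization.lift (M := P.primeCompl) hunit
  have hres : ∀ s : S, res (algebraMap S O s) = Ideal.Quotient.mk P s := fun s =>
    IsLocalization.lift_eq hunit s
  have hsurj : Function.Surjective res := by
    intro y
    obtain ⟨s, rfl⟩ := Ideal.Quotient.mk_surjective y
    exact ⟨algebraMap S O s, hres s⟩
  have hker : RingHom.ker res = IsLocalRing.maximalIdeal O := by
    have : (RingHom.ker res).IsMaximal := RingHom.ker_isMaximal_of_surjective res hsurj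
    exact IsLocalRing.eq_maximalIdeal this
  have hu : ∀ u : O, res u ≠ 0 ↔ IsUnit u := by
    intro u
    have h1 : u ∈ RingHom.ker res ↔ res u = 0 := RingHom.mem_ker
    rw [Ne, ← h1, hker, IsLocalRing.mem_maximalIdeal, mem_nonunits_iff, not_not]
  obtain ⟨ϖ, hϖ⟩ := IsDiscreteValuationRing.exists_irreducible O
  have hϖN : (ϖ : N) ≠ 0 := by
    intro h
    exact hϖ.ne_zero (Subtype.ext h)
  have hpoly : ∀ f : L[X], algebraMap L[X] N f = ((algebraMap S O (algebraMap L[X] S f) : O) : N) := by
    intro f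
    rw [IsScalarTower.algebraMap_apply L[X] S N f]
    rfl
  -- the uniformizer power
  have hX : ∃ u : O, IsUnit u ∧ algebraMap S O (algebraMap L[X] S X) =
      ϖ ^ (Ideal.ramificationIdx' (Ideal.span {(X : L[X])}) P) * u := by
    have hmap : (Ideal.span {(X : L[X])}).map (algebraMap L[X] S) ≠ ⊥ := by
      rw [Ideal.map_span, Set.image_singleton, Ne, Ideal.span_singleton_eq_bot]
      exact hXS
    obtain ⟨I, hqI, h⟩ := Ideal.eq_prime_pow_mul_coprime hmap P
    replace hqI : ¬ I ≤ P := by
      intro hIP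
      rw [sup_of_le_left hIP] at hqI
      exact hPm.ne_top hqI
    rw [← Ideal.IsDedekindDomain.ramificationIdx'_eq_normalizedFactors_count hmap hPp hP0] at h
    have h2 := congrArg (Ideal.map (algebraMap S O)) h
    rw [Ideal.map_span, Ideal.map_span, Set.image_singleton, Set.image_singleton, Ideal.map_mul,
      Ideal.map_pow, IsLocalization.AtPrime.map_eq_maximalIdeal P O, hϖ.maximalIdeal_eq,
      Ideal.span_singleton_pow] at h2
    have htop : Ideal.map (algebraMap S O) I = ⊤ :=
      IsLocalization.AtPrime.map_eq_top_of_not_le O hqI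
    rw [htop, Ideal.mul_top, Ideal.span_singleton_eq_span_singleton] at h2
    obtain ⟨u, hu'⟩ := h2.symm
    exact ⟨u, u.isUnit, hu'.symm⟩
  obtain ⟨u₀, hu₀, hX₀⟩ := hX
  have hpow : ∀ x : O, x ≠ 0 → ∃ (n : ℕ) (u : O), IsUnit u ∧ (x : N) = (ϖ : N) ^ n * (u : N) := by
    intro x hx
    obtain ⟨n, u, hnu⟩ := IsDiscreteValuationRing.eq_unit_mul_pow_irreducible hx hϖ
    refine ⟨n, u, u.isUnit, ?_⟩
    rw [hnu]
    push_cast
    ring
  have hinv : ∀ u : O, IsUnit u → ∃ v : O, IsUnit v ∧ (v : N) = (u : N)⁻¹ := by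
    rintro _ ⟨u, rfl⟩
    refine ⟨(u⁻¹ : Oˣ), Units.isUnit _, ?_⟩
    have h1 : ((u : O) : N) * (((u⁻¹ : Oˣ) : O) : N) = 1 := by
      exact congrArg (fun t : O => (t : N)) (Units.mul_inv u)
    exact (eq_inv_of_mul_eq_one_right h1)
  refine ⟨{
    k := S ⧸ P
    fk := fk
    ak := ak
    fd := hfd
    odd_k := hodd
    O := O.toSubring
    res := res
    ϖ := ϖ
    e := Ideal.ramificationIdx' (Ideal.span {(X : L[X])}) P
    odd_e := he
    ϖ_ne := hϖN
    res_ϖ := ?_
    poly_mem := ?_
    res_poly := ?_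
    inv_mem := ?_
    rep := ?_
    z_rep := ?_ }⟩
  · by_contra hne
    exact hϖ.not_isUnit ((hu ϖ).1 hne)
  · intro f
    rw [hpoly f]
    exact Subtype.property _
  · intro f
    have h1 : (⟨algebraMap L[X] N f, by rw [hpoly f]; exact Subtype.property _⟩ : O) =
        algebraMap S O (algebraMap L[X] S f) := Subtype.ext (hpoly f)
    have h2 : res ⟨algebraMap L[X] N f, by rw [hpoly f]; exact Subtype.property _⟩ =
        Ideal.Quotient.mk P (algebraMap L[X] S f) := by
      rw [h1, hres]
    refine h2.trans ?_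
    have h3 : f - C (f.eval 0) ∈ Ideal.under L[X] P := by
      rw [← hov.over]
      exact sub_eval_mem L f
    have h4 : algebraMap L[X] S f - algebraMap L[X] S (C (f.eval 0)) ∈ P := by
      rw [← map_sub]
      exact h3
    exact Ideal.Quotient.eq.2 h4
  · intro u hu1
    obtain ⟨v, -, hv⟩ := hinv u ((hu u).1 hu1)
    rw [← hv]
    exact v.2
  · intro x hx
    obtain ⟨a, b, hb, hab⟩ := IsFractionRing.div_surjective (A := O) x
    have hb0 : b ≠ 0 := nonZeroDivisors.ne_zero hb
    have ha0 : a ≠ 0 := by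
      rintro rfl
      apply hx
      rw [← hab]
      simp
    obtain ⟨m, u, hu1, ham⟩ := hpow a ha0
    obtain ⟨n, v, hv1, hbn⟩ := hpow b hb0
    obtain ⟨w, hw1, hw⟩ := hinv v hv1
    refine ⟨(m : ℤ) - n, u * w, (hu _).2 (hu1.mul hw1), ?_⟩
    have hv0 : (v : N) ≠ 0 := by
      intro h0
      exact hv1.ne_zero (Subtype.ext h0)
    have h5 : x = (a : N) / (b : N) := hab.symm
    rw [h5, ham, hbn, zpow_sub₀ hϖN, zpow_natCast, zpow_natCast]
    push_cast
    rw [hw]
    field_simp
  · refine ⟨u₀, (hu _).2 hu₀, ?_⟩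
    rw [hpoly X, hX₀]
    push_cast
    rfl

end

end OddPlaceAux

theorem exists_oddPlace (L : Type u) [Field L] [CharZero L] (N : Type u) [Field N]
    [Algebra (FractionRing L[X]) N] [Algebra L[X] N] [IsScalarTower L[X] (FractionRing L[X]) N]
    [FiniteDimensional (FractionRing L[X]) N]
    (hodd : Odd (Module.finrank (FractionRing L[X]) N)) : Nonempty (OddPlace L N) := by
  classical
  haveI : CharZero (FractionRing L[X]) :=
    charZero_of_injective_algebraMap (FaithfulSMul.algebraMap_injective L[X] _)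
  haveI : Algebra.IsSeparable (FractionRing L[X]) N := inferInstance
  let S := integralClosure L[X] N
  haveI : IsDedekindDomain S := integralClosure.isDedekindDomain_fractionRing L[X] N
  haveI : IsFractionRing S N :=
    integralClosure.isFractionRing_of_finite_extension (FractionRing L[X]) N
  haveI : Module.Finite L[X] S := IsIntegralClosure.finite L[X] (FractionRing L[X]) N S
  have hinjN : Function.Injective (algebraMap L[X] N) := by
    rw [IsScalarTower.algebraMap_eq L[X] (FractionRing L[X]) N]
    exact (algebraMap (FractionRing L[X]) N).injective.comp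
      (FaithfulSMul.algebraMap_injective L[X] _)
  have hinjS : Function.Injective (algebraMap L[X] S) := by
    intro a b hab
    exact hinjN (congrArg (fun t : S => (t : N)) hab)
  haveI : Module.IsTorsionFree L[X] S := Module.isTorsionFree_iff_algebraMap_injective.2 hinjS
  haveI : FaithfulSMul L[X] S := (faithfulSMul_iff_algebraMap_injective _ _).2 hinjS
  have hXirr : Irreducible (X : L[X]) := irreducible_X
  haveI hp : (Ideal.span {(X : L[X])}).IsMaximal := PrincipalIdealRing.isMaximal_of_irreducible hXirr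
  have hp0 : Ideal.span {(X : L[X])} ≠ ⊥ := by
    rw [Ne, Ideal.span_singleton_eq_bot]
    exact X_ne_zero
  have hsum := Ideal.sum_ramification_inertia S (FractionRing L[X]) N hp0
  have hex : ∃ P ∈ IsDedekindDomain.primesOverFinset (Ideal.span {(X : L[X])}) S,
      Odd (Ideal.ramificationIdx' (Ideal.span {(X : L[X])}) P *
        Ideal.inertiaDeg' (Ideal.span {(X : L[X])}) P) := by
    by_contra hcon
    push Not at hcon
    have : Even (Module.finrank (FractionRing L[X]) N) := by
      rw [← hsum]
      exact Finset.even_sum _ fun P hP => by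
        rcases Nat.even_or_odd (Ideal.ramificationIdx' (Ideal.span {(X : L[X])}) P *
          Ideal.inertiaDeg' (Ideal.span {(X : L[X])}) P) with h | h
        · exact h
        · exact absurd h (hcon P hP)
    exact (Nat.not_even_iff_odd.2 hodd) this
  obtain ⟨P, hP, hodd'⟩ := hex
  rw [Nat.odd_mul] at hodd'
  haveI hPp : P.IsPrime := ((IsDedekindDomain.mem_primesOverFinset_iff hp0 _).mp hP).1
  haveI hPl : P.LiesOver (Ideal.span {(X : L[X])}) :=
    ((IsDedekindDomain.mem_primesOverFinset_iff hp0 _).mp hP).2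
  have hP0 : P ≠ ⊥ := Ideal.ne_bot_of_liesOver_of_ne_bot hp0 P
  haveI hPm : P.IsMaximal := hPp.isMaximal hP0
  have hXS : algebraMap L[X] S X ≠ 0 := by
    rw [Ne, ← map_zero (algebraMap L[X] S)]
    intro h
    exact X_ne_zero (hinjS h)
  exact OddPlaceAux.build P hP0 hXS hodd'.1 hodd'.2

end WInv
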