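import Pool.Agent.WInv.Data
import Pool.Agent.WInv.RealBasics

/-!
# Module B5: restriction to the generic line, elementary part (MP_2fcb4d_al)
-/

set_option autoImplicit false

namespace WInv

open Polynomial

universe u

variable {R : Type u} [Field R]

namespace Psi

/-- The inclusion of `R` into the polynomials in `c₀, c₁`. -/
noncomputable def iota (R : Type u) [Field R] : R →+* R[X][X] :=
  (C : R[X] →+* R[X][X]).comp (C : R →+* R[X])

/-- The map `psi` before passing to the fraction field. -/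
noncomputable def psi0 (R : Type u) [Field R] : R[X][X] →+* R[X][X][X] :=
  eval₂RingHom (mapRingHom (iota R)) (C (C X) + C X * X : R[X][X][X])

lemma psi_eq_comp : psi R = (mapRingHom (algebraMap R[X][X] (LL R))).comp (psi0 R) := by
  apply Polynomial.ringHom_ext
  · intro a
    simp only [psi, psi0, coe_eval₂RingHom, eval₂_C, RingHom.comp_apply, coe_mapRingHom,
      Polynomial.map_map]
    rfl
  · simp [psi, psi0, c0, c1]

/-- A left inverse of `psi0`. -/
noncomputable def theta (R : Type u) [Field R] : R[X][X][X] →+* R[X][X] :=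
  eval₂RingHom (eval₂RingHom (mapRingHom (C : R →+* R[X])) 0) (C X)

lemma theta_psi0 (f : R[X][X]) : theta R (psi0 R f) = f := by
  have h : (theta R).comp (psi0 R) = RingHom.id _ := by
    apply Polynomial.ringHom_ext
    · intro a
      simp only [theta, psi0, RingHom.comp_apply, coe_eval₂RingHom, eval₂_C, RingHom.id_apply,
        coe_mapRingHom]
      induction a using Polynomial.induction_on' with
      | add p q hp hq => simp only [Polynomial.map_add, eval₂_add, hp, hq, C_add]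
      | monomial n a =>
        rw [← C_mul_X_pow_eq_monomial]
        simp [iota]
    · simp [theta, psi0]
  calc theta R (psi0 R f) = ((theta R).comp (psi0 R)) f := rfl
    _ = f := by rw [h]; rfl

lemma psi_C (q : R[X]) : psi R (C q) = q.map (algebraMap R (LL R)) := by
  simp [psi]

lemma psi_X : psi R X = C (c0 R) + C (c1 R) * X := by
  simp [psi]

end Psi

open Psi

theorem psi_injective : Function.Injective (psi R) := by
  rw [psi_eq_comp, RingHom.coe_comp]
  apply Function.Injective.comp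
  · rw [coe_mapRingHom]
    exact Polynomial.map_injective _ (IsFractionRing.injective R[X][X] (LL R))
  · exact Function.LeftInverse.injective theta_psi0

theorem D_mul {f g : R[X][X]} (hf : f ≠ 0) (hg : g ≠ 0) : D (f * g) = D f + D g := by
  unfold D
  rw [map_mul, natDegree_mul]
  · rwa [map_ne_zero_iff _ psi_injective]
  · rwa [map_ne_zero_iff _ psi_injective]

theorem D_C (q : R[X]) : D (C q) = q.natDegree := by
  unfold D
  rw [psi_C, natDegree_map]

/-- `c₁` is not a constant. -/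
lemma Psi.c1_ne (r : R) : c1 R ≠ algebraMap R (LL R) r := by
  intro h
  have h1 : algebraMap R[X][X] (LL R) X = algebraMap R[X][X] (LL R) (C (C r)) := h
  have h2 := IsFractionRing.injective R[X][X] (LL R) h1
  have h3 := congrArg (fun f : R[X][X] => f.coeff 1) h2
  simp at h3

lemma Psi.c1_ne_zero : c1 R ≠ 0 := by
  have := c1_ne (0 : R)
  rwa [map_zero] at this

/-- The total degree of a polynomial that is linear in `x`. -/
theorem D_linear (y₁ y₂ : R[X]) (h2 : y₂ ≠ 0) :
    D (C y₂ * X - C y₁) = max y₁.natDegree (y₂.natDegree + 1) := by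
  unfold D
  rw [map_sub, map_mul, psi_C, psi_C, psi_X]
  set φ := algebraMap R (LL R) with hφ
  have hφi : Function.Injective φ := φ.injective
  have hl1 : (C (c0 R) + C (c1 R) * X).natDegree = 1 := by
    rw [add_comm]
    exact natDegree_linear c1_ne_zero
  have hl2 : (C (c0 R) + C (c1 R) * X).leadingCoeff = c1 R := by
    rw [add_comm]
    exact leadingCoeff_linear c1_ne_zero
  have hl0 : C (c0 R) + C (c1 R) * X ≠ 0 := by
    intro h
    rw [h] at hl1
    simp at hl1
  have h2' : y₂.map φ ≠ 0 := by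
    rwa [Ne, Polynomial.map_eq_zero]
  have hd2 : (y₂.map φ * (C (c0 R) + C (c1 R) * X)).natDegree = y₂.natDegree + 1 := by
    rw [natDegree_mul h2' hl0, natDegree_map, hl1]
  have hd1 : (y₁.map φ).natDegree = y₁.natDegree := natDegree_map _
  rcases lt_trichotomy y₁.natDegree (y₂.natDegree + 1) with h | h | h
  · rw [natDegree_sub_eq_left_of_natDegree_lt (by rw [hd1, hd2]; exact h), hd2]
    exact (max_eq_right h.le).symm
  · rw [h, max_self]
    apply le_antisymm
    · refine (natDegree_sub_le _ _).trans ?_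
      rw [hd1, hd2, h, max_self]
    · apply le_natDegree_of_ne_zero
      rw [coeff_sub]
      have hc1 : (y₂.map φ * (C (c0 R) + C (c1 R) * X)).coeff (y₂.natDegree + 1)
          = φ y₂.leadingCoeff * c1 R := by
        rw [← hd2, coeff_natDegree, leadingCoeff_mul, hl2, leadingCoeff_map]
      rw [hc1, coeff_map]
      intro h0
      have h3 : φ y₂.leadingCoeff ≠ 0 := by
        rw [map_ne_zero_iff _ hφi]
        exact leadingCoeff_ne_zero.2 h2
      have h4 : c1 R = φ (y₁.coeff (y₂.natDegree + 1) / y₂.leadingCoeff) := by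
        rw [map_div₀, eq_div_iff h3]
        linear_combination h0
      exact c1_ne _ h4
  · rw [natDegree_sub_eq_right_of_natDegree_lt (by rw [hd1, hd2]; exact h), hd1]
    exact (max_eq_left h.le).symm

/-- `R(c₀, c₁)` is formally real. -/
lemma Psi.fr_LL (hR : FR R) : FR (LL R) := FR.fractionRing (FR.polynomial (FR.polynomial hR))

lemma Psi.sq_add_sq_ne_zero {F : Type*} [Field F] (h : FR F) {x : F} (y : F) (hx : x ≠ 0) :
    x ^ 2 + y ^ 2 ≠ 0 := by
  intro h0
  have h1 := h 2 ![x, y] (by simpa [Fin.sum_univ_two] using h0) 0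
  exact hx (by simpa using h1)

lemma Psi.psi_apol : psi R (apol R) =
    C (1 + c1 R ^ 2) * X ^ 2 + C (2 * c0 R * c1 R) * X + C (1 + c0 R ^ 2) := by
  unfold apol
  rw [map_add, map_pow, psi_X, psi_C]
  simp only [Polynomial.map_add, Polynomial.map_pow, map_X, Polynomial.map_one, map_add, map_mul,
    map_pow, map_one, map_ofNat]
  ring

lemma Psi.one_add_c1_ne (hR : FR R) : 1 + c1 R ^ 2 ≠ 0 := by
  have := sq_add_sq_ne_zero (F := LL R) (fr_LL hR) (1 : LL R) (c1_ne_zero (R := R))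
  rwa [one_pow, add_comm] at this

theorem natDegree_psi_apol (hR : FR R) : (psi R (apol R)).natDegree = 2 * 1 := by
  rw [psi_apol]
  exact natDegree_quadratic (one_add_c1_ne hR)

theorem leadingCoeff_psi_apol (hR : FR R) : (psi R (apol R)).leadingCoeff = 1 + c1 R ^ 2 := by
  rw [psi_apol]
  exact leadingCoeff_quadratic (one_add_c1_ne hR)

lemma Psi.psi_bpol (δ σ : R) : psi R (bpol δ σ) =
    (X ^ 2 + C (algebraMap R (LL R) δ ^ 2)) ^ 2 * (C (c0 R) + C (c1 R) * X) ^ 4 +
    (C (algebraMap R (LL R) δ ^ 2) * X ^ 2 + 1) ^ 2 * (X ^ 2 + C (algebraMap R (LL R) σ ^ 2)) *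
      (C (algebraMap R (LL R) σ ^ 2) * X ^ 2 + 1) := by
  unfold bpol e1 e2 g1 g2
  rw [map_add, map_mul, map_pow (psi R) X, psi_X, psi_C, psi_C]
  simp only [Polynomial.map_add, Polynomial.map_pow, map_X, Polynomial.map_one, Polynomial.map_mul,
    map_C, map_pow]

lemma Psi.b_inf_ne (hR : FR R) (δ σ : R) :
    c1 R ^ 4 + algebraMap R (LL R) (δ ^ 4 * σ ^ 2) ≠ 0 := by
  have := sq_add_sq_ne_zero (F := LL R) (fr_LL hR) (algebraMap R (LL R) (δ ^ 2 * σ))
    (pow_ne_zero 2 (c1_ne_zero (R := R)))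
  convert this using 1
  rw [← map_pow]
  ring_nf

/-- The two basic quadratic factors, degree and top coefficient. -/
lemma Psi.quad (F : Type*) [Field F] (s t : F) : (C s * X ^ 2 + C t : F[X]).natDegree ≤ 2 ∧
    (C s * X ^ 2 + C t : F[X]).coeff 2 = s := by
  constructor
  · exact natDegree_add_le_of_degree_le (natDegree_C_mul_X_pow_le _ _) (by simp)
  · simp

lemma Psi.lin (F : Type*) [Field F] (s t : F) : (C s + C t * X : F[X]).natDegree ≤ 1 ∧
    (C s + C t * X : F[X]).coeff 1 = t := by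
  constructor
  · exact natDegree_add_le_of_degree_le (by simp) ((natDegree_C_mul_le _ _).trans natDegree_X_le)
  · simp [coeff_C]

/-- `f` has degree at most `n` and the coefficient of `X ^ n` is `c`. -/
def Psi.TC {F : Type*} [Field F] (f : F[X]) (n : ℕ) (c : F) : Prop :=
  f.natDegree ≤ n ∧ f.coeff n = c

lemma Psi.TC.mul {F : Type*} [Field F] {f g : F[X]} {m n : ℕ} {c d : F} (hf : TC f m c)
    (hg : TC g n d) : TC (f * g) (m + n) (c * d) :=
  ⟨natDegree_mul_le.trans (add_le_add hf.1 hg.1), by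
    rw [coeff_mul_add_eq_of_natDegree_le hf.1 hg.1, hf.2, hg.2]⟩

lemma Psi.TC.add {F : Type*} [Field F] {f g : F[X]} {m : ℕ} {c d : F} (hf : TC f m c)
    (hg : TC g m d) : TC (f + g) m (c + d) :=
  ⟨natDegree_add_le_of_degree_le hf.1 hg.1, by rw [coeff_add, hf.2, hg.2]⟩

lemma Psi.TC.pow {F : Type*} [Field F] {f : F[X]} {m : ℕ} {c : F} (hf : TC f m c) (k : ℕ) :
    TC (f ^ k) (k * m) (c ^ k) :=
  ⟨natDegree_pow_le_of_le k hf.1, by rw [coeff_pow_of_natDegree_le hf.1, hf.2]⟩

lemma Psi.tc_bpol (δ σ : R) : TC (psi R (bpol δ σ)) 8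
    (c1 R ^ 4 + algebraMap R (LL R) (δ ^ 4 * σ ^ 2)) := by
  rw [psi_bpol]
  set d := algebraMap R (LL R) δ
  set s := algebraMap R (LL R) σ
  have h1 : TC (X ^ 2 + C (d ^ 2) : (LL R)[X]) 2 1 := by
    have := quad (LL R) 1 (d ^ 2)
    rwa [C_1, one_mul] at this
  have h2 : TC (C (c0 R) + C (c1 R) * X) 1 (c1 R) := lin _ _ _
  have h3 : TC (C (d ^ 2) * X ^ 2 + 1 : (LL R)[X]) 2 (d ^ 2) := by
    have := quad (LL R) (d ^ 2) 1
    rwa [C_1] at this
  have h4 : TC (X ^ 2 + C (s ^ 2) : (LL R)[X]) 2 1 := by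
    have := quad (LL R) 1 (s ^ 2)
    rwa [C_1, one_mul] at this
  have h5 : TC (C (s ^ 2) * X ^ 2 + 1 : (LL R)[X]) 2 (s ^ 2) := by
    have := quad (LL R) (s ^ 2) 1
    rwa [C_1] at this
  have h6 := ((h1.pow 2).mul (h2.pow 4)).add (((h3.pow 2).mul h4).mul h5)
  convert h6 using 1
  rw [map_mul, map_pow, map_pow]
  ring

theorem natDegree_psi_bpol (hR : FR R) (δ σ : R) : (psi R (bpol δ σ)).natDegree = 2 * 4 := by
  have h := tc_bpol δ σ
  apply le_antisymm h.1
  apply le_natDegree_of_ne_zero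
  have h2 : (psi R (bpol δ σ)).coeff (2 * 4) = _ := h.2
  rw [h2]
  exact b_inf_ne hR δ σ

theorem leadingCoeff_psi_bpol (hR : FR R) (δ σ : R) :
    (psi R (bpol δ σ)).leadingCoeff = c1 R ^ 4 + algebraMap R (LL R) (δ ^ 4 * σ ^ 2) := by
  rw [leadingCoeff, natDegree_psi_bpol hR]
  exact (tc_bpol δ σ).2

/-- `X ^ 4 + d` is not a square. -/
lemma Psi.sq_ne {A : Type*} [CommRing A] [IsDomain A] (h2 : (2 : A) ≠ 0) {d : A} (hd : d ≠ 0)
    (f : A[X]) : f ^ 2 ≠ X ^ 4 + C d := by
  intro h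
  have h1 : (f - X ^ 2) * (f + X ^ 2) = C d := by linear_combination h
  have hCd : (C d : A[X]) ≠ 0 := by rwa [Ne, C_eq_zero]
  have ha : f - X ^ 2 ≠ 0 := by
    intro h0; rw [h0, zero_mul] at h1; exact hCd h1.symm
  have hb : f + X ^ 2 ≠ 0 := by
    intro h0; rw [h0, mul_zero] at h1; exact hCd h1.symm
  have h3 : (f - X ^ 2).natDegree + (f + X ^ 2).natDegree = 0 := by
    rw [← natDegree_mul ha hb, h1, natDegree_C]
  have h4 : f - X ^ 2 = C ((f - X ^ 2).coeff 0) := eq_C_of_natDegree_eq_zero (by omega)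
  have h5 : f + X ^ 2 = C ((f + X ^ 2).coeff 0) := eq_C_of_natDegree_eq_zero (by omega)
  have h6 : C (2 : A) * X ^ 2 = C ((f + X ^ 2).coeff 0 - (f - X ^ 2).coeff 0) := by
    rw [C_sub, ← h4, ← h5]
    rw [show (C (2 : A) : A[X]) = 2 from rfl]
    ring
  have h7 := congrArg (fun p : A[X] => p.coeff 2) h6
  simp only [coeff_C_mul, coeff_X_pow, coeff_C] at h7
  simp at h7
  exact h2 h7

theorem not_isSquare_b_inf (hR : FR R) {δ σ : R} (hδ : δ ≠ 0) (hσ : σ ≠ 0) :
    ¬ IsSquare (c1 R ^ 4 + algebraMap R (LL R) (δ ^ 4 * σ ^ 2)) := by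
  rintro ⟨y, hy⟩
  have hint : IsIntegral R[X][X] (y ^ 2) := by
    have : y ^ 2 = algebraMap R[X][X] (LL R) (X ^ 4 + C (C (δ ^ 4 * σ ^ 2))) := by
      rw [sq, ← hy, map_add, map_pow]
      rfl
    rw [this]
    exact isIntegral_algebraMap
  obtain ⟨f, hf⟩ := IsIntegrallyClosed.exists_algebraMap_eq_of_isIntegral_pow (R := R[X][X])
    (by norm_num : 0 < 2) hint
  have h1 : f ^ 2 = X ^ 4 + C (C (δ ^ 4 * σ ^ 2)) := by
    apply IsFractionRing.injective R[X][X] (LL R)
    rw [map_pow, hf, sq, ← hy, map_add, map_pow]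
    rfl
  have := hR.charZero
  have hc : (C (δ ^ 4 * σ ^ 2) : R[X]) ≠ 0 := by
    rw [Ne, C_eq_zero]
    exact mul_ne_zero (pow_ne_zero _ hδ) (pow_ne_zero _ hσ)
  exact sq_ne two_ne_zero hc f h1

/-- `r² - b q²` has even total degree (`q` a nonzero polynomial in `p` only). -/
theorem even_D_sq_sub (hR : FR R) {δ σ : R} (hδ : δ ≠ 0) (hσ : σ ≠ 0) (r : R[X][X]) {q : R[X]}
    (hq : q ≠ 0) : r ^ 2 - bpol δ σ * C q ^ 2 ≠ 0 ∧ Even (D (r ^ 2 - bpol δ σ * C q ^ 2)) := by
  set φ := algebraMap R (LL R) with hφ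
  have hq' : q.map φ ≠ 0 := by rwa [Ne, Polynomial.map_eq_zero]
  set M := max (psi R r).natDegree (4 + q.natDegree) with hM
  have hM1 : (psi R r).natDegree ≤ M := le_max_left _ _
  have hM2 : 4 + q.natDegree ≤ M := le_max_right _ _
  have e1 : psi R (r ^ 2 - bpol δ σ * C q ^ 2)
      = psi R r ^ 2 - psi R (bpol δ σ) * (q.map φ) ^ 2 := by
    rw [map_sub, map_mul, map_pow, map_pow, psi_C]
  have t1 : TC (psi R r ^ 2) (2 * M) ((psi R r).coeff M ^ 2) :=
    TC.pow (m := M) ⟨hM1, rfl⟩ 2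
  have t2 : TC (psi R (bpol δ σ) * (q.map φ) ^ 2) (2 * M)
      ((c1 R ^ 4 + algebraMap R (LL R) (δ ^ 4 * σ ^ 2)) * (q.map φ).coeff (M - 4) ^ 2) := by
    have h1 : TC ((q.map φ) ^ 2) (2 * (M - 4)) ((q.map φ).coeff (M - 4) ^ 2) :=
      TC.pow (m := M - 4) ⟨by rw [natDegree_map]; omega, rfl⟩ 2
    have h2 := (tc_bpol δ σ).mul h1
    rwa [show 8 + 2 * (M - 4) = 2 * M by omega] at h2
  have hco : (psi R r ^ 2 - psi R (bpol δ σ) * (q.map φ) ^ 2).coeff (2 * M) ≠ 0 := by
    rw [coeff_sub, t1.2, t2.2]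
    intro h0
    by_cases hk : (q.map φ).coeff (M - 4) = 0
    · rw [hk] at h0
      have h3 : (psi R r).coeff M = 0 := by
        have : (psi R r).coeff M ^ 2 = 0 := by linear_combination h0
        exact pow_eq_zero_iff (two_ne_zero) |>.1 this
      -- then `M` is not attained
      rcases max_choice (psi R r).natDegree (4 + q.natDegree) with h4 | h4
      · rw [hM, h4] at h3
        have h5 : psi R r = 0 := leadingCoeff_eq_zero.1 h3
        have h6 : (psi R r).natDegree = 0 := by rw [h5]; exact natDegree_zero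
        omega
      · rw [hM, h4, Nat.add_sub_cancel_left, coeff_map] at hk
        have h5 : q.coeff q.natDegree = 0 := (map_eq_zero_iff _ φ.injective).1 hk
        exact hq (leadingCoeff_eq_zero.1 h5)
    · apply not_isSquare_b_inf hR hδ hσ
      refine ⟨(psi R r).coeff M / (q.map φ).coeff (M - 4), ?_⟩
      field_simp
      linear_combination -h0
  have hdeg : D (r ^ 2 - bpol δ σ * C q ^ 2) = 2 * M := by
    unfold D
    rw [e1]
    apply le_antisymm
    · exact (natDegree_sub_le_of_le t1.1 t2.1).trans (max_self _).le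
    · exact le_natDegree_of_ne_zero hco
  refine ⟨?_, ?_⟩
  · intro h0
    rw [← e1, h0, map_zero] at hco
    exact hco (coeff_zero _)
  · rw [hdeg]
    exact even_two_mul M

theorem pd_psi_apol : PD (psi R (apol R)) := by
  intro E _ _ hE ξ
  have h : aeval ξ (psi R (apol R)) =
      ∑ i, (![algebraMap (LL R) E (c0 R) + algebraMap (LL R) E (c1 R) * ξ, ξ, 1] : Fin 3 → E) i ^ 2 := by
    unfold apol
    rw [map_add, map_pow, psi_X, psi_C]
    simp [Fin.sum_univ_three]
    ring
  rw [h]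
  refine ⟨?_, 3, _, rfl⟩
  intro h0
  have := hE 3 _ h0 2
  simp at this

theorem pd_psi_bpol {δ σ : R} (hδ : δ ≠ 0) (hσ : σ ≠ 0) : PD (psi R (bpol δ σ)) := by
  intro E _ _ hE ξ
  set d := algebraMap (LL R) E (algebraMap R (LL R) δ) with hd
  set s := algebraMap (LL R) E (algebraMap R (LL R) σ) with hs
  set y := algebraMap (LL R) E (c0 R) + algebraMap (LL R) E (c1 R) * ξ with hy
  have h : aeval ξ (psi R (bpol δ σ)) =
      ∑ i, (![(ξ ^ 2 + d ^ 2) * y ^ 2, (d ^ 2 * ξ ^ 2 + 1) * (1 - s ^ 2) * ξ,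
        (d ^ 2 * ξ ^ 2 + 1) * s * (ξ ^ 2 + 1)] : Fin 3 → E) i ^ 2 := by
    rw [psi_bpol, Fin.sum_univ_three]
    simp only [map_add, map_mul, map_pow, aeval_X, aeval_C, map_one, Matrix.cons_val_zero,
      Matrix.cons_val_one, Matrix.cons_val]
    rw [← hd, ← hs, ← hy]
    ring
  rw [h]
  refine ⟨?_, 3, _, rfl⟩
  intro h0
  have h1 := hE 3 _ h0 2
  simp only [Matrix.cons_val] at h1
  have hs0 : s ≠ 0 := by
    rw [hs, _root_.map_ne_zero, _root_.map_ne_zero]
    exact hσ
  have h2 : d ^ 2 * ξ ^ 2 + 1 ≠ 0 := by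
    have := sq_add_sq_ne_zero (F := E) hE (d * ξ) (one_ne_zero (α := E))
    intro h3
    apply this
    linear_combination h3
  have h4 : ξ ^ 2 + 1 ≠ 0 := by
    have := sq_add_sq_ne_zero (F := E) hE ξ (one_ne_zero (α := E))
    intro h3
    apply this
    linear_combination h3
  exact mul_ne_zero (mul_ne_zero h2 hs0) h4 h1

end WInv
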