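import Pool.Agent.WInv.Defs

/-!
# Newton polygon of a polynomial over an ordered field (MP_2fcb4d_al)
-/

set_option autoImplicit false

namespace WInv

open Polynomial ArchimedeanClass

universe u

variable {R : Type u} [Field R] [LinearOrder R] [IsStrictOrderedRing R]

/-- The archimedean class of the largest term `A_k r ^ k` (recall that in `ArchimedeanClass`
smaller means infinitely larger). -/
noncomputable def VV (A : R[X]) (r : R) : ArchimedeanClass R :=
  A.support.inf (fun k => mk (A.coeff k * r ^ k))

/-- `k` is active at radius `r`: the term `A_k r ^ k` has maximal order of magnitude. -/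
def Act (A : R[X]) (r : R) (k : ℕ) : Prop := A.coeff k ≠ 0 ∧ mk (A.coeff k * r ^ k) = VV A r

/-- lowest active index -/
def LowAct (A : R[X]) (r : R) (m : ℕ) : Prop := Act A r m ∧ ∀ k < m, ¬ Act A r k

/-- highest active index -/
def HighAct (A : R[X]) (r : R) (m : ℕ) : Prop := Act A r m ∧ ∀ k > m, ¬ Act A r k

end WInv
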