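import Pool.Agent.WInv.LagCancel

/-!
# Module Q3: orthogonal complements and the anisotropic form (MP_2fcb4d_al)
-/

set_option autoImplicit false

namespace WInv

variable {F : Type*} [Field F] {ι : Type*} [Fintype ι]

namespace Split

/-- The bilinear form of a diagonal form. -/
def bil (w : ι → F) : LinearMap.BilinForm F (ι → F) :=
  LinearMap.mk₂ F (db w)
    (fun x x' y => by
      simp only [db, Pi.add_apply, ← Finset.sum_add_distrib]
      exact Finset.sum_congr rfl fun i _ => by ring)
    (fun c x y => by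
      simp only [db, Pi.smul_apply, smul_eq_mul, Finset.mul_sum]
      exact Finset.sum_congr rfl fun i _ => by ring)
    (fun x y y' => by
      simp only [db, Pi.add_apply, ← Finset.sum_add_distrib]
      exact Finset.sum_congr rfl fun i _ => by ring)
    (fun c x y => by
      simp only [db, Pi.smul_apply, smul_eq_mul, Finset.mul_sum]
      exact Finset.sum_congr rfl fun i _ => by ring)

theorem bil_apply (w x y : ι → F) : bil w x y = db w x y := rfl

theorem db_self (w x : ι → F) : db w x x = dq w x :=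
  Finset.sum_congr rfl fun i _ => by ring

theorem db_comm (w x y : ι → F) : db w x y = db w y x :=
  Finset.sum_congr rfl fun i _ => by ring

theorem dq_eq_dot [DecidableEq ι] (u z : ι → F) :
    dq u z = dotProduct z (Matrix.mulVec (Matrix.diagonal u) z) := by
  simp only [dq, dotProduct, Matrix.mulVec_diagonal]
  exact Finset.sum_congr rfl fun i _ => by ring

theorem dq_mulVec {κ : Type*} [Fintype κ] [DecidableEq ι] [DecidableEq κ]
    {w : ι → F} {w' : κ → F} (P : Matrix ι κ F)
    (h : P.transpose * Matrix.diagonal w * P = Matrix.diagonal w') (z : κ → F) :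
    dq w (P.mulVec z) = dq w' z := by
  rw [dq_eq_dot, dq_eq_dot, ← h, ← Matrix.mulVec_mulVec, ← Matrix.mulVec_mulVec,
    Matrix.dotProduct_mulVec z, Matrix.vecMul_transpose]

theorem eq_zero_of_db [DecidableEq ι] {w : ι → F} (hw : NZ w) {x : ι → F}
    (h : ∀ y, db w x y = 0) : x = 0 := by
  funext i
  have h1 := h (Pi.single i 1)
  simp only [db] at h1
  rw [Finset.sum_eq_single i (fun j _ hj => by simp [Pi.single_eq_of_ne hj])
    (fun h => absurd (Finset.mem_univ _) h)] at h1
  rw [Pi.single_eq_same, mul_one] at h1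
  exact (mul_eq_zero.1 h1).resolve_left (hw i)

/-- entries of `Pᵀ diag(w) P` -/
theorem gram_apply [DecidableEq ι] {κ : Type*} [Fintype κ] (w : ι → F) (P : Matrix ι κ F)
    (a b : κ) : (P.transpose * Matrix.diagonal w * P) a b =
      db w (fun i => P i a) (fun i => P i b) := by
  rw [Matrix.mul_apply]
  simp only [Matrix.mul_diagonal, Matrix.transpose_apply, db]
  exact Finset.sum_congr rfl fun i _ => by ring

end Split

open Split

/-- Splitting off a vector of nonzero length; everything in matrix form so that it can be mapped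
to extension fields. -/
theorem exists_compl [DecidableEq ι] (h2 : (2 : F) ≠ 0) {w : ι → F} (hw : NZ w) (x : ι → F)
    (hx : dq w x ≠ 0) :
    ∃ (m : ℕ) (w' : Fin m → F) (P : Matrix ι (Unit ⊕ Fin m) F) (Q : Matrix (Unit ⊕ Fin m) ι F),
      Fintype.card ι = m + 1 ∧ NZ w' ∧ P * Q = 1 ∧ Q * P = 1 ∧
      P.transpose * Matrix.diagonal w * P =
        Matrix.diagonal (Sum.elim (fun _ : Unit => dq w x) w') ∧
      ∀ i, P i (Sum.inl ()) = x i := by
  classical
  have : Invertible (2 : F) := invertibleOfNonzero h2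
  set B := bil w with hB
  have hBx : B x x ≠ 0 := by rw [hB, bil_apply, db_self]; exact hx
  have hsymm : LinearMap.IsSymm B := ⟨fun y z => by
    simp only [hB, bil_apply, RingHom.id_apply]; exact db_comm w y z⟩
  set W := B.orthogonal (Submodule.span F {x}) with hW
  have hcompl : IsCompl (Submodule.span F {x}) W :=
    LinearMap.BilinForm.isCompl_span_singleton_orthogonal hBx
  have hmemW : ∀ y, y ∈ W ↔ db w x y = 0 := by
    intro y
    rw [hW, LinearMap.BilinForm.mem_orthogonal_iff]
    constructor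
    · intro h
      exact h x (Submodule.mem_span_singleton_self x)
    · intro h n hn
      obtain ⟨c, rfl⟩ := Submodule.mem_span_singleton.1 hn
      change B (c • x) y = 0
      rw [map_smul, LinearMap.smul_apply, hB, bil_apply, h, smul_zero]
  have hx0 : x ≠ 0 := by
    rintro rfl
    exact hx (by simp [dq])
  have hcard : Fintype.card ι = Module.finrank F W + 1 := by
    have h1 := Submodule.finrank_add_eq_of_isCompl hcompl
    rw [finrank_span_singleton hx0, Module.finrank_fintype_fun_eq_card] at h1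
    omega
  let B' : LinearMap.BilinForm F W := B.domRestrict₁₂ W W
  have hB's : LinearMap.IsSymm B' := LinearMap.IsSymm.domRestrict hsymm _
  obtain ⟨v, hv⟩ := LinearMap.BilinForm.exists_orthogonal_basis hB's
  have hv' : ∀ i j, i ≠ j → db w (v i : ι → F) (v j) = 0 := fun i j hij => hv hij
  have hxv : ∀ j, db w x (v j : ι → F) = 0 := fun j => (hmemW _).1 (v j).2
  -- every vector orthogonal to `x` and to all `v j` is zero
  have hspan : ∀ y : ι → F, ∃ (c : F) (z : W), y = c • x + (z : ι → F) := by
    intro y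
    have hy : y ∈ Submodule.span F {x} ⊔ W := by rw [hcompl.sup_eq_top]; trivial
    obtain ⟨a, ha, b, hb, hab⟩ := Submodule.mem_sup.1 hy
    obtain ⟨c, rfl⟩ := Submodule.mem_span_singleton.1 ha
    exact ⟨c, ⟨b, hb⟩, hab.symm⟩
  have hnz : ∀ j, dq w (v j : ι → F) ≠ 0 := by
    intro j hj
    have h0 : (v j : ι → F) = 0 := by
      refine eq_zero_of_db hw fun y => ?_
      obtain ⟨c, z, rfl⟩ := hspan y
      have hz : db w (v j : ι → F) (z : ι → F) = 0 := by
        have e1 : ∀ z : W, B' (v j) z = 0 := by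
          intro z
          have e2 : B' (v j) = 0 := by
            refine v.ext fun k => ?_
            rw [LinearMap.zero_apply]
            by_cases hk : j = k
            · subst hk
              change db w (v j : ι → F) (v j) = 0
              rw [db_self]; exact hj
            · exact hv' j k hk
          rw [e2, LinearMap.zero_apply]
        exact e1 z
      have : bil w (v j : ι → F) (c • x + (z : ι → F)) = 0 := by
        rw [map_add, map_smul, bil_apply, bil_apply, hz, db_comm w _ x, hxv, smul_zero, add_zero]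
      exact this
    exact v.ne_zero j (Subtype.ext h0)
  let m := Module.finrank F W
  let P : Matrix ι (Unit ⊕ Fin m) F := fun i s => Sum.elim (fun _ => x i) (fun j => (v j : ι → F) i) s
  let w' : Fin m → F := fun j => dq w (v j : ι → F)
  have hgram : P.transpose * Matrix.diagonal w * P =
      Matrix.diagonal (Sum.elim (fun _ : Unit => dq w x) w') := by
    ext a b
    rw [gram_apply]
    rcases a with a | a <;> rcases b with b | b
    · rw [Matrix.diagonal_apply, if_pos (by cases a; cases b; rfl)]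
      exact db_self w x
    · rw [Matrix.diagonal_apply_ne _ (by simp)]
      exact hxv b
    · rw [Matrix.diagonal_apply_ne _ (by simp)]
      exact (db_comm w _ _).trans (hxv a)
    · by_cases hab : a = b
      · subst hab
        rw [Matrix.diagonal_apply_eq]
        exact db_self w _
      · rw [Matrix.diagonal_apply_ne _ (by simpa using hab)]
        exact hv' a b hab
  let D : Unit ⊕ Fin m → F := Sum.elim (fun _ : Unit => dq w x) w'
  have hD : ∀ s, D s ≠ 0 := by
    rintro (s | s)
    · exact hx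
    · exact hnz s
  let Q : Matrix (Unit ⊕ Fin m) ι F :=
    Matrix.diagonal (fun s => (D s)⁻¹) * (P.transpose * Matrix.diagonal w)
  have hQP : Q * P = 1 := by
    change Matrix.diagonal (fun s => (D s)⁻¹) * (P.transpose * Matrix.diagonal w) * P = 1
    rw [Matrix.mul_assoc, hgram, Matrix.diagonal_mul_diagonal]
    rw [← Matrix.diagonal_one]
    congr 1
    funext s
    exact inv_mul_cancel₀ (hD s)
  have e : ι ≃ (Unit ⊕ Fin m) := Fintype.equivOfCardEq (by
    rw [hcard, Fintype.card_sum, Fintype.card_unit, Fintype.card_fin]; omega)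
  have hPQ : P * Q = 1 := (Matrix.mul_eq_one_comm_of_equiv e.symm).1 hQP
  exact ⟨m, w', P, Q, hcard, hnz, hPQ, hQP, hgram, fun i => rfl⟩

/-- An isotropic nondegenerate form is universal. -/
theorem exists_dq_eq (h2 : (2 : F) ≠ 0) {w : ι → F} (hw : NZ w) (ha : ¬ Aniso w) (c : F) :
    ∃ x : ι → F, dq w x = c := by
  classical
  simp only [Aniso, not_forall] at ha
  obtain ⟨x, hx, hx0⟩ := ha
  have : ∃ y, db w x y ≠ 0 := by
    by_contra h
    push_neg at h
    exact hx0 (eq_zero_of_db hw h)
  obtain ⟨y, hy⟩ := this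
  refine ⟨((c - dq w y) / (2 * db w x y)) • x + y, ?_⟩
  rw [dq_add, dq_smul, hx]
  have h3 : db w (((c - dq w y) / (2 * db w x y)) • x) y =
      ((c - dq w y) / (2 * db w x y)) * db w x y := by
    rw [← bil_apply, map_smul, LinearMap.smul_apply, bil_apply, smul_eq_mul]
  rw [h3]
  field_simp
  ring

namespace Split

/-- The isometry given by the matrices of `exists_compl`. -/
theorem weq_of_matrix {κ : Type*} [Fintype κ] [DecidableEq ι] [DecidableEq κ]
    {w : ι → F} {w' : κ → F} (P : Matrix ι κ F) (Q : Matrix κ ι F) (h1 : P * Q = 1)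
    (h3 : Q * P = 1) (h : P.transpose * Matrix.diagonal w * P = Matrix.diagonal w') :
    WEq w w' := by
  refine weq_of_isometry (Matrix.toLin'OfInv (M := P) (M' := Q) h1 h3) fun x => ?_
  have hx : P.mulVec (Q.mulVec x) = x := by
    rw [Matrix.mulVec_mulVec, h1, Matrix.one_mulVec]
  change dq w' (Q.mulVec x) = dq w x
  rw [← dq_mulVec P h, hx]

omit [Fintype ι] in
theorem NZ.sum {κ : Type*} {a : ι → F} {b : κ → F} (h : NZ a) (h' : NZ b) :
    NZ (Sum.elim a b) := by
  intro s
  rcases s with s | s
  · exact h s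
  · exact h' s

theorem weq_reindex {κ : Type*} [Fintype κ] (w : ι → F) (e : κ ≃ ι) :
    WEq w (fun k => w (e k)) := by
  refine weq_of_isometry (LinearEquiv.funCongrLeft F F e) fun x => ?_
  simp only [dq, LinearEquiv.funCongrLeft_apply, LinearMap.funLeft_apply]
  exact Fintype.sum_equiv e _ _ fun k => rfl

end Split

/-- An isotropic nondegenerate form is Witt equivalent to one with two variables less. -/
theorem exists_split (h2 : (2 : F) ≠ 0) {w : ι → F} (hw : NZ w) (ha : ¬ Aniso w) :
    ∃ (m : ℕ) (w' : Fin m → F), Fintype.card ι = m + 2 ∧ NZ w' ∧ WEq w w' := by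
  classical
  obtain ⟨x, hx⟩ := exists_dq_eq h2 hw ha 1
  obtain ⟨m₁, w₁, P, Q, hc, hw₁, hPQ, hQP, hG, -⟩ :=
    exists_compl h2 hw x (by rw [hx]; exact one_ne_zero)
  rw [hx] at hG
  have hW1 : WEq w (Sum.elim (fun _ : Unit => (1 : F)) w₁) := weq_of_matrix P Q hPQ hQP hG
  -- `w₁` represents `-1`
  have hrep : ∃ y : Fin m₁ → F, dq w₁ y = -1 := by
    by_cases ha₁ : Aniso w₁
    · have hiso : ∃ z : Unit ⊕ Fin m₁ → F, z ≠ 0 ∧
          dq (Sum.elim (fun _ : Unit => (1 : F)) w₁) z = 0 := by
        simp only [Aniso, not_forall] at ha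
        obtain ⟨z, hz, hz0⟩ := ha
        refine ⟨Q.mulVec z, ?_, ?_⟩
        · intro h0
          apply hz0
          have := congrArg P.mulVec h0
          rwa [Matrix.mulVec_mulVec, hPQ, Matrix.one_mulVec, Matrix.mulVec_zero] at this
        · rw [← dq_mulVec P hG, Matrix.mulVec_mulVec, hPQ, Matrix.one_mulVec]
          exact hz
      obtain ⟨z, hz0, hz⟩ := hiso
      have hz' : z (Sum.inl ()) ^ 2 + dq w₁ (fun j => z (Sum.inr j)) = 0 := by
        have : dq (Sum.elim (fun _ : Unit => (1 : F)) w₁) z =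
            z (Sum.inl ()) ^ 2 + dq w₁ (fun j => z (Sum.inr j)) := by
          simp [dq, Fintype.sum_sum_type]
        rw [← this]; exact hz
      have hs : z (Sum.inl ()) ≠ 0 := by
        intro hs
        rw [hs, zero_pow two_ne_zero, zero_add] at hz'
        have := ha₁ _ hz'
        apply hz0
        funext s
        rcases s with s | s
        · exact hs
        · exact congrFun this s
      refine ⟨(z (Sum.inl ()))⁻¹ • (fun j => z (Sum.inr j)), ?_⟩
      rw [dq_smul]
      have h5 : dq w₁ (fun j => z (Sum.inr j)) = - z (Sum.inl ()) ^ 2 := by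
        linear_combination hz'
      rw [h5]
      field_simp
    · exact exists_dq_eq h2 hw₁ ha₁ (-1)
  obtain ⟨y, hy⟩ := hrep
  obtain ⟨m₂, w₂, P₂, Q₂, hc₂, hw₂, hPQ₂, hQP₂, hG₂, -⟩ :=
    exists_compl h2 hw₁ y (by rw [hy]; exact neg_ne_zero.2 one_ne_zero)
  rw [hy] at hG₂
  have hW2 : WEq w₁ (Sum.elim (fun _ : Unit => (-1 : F)) w₂) := weq_of_matrix P₂ Q₂ hPQ₂ hQP₂ hG₂
  rw [Fintype.card_fin] at hc₂
  refine ⟨m₂, w₂, by omega, hw₂, ?_⟩
  have hone : NZ (fun _ : Unit => (1 : F)) := fun _ => one_ne_zero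
  have hmone : NZ (fun _ : Unit => (-1 : F)) := fun _ => neg_ne_zero.2 one_ne_zero
  have hS : WEq w (Sum.elim w₂ (Sum.elim (fun _ : Unit => (1 : F)) (fun _ : Unit => - (1 : F)))) := by
    have t1 : WEq w (Sum.elim (fun _ : Unit => (1 : F)) (Sum.elim (fun _ : Unit => (-1 : F)) w₂)) :=
      WEq.trans h2 hw (NZ.sum hone hw₁) (NZ.sum hone (NZ.sum hmone hw₂)) hW1
        (WEq.sum (WEq.refl _) hW2)
    let e : (Fin m₂ ⊕ (Unit ⊕ Unit)) ≃ (Unit ⊕ (Unit ⊕ Fin m₂)) :=
      (Equiv.sumComm _ _).trans (Equiv.sumAssoc _ _ _)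
    have t2 := weq_reindex (Sum.elim (fun _ : Unit => (1 : F))
      (Sum.elim (fun _ : Unit => (-1 : F)) w₂)) e
    have t3 : (fun k => (Sum.elim (fun _ : Unit => (1 : F))
        (Sum.elim (fun _ : Unit => (-1 : F)) w₂)) (e k)) =
        Sum.elim w₂ (Sum.elim (fun _ : Unit => (1 : F)) (fun _ : Unit => - (1 : F))) := by
      funext k
      rcases k with k | k | k <;> rfl
    rw [t3] at t2
    exact WEq.trans h2 hw (NZ.sum hone (NZ.sum hmone hw₂)) (NZ.sum hw₂ (NZ.sum hone hmone)) t1 t2
  exact WEq.drop h2 hw hw₂ (NZ.sum hone hmone) hS (lag_self_neg _)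

theorem exists_aniso_part (h2 : (2 : F) ≠ 0) {w : ι → F} (hw : NZ w) :
    ∃ (m : ℕ) (w' : Fin m → F), m ≤ Fintype.card ι ∧ NZ w' ∧ Aniso w' ∧ WEq w w' := by
  -- first for forms indexed by `Fin n`
  have key : ∀ (n : ℕ) (u : Fin n → F), NZ u →
      ∃ (m : ℕ) (w' : Fin m → F), m ≤ n ∧ NZ w' ∧ Aniso w' ∧ WEq u w' := by
    intro n
    induction n using Nat.strong_induction_on with
    | _ n ih =>
      intro u hu
      by_cases ha : Aniso u
      · exact ⟨n, u, le_rfl, hu, ha, WEq.refl u⟩
      · obtain ⟨m, u', hm, hu', h⟩ := exists_split h2 hu ha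
        rw [Fintype.card_fin] at hm
        obtain ⟨m', w', hm', hw', ha', h'⟩ := ih m (by omega) u' hu'
        exact ⟨m', w', by omega, hw', ha', WEq.trans h2 hu hu' hw' h h'⟩
  have e : Fin (Fintype.card ι) ≃ ι := (Fintype.equivFin ι).symm
  have hwe : NZ (fun k => w (e k)) := fun k => hw (e k)
  obtain ⟨m, w', hm, hw', ha', h'⟩ := key (Fintype.card ι) (fun k => w (e k)) hwe
  exact ⟨m, w', hm, hw', ha', WEq.trans h2 hw hwe hw' (weq_reindex w e) h'⟩

end WInv
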