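import Pool.Agent.WInv.WittRing
import Pool.Agent.WInv.Pfister

/-!
# Module Q11: torsion in the Witt ring is 2-primary (MP_2fcb4d_al)
-/

set_option autoImplicit false

namespace WInv

universe u

namespace Tors

variable {F : Type u} [Field F]

/-- the Witt ring with a single path to all its algebraic instances -/
def WR (F : Type u) [Field F] : Type u := WittRing F

noncomputable instance : CommRing (WR F) := Ideal.Quotient.commRing (hypIdeal F)

/-- the projection -/
noncomputable def pr : MonoidAlgebra ℤ Fˣ →+* WR F := Ideal.Quotient.mk (hypIdeal F)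

/-- the class of a form -/
noncomputable def cl {ι : Type*} [Fintype ι] (w : ι → Fˣ) : WR F := cls w

theorem cl_eq {ι : Type*} [Fintype ι] (w : ι → Fˣ) : cl w = pr (brk w) := rfl

theorem cl_eq_zero_iff {ι : Type*} [Fintype ι] (h2 : (2 : F) ≠ 0) (w : ι → Fˣ) :
    cl w = 0 ↔ Lag (fun i => (w i : F)) := cls_eq_zero_iff h2 w

theorem cl_eq_cl_iff {ι κ : Type*} [Fintype ι] [Fintype κ] (h2 : (2 : F) ≠ 0) (w : ι → Fˣ)
    (w' : κ → Fˣ) : cl w = cl w' ↔ WEq (fun i => (w i : F)) (fun j => (w' j : F)) :=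
  cls_eq_cls_iff h2 w w'

theorem cl_neg {ι : Type*} [Fintype ι] (w : ι → Fˣ) : cl (fun i => - w i) = - cl w := cls_neg w

/-- class of a one-dimensional form -/
noncomputable def c1 (u : Fˣ) : WR F := pr (MonoidAlgebra.of ℤ Fˣ u)

theorem cl_eq_sum {ι : Type*} [Fintype ι] (w : ι → Fˣ) : cl w = ∑ i, c1 (w i) := by
  rw [cl_eq]
  unfold brk c1
  rw [map_sum]

theorem c1_mul (u v : Fˣ) : c1 (u * v) = c1 u * c1 v := by
  unfold c1
  rw [map_mul, map_mul]

theorem c1_one : c1 (1 : Fˣ) = 1 := by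
  unfold c1
  rw [map_one, map_one]

theorem c1_eq (u : Fˣ) : c1 u = cl (fun _ : Unit => u) := by
  rw [cl_eq_sum]
  simp

theorem c1_neg (u : Fˣ) : c1 (-u) = - c1 u := by
  rw [c1_eq, c1_eq, ← cl_neg]

theorem c1_sq (h2 : (2 : F) ≠ 0) (u : Fˣ) : c1 u * c1 u = 1 := by
  rw [← c1_mul, ← c1_one, c1_eq, c1_eq, cl_eq_cl_iff h2]
  refine weq_of_isometry (LinearEquiv.smulOfUnit u) ?_
  intro x
  have e : ∀ i, (LinearEquiv.smulOfUnit u : (Unit → F) ≃ₗ[F] (Unit → F)) x i = (u : F) * x i := by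
    intro i
    rfl
  simp only [dq, Finset.univ_unique, Finset.sum_singleton, e, Units.val_one, Units.val_mul]
  ring

theorem c1_prod {ι : Type*} (s : Finset ι) (a : ι → Fˣ) :
    c1 (∏ i ∈ s, a i) = ∏ i ∈ s, c1 (a i) := by
  classical
  induction s using Finset.induction_on with
  | empty => simpa using c1_one
  | insert i s hi ih => rw [Finset.prod_insert hi, Finset.prod_insert hi, c1_mul, ih]

theorem cl_pf {n : ℕ} (a : Fin n → Fˣ) :
    cl (fun S : Finset (Fin n) => ∏ i ∈ S, a i) = ∏ i, (1 + c1 (a i)) := by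
  rw [cl_eq_sum, Finset.prod_one_add, Finset.powerset_univ]
  exact Finset.sum_congr rfl fun S _ => c1_prod S a

theorem pf_units {n : ℕ} (a : Fin n → Fˣ) :
    (fun S : Finset (Fin n) => ((∏ i ∈ S, a i : Fˣ) : F)) = pf (fun i => (a i : F)) := by
  funext S
  simp [pf]

/-- `M` copies -/
theorem cl_copies {ι : Type*} [Fintype ι] (M : ℕ) (w : ι → Fˣ) :
    cl (fun p : Fin M × ι => w p.2) = (M : WR F) * cl w := by
  rw [cl_eq_sum, cl_eq_sum, Fintype.sum_prod_type]
  simp

theorem pf_torsion (h2 : (2 : F) ≠ 0) {k : ℕ} (a : Fin k → Fˣ) (M : ℕ) (hM : 0 < M)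
    (h : (M : WR F) * (∏ i, (1 + c1 (a i)) : WR F) = 0) :
    (2 : WR F) ^ M * (∏ i, (1 + c1 (a i)) : WR F) = 0 := by
  classical
  set e : WR F := ∏ i, (1 + c1 (a i)) with he
  set b : Fin (k + M) → Fˣ := Fin.append a (fun _ => 1) with hb
  have hcls : cl (fun S : Finset (Fin (k + M)) => ∏ i ∈ S, b i) = (2 : WR F) ^ M * e := by
    rw [cl_pf, Fin.prod_univ_add]
    simp only [hb, Fin.append_left, Fin.append_right, c1_one]
    rw [← he, Finset.prod_const, Finset.card_univ, Fintype.card_fin]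
    ring
  have hMle : M ≤ 2 ^ M := Nat.lt_two_pow_self.le
  have hnot : ¬ Aniso (pf (fun i => (b i : F))) := by
    intro han
    have h3 : cl (fun S : Finset (Fin (k + M)) => ∏ i ∈ S, b i) =
        cl (fun p : Fin (2 ^ M - M) × Finset (Fin k) => ∏ i ∈ p.2, a i) := by
      rw [hcls, cl_copies (2 ^ M - M) (fun S : Finset (Fin k) => ∏ i ∈ S, a i), cl_pf, ← he,
        Nat.cast_sub hMle, sub_mul, h, sub_zero]
      push_cast
      rfl
    rw [cl_eq_cl_iff h2] at h3
    rw [pf_units] at h3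
    have h4 := card_le_of_aniso han h3
    rw [Fintype.card_prod, Fintype.card_finset, Fintype.card_finset, Fintype.card_fin,
      Fintype.card_fin, Fintype.card_fin, pow_add] at h4
    have h5 : (2 ^ M - M) * 2 ^ k < 2 ^ k * 2 ^ M := by
      rw [mul_comm]
      apply Nat.mul_lt_mul_of_pos_left
      · omega
      · positivity
    omega
  have hlag := lag_pf h2 (fun i => (b i : F)) (fun i => (b i).ne_zero) hnot
  rw [← pf_units] at hlag
  rw [← hcls]
  exact (cl_eq_zero_iff h2 _).2 hlag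

/-- the abstract argument -/
theorem abs_main {W : Type*} [CommRing W] {k : ℕ} (y : Fin k → W) (hy : ∀ i, y i * y i = 1)
    (m : ℕ) (hm : 0 < m) (hx : (m : W) * ∑ i, y i = 0)
    (hpf : ∀ z : Fin k → W, (∀ i, z i = y i ∨ z i = - y i) → ∀ M : ℕ, 0 < M →
      (M : W) * ∏ i, (1 + z i) = 0 → (2 : W) ^ M * ∏ i, (1 + z i) = 0) :
    ∃ l : ℕ, (2 : W) ^ l * ∑ i, y i = 0 := by
  classical
  -- signs
  let η : Bool → W := fun b => if b then 1 else -1
  let η' : Bool → ℤ := fun b => if b then 1 else -1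
  have hηη : ∀ b, ((η' b : ℤ) : W) = η b := by
    intro b
    cases b <;> simp [η, η']
  have hη : ∀ b, η b * η b = 1 := by
    intro b
    cases b <;> simp [η]
  let e : (Fin k → Bool) → W := fun ε => ∏ i, (1 + η (ε i) * y i)
  let s : (Fin k → Bool) → ℤ := fun ε => ∑ i, η' (ε i)
  -- eigenvalues
  have hmul : ∀ ε i, y i * e ε = η (ε i) * e ε := by
    intro ε i
    have h1 : e ε = (1 + η (ε i) * y i) * ∏ j ∈ Finset.univ.erase i, (1 + η (ε j) * y j) :=
      (Finset.mul_prod_erase Finset.univ (fun j => 1 + η (ε j) * y j) (Finset.mem_univ i)).symm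
    rw [h1, ← mul_assoc, ← mul_assoc]
    congr 1
    have h3 := hy i
    have h4 := hη (ε i)
    linear_combination η (ε i) * h3 - y i * h4
  have hxe : ∀ ε, (∑ i, y i) * e ε = (s ε : W) * e ε := by
    intro ε
    rw [Finset.sum_mul]
    simp only [hmul]
    rw [← Finset.sum_mul]
    simp only [s, Int.cast_sum, hηη]
  have hsum : ∑ ε, e ε = 2 ^ k := by
    have h1 : ∏ i : Fin k, ∑ b : Bool, (1 + η b * y i) = ∑ ε, e ε := by
      rw [Finset.prod_univ_sum, Fintype.piFinset_univ]
    rw [← h1]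
    have h3 : ∀ i : Fin k, ∑ b : Bool, (1 + η b * y i) = 2 := by
      intro i
      rw [Fintype.sum_bool]
      simp only [η, if_true]
      simp only [Bool.false_eq_true, if_false]
      ring
    simp only [h3]
    rw [Finset.prod_const, Finset.card_univ, Fintype.card_fin]
  -- torsion of each piece
  have hl : ∀ ε, ∃ l : ℕ, (2 : W) ^ l * ((s ε : W) * e ε) = 0 := by
    intro ε
    by_cases hs : s ε = 0
    · exact ⟨0, by rw [hs]; simp⟩
    · set M := (m * s ε).natAbs with hM
      have hM0 : 0 < M := Int.natAbs_pos.2 (mul_ne_zero (by exact_mod_cast hm.ne') hs)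
      have h1 : ((m * s ε : ℤ) : W) * e ε = 0 := by
        push_cast
        rw [mul_assoc, ← hxe, ← mul_assoc, hx, zero_mul]
      have h3 : (M : W) * e ε = 0 := by
        rcases Int.natAbs_eq (m * s ε) with h4 | h4
        · rw [h4, Int.cast_natCast] at h1
          exact h1
        · rw [h4, Int.cast_neg, Int.cast_natCast, neg_mul, neg_eq_zero] at h1
          exact h1
      have h5 : (2 : W) ^ M * e ε = 0 := by
        refine hpf (fun i => η (ε i) * y i) (fun i => ?_) M hM0 h3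
        by_cases h : ε i = true
        · left; simp [η, h]
        · right; simp [η, h]
      refine ⟨M, ?_⟩
      rw [mul_left_comm, h5, mul_zero]
  choose l hl using hl
  refine ⟨k + ∑ ε, l ε, ?_⟩
  have h1 : (2 : W) ^ k * ∑ i, y i = ∑ ε, (s ε : W) * e ε := by
    rw [← hsum, mul_comm, Finset.mul_sum]
    exact Finset.sum_congr rfl fun ε _ => hxe ε
  rw [pow_add, mul_comm ((2 : W) ^ k), mul_assoc, h1, Finset.mul_sum]
  apply Finset.sum_eq_zero
  intro ε _
  have h3 : ∑ ε, l ε = (∑ ε, l ε - l ε) + l ε := by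
    have := Finset.single_le_sum (f := l) (fun _ _ => Nat.zero_le _) (Finset.mem_univ ε)
    omega
  rw [h3, pow_add, mul_assoc, hl ε, mul_zero]

theorem main (h2 : (2 : F) ≠ 0) (x : WR F) {k : ℕ} (w : Fin k → Fˣ) (hw : x = cl w) (m : ℕ)
    (hm : 0 < m) (hx : (m : WR F) * x = 0) : ∃ l : ℕ, (2 : WR F) ^ l * x = 0 := by
  rw [hw, cl_eq_sum] at hx ⊢
  refine abs_main (fun i => c1 (w i)) (fun i => c1_sq h2 (w i)) m hm hx ?_
  intro z hz M hM h
  have hex : ∀ i, ∃ u : Fˣ, z i = c1 u := by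
    intro i
    rcases hz i with h | h
    · exact ⟨w i, h⟩
    · exact ⟨- w i, by rw [c1_neg]; exact h⟩
  choose a ha using hex
  have hz' : z = fun i => c1 (a i) := funext ha
  subst hz'
  exact pf_torsion h2 a M hM h

end Tors

theorem two_pow_torsion {F : Type u} [Field F] (h2 : (2 : F) ≠ 0) (x : WittRing F) (m : ℕ)
    (hm : 0 < m) (hx : m • x = 0) : ∃ l : ℕ, (2 ^ l) • x = 0 := by
  obtain ⟨k, w, hw⟩ := exists_cls x
  let y : Tors.WR F := x
  have hy : m • y = 0 := hx
  rw [nsmul_eq_mul] at hy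
  obtain ⟨l, hl⟩ := Tors.main h2 y w hw m hm hy
  refine ⟨l, ?_⟩
  have h3 : (2 ^ l) • y = 0 := by
    rw [nsmul_eq_mul]
    push_cast
    exact hl
  exact h3

end WInv
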