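import Pool.Agent.WInv.Split

/-!
# Module Q9: the Witt ring (MP_2fcb4d_al)

`WittRing F` is the group ring `ℤ[Fˣ]` (the generator `u` is the one-dimensional form `⟨u⟩`)
modulo the ideal generated by the hyperbolic diagonal forms. `fundI F` is the fundamental ideal
(classes of forms of even dimension).
-/

set_option autoImplicit false

namespace WInv

universe u

variable {F : Type u} [Field F] {ι κ : Type*} [Fintype ι] [Fintype κ]

/-- The element of the group ring given by the diagonal form `w`. -/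
noncomputable def brk (w : ι → Fˣ) : MonoidAlgebra ℤ Fˣ :=
  ∑ i, MonoidAlgebra.of ℤ Fˣ (w i)

/-- The ideal of the group ring generated by the hyperbolic diagonal forms. -/
noncomputable def hypIdeal (F : Type u) [Field F] : Ideal (MonoidAlgebra ℤ Fˣ) :=
  Ideal.span {f | ∃ (n : ℕ) (w : Fin n → Fˣ), Lag (fun i => (w i : F)) ∧ f = brk w}

/-- The Witt ring. -/
abbrev WittRing (F : Type u) [Field F] : Type u := MonoidAlgebra ℤ Fˣ ⧸ hypIdeal F

/-- The class of a diagonal form in the Witt ring. -/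
noncomputable def cls (w : ι → Fˣ) : WittRing F := Ideal.Quotient.mk (hypIdeal F) (brk w)

/-- The fundamental ideal: generated by the classes of forms of even dimension. -/
noncomputable def fundI (F : Type u) [Field F] : Ideal (WittRing F) :=
  Ideal.span {x | ∃ (k : ℕ) (w : Fin (2 * k) → Fˣ), x = cls w}

namespace WittRingAux

theorem brk_sum (w : ι → Fˣ) (w' : κ → Fˣ) : brk (Sum.elim w w') = brk w + brk w' := by
  simp [brk, Fintype.sum_sum_type]

theorem brk_reindex (e : ι ≃ κ) (w : κ → Fˣ) : brk (fun i => w (e i)) = brk w := by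
  unfold brk
  exact Equiv.sum_comp e (fun j => MonoidAlgebra.of ℤ Fˣ (w j))

theorem brk_mul (w : ι → Fˣ) (w' : κ → Fˣ) :
    brk w * brk w' = brk (fun p : ι × κ => w p.1 * w' p.2) := by
  unfold brk
  rw [Finset.sum_mul_sum, Fintype.sum_prod_type]
  simp only [map_mul]

theorem brk_unit (u : Fˣ) : brk (fun _ : Unit => u) = MonoidAlgebra.of ℤ Fˣ u := by
  simp [brk]

theorem coe_elim (w : ι → Fˣ) (w' : κ → Fˣ) :
    (fun i => ((Sum.elim w w' i : Fˣ) : F)) = Sum.elim (fun i => (w i : F)) (fun j => (w' j : F)) := by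
  funext i
  cases i <;> rfl

theorem coe_elim_neg (w : ι → Fˣ) (w' : κ → Fˣ) :
    (fun i => ((Sum.elim w (fun j => - w' j) i : Fˣ) : F)) =
      Sum.elim (fun i => (w i : F)) (fun j => - (w' j : F)) := by
  funext i
  cases i <;> simp

theorem nz (w : ι → Fˣ) : NZ (fun i => (w i : F)) := fun i => (w i).ne_zero

/-- the Lagrangian property does not depend on the indexing -/
theorem lag_reindex_iff {w : κ → F} (e : ι ≃ κ) : Lag (fun i => w (e i)) ↔ Lag w := by
  constructor
  · intro h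
    have := Lag.reindex e.symm h
    simpa using this
  · exact Lag.reindex e

theorem brk_mem_of_lag (w : ι → Fˣ) (h : Lag (fun i => (w i : F))) : brk w ∈ hypIdeal F := by
  classical
  have e := Fintype.equivFin ι
  refine Ideal.subset_span ⟨Fintype.card ι, fun i => w (e.symm i), ?_, ?_⟩
  · exact Lag.reindex e.symm h
  · rw [brk_reindex]

theorem cls_eq_zero_of_lag (w : ι → Fˣ) (h : Lag (fun i => (w i : F))) : cls w = 0 :=
  Ideal.Quotient.eq_zero_iff_mem.mpr (brk_mem_of_lag w h)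

end WittRingAux

open WittRingAux

theorem cls_sum (w : ι → Fˣ) (w' : κ → Fˣ) : cls (Sum.elim w w') = cls w + cls w' := by
  unfold cls
  rw [brk_sum, map_add]

theorem cls_reindex (e : ι ≃ κ) (w : κ → Fˣ) : cls (fun i => w (e i)) = cls w := by
  unfold cls
  rw [brk_reindex]

theorem cls_neg (w : ι → Fˣ) : cls (fun i => - w i) = - cls w := by
  rw [eq_neg_iff_add_eq_zero, add_comm, ← cls_sum]
  apply cls_eq_zero_of_lag
  rw [coe_elim_neg]
  exact lag_self_neg _

theorem cls_mul (w : ι → Fˣ) (w' : κ → Fˣ) :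
    cls w * cls w' = cls (fun p : ι × κ => w p.1 * w' p.2) := by
  unfold cls
  rw [← map_mul, brk_mul]

theorem cls_one : cls (fun _ : Unit => (1 : Fˣ)) = 1 := by
  unfold cls
  rw [brk_unit, map_one, map_one]

namespace WittRingAux

/-- `MonoidAlgebra` is additively generated by the group elements -/
theorem induct {P : MonoidAlgebra ℤ Fˣ → Prop} (x : MonoidAlgebra ℤ Fˣ)
    (h1 : ∀ u, P (MonoidAlgebra.of ℤ Fˣ u)) (hadd : ∀ x y, P x → P y → P (x + y))
    (h0 : P 0) (hneg : ∀ x, P x → P (-x)) : P x := by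
  refine MonoidAlgebra.induction_on x h1 hadd ?_
  intro r x hx
  have hn : ∀ n : ℕ, P (n • x) := by
    intro n
    induction n with
    | zero => simpa using h0
    | succ n ih => rw [succ_nsmul]; exact hadd _ _ ih hx
  rcases Int.eq_nat_or_neg r with ⟨n, rfl | rfl⟩
  · have := hn n
    simpa using this
  · have := hneg _ (hn n)
    simpa using this

/-- the classes are closed under addition, indexed by `Fin` -/
theorem exists_cls_add {m m' : ℕ} (w : Fin m → Fˣ) (w' : Fin m' → Fˣ) :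
    ∃ (n : ℕ) (v : Fin n → Fˣ), brk v = brk w + brk w' := by
  refine ⟨m + m', fun i => Sum.elim w w' (finSumFinEquiv.symm i), ?_⟩
  rw [brk_reindex finSumFinEquiv.symm (Sum.elim w w'), brk_sum]

end WittRingAux

theorem exists_cls (x : WittRing F) : ∃ (m : ℕ) (w : Fin m → Fˣ), x = cls w := by
  obtain ⟨f, rfl⟩ := Ideal.Quotient.mk_surjective x
  induction f using WittRingAux.induct with
  | h1 u =>
    refine ⟨1, fun _ => u, ?_⟩
    simp [cls, brk]
  | hadd x y hx hy =>
    obtain ⟨m, w, hw⟩ := hx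
    obtain ⟨m', w', hw'⟩ := hy
    obtain ⟨n, v, hv⟩ := exists_cls_add w w'
    refine ⟨n, v, ?_⟩
    rw [map_add, hw, hw']
    unfold cls
    rw [hv, map_add]
  | h0 =>
    refine ⟨0, Fin.elim0, ?_⟩
    simp [cls, brk]
  | hneg x hx =>
    obtain ⟨m, w, hw⟩ := hx
    refine ⟨m, fun i => - w i, ?_⟩
    rw [map_neg, hw, cls_neg]

namespace WittRingAux

/-- equality in the group ring means equality of the multisets of entries -/
theorem exists_equiv_of_brk_eq {w : ι → Fˣ} {w' : κ → Fˣ} (h : brk w = brk w') :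
    ∃ e : ι ≃ κ, ∀ i, w' (e i) = w i := by
  classical
  have hc1 : ∀ u, (brk w).coeff u = (Fintype.card {i // w i = u} : ℤ) := by
    intro u
    unfold brk
    simp [MonoidAlgebra.coeff_sum, Finsupp.single_apply, Fintype.card_subtype]
  have hc2 : ∀ u, (brk w').coeff u = (Fintype.card {i // w' i = u} : ℤ) := by
    intro u
    unfold brk
    simp [MonoidAlgebra.coeff_sum, Finsupp.single_apply, Fintype.card_subtype]
  have hcard : ∀ u, Fintype.card {i // w i = u} = Fintype.card {j // w' j = u} := by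
    intro u
    have h3 := hc1 u
    rw [h, hc2 u] at h3
    exact_mod_cast h3.symm
  exact ⟨Equiv.ofFiberEquiv (fun u => Fintype.equivOfCardEq (hcard u)),
    fun i => Equiv.ofFiberEquiv_map _ i⟩

theorem weq_reindex {ι' κ' : Type*} [Fintype ι'] [Fintype κ'] {w : ι → F} {w' : κ → F}
    (e : ι' ≃ ι) (e' : κ' ≃ κ) (h : WEq w w') :
    WEq (fun i => w (e i)) (fun j => w' (e' j)) := by
  have h1 := Lag.reindex (Equiv.sumCongr e e') h
  have h2 : (fun i => (Sum.elim w (fun j => - w' j)) ((Equiv.sumCongr e e') i)) =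
      Sum.elim (fun i => w (e i)) (fun j => - w' (e' j)) := by
    funext i
    cases i <;> rfl
  rw [h2] at h1
  exact h1

/-- forms up to Witt equivalence, as a subset of the group ring -/
def Rel (f : MonoidAlgebra ℤ Fˣ) : Prop :=
  ∃ (m n : ℕ) (w : Fin m → Fˣ) (w' : Fin n → Fˣ), f = brk w - brk w' ∧
    WEq (fun i => (w i : F)) (fun j => (w' j : F))

theorem rel_of {w : ι → Fˣ} {w' : κ → Fˣ} (h : WEq (fun i => (w i : F)) (fun j => (w' j : F))) :
    Rel (brk w - brk w') := by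
  classical
  have e := (Fintype.equivFin ι).symm
  have e' := (Fintype.equivFin κ).symm
  refine ⟨_, _, fun i => w (e i), fun j => w' (e' j), ?_, weq_reindex e e' h⟩
  rw [brk_reindex, brk_reindex]

theorem Rel.zero : Rel (0 : MonoidAlgebra ℤ Fˣ) := by
  have h := rel_of (F := F) (WEq.refl (fun i => ((Fin.elim0 i : Fˣ) : F)) : WEq
    (fun i : Fin 0 => ((Fin.elim0 i : Fˣ) : F)) (fun i : Fin 0 => ((Fin.elim0 i : Fˣ) : F)))
  simpa using h

theorem Rel.neg {f : MonoidAlgebra ℤ Fˣ} (h : Rel f) : Rel (-f) := by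
  obtain ⟨m, n, w, w', rfl, h⟩ := h
  rw [neg_sub]
  exact rel_of h.symm

theorem Rel.add {f g : MonoidAlgebra ℤ Fˣ} (hf : Rel f) (hg : Rel g) : Rel (f + g) := by
  obtain ⟨m, n, w, w', rfl, h⟩ := hf
  obtain ⟨m₁, n₁, v, v', rfl, h₁⟩ := hg
  have h2 := WEq.sum h h₁
  rw [← coe_elim, ← coe_elim] at h2
  have h3 := rel_of h2
  rw [brk_sum, brk_sum] at h3
  have h4 : brk w - brk w' + (brk v - brk v') = brk w + brk v - (brk w' + brk v') := by ring
  rw [h4]
  exact h3

theorem Rel.of_mul {f : MonoidAlgebra ℤ Fˣ} (hf : Rel f) (u : Fˣ) :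
    Rel (MonoidAlgebra.of ℤ Fˣ u * f) := by
  obtain ⟨m, n, w, w', rfl, h⟩ := hf
  have h1 := WEq.smul h (u : F)
  have h2 : WEq (fun i => ((u * w i : Fˣ) : F)) (fun j => ((u * w' j : Fˣ) : F)) := by
    simpa using h1
  have h3 := rel_of h2
  have h4 : ∀ {k : ℕ} (v : Fin k → Fˣ), brk (fun i => u * v i) = MonoidAlgebra.of ℤ Fˣ u * brk v := by
    intro k v
    unfold brk
    rw [Finset.mul_sum]
    simp only [map_mul]
  rw [mul_sub, ← h4, ← h4]
  exact h3

theorem Rel.mul {f : MonoidAlgebra ℤ Fˣ} (hf : Rel f) (g : MonoidAlgebra ℤ Fˣ) : Rel (g * f) := by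
  induction g using WittRingAux.induct with
  | h1 u => exact hf.of_mul u
  | hadd x y hx hy => rw [add_mul]; exact hx.add hy
  | h0 => rw [zero_mul]; exact Rel.zero
  | hneg x hx => rw [neg_mul]; exact hx.neg

theorem lag_empty {w : Fin 0 → F} : Lag w :=
  ⟨⊥, by simp, by
    intro x _
    simp [dq]⟩

theorem rel_of_mem {f : MonoidAlgebra ℤ Fˣ} (hf : f ∈ hypIdeal F) : Rel f := by
  unfold hypIdeal at hf
  induction hf using Submodule.span_induction with
  | mem x hx =>
    obtain ⟨n, w, hw, rfl⟩ := hx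
    have h1 : WEq (fun i => (w i : F)) (fun i : Fin 0 => ((Fin.elim0 i : Fˣ) : F)) :=
      weq_of_lag hw lag_empty
    have h2 := rel_of h1
    have h3 : brk (fun i : Fin 0 => (Fin.elim0 i : Fˣ)) = 0 := by simp [brk]
    rw [h3, sub_zero] at h2
    exact h2
  | zero => exact Rel.zero
  | add x y _ _ hx hy => exact hx.add hy
  | smul a x _ hx => exact hx.mul a

end WittRingAux

/-- The kernel of `ℤ[Fˣ] → W(F)` consists exactly of the hyperbolic forms. -/
theorem cls_eq_zero_iff (h2 : (2 : F) ≠ 0) (w : ι → Fˣ) :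
    cls w = 0 ↔ Lag (fun i => (w i : F)) := by
  constructor
  · intro h
    have h1 : brk w ∈ hypIdeal F := Ideal.Quotient.eq_zero_iff_mem.mp h
    obtain ⟨m, n, w₁, w₂, hw, hrel⟩ := rel_of_mem h1
    have h3 : brk (Sum.elim w w₂) = brk w₁ := by
      rw [brk_sum, hw]
      ring
    obtain ⟨e, he⟩ := exists_equiv_of_brk_eq h3
    have h4 := weq_reindex e (Equiv.refl _) hrel
    have h5 : (fun i => ((w₁ (e i) : Fˣ) : F)) = Sum.elim (fun i => (w i : F)) (fun j => (w₂ j : F)) := by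
      rw [← coe_elim]
      funext i
      rw [he i]
    rw [h5] at h4
    have h6 : Lag (Sum.elim (fun i => (w i : F))
        (Sum.elim (fun j => (w₂ j : F)) (fun j => - (w₂ j : F)))) := by
      have h7 := Lag.reindex (Equiv.sumAssoc ι (Fin n) (Fin n)).symm h4
      convert h7 using 1
      funext i
      rcases i with i | i | i <;> rfl
    refine Lag.cancel h2 (nz w) ?_ h6 (lag_self_neg _)
    rintro (i | i)
    · exact (w₂ i).ne_zero
    · exact neg_ne_zero.mpr (w₂ i).ne_zero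
  · exact cls_eq_zero_of_lag w

theorem cls_eq_cls_iff (h2 : (2 : F) ≠ 0) (w : ι → Fˣ) (w' : κ → Fˣ) :
    cls w = cls w' ↔ WEq (fun i => (w i : F)) (fun j => (w' j : F)) := by
  rw [← sub_eq_zero, sub_eq_add_neg, ← cls_neg, ← cls_sum, cls_eq_zero_iff h2, coe_elim_neg]
  exact Iff.rfl

namespace WittRingAux

section abs

variable {R : Type*} [CommRing R] (θ : Fˣ →* R)

/-- the image of a diagonal form -/
noncomputable def sm (w : ι → Fˣ) : R := ∑ i, θ (w i)

/-- the image of a scaled Pfister form -/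
noncomputable def pfc {n : ℕ} (c : Fˣ) (a : Fin n → Fˣ) : R :=
  θ c * ∏ i, (1 + θ (a i))

theorem pfc_eq {n : ℕ} (c : Fˣ) (a : Fin n → Fˣ) :
    pfc θ c a = ∑ S : Finset (Fin n), θ (c * ∏ i ∈ S, a i) := by
  classical
  unfold pfc
  rw [Finset.prod_one_add, Finset.powerset_univ, Finset.mul_sum]
  refine Finset.sum_congr rfl fun S _ => ?_
  rw [map_mul, map_prod]

theorem sm_pfister {r n : ℕ} (c : Fin r → Fˣ) (a : Fin r → Fin n → Fˣ) :
    sm θ (fun p : Fin r × Finset (Fin n) => c p.1 * ∏ i ∈ p.2, a p.1 i) =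
      ∑ j, pfc θ (c j) (a j) := by
  unfold sm
  rw [Fintype.sum_prod_type]
  refine Finset.sum_congr rfl fun j _ => ?_
  rw [pfc_eq]

/-- sums of classes of scaled Pfister forms -/
def PS (n : ℕ) (x : R) : Prop :=
  ∃ (r : ℕ) (c : Fin r → Fˣ) (a : Fin r → Fin n → Fˣ), x = ∑ j, pfc θ (c j) (a j)

variable {θ}

theorem ps_of_fintype {n : ℕ} {ρ : Type*} [Fintype ρ] (c : ρ → Fˣ) (a : ρ → Fin n → Fˣ) :
    PS θ n (∑ j, pfc θ (c j) (a j)) := by
  classical
  have e := (Fintype.equivFin ρ).symm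
  refine ⟨_, fun i => c (e i), fun i => a (e i), ?_⟩
  exact (Equiv.sum_comp e (fun j => pfc θ (c j) (a j))).symm

theorem PS.zero (n : ℕ) : PS θ n (0 : R) :=
  ⟨0, Fin.elim0, Fin.elim0, by simp⟩

theorem PS.add {n : ℕ} {x y : R} (hx : PS θ n x) (hy : PS θ n y) : PS θ n (x + y) := by
  obtain ⟨r, c, a, rfl⟩ := hx
  obtain ⟨r', c', a', rfl⟩ := hy
  have h := ps_of_fintype (θ := θ) (Sum.elim c c') (Sum.elim a a')
  rw [Fintype.sum_sum_type] at h
  exact h

theorem PS.sum {n : ℕ} {ρ : Type*} (s : Finset ρ) (f : ρ → R) (h : ∀ i, PS θ n (f i)) :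
    PS θ n (∑ i ∈ s, f i) := by
  classical
  induction s using Finset.induction_on with
  | empty => simpa using PS.zero n
  | insert i s hi ih => rw [Finset.sum_insert hi]; exact (h i).add ih

theorem PS.unit_mul {n : ℕ} {x : R} (hx : PS θ n x) (u : Fˣ) : PS θ n (θ u * x) := by
  obtain ⟨r, c, a, rfl⟩ := hx
  refine ⟨r, fun j => u * c j, a, ?_⟩
  rw [Finset.mul_sum]
  refine Finset.sum_congr rfl fun j _ => ?_
  unfold pfc
  rw [map_mul, mul_assoc]

theorem PS.mul (hθ : ∀ y : R, ∃ (m : ℕ) (w : Fin m → Fˣ), y = sm θ w) {n : ℕ} {x : R}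
    (hx : PS θ n x) (y : R) : PS θ n (y * x) := by
  obtain ⟨m, w, rfl⟩ := hθ y
  unfold sm
  rw [Finset.sum_mul]
  exact PS.sum _ _ fun i => hx.unit_mul (w i)

theorem ps_zero (hθ : ∀ y : R, ∃ (m : ℕ) (w : Fin m → Fˣ), y = sm θ w) (x : R) : PS θ 0 x := by
  have h : PS θ 0 (1 : R) := ⟨1, fun _ => 1, fun _ => Fin.elim0, by simp [pfc]⟩
  simpa using PS.mul hθ h x

theorem ps_one_of_mem (hθ : ∀ y : R, ∃ (m : ℕ) (w : Fin m → Fˣ), y = sm θ w) {x : R}
    (hx : x ∈ Ideal.span {x | ∃ (k : ℕ) (w : Fin (2 * k) → Fˣ), x = sm θ w}) : PS θ 1 x := by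
  induction hx using Submodule.span_induction with
  | mem x hx =>
    obtain ⟨k, w, rfl⟩ := hx
    have key : ∀ k : ℕ, ∀ w : ℕ → Fˣ, PS θ 1 (∑ i ∈ Finset.range (2 * k), θ (w i)) := by
      intro k
      induction k with
      | zero =>
        intro w
        simpa using PS.zero 1
      | succ k ih =>
        intro w
        rw [show 2 * (k + 1) = 2 * k + 1 + 1 by ring, Finset.sum_range_succ,
          Finset.sum_range_succ, add_assoc]
        refine (ih w).add ⟨1, fun _ => w (2 * k), fun _ _ => (w (2 * k))⁻¹ * w (2 * k + 1), ?_⟩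
        have h1 : θ (w (2 * k + 1)) =
            θ (w (2 * k)) * θ ((w (2 * k))⁻¹ * w (2 * k + 1)) := by
          rw [← map_mul, mul_inv_cancel_left]
        simp only [Finset.univ_unique, Fin.default_eq_zero, Finset.sum_const,
          Finset.card_singleton, one_smul, pfc, Finset.prod_const, pow_one]
        rw [mul_add, mul_one, ← h1]
    have h2 := key k (fun i => if h : i < 2 * k then w ⟨i, h⟩ else 1)
    unfold sm
    convert h2 using 1
    rw [Finset.sum_range]
    refine Finset.sum_congr rfl fun i _ => ?_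
    simp
  | zero => exact PS.zero 1
  | add x y _ _ hx hy => exact hx.add hy
  | smul a x _ hx => exact PS.mul hθ hx a

theorem PS.mul_one' {n : ℕ} {x y : R} (hx : PS θ n x) (hy : PS θ 1 y) : PS θ (n + 1) (x * y) := by
  obtain ⟨r, c, a, rfl⟩ := hx
  obtain ⟨s, d, b, rfl⟩ := hy
  rw [Finset.sum_mul_sum]
  refine PS.sum _ _ fun i => PS.sum _ _ fun j => ?_
  refine ⟨1, fun _ => c i * d j, fun _ => Fin.snoc (a i) (b j 0), ?_⟩
  simp only [Finset.univ_unique, Fin.default_eq_zero, Finset.sum_const,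
    Finset.card_singleton, one_smul, pfc, Fin.prod_univ_castSucc, Fin.snoc_castSucc, Fin.snoc_last,
    Finset.prod_singleton, map_mul]
  ring

theorem ps_of_mem_pow (hθ : ∀ y : R, ∃ (m : ℕ) (w : Fin m → Fˣ), y = sm θ w) (n : ℕ) (x : R)
    (hx : x ∈ (Ideal.span {x | ∃ (k : ℕ) (w : Fin (2 * k) → Fˣ), x = sm θ w}) ^ n) :
    PS θ n x := by
  induction n generalizing x with
  | zero => exact ps_zero hθ x
  | succ n ih =>
    rw [pow_succ] at hx
    refine Submodule.mul_induction_on hx ?_ ?_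
    · intro a ha b hb
      exact (ih a ha).mul_one' (ps_one_of_mem hθ hb)
    · intro a b ha hb
      exact ha.add hb

end abs

/-- `u ↦ ⟨u⟩` -/
noncomputable def oneHom (F : Type u) [Field F] : Fˣ →* WittRing F :=
  ((Ideal.Quotient.mk (hypIdeal F)) : MonoidAlgebra ℤ Fˣ →* WittRing F).comp
    (MonoidAlgebra.of ℤ Fˣ)

theorem cls_eq_sm (w : ι → Fˣ) : cls w = sm (oneHom F) w := by
  unfold cls brk sm
  exact map_sum (Ideal.Quotient.mk (hypIdeal F)) _ _

end WittRingAux

/-- `I ^ n` is additively generated by scaled `n`-fold Pfister forms. -/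
theorem mem_fundI_pow (n : ℕ) (x : WittRing F) (hx : x ∈ fundI F ^ n) :
    ∃ (r : ℕ) (c : Fin r → Fˣ) (a : Fin r → Fin n → Fˣ),
      x = cls (fun p : Fin r × Finset (Fin n) => c p.1 * ∏ i ∈ p.2, a p.1 i) := by
  have hθ : ∀ y : WittRing F, ∃ (m : ℕ) (w : Fin m → Fˣ), y = sm (oneHom F) w := by
    intro y
    obtain ⟨m, w, rfl⟩ := exists_cls y
    exact ⟨m, w, cls_eq_sm w⟩
  have hI : fundI F = Ideal.span {x | ∃ (k : ℕ) (w : Fin (2 * k) → Fˣ), x = sm (oneHom F) w} := by
    unfold fundI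
    simp only [cls_eq_sm]
  rw [hI] at hx
  obtain ⟨r, c, a, h⟩ := ps_of_mem_pow hθ n x hx
  refine ⟨r, c, a, ?_⟩
  rw [cls_eq_sm, sm_pfister]
  exact h

end WInv
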